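import Mathlib

/-!
# Affine permutations of finite groups: quotients and minimal invariant subgroups
-/

set_option autoImplicit false

namespace Pool.Agent.R683.Affine

open scoped commutatorElement

/-- `A` is an affine permutation with linear part `α` -/
def HasLin {G : Type*} [Group G] (A : Equiv.Perm G) (α : MulAut G) : Prop :=
  ∀ x y, A (x * y) = A x * α y

section basic

variable {G : Type*} [Group G] {A B : Equiv.Perm G} {α β : MulAut G}

lemma HasLin.mul (hA : HasLin A α) (hB : HasLin B β) : HasLin (A * B) (α * β) := by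
  intro x y
  rw [Equiv.Perm.mul_apply, hB, hA]; rfl

lemma HasLin.one : HasLin (1 : Equiv.Perm G) (1 : MulAut G) := fun _ _ => rfl

lemma HasLin.pow (hA : HasLin A α) (k : ℕ) : HasLin (A ^ k) (α ^ k) := by
  induction k with
  | zero => exact HasLin.one
  | succ k ih => rw [pow_succ, pow_succ]; exact ih.mul hA

lemma HasLin.unique (hA : HasLin A α) (hA' : HasLin A β) : α = β := by
  apply MulEquiv.ext
  intro y
  have h1 := hA 1 y
  rw [hA' 1 y] at h1
  exact (mul_left_cancel h1).symm

lemma HasLin.eq_one (hA : HasLin A α) (h : A = 1) : α = 1 := by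
  subst h; exact hA.unique HasLin.one

lemma HasLin.of_formula {t : G} (h : ∀ x, A x = t * α x) : HasLin A α := by
  intro x y
  rw [h, h, map_mul, mul_assoc]

/-- `M` is invariant under `α` -/
def Inv (α : MulAut G) (M : Subgroup G) : Prop := ∀ x, α x ∈ M ↔ x ∈ M

lemma inv_of_characteristic (α : MulAut G) (M : Subgroup G) (h : M.Characteristic) : Inv α M := by
  intro x
  have := h.fixed α
  conv_rhs => rw [← this]
  rfl

lemma Inv.pow {M : Subgroup G} (h : Inv α M) (k : ℕ) : Inv (α ^ k) M := by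
  induction k with
  | zero => intro x; exact Iff.rfl
  | succ k ih =>
    intro x
    rw [pow_succ', MulAut.mul_apply, h, ih]

lemma Inv.map_eq {M : Subgroup G} (h : Inv α M) : M.map (α : G →* G) = M := by
  ext x
  constructor
  · rintro ⟨y, hy, rfl⟩
    exact (h y).mpr hy
  · intro hx
    refine ⟨α.symm x, ?_, α.apply_symm_apply x⟩
    rw [SetLike.mem_coe, ← h]
    rwa [show α (α.symm x) = x from α.apply_symm_apply x]

/-- the induced automorphism of a quotient -/
noncomputable def qaut (α : MulAut G) (M : Subgroup G) [M.Normal] (h : Inv α M) : MulAut (G ⧸ M) :=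
  QuotientGroup.congr M M α h.map_eq

lemma qaut_mk (M : Subgroup G) [M.Normal] (h : Inv α M) (x : G) :
    qaut α M h (x : G ⧸ M) = (α x : G) := rfl

/-- the induced affine permutation of a quotient -/
noncomputable def qperm (A : Equiv.Perm G) (α : MulAut G) (M : Subgroup G) [M.Normal]
    (h : Inv α M) : Equiv.Perm (G ⧸ M) :=
  (qaut α M h).toEquiv.trans (Equiv.mulLeft ((A 1 : G) : G ⧸ M))

lemma qperm_hasLin (A : Equiv.Perm G) (M : Subgroup G) [M.Normal] (h : Inv α M) :
    HasLin (qperm A α M h) (qaut α M h) := by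
  apply HasLin.of_formula (t := ((A 1 : G) : G ⧸ M))
  intro x; rfl

lemma qperm_mk (hA : HasLin A α) (M : Subgroup G) [M.Normal] (h : Inv α M) (x : G) :
    qperm A α M h (x : G ⧸ M) = (A x : G) := by
  have h1 := hA 1 x
  rw [one_mul] at h1
  rw [h1]; rfl

lemma qperm_pow_mk (hA : HasLin A α) (M : Subgroup G) [M.Normal] (h : Inv α M) (k : ℕ) (x : G) :
    (qperm A α M h ^ k) (x : G ⧸ M) = ((A ^ k) x : G) := by
  induction k with
  | zero => rfl
  | succ k ih => rw [pow_succ', pow_succ', Equiv.Perm.mul_apply, ih, qperm_mk hA]; rfl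

lemma qperm_pow_eq_one (hA : HasLin A α) (M : Subgroup G) [M.Normal] (h : Inv α M) (k : ℕ) :
    qperm A α M h ^ k = 1 ↔ ∀ x : G, x⁻¹ * (A ^ k) x ∈ M := by
  constructor
  · intro h1 x
    rw [← QuotientGroup.eq_one_iff, QuotientGroup.mk_mul, QuotientGroup.mk_inv,
      ← qperm_pow_mk hA M h, h1, Equiv.Perm.one_apply, inv_mul_cancel]
  · intro h1
    apply Equiv.ext
    intro x
    obtain ⟨x, rfl⟩ := QuotientGroup.mk_surjective x
    rw [qperm_pow_mk hA, Equiv.Perm.one_apply]
    exact (QuotientGroup.eq.mpr (h1 x)).symm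

/-- the order of an affine permutation modulo an invariant normal subgroup -/
noncomputable def ordM (A : Equiv.Perm G) (α : MulAut G) (M : Subgroup G) [M.Normal]
    (h : Inv α M) : ℕ := orderOf (qperm A α M h)

lemma ordM_dvd_iff (hA : HasLin A α) (M : Subgroup G) [M.Normal] (h : Inv α M) (k : ℕ) :
    ordM A α M h ∣ k ↔ ∀ x : G, x⁻¹ * (A ^ k) x ∈ M := by
  rw [ordM, orderOf_dvd_iff_pow_eq_one, qperm_pow_eq_one hA]

lemma ordM_spec (hA : HasLin A α) (M : Subgroup G) [M.Normal] (h : Inv α M) (x : G) :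
    x⁻¹ * (A ^ ordM A α M h) x ∈ M := (ordM_dvd_iff hA M h _).mp dvd_rfl x

lemma ordM_dvd (hA : HasLin A α) (M : Subgroup G) [M.Normal] (h : Inv α M) :
    ordM A α M h ∣ orderOf A := by
  rw [ordM_dvd_iff hA]
  intro x
  rw [pow_orderOf_eq_one, Equiv.Perm.one_apply, inv_mul_cancel]
  exact one_mem _

lemma ordM_mono (hA : HasLin A α) {M N : Subgroup G} [M.Normal] [N.Normal] (h : Inv α M)
    (h' : Inv α N) (hNM : N ≤ M) : ordM A α M h ∣ ordM A α N h' := by
  rw [ordM_dvd_iff hA]
  intro x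
  exact hNM (ordM_spec hA N h' x)

lemma ordM_pos [Finite G] (A : Equiv.Perm G) (M : Subgroup G) [M.Normal] (h : Inv α M) :
    0 < ordM A α M h := orderOf_pos _

lemma ordM_bot (hA : HasLin A α) (h : Inv α ⊥) : ordM A α ⊥ h = orderOf A := by
  apply Nat.dvd_antisymm
  · exact ordM_dvd hA _ h
  · apply orderOf_dvd_of_pow_eq_one
    apply Equiv.ext
    intro x
    have := ordM_spec hA ⊥ h x
    rw [Subgroup.mem_bot] at this
    exact (inv_mul_eq_one.mp this).symm

lemma ordM_top (hA : HasLin A α) (h : Inv α ⊤) : ordM A α ⊤ h = 1 := by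
  apply Nat.dvd_one.mp
  rw [ordM_dvd_iff hA]
  intro x; trivial

/-- image of an invariant subgroup in a quotient -/
lemma inv_map {M N : Subgroup G} [N.Normal] (h : Inv α M) (h' : Inv α N) (hNM : N ≤ M) :
    Inv (qaut α N h') (M.map (QuotientGroup.mk' N)) := by
  intro x
  obtain ⟨x, rfl⟩ := QuotientGroup.mk_surjective x
  have key : ∀ y : G, ((y : G ⧸ N) ∈ M.map (QuotientGroup.mk' N)) ↔ y ∈ M := by
    intro y
    constructor
    · rintro ⟨z, hz, hzy⟩
      have h1 : z⁻¹ * y ∈ N := QuotientGroup.eq.mp hzy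
      have := mul_mem hz (hNM h1)
      rwa [mul_inv_cancel_left] at this
    · intro hy
      exact ⟨y, hy, rfl⟩
  rw [qaut_mk, key, key, h]

lemma mem_map_mk {M N : Subgroup G} [N.Normal] (hNM : N ≤ M) (y : G) :
    ((y : G ⧸ N) ∈ M.map (QuotientGroup.mk' N)) ↔ y ∈ M := by
  constructor
  · rintro ⟨z, hz, hzy⟩
    have h1 : z⁻¹ * y ∈ N := QuotientGroup.eq.mp hzy
    have := mul_mem hz (hNM h1)
    rwa [mul_inv_cancel_left] at this
  · intro hy
    exact ⟨y, hy, rfl⟩

instance normal_map_mk {M N : Subgroup G} [N.Normal] [hM : M.Normal] :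
    (M.map (QuotientGroup.mk' N)).Normal := hM.map _ (QuotientGroup.mk'_surjective N)

/-- orders modulo subgroups of quotients -/
lemma ordM_quot (hA : HasLin A α) {M N : Subgroup G} [M.Normal] [N.Normal] (h : Inv α M)
    (h' : Inv α N) (hNM : N ≤ M) :
    ordM (qperm A α N h') (qaut α N h') (M.map (QuotientGroup.mk' N)) (inv_map h h' hNM) =
      ordM A α M h := by
  have key : ∀ k : ℕ, (∀ x : G ⧸ N, x⁻¹ * (qperm A α N h' ^ k) x ∈ M.map (QuotientGroup.mk' N)) ↔
      ∀ x : G, x⁻¹ * (A ^ k) x ∈ M := by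
    intro k
    constructor
    · intro h1 x
      have := h1 (x : G ⧸ N)
      rw [qperm_pow_mk hA, ← QuotientGroup.mk_inv, ← QuotientGroup.mk_mul, mem_map_mk hNM] at this
      exact this
    · intro h1 x
      obtain ⟨x, rfl⟩ := QuotientGroup.mk_surjective x
      rw [qperm_pow_mk hA, ← QuotientGroup.mk_inv, ← QuotientGroup.mk_mul, mem_map_mk hNM]
      exact h1 x
  apply Nat.dvd_antisymm
  · rw [ordM_dvd_iff (qperm_hasLin A N h'), key, ← ordM_dvd_iff hA M h]
  · rw [ordM_dvd_iff hA, ← key, ← ordM_dvd_iff (qperm_hasLin A N h') _ (inv_map h h' hNM)]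

lemma card_map_mk {M N : Subgroup G} [N.Normal] (hNM : N ≤ M) :
    Nat.card (M.map (QuotientGroup.mk' N)) * Nat.card N = Nat.card M := by
  rw [← Subgroup.relIndex_ker, QuotientGroup.ker_mk', Subgroup.relIndex,
    ← Nat.card_congr (Subgroup.subgroupOfEquivOfLe hNM).toEquiv]
  exact Subgroup.index_mul_card (N.subgroupOf M)

lemma card_quot (N : Subgroup G) [N.Normal] : Nat.card (G ⧸ N) * Nat.card N = Nat.card G :=
  (Subgroup.card_eq_card_quotient_mul_card_subgroup N).symm

/-- preimages -/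
lemma inv_comap {N : Subgroup G} [N.Normal] (h' : Inv α N) {M : Subgroup (G ⧸ N)}
    (h : Inv (qaut α N h') M) : Inv α (M.comap (QuotientGroup.mk' N)) := by
  intro x
  rw [Subgroup.mem_comap, Subgroup.mem_comap]
  exact h (x : G ⧸ N)

end basic

section minimal

variable {G : Type*} [Group G] {A : Equiv.Perm G} {α : MulAut G}

/-- minimal nontrivial invariant normal subgroups -/
structure IsMin (α : MulAut G) (N : Subgroup G) : Prop where
  ne_bot : N ≠ ⊥
  normal : N.Normal
  inv : Inv α N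
  min : ∀ K : Subgroup G, K.Normal → Inv α K → K ≤ N → K ≠ ⊥ → K = N

lemma exists_isMin [Finite G] {M : Subgroup G} (hne : M ≠ ⊥) (hn : M.Normal) (hi : Inv α M) :
    ∃ N ≤ M, IsMin α N := by
  obtain ⟨N, hNM, hN⟩ := exists_minimal_le_of_wellFoundedLT
    (fun K : Subgroup G => K ≠ ⊥ ∧ K.Normal ∧ Inv α K) M ⟨hne, hn, hi⟩
  refine ⟨N, hNM, hN.prop.1, hN.prop.2.1, hN.prop.2.2, fun K h1 h2 h3 h4 => ?_⟩
  exact le_antisymm h3 (hN.le_of_le ⟨h4, h1, h2⟩ h3)

lemma IsMin.comm [Group.IsSolvable G] {N : Subgroup G} (hN : IsMin α N) :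
    ∀ x ∈ N, ∀ y ∈ N, x * y = y * x := by
  have h1 : ⁅N, N⁆ < N := Group.IsSolvable.commutator_lt_of_ne_bot hN.ne_bot
  have := hN.normal
  have h2 : ⁅N, N⁆ = ⊥ := by
    by_contra hne
    apply h1.ne
    apply hN.min _ inferInstance ?_ h1.le hne
    -- invariance
    have h3 : (⁅N, N⁆).map (α : G →* G) = ⁅N, N⁆ := by
      rw [Subgroup.map_commutator, hN.inv.map_eq]
    intro x
    constructor
    · intro hx
      rw [← h3] at hx
      obtain ⟨y, hy, hyx⟩ := hx
      have : y = x := α.injective hyx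
      rwa [← this]
    · intro hx
      rw [← h3]
      exact ⟨x, hx, rfl⟩
  intro x hx y hy
  have h3 : ⁅x, y⁆ ∈ ⁅N, N⁆ := Subgroup.commutator_mem_commutator hx hy
  rw [h2, Subgroup.mem_bot, commutatorElement_eq_one_iff_mul_comm] at h3
  exact h3

lemma IsMin.exponent [Finite G] [Group.IsSolvable G] {N : Subgroup G} (hN : IsMin α N) :
    ∃ p : ℕ, p.Prime ∧ p ∣ Nat.card N ∧ ∀ x ∈ N, x ^ p = 1 := by
  have hne : Nat.card N ≠ 1 := by
    intro h
    exact hN.ne_bot (Subgroup.card_eq_one.mp h)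
  obtain ⟨p, hp, hpN⟩ := Nat.exists_prime_and_dvd hne
  have : Fact p.Prime := ⟨hp⟩
  refine ⟨p, hp, hpN, ?_⟩
  obtain ⟨z, hz⟩ := exists_prime_orderOf_dvd_card' p hpN
  let K : Subgroup G :=
    { carrier := {x | x ∈ N ∧ x ^ p = 1}
      one_mem' := ⟨one_mem _, one_pow _⟩
      mul_mem' := by
        rintro a b ⟨h1, h2⟩ ⟨h3, h4⟩
        refine ⟨mul_mem h1 h3, ?_⟩
        rw [(show Commute a b from hN.comm a h1 b h3).mul_pow, h2, h4, one_mul]
      inv_mem' := by
        rintro a ⟨h1, h2⟩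
        exact ⟨inv_mem h1, by rw [inv_pow, h2, inv_one]⟩ }
  have hK : K = N := by
    apply hN.min K
    · refine ⟨?_⟩
      rintro x ⟨h1, h2⟩ g
      refine ⟨hN.normal.conj_mem x h1 g, ?_⟩
      rw [conj_pow, h2]; group
    · intro x
      constructor
      · rintro ⟨h1, h2⟩
        refine ⟨(hN.inv x).mp h1, ?_⟩
        rw [← map_pow] at h2
        exact (map_eq_one_iff α α.injective).mp h2
      · rintro ⟨h1, h2⟩
        refine ⟨(hN.inv x).mpr h1, ?_⟩
        rw [← map_pow, h2, map_one]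
    · rintro x ⟨h1, _⟩; exact h1
    · intro hbot
      have : (z : G) ∈ K := ⟨z.2, by
        rw [← SubgroupClass.coe_pow, ← hz, pow_orderOf_eq_one]; rfl⟩
      rw [hbot, Subgroup.mem_bot] at this
      have h1 : z = 1 := Subtype.ext this
      rw [h1, orderOf_one] at hz
      exact hp.ne_one hz.symm
  intro x hx
  rw [← hK] at hx
  exact hx.2

/-- `A ^ k` is trivial modulo `N`, then `α ^ k` is trivial modulo `N`. -/
lemma lin_triv (hA : HasLin A α) {N : Subgroup G} (hn : N.Normal) {k : ℕ}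
    (h : ∀ x : G, x⁻¹ * (A ^ k) x ∈ N) (g : G) : g⁻¹ * (α ^ k) g ∈ N := by
  have h1 := h g
  have h2 := h 1
  have h3 := (hA.pow k) 1 g
  rw [one_mul] at h3
  rw [inv_one, one_mul] at h2
  rw [h3] at h1
  have h4 : g⁻¹ * (α ^ k) g = (g⁻¹ * ((A ^ k) 1)⁻¹ * g) * (g⁻¹ * ((A ^ k) 1 * (α ^ k) g)) := by
    group
  rw [h4]
  refine mul_mem ?_ h1
  have := hn.conj_mem _ (inv_mem h2) g⁻¹
  rwa [inv_inv] at this

/-- the dichotomy -/
lemma IsMin.dichotomy [Group.IsSolvable G] (hA : HasLin A α) {N : Subgroup G} (hN : IsMin α N)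
    {k : ℕ} (h : ∀ x : G, x⁻¹ * (A ^ k) x ∈ N) :
    (∀ n ∈ N, (α ^ k) n = n) ∨ (∀ n ∈ N, (α ^ k) n = n → n = 1) := by
  let K : Subgroup G :=
    { carrier := {x | x ∈ N ∧ (α ^ k) x = x}
      one_mem' := ⟨one_mem _, map_one _⟩
      mul_mem' := by
        rintro a b ⟨h1, h2⟩ ⟨h3, h4⟩
        exact ⟨mul_mem h1 h3, by rw [map_mul, h2, h4]⟩
      inv_mem' := by
        rintro a ⟨h1, h2⟩
        exact ⟨inv_mem h1, by rw [map_inv, h2]⟩ }
  have hKN : K ≤ N := fun x hx => hx.1
  by_cases hbot : K = ⊥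
  · right
    intro n hn h1
    have : n ∈ K := ⟨hn, h1⟩
    rwa [hbot, Subgroup.mem_bot] at this
  · left
    have hK : K = N := by
      apply hN.min K _ _ hKN hbot
      · refine ⟨?_⟩
        rintro x ⟨h1, h2⟩ g
        refine ⟨hN.normal.conj_mem x h1 g, ?_⟩
        rw [map_mul, map_mul, map_inv, h2]
        have h3 := lin_triv hA hN.normal h g
        set m := g⁻¹ * (α ^ k) g with hm
        have h4 : (α ^ k) g = g * m := by rw [hm]; group
        have h5 := hN.comm m h3 x h1
        rw [h4]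
        calc g * m * x * (g * m)⁻¹ = g * (m * x) * m⁻¹ * g⁻¹ := by group
          _ = g * x * g⁻¹ := by rw [h5]; group
      · intro x
        have hcomm : (α ^ k) (α x) = α ((α ^ k) x) := by
          rw [← MulAut.mul_apply, ← MulAut.mul_apply, ← pow_succ, ← pow_succ']
        constructor
        · rintro ⟨h1, h2⟩
          refine ⟨(hN.inv x).mp h1, ?_⟩
          rw [hcomm] at h2
          exact α.injective h2
        · rintro ⟨h1, h2⟩
          exact ⟨(hN.inv x).mpr h1, by rw [hcomm, h2]⟩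
    intro n hn
    rw [← hK] at hn
    exact hn.2

/-- first case: the power acts trivially on `N` -/
lemma pow_of_triv (hA : HasLin A α) {N : Subgroup G} {k : ℕ}
    (h : ∀ x : G, x⁻¹ * (A ^ k) x ∈ N) (ht : ∀ n ∈ N, (α ^ k) n = n) {p : ℕ}
    (hp : ∀ x ∈ N, x ^ p = 1) : (A ^ k) ^ p = 1 := by
  apply Equiv.ext
  intro x
  have key : ∀ j : ℕ, ((A ^ k) ^ j) x = x * (x⁻¹ * (A ^ k) x) ^ j := by
    intro j
    induction j with
    | zero => simp
    | succ j ih =>
      have h1 : (A ^ k) x = x * (x⁻¹ * (A ^ k) x) := by group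
      rw [pow_succ', Equiv.Perm.mul_apply, ih, (hA.pow k), map_pow, ht _ (h x), pow_succ',
        ← mul_assoc, ← h1]
  rw [key, hp _ (h x), mul_one]; rfl

/-- second case: fixed points in all cosets -/
lemma exists_fix_coset [Finite G] (hA : HasLin A α) {N : Subgroup G} (hi : Inv α N) {k : ℕ}
    (h : ∀ x : G, x⁻¹ * (A ^ k) x ∈ N) (hf : ∀ n ∈ N, (α ^ k) n = n → n = 1) (x : G) :
    ∃ n ∈ N, (A ^ k) (x * n) = x * n := by
  -- the map `n ↦ n * (α^k n)⁻¹` is injective on `N`
  let f : N → N := fun n => ⟨n * ((α ^ k) n)⁻¹, mul_mem n.2 (inv_mem ((hi.pow k _).mpr n.2))⟩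
  have hf' : Function.Injective f := by
    intro a b hab
    have h1 : (a : G) * ((α ^ k) a)⁻¹ = b * ((α ^ k) b)⁻¹ := congrArg Subtype.val hab
    have hka : (α ^ k) (a : G) ∈ N := (hi.pow k _).mpr a.2
    have hkb : (α ^ k) (b : G) ∈ N := (hi.pow k _).mpr b.2
    have h2 : (b : G)⁻¹ * a = 1 := by
      apply hf _ (mul_mem (inv_mem b.2) a.2)
      rw [map_mul, map_inv]
      have h3 : (b : G)⁻¹ * a = ((α ^ k) (b : G))⁻¹ * (α ^ k) a := by
        have e1 : (a : G) = b * ((α ^ k) (b : G))⁻¹ * (α ^ k) a := by rw [← h1]; group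
        calc (b : G)⁻¹ * a = (b : G)⁻¹ * (b * ((α ^ k) (b : G))⁻¹ * (α ^ k) a) := by rw [← e1]
          _ = _ := by group
      exact h3.symm
    exact Subtype.ext (inv_mul_eq_one.mp h2).symm
  obtain ⟨n, hn⟩ := (Finite.surjective_of_injective hf') ⟨x⁻¹ * (A ^ k) x, h x⟩
  refine ⟨n, n.2, ?_⟩
  have h1 : (n : G) * ((α ^ k) n)⁻¹ = x⁻¹ * (A ^ k) x := congrArg Subtype.val hn
  rw [(hA.pow k)]
  have h2 : (A ^ k) x = x * (n * ((α ^ k) n)⁻¹) := by rw [h1]; group
  rw [h2]; group

/-- in the second case, a power of `A` that is trivial on the linear level is trivial -/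
lemma pow_eq_one_of_lin [Finite G] (hA : HasLin A α) {N : Subgroup G} (hi : Inv α N) {k : ℕ}
    (h : ∀ x : G, x⁻¹ * (A ^ k) x ∈ N) (hf : ∀ n ∈ N, (α ^ k) n = n → n = 1) {j : ℕ}
    (hj : ∀ n ∈ N, (α ^ (k * j)) n = n) : (A ^ k) ^ j = 1 := by
  apply Equiv.ext
  intro x
  obtain ⟨n, hn, hx⟩ := exists_fix_coset hA hi h hf x
  have h1 : ((A ^ k) ^ j) (x * n) = x * n := by
    have : ∀ i : ℕ, ((A ^ k) ^ i) (x * n) = x * n := by
      intro i
      induction i with
      | zero => rfl
      | succ i ih => rw [pow_succ', Equiv.Perm.mul_apply, ih, hx]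
    exact this j
  have h2 : x = (x * n) * n⁻¹ := by group
  rw [Equiv.Perm.one_apply]
  conv_lhs => rw [h2]
  rw [((hA.pow k).pow j), h1, ← pow_mul, hj _ (inv_mem hn)]
  group

/-- the order of `A` modulo `N`, for minimal `N` -/
lemma IsMin.order_le [Finite G] [Group.IsSolvable G] (hA : HasLin A α) {N : Subgroup G}
    (hN : IsMin α N) [N.Normal] :
    ((∀ n ∈ N, (α ^ ordM A α N hN.inv) n = n) ∧
      ∃ p : ℕ, p.Prime ∧ p ∣ Nat.card N ∧ orderOf (A ^ ordM A α N hN.inv) ∣ p) ∨
    ((∀ n ∈ N, (α ^ ordM A α N hN.inv) n = n → n = 1) ∧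
      (∀ n ∈ N, n ≠ 1 → ∀ i < orderOf (A ^ ordM A α N hN.inv),
        ∀ j < orderOf (A ^ ordM A α N hN.inv),
        (α ^ (ordM A α N hN.inv * i)) n = (α ^ (ordM A α N hN.inv * j)) n → i = j)) := by
  set s := ordM A α N hN.inv with hs
  have hspec := ordM_spec hA N hN.inv
  rw [← hs] at hspec
  rcases hN.dichotomy hA hspec with h | h
  · left
    refine ⟨h, ?_⟩
    obtain ⟨p, hp, hpN, hx⟩ := hN.exponent
    exact ⟨p, hp, hpN, orderOf_dvd_of_pow_eq_one (pow_of_triv hA hspec h hx)⟩
  · right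
    refine ⟨h, ?_⟩
    -- no nontrivial fixed points of the powers
    have key : ∀ n ∈ N, n ≠ 1 → ∀ i, 0 < i → i < orderOf (A ^ s) → (α ^ (s * i)) n ≠ n := by
      intro n hn hn1 i hi0 hi hfix
      have hspec' : ∀ x : G, x⁻¹ * (A ^ (s * i)) x ∈ N := by
        rw [← ordM_dvd_iff hA N hN.inv, ← hs]
        exact Dvd.intro _ rfl
      rcases hN.dichotomy hA hspec' with h1 | h1
      · have := pow_eq_one_of_lin hA hN.inv hspec h h1
        have h2 := orderOf_dvd_of_pow_eq_one this
        exact absurd (Nat.le_of_dvd hi0 h2) (by omega)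
      · exact hn1 (h1 n hn hfix)
    have key2 : ∀ n ∈ N, n ≠ 1 → ∀ i j, i < j → j < orderOf (A ^ s) →
        (α ^ (s * i)) n ≠ (α ^ (s * j)) n := by
      intro n hn hn1 i j hij hj heq
      apply key n hn hn1 (j - i) (by omega) (by omega)
      have h1 : s * j = s * i + s * (j - i) := by rw [← mul_add]; congr 1; omega
      rw [h1, pow_add, MulAut.mul_apply] at heq
      exact ((α ^ (s * i)).injective heq).symm
    intro n hn hn1 i hi j hj hij
    rcases lt_trichotomy i j with h1 | h1 | h1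
    · exact absurd hij (key2 n hn hn1 i j h1 hj)
    · exact h1
    · exact absurd hij.symm (key2 n hn hn1 j i h1 hi)

/-- the bound for minimal `N` -/
lemma IsMin.bound [Finite G] [Group.IsSolvable G] (hA : HasLin A α) {N : Subgroup G}
    (hN : IsMin α N) [N.Normal] : orderOf (A ^ ordM A α N hN.inv) ≤ Nat.card N := by
  rcases hN.order_le hA with ⟨_, p, hp, hpN, hdvd⟩ | ⟨_, h⟩
  · exact (Nat.le_of_dvd hp.pos hdvd).trans (Nat.le_of_dvd Nat.card_pos hpN)
  · obtain ⟨n, hn, hn1⟩ := (Subgroup.ne_bot_iff_exists_ne_one.mp hN.ne_bot) |>.imp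
      (fun a ha => ha) |> fun ⟨a, ha⟩ => (⟨a.1, a.2, fun h => ha (Subtype.ext h)⟩ :
        ∃ n : G, n ∈ N ∧ n ≠ 1)
    have hinj : Function.Injective (fun i : Fin (orderOf (A ^ ordM A α N hN.inv)) =>
        (⟨(α ^ (ordM A α N hN.inv * i)) n, (hN.inv.pow _ _).mpr hn⟩ : N)) := by
      intro i j hij
      exact Fin.ext (h n hn hn1 i i.2 j j.2 (congrArg Subtype.val hij))
    have := Nat.card_le_card_of_injective _ hinj
    rwa [Nat.card_fin] at this

lemma orderOf_eq (hA : HasLin A α) [Finite G] {N : Subgroup G} [N.Normal] (h : Inv α N) :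
    orderOf A = ordM A α N h * orderOf (A ^ ordM A α N h) := by
  rw [orderOf_pow_of_dvd (ordM_pos A N h).ne' (ordM_dvd hA N h)]
  exact (Nat.mul_div_cancel' (ordM_dvd hA N h)).symm

end minimal

section bound

universe u

/-- The order of an affine permutation is at most the order modulo `M` times the order of `M`. -/
theorem order_le_mul (n : ℕ) : ∀ (G : Type u) [Group G] [Finite G] [Group.IsSolvable G],
    Nat.card G = n → ∀ (A : Equiv.Perm G) (α : MulAut G) (_ : HasLin A α) (M : Subgroup G)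
    [M.Normal] (h : Inv α M), orderOf A ≤ ordM A α M h * Nat.card M := by
  induction n using Nat.strong_induction_on with
  | _ n ih =>
    intro G _ _ _ hG A α hA M _ h
    by_cases hM : M = ⊥
    · subst hM
      rw [ordM_bot hA, Subgroup.card_bot, mul_one]
    obtain ⟨N, hNM, hN⟩ := exists_isMin hM inferInstance h
    have hNn := hN.normal
    have hcard : Nat.card (G ⧸ N) * Nat.card N = n := by rw [card_quot, hG]
    have hN1 : 1 < Nat.card N := by
      rw [Subgroup.one_lt_card_iff_ne_bot]; exact hN.ne_bot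
    have hlt : Nat.card (G ⧸ N) < n := by
      have h1 : 0 < Nat.card (G ⧸ N) := Nat.card_pos
      nlinarith
    have h1 := ih _ hlt (G ⧸ N) rfl (qperm A α N hN.inv) (qaut α N hN.inv)
      (qperm_hasLin A N hN.inv) (M.map (QuotientGroup.mk' N)) (inv_map h hN.inv hNM)
    rw [ordM_quot hA h hN.inv hNM] at h1
    have h2 := hN.bound hA
    rw [orderOf_eq hA hN.inv, ← card_map_mk hNM, ← mul_assoc]
    exact Nat.mul_le_mul h1 h2

/-- large affine permutations remain large in quotients -/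
lemma large_quot {G : Type u} [Group G] [Finite G] [Group.IsSolvable G] {A : Equiv.Perm G}
    {α : MulAut G} (hA : HasLin A α) (M : Subgroup G) [M.Normal] (h : Inv α M)
    (hl : Nat.card G < 2 * orderOf A) : Nat.card (G ⧸ M) < 2 * ordM A α M h := by
  have h1 := order_le_mul _ G rfl A α hA M h
  have h2 := card_quot M
  have h3 : 0 < Nat.card M := Nat.card_pos
  by_contra hcon
  push Not at hcon
  have h4 : 2 * ordM A α M h * Nat.card M ≤ Nat.card (G ⧸ M) * Nat.card M :=
    Nat.mul_le_mul_right _ hcon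
  rw [h2] at h4
  nlinarith

/-- the order is at most the order of the group -/
lemma order_le_card {G : Type u} [Group G] [Finite G] [Group.IsSolvable G] {A : Equiv.Perm G}
    {α : MulAut G} (hA : HasLin A α) : orderOf A ≤ Nat.card G := by
  have h : Inv α (⊤ : Subgroup G) := fun x => Iff.rfl
  have h1 := order_le_mul _ G rfl A α hA ⊤ h
  rwa [ordM_top hA, one_mul, Subgroup.card_top] at h1

lemma ordM_le_card {G : Type u} [Group G] [Finite G] [Group.IsSolvable G] {A : Equiv.Perm G}
    {α : MulAut G} (M : Subgroup G) [M.Normal] (h : Inv α M) :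
    ordM A α M h ≤ Nat.card (G ⧸ M) := order_le_card (qperm_hasLin A M h)

end bound

section typeS

variable {G : Type*} [Group G] {A : Equiv.Perm G} {α : MulAut G}

/-- conjugation by `G` commutes with the powers of `α` that are trivial modulo `N` -/
lemma conj_comm (hA : HasLin A α) {N : Subgroup G} (hn : N.Normal)
    (hc : ∀ x ∈ N, ∀ y ∈ N, x * y = y * x) (hi : Inv α N) {k : ℕ}
    (h : ∀ x : G, x⁻¹ * (A ^ k) x ∈ N) (g n : G) (hnN : n ∈ N) :
    (α ^ k) (g * n * g⁻¹) = g * (α ^ k) n * g⁻¹ := by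
  rw [map_mul, map_mul, map_inv]
  have h3 := lin_triv hA hn h g
  set m := g⁻¹ * (α ^ k) g with hm
  have h4 : (α ^ k) g = g * m := by rw [hm]; group
  have h5 := hc m h3 _ ((hi.pow k n).mpr hnN)
  rw [h4]
  calc g * m * (α ^ k) n * (g * m)⁻¹ = g * (m * (α ^ k) n) * m⁻¹ * g⁻¹ := by group
    _ = g * (α ^ k) n * g⁻¹ := by rw [h5]; group

lemma aut_pow_comm (α : MulAut G) (a b : ℕ) (x : G) :
    (α ^ a) ((α ^ b) x) = (α ^ b) ((α ^ a) x) := by
  rw [← MulAut.mul_apply, ← MulAut.mul_apply, ← pow_add, ← pow_add, add_comm]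

/-- the second type of minimal subgroups is central -/
lemma IsMin.central [Finite G] [Group.IsSolvable G] (hA : HasLin A α) {N : Subgroup G}
    (hN : IsMin α N) [N.Normal] (hl : Nat.card G < 2 * orderOf A)
    (hS : ∀ n ∈ N, (α ^ ordM A α N hN.inv) n = n → n = 1) :
    ∀ n ∈ N, ∀ g : G, g * n = n * g := by
  set s := ordM A α N hN.inv with hs
  have hspec : ∀ x : G, x⁻¹ * (A ^ s) x ∈ N := ordM_spec hA N hN.inv
  set r := orderOf (A ^ s) with hr
  obtain ⟨n₀, hn₀, hn₀1⟩ : ∃ n : G, n ∈ N ∧ n ≠ 1 := by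
    obtain ⟨a, ha⟩ := Subgroup.ne_bot_iff_exists_ne_one.mp hN.ne_bot
    exact ⟨a.1, a.2, fun h => ha (Subtype.ext h)⟩
  have hinj : ∀ n ∈ N, n ≠ 1 → ∀ i < r, ∀ j < r, (α ^ (s * i)) n = (α ^ (s * j)) n → i = j := by
    rcases hN.order_le hA with ⟨h1, _⟩ | ⟨_, h2⟩
    · exact absurd (hS n₀ hn₀ (h1 n₀ hn₀)) hn₀1
    · exact h2
  have hr0 : 0 < r := orderOf_pos _
  have hAr : (A ^ s) ^ r = 1 := pow_orderOf_eq_one _
  have hαr : α ^ (s * r) = 1 := by
    have := (hA.pow (s * r)).eq_one (by rw [pow_mul, hAr])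
    exact this
  have hNr : Nat.card N < 2 * r := by
    have h1 : orderOf A = s * r := orderOf_eq hA hN.inv
    have h2 : s ≤ Nat.card (G ⧸ N) := ordM_le_card N hN.inv
    have h3 := card_quot N
    by_contra hcon
    push Not at hcon
    have h4 : s * (2 * r) ≤ Nat.card (G ⧸ N) * Nat.card N := Nat.mul_le_mul h2 hcon
    rw [h3] at h4
    nlinarith
  -- transitivity
  have htrans : ∀ m ∈ N, ∀ n ∈ N, m ≠ 1 → n ≠ 1 → ∃ i : ℕ, m = (α ^ (s * i)) n := by
    intro m hm n hn hm1 hn1
    by_contra hcon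
    push Not at hcon
    have hinj2 : Function.Injective (Sum.elim
        (fun i : Fin r => (⟨(α ^ (s * i)) n, (hN.inv.pow _ _).mpr hn⟩ : N))
        (fun i : Fin r => (⟨(α ^ (s * i)) m, (hN.inv.pow _ _).mpr hm⟩ : N))) := by
      have hdisj : ∀ i j : Fin r, (α ^ (s * (i : ℕ))) n ≠ (α ^ (s * (j : ℕ))) m := by
        intro i j hij
        apply hcon (r - j + i)
        have h1 : (α ^ (s * (r - j))) ((α ^ (s * (j : ℕ))) m) = m := by
          rw [← MulAut.mul_apply, ← pow_add, ← mul_add, Nat.sub_add_cancel j.2.le, hαr]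
          rfl
        rw [mul_add, pow_add, MulAut.mul_apply, hij, h1]
      rintro (i | i) (j | j) hij
      · congr 1
        exact Fin.ext (hinj n hn hn1 i i.2 j j.2 (congrArg Subtype.val hij))
      · exact absurd (congrArg Subtype.val hij) (hdisj i j)
      · exact absurd (congrArg Subtype.val hij).symm (hdisj j i)
      · congr 1
        exact Fin.ext (hinj m hm hm1 i i.2 j j.2 (congrArg Subtype.val hij))
    have := Nat.card_le_card_of_injective _ hinj2
    rw [Nat.card_sum, Nat.card_fin] at this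
    omega
  -- `G` acts on `N` by powers of `α ^ s`
  have hspec' : ∀ j : ℕ, ∀ x : G, x⁻¹ * (A ^ (s * j)) x ∈ N := by
    intro j
    rw [← ordM_dvd_iff hA N hN.inv, ← hs]
    exact Dvd.intro _ rfl
  have hGact : ∀ g : G, ∃ i : ℕ, ∀ n ∈ N, g * n * g⁻¹ = (α ^ (s * i)) n := by
    intro g
    have h1 : g * n₀ * g⁻¹ ≠ 1 := by
      intro h
      apply hn₀1
      have : n₀ = g⁻¹ * (g * n₀ * g⁻¹) * g := by group
      rw [this, h]; group
    obtain ⟨i, hi⟩ := htrans _ (hN.normal.conj_mem n₀ hn₀ g) n₀ hn₀ h1 hn₀1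
    refine ⟨i, fun n hn => ?_⟩
    by_cases hn1 : n = 1
    · subst hn1; simp
    obtain ⟨j, hj⟩ := htrans n hn n₀ hn₀ hn1 hn₀1
    rw [hj, ← conj_comm hA hN.normal hN.comm hN.inv (hspec' j) g n₀ hn₀, hi, aut_pow_comm]
  -- `α` acts on `N` as a power of `α ^ s`
  obtain ⟨e, he⟩ : ∃ i : ℕ, ∀ n ∈ N, α n = (α ^ (s * i)) n := by
    have h1 : α n₀ ≠ 1 := by
      intro h
      exact hn₀1 ((map_eq_one_iff α α.injective).mp h)
    obtain ⟨i, hi⟩ := htrans _ ((hN.inv n₀).mpr hn₀) n₀ hn₀ h1 hn₀1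
    refine ⟨i, fun n hn => ?_⟩
    by_cases hn1 : n = 1
    · subst hn1; simp
    obtain ⟨j, hj⟩ := htrans n hn n₀ hn₀ hn1 hn₀1
    have h2 : α ((α ^ (s * j)) n₀) = (α ^ (s * j)) (α n₀) := by
      have := aut_pow_comm α 1 (s * j) n₀
      rwa [pow_one] at this
    rw [hj, h2, hi, aut_pow_comm]
  have hepow : ∀ k : ℕ, ∀ n ∈ N, (α ^ k) n = (α ^ (s * e * k)) n := by
    intro k
    induction k with
    | zero => intro n _; simp
    | succ k ih =>
      intro n hn
      rw [pow_succ', MulAut.mul_apply, he _ ((hN.inv.pow k n).mpr hn), ih n hn,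
        ← MulAut.mul_apply, ← pow_add]
      congr 2
      ring
  have hαrN : ∀ n ∈ N, (α ^ r) n = n := by
    intro n hn
    rw [hepow r n hn]
    have : s * e * r = s * r * e := by ring
    rw [this, pow_mul, hαr, one_pow]; rfl
  -- `s` and `r` are coprime
  have hcop : Nat.gcd s r = 1 := by
    set g := Nat.gcd s r with hg
    have hg0 : 0 < g := Nat.gcd_pos_of_pos_right _ hr0
    have hgs : g ∣ s := Nat.gcd_dvd_left _ _
    have hgr : g ∣ r := Nat.gcd_dvd_right _ _
    have h1 : (A ^ s) ^ (r / g) = 1 := by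
      apply pow_eq_one_of_lin hA hN.inv hspec hS
      intro n hn
      have h2 : s * (r / g) = r * (s / g) := by
        rw [← Nat.mul_div_assoc _ hgr, ← Nat.mul_div_assoc _ hgs, mul_comm]
      rw [h2]
      have h3 : ∀ i : ℕ, (α ^ (r * i)) n = n := by
        intro i
        induction i with
        | zero => simp
        | succ i ih => rw [mul_add, mul_one, pow_add, MulAut.mul_apply, hαrN n hn, ih]
      exact h3 _
    have h2 : r ∣ r / g := orderOf_dvd_of_pow_eq_one h1
    have h3 : 0 < r / g := Nat.div_pos (Nat.le_of_dvd hr0 hgr) hg0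
    have h4 := Nat.le_of_dvd h3 h2
    by_contra hne
    have h5 : 1 < g := by omega
    exact absurd (Nat.div_lt_self hr0 h5) (by omega)
  -- the centralizer of `N`
  let C : Subgroup G := Subgroup.centralizer (N : Set G)
  have hCmem : ∀ x : G, x ∈ C ↔ ∀ n ∈ N, x * n * x⁻¹ = n := by
    intro x
    rw [Subgroup.mem_centralizer_iff]
    constructor
    · intro h n hn
      rw [← h n hn]; group
    · intro h n hn
      have := h n hn
      calc n * x = x * n * x⁻¹ * x := by rw [this]
        _ = x * n := by group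
  have hCn : C.Normal := by
    refine ⟨?_⟩
    intro x hx g
    rw [hCmem] at hx ⊢
    intro n hn
    have h1 : g⁻¹ * n * g ∈ N := by
      have := hN.normal.conj_mem n hn g⁻¹
      rwa [inv_inv] at this
    have h2 := hx _ h1
    calc g * x * g⁻¹ * n * (g * x * g⁻¹)⁻¹ = g * (x * (g⁻¹ * n * g) * x⁻¹) * g⁻¹ := by group
      _ = n := by rw [h2]; group
  have hact : ∀ x : G, ∀ n ∈ N, α x * n * (α x)⁻¹ = x * n * x⁻¹ := by
    intro x n hn
    obtain ⟨i, hi⟩ := hGact x
    have hn' : α⁻¹ n ∈ N := by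
      rw [← hN.inv, MulAut.apply_inv_self]; exact hn
    have h1 : α x * n * (α x)⁻¹ = α (x * α⁻¹ n * x⁻¹) := by
      rw [map_mul, map_mul, map_inv, MulAut.apply_inv_self]
    rw [h1, hi _ hn', hi n hn]
    have := aut_pow_comm α 1 (s * i) (α⁻¹ n)
    rw [pow_one, MulAut.apply_inv_self] at this
    exact this
  have hCi : Inv α C := by
    intro x
    rw [hCmem, hCmem]
    constructor
    · intro h n hn
      rw [← hact x n hn]; exact h n hn
    · intro h n hn
      rw [hact x n hn]; exact h n hn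
  have hxx : ∀ x : G, x⁻¹ * α x ∈ C := by
    intro x
    rw [hCmem]
    intro n hn
    have h1 := hact x n hn
    calc x⁻¹ * α x * n * (x⁻¹ * α x)⁻¹ = x⁻¹ * (α x * n * (α x)⁻¹) * x := by group
      _ = n := by rw [h1]; group
  have hNC : N ≤ C := by
    intro x hx
    rw [hCmem]
    intro n hn
    rw [hN.comm x hx n hn]; group
  have hks : ordM A α C hCi ∣ s := ordM_mono hA hCi hN.inv hNC
  have hkr : ordM A α C hCi ∣ r := by
    have hq1 : ∀ y : G ⧸ C, qaut α C hCi y = y := by
      intro y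
      obtain ⟨y, rfl⟩ := QuotientGroup.mk_surjective y
      rw [qaut_mk]
      exact (QuotientGroup.eq.mpr (hxx y)).symm
    have hq2 : ∀ j : ℕ, ∀ y : G ⧸ C, (qperm A α C hCi ^ j) y = ((A 1 : G) : G ⧸ C) ^ j * y := by
      intro j
      induction j with
      | zero => intro y; simp
      | succ j ih =>
        intro y
        rw [pow_succ', Equiv.Perm.mul_apply, ih, pow_succ', mul_assoc]
        show ((A 1 : G) : G ⧸ C) * qaut α C hCi _ = _
        rw [hq1]
    have ht : ((A 1 : G) : G ⧸ C) ^ r = 1 := by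
      rw [← QuotientGroup.mk_pow, QuotientGroup.eq_one_iff, hCmem]
      intro n hn
      obtain ⟨i, hi⟩ := hGact (A 1)
      have h1 : ∀ j : ℕ, ∀ n ∈ N, (A 1) ^ j * n * ((A 1) ^ j)⁻¹ = (α ^ (s * i * j)) n := by
        intro j
        induction j with
        | zero => intro n _; simp
        | succ j ih =>
          intro n hn
          have h2 := ih n hn
          have h3 : (α ^ (s * i * j)) n ∈ N := (hN.inv.pow _ n).mpr hn
          calc (A 1) ^ (j + 1) * n * ((A 1) ^ (j + 1))⁻¹
              = A 1 * ((A 1) ^ j * n * ((A 1) ^ j)⁻¹) * (A 1)⁻¹ := by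
                rw [pow_succ']; group
            _ = (α ^ (s * i)) ((α ^ (s * i * j)) n) := by rw [h2, hi _ h3]
            _ = (α ^ (s * i * (j + 1))) n := by
                rw [← MulAut.mul_apply, ← pow_add]; congr 2; ring
      rw [h1 r n hn]
      have : s * i * r = s * r * i := by ring
      rw [this, pow_mul, hαr, one_pow]; rfl
    rw [ordM, orderOf_dvd_iff_pow_eq_one]
    apply Equiv.ext
    intro y
    rw [hq2, ht, one_mul]; rfl
  have hk1 : ordM A α C hCi = 1 := Nat.dvd_one.mp (hcop ▸ Nat.dvd_gcd hks hkr)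
  have hGC := large_quot hA C hCi hl
  rw [hk1] at hGC
  have hGC1 : Nat.card (G ⧸ C) = 1 := by
    have : 0 < Nat.card (G ⧸ C) := Nat.card_pos
    omega
  have hCtop : C = ⊤ := by
    rw [← Subgroup.index_eq_one]; exact hGC1
  intro n hn g
  have : g ∈ C := by rw [hCtop]; trivial
  rw [hCmem] at this
  have h1 := this n hn
  calc g * n = g * n * g⁻¹ * g := by group
    _ = n * g := by rw [h1]

/-- the second type of minimal subgroups avoids the derived subgroup -/
lemma IsMin.disjoint_commutator [Finite G] [Group.IsSolvable G] (hA : HasLin A α) {N : Subgroup G}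
    (hN : IsMin α N) [N.Normal] (hl : Nat.card G < 2 * orderOf A)
    (hS : ∀ n ∈ N, (α ^ ordM A α N hN.inv) n = n → n = 1) : N ⊓ commutator G = ⊥ := by
  have hcen := hN.central hA hl hS
  set s := ordM A α N hN.inv with hs
  have hspec : ∀ x : G, x⁻¹ * (A ^ s) x ∈ N := ordM_spec hA N hN.inv
  obtain ⟨n₀, hn₀, hfix₀⟩ := exists_fix_coset hA hN.inv hspec hS 1
  rw [one_mul] at hfix₀
  let C : Subgroup G := MonoidHom.eqLocus (α ^ s : MulAut G).toMonoidHom (MonoidHom.id G)
  have hC : ∀ c : G, c ∈ C ↔ (α ^ s) c = c := fun c => Iff.rfl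
  have hdec : ∀ g : G, ∃ c ∈ C, ∃ n ∈ N, g = c * n := by
    intro g
    obtain ⟨n₁, hn₁, hfix₁⟩ := exists_fix_coset hA hN.inv hspec hS g
    refine ⟨n₀⁻¹ * (g * n₁), ?_, n₀ * n₁⁻¹, mul_mem hn₀ (inv_mem hn₁), ?_⟩
    · rw [hC]
      have h1 := (hA.pow s) n₀ (n₀⁻¹ * (g * n₁))
      rw [mul_inv_cancel_left, hfix₁, hfix₀] at h1
      calc (α ^ s) (n₀⁻¹ * (g * n₁)) = n₀⁻¹ * (n₀ * (α ^ s) (n₀⁻¹ * (g * n₁))) := by group
        _ = _ := by rw [← h1]
    · have h2 := hcen n₀ hn₀ (n₀⁻¹ * (g * n₁))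
      calc g = n₀ * (n₀⁻¹ * (g * n₁)) * n₁⁻¹ := by group
        _ = n₀⁻¹ * (g * n₁) * n₀ * n₁⁻¹ := by rw [← h2]
        _ = _ := by group
  have hcomm : commutator G ≤ C := by
    rw [commutator_def, Subgroup.commutator_le]
    intro a _ b _
    obtain ⟨c, hc, n, hn, rfl⟩ := hdec a
    obtain ⟨d, hd, m, hm, rfl⟩ := hdec b
    have : ⁅c * n, d * m⁆ = ⁅c, d⁆ := by
      rw [commutatorElement_def, commutatorElement_def]
      have h1 := hcen n hn (d * m)
      have h2 := hcen m hm c⁻¹
      calc c * n * (d * m) * (c * n)⁻¹ * (d * m)⁻¹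
          = c * (n * (d * m)) * n⁻¹ * c⁻¹ * m⁻¹ * d⁻¹ := by group
        _ = c * (d * m * n) * n⁻¹ * c⁻¹ * m⁻¹ * d⁻¹ := by rw [← h1]
        _ = c * d * (m * c⁻¹) * m⁻¹ * d⁻¹ := by group
        _ = c * d * (c⁻¹ * m) * m⁻¹ * d⁻¹ := by rw [← h2]
        _ = _ := by group
    rw [this, commutatorElement_def]
    exact mul_mem (mul_mem (mul_mem hc hd) (inv_mem hc)) (inv_mem hd)
  rw [eq_bot_iff]
  rintro x ⟨hx1, hx2⟩
  rw [Subgroup.mem_bot]
  exact hS x hx1 (hcomm hx2)

end typeS

section derived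

universe u

variable {G : Type u} [Group G] {A : Equiv.Perm G} {α : MulAut G}

/-- the first type of minimal subgroups: prime order -/
lemma IsMin.typeT [Finite G] [Group.IsSolvable G] (hA : HasLin A α) {N : Subgroup G}
    (hN : IsMin α N) [N.Normal] (hl : Nat.card G < 2 * orderOf A)
    (hT : ∀ n ∈ N, (α ^ ordM A α N hN.inv) n = n) :
    (Nat.card N).Prime ∧ orderOf A = ordM A α N hN.inv * Nat.card N := by
  set s := ordM A α N hN.inv with hs
  have h1 : orderOf A = s * orderOf (A ^ s) := orderOf_eq hA hN.inv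
  have hcard := card_quot N
  have hs2 : s ≤ Nat.card (G ⧸ N) := ordM_le_card N hN.inv
  have hN1 : 1 < Nat.card N := by
    rw [Subgroup.one_lt_card_iff_ne_bot]; exact hN.ne_bot
  have h2 : Nat.card N < 2 * orderOf (A ^ s) := by
    by_contra hcon
    push Not at hcon
    have h4 : s * (2 * orderOf (A ^ s)) ≤ Nat.card (G ⧸ N) * Nat.card N := Nat.mul_le_mul hs2 hcon
    rw [hcard] at h4
    nlinarith
  obtain ⟨p, hp, hpN, hdvd⟩ : ∃ p : ℕ, p.Prime ∧ p ∣ Nat.card N ∧ orderOf (A ^ s) ∣ p := by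
    rcases hN.order_le hA with ⟨_, h⟩ | ⟨h, _⟩
    · exact h
    · exfalso
      apply hN.ne_bot
      rw [eq_bot_iff]
      intro n hn
      rw [Subgroup.mem_bot]
      exact h n hn (hT n hn)
  have h3 : orderOf (A ^ s) = p := by
    rcases (Nat.dvd_prime hp).mp hdvd with h | h
    · omega
    · exact h
  rw [h3] at h1 h2
  obtain ⟨c, hc⟩ := hpN
  have hc1 : c = 1 := by
    have hp0 := hp.pos
    have : c < 2 := by
      by_contra hcon
      push Not at hcon
      have : p * 2 ≤ p * c := Nat.mul_le_mul_left p hcon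
      omega
    have : c ≠ 0 := by
      rintro rfl
      rw [mul_zero] at hc
      omega
    omega
  rw [hc1, mul_one] at hc
  rw [hc]
  exact ⟨hp, h1⟩

/-- minimal subgroups inside of the derived subgroup have prime order -/
lemma IsMin.typeT_of_le [Finite G] [Group.IsSolvable G] (hA : HasLin A α) {N : Subgroup G}
    (hN : IsMin α N) [N.Normal] (hl : Nat.card G < 2 * orderOf A) (hle : N ≤ commutator G) :
    (Nat.card N).Prime ∧ orderOf A = ordM A α N hN.inv * Nat.card N := by
  rcases hN.dichotomy hA (ordM_spec hA N hN.inv) with h | h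
  · exact hN.typeT hA hl h
  · exfalso
    have := hN.disjoint_commutator hA hl h
    rw [inf_eq_left.mpr hle] at this
    exact hN.ne_bot this

lemma inv_commutator (α : MulAut G) : Inv α (commutator G) :=
  inv_of_characteristic α _ inferInstance

lemma map_commutator_quot (N : Subgroup G) [N.Normal] :
    (commutator G).map (QuotientGroup.mk' N) = commutator (G ⧸ N) := by
  rw [commutator_def, commutator_def, Subgroup.map_commutator,
    Subgroup.map_top_of_surjective _ (QuotientGroup.mk'_surjective N)]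

/-- the order is the order modulo the derived subgroup times the order of the derived subgroup -/
theorem order_eq_derived (n : ℕ) : ∀ (G : Type u) [Group G] [Finite G] [Group.IsSolvable G],
    Nat.card G = n → ∀ (A : Equiv.Perm G) (α : MulAut G) (_ : HasLin A α),
    Nat.card G < 2 * orderOf A →
    orderOf A = ordM A α (commutator G) (inv_commutator α) * Nat.card (commutator G) := by
  induction n using Nat.strong_induction_on with
  | _ n ih =>
    intro G _ _ _ hG A α hA hl
    by_cases hM : commutator G = ⊥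
    · have h1 : ordM A α (commutator G) (inv_commutator α) = orderOf A := by
        have h2 : Inv α (⊥ : Subgroup G) := inv_of_characteristic α _ inferInstance
        rw [← ordM_bot hA h2]
        apply Nat.dvd_antisymm
        · exact ordM_mono hA _ _ bot_le
        · exact ordM_mono hA _ _ hM.le
      rw [h1, hM, Subgroup.card_bot, mul_one]
    obtain ⟨N, hNM, hN⟩ := exists_isMin hM inferInstance (inv_commutator α)
    have hNn := hN.normal
    have hcard : Nat.card (G ⧸ N) * Nat.card N = n := by rw [card_quot, hG]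
    have hN1 : 1 < Nat.card N := by
      rw [Subgroup.one_lt_card_iff_ne_bot]; exact hN.ne_bot
    have hlt : Nat.card (G ⧸ N) < n := by
      have h1 : 0 < Nat.card (G ⧸ N) := Nat.card_pos
      nlinarith
    have hlq := large_quot hA N hN.inv hl
    have h1 := ih _ hlt (G ⧸ N) rfl (qperm A α N hN.inv) (qaut α N hN.inv)
      (qperm_hasLin A N hN.inv) hlq
    have h2 := (hN.typeT_of_le hA hl hNM).2
    have h3 : ordM (qperm A α N hN.inv) (qaut α N hN.inv) (commutator (G ⧸ N))
        (inv_commutator _) = ordM A α (commutator G) (inv_commutator α) := by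
      rw [← ordM_quot hA (inv_commutator α) hN.inv hNM]
      apply Nat.dvd_antisymm
      · exact ordM_mono (qperm_hasLin A N hN.inv) _ _ (map_commutator_quot N).le
      · exact ordM_mono (qperm_hasLin A N hN.inv) _ _ (map_commutator_quot N).ge
    have h4 : Nat.card (commutator (G ⧸ N)) * Nat.card N = Nat.card (commutator G) := by
      rw [← map_commutator_quot, card_map_mk hNM]
    rw [h2, ← h4, ← mul_assoc, ← h3, ← h1]; rfl

/-- a group acts on a normal subgroup of prime order through an abelian group -/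
lemma commutator_centralizes {N : Subgroup G} [N.Normal] (hN : (Nat.card N).Prime) :
    ∀ g ∈ commutator G, ∀ n ∈ N, g * n = n * g := by
  have : Fact (Nat.card N).Prime := ⟨hN⟩
  have hcyc : IsCyclic N := isCyclic_of_prime_card rfl
  let _ : CommGroup (MulAut N) :=
    (hcyc.mulAutMulEquiv _).toMonoidHom.commGroupOfInjective (hcyc.mulAutMulEquiv _).injective
  have h := Abelianization.commutator_subset_ker (MulAut.conjNormal (H := N) : G →* MulAut N)
  intro g hg n hn
  have h1 : (MulAut.conjNormal g : MulAut N) = 1 := h hg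
  have h2 : ((MulAut.conjNormal g : MulAut N) ⟨n, hn⟩ : G) = n := by rw [h1]; rfl
  rw [MulAut.conjNormal_apply] at h2
  calc g * n = g * n * g⁻¹ * g := by group
    _ = n * g := by rw [show g * n * g⁻¹ = n from h2]

/-- the derived subgroup is nilpotent -/
theorem nilpotent_commutator (n : ℕ) : ∀ (G : Type u) [Group G] [Finite G] [Group.IsSolvable G],
    Nat.card G = n → ∀ (A : Equiv.Perm G) (α : MulAut G) (_ : HasLin A α),
    Nat.card G < 2 * orderOf A → Group.IsNilpotent (commutator G) := by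
  induction n using Nat.strong_induction_on with
  | _ n ih =>
    intro G _ _ _ hG A α hA hl
    by_cases hM : (⊤ : Subgroup G) = ⊥
    · have h1 : Subsingleton G := by
        rw [← Subgroup.subsingleton_iff]
        exact subsingleton_of_bot_eq_top hM.symm
      infer_instance
    obtain ⟨N, -, hN⟩ := exists_isMin hM inferInstance (fun x => Iff.rfl : Inv α (⊤ : Subgroup G))
    have hNn := hN.normal
    have hcard : Nat.card (G ⧸ N) * Nat.card N = n := by rw [card_quot, hG]
    have hN1 : 1 < Nat.card N := by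
      rw [Subgroup.one_lt_card_iff_ne_bot]; exact hN.ne_bot
    have hlt : Nat.card (G ⧸ N) < n := by
      have h1 : 0 < Nat.card (G ⧸ N) := Nat.card_pos
      nlinarith
    have hlq := large_quot hA N hN.inv hl
    have h1 := ih _ hlt (G ⧸ N) rfl (qperm A α N hN.inv) (qaut α N hN.inv)
      (qperm_hasLin A N hN.inv) hlq
    -- `G'` centralizes `N`
    have hcen : ∀ g ∈ commutator G, ∀ n ∈ N, g * n = n * g := by
      rcases hN.dichotomy hA (ordM_spec hA N hN.inv) with h | h
      · exact commutator_centralizes (hN.typeT hA hl h).1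
      · intro g _ n hn
        exact hN.central hA hl h n hn g
    let f : commutator G →* commutator (G ⧸ N) :=
      { toFun := fun g => ⟨(g : G), by
          rw [← map_commutator_quot]; exact ⟨g, g.2, rfl⟩⟩
        map_one' := rfl
        map_mul' := fun _ _ => rfl }
    apply Subgroup.isNilpotent_of_ker_le_center f
    intro g hg
    rw [Subgroup.mem_center_iff]
    intro h
    have h2 : ((g : G) : G ⧸ N) = 1 := congrArg Subtype.val hg
    rw [QuotientGroup.eq_one_iff] at h2
    exact Subtype.ext (hcen h h.2 g h2)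

end derived

end Pool.Agent.R683.Affine
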