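import Pool.Agent.Helper407.PLHH

/-!
# Critical `p`-solvable groups: supplements
-/

set_option autoImplicit false

namespace Pool.Agent.R683.Crit

open Pool.Agent.Helper407.PL

universe u

section gen

variable {H : Type u} [Group H] [Finite H] {p : ℕ}

lemma exists_largest' (F : Subgroup H → Prop) (h0 : ∃ X, F X)
    (hsup : ∀ X Y, F X → F Y → F (X ⊔ Y)) : ∃ A, F A ∧ ∀ X, F X → X ≤ A := by
  obtain ⟨A, hA, hmax⟩ := (Set.toFinite {X : Subgroup H | F X}).exists_maximal h0
  refine ⟨A, hA, fun X hX => ?_⟩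
  have := hmax (hsup A X hA hX) le_sup_left
  exact le_sup_right.trans this

lemma exists_smallest' (F : Subgroup H → Prop) (h0 : ∃ X, F X)
    (hinf : ∀ X Y, F X → F Y → F (X ⊓ Y)) : ∃ A, F A ∧ ∀ X, F X → A ≤ X := by
  obtain ⟨A, hA, hmin⟩ := (Set.toFinite {X : Subgroup H | F X}).exists_minimal h0
  refine ⟨A, hA, fun X hX => ?_⟩
  have := hmin (hinf A X hA hX) inf_le_left
  exact this.trans inf_le_right

omit [Finite H] in
lemma PF'_sup_bot {Q X Y : Subgroup H} (hX : Inv ⊤ X) (hQX : Q ≤ X) (hQY : Q ≤ Y)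
    (h1 : PF' p Q X) (h2 : PF' p Q Y) : PF' p Q (X ⊔ Y) := by
  have h3 : PF' p (Q ⊔ X) (Y ⊔ X) := h2.sup le_top hX
  rw [sup_eq_right.2 hQX, sup_comm] at h3
  exact h1.trans h3

omit [Finite H] in
lemma PF_sup_bot {Q X Y : Subgroup H} (hX : Inv ⊤ X) (hQX : Q ≤ X) (hQY : Q ≤ Y)
    (h1 : PF p Q X) (h2 : PF p Q Y) : PF p Q (X ⊔ Y) := by
  have h3 : PF p (Q ⊔ X) (Y ⊔ X) := h2.sup le_top hX
  rw [sup_eq_right.2 hQX, sup_comm] at h3
  exact h1.trans h3

omit [Finite H] in
lemma inv_normal {Q : Subgroup H} (h : Inv ⊤ Q) : Q.Normal := ⟨fun x hx g => h g trivial x hx⟩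

omit [Finite H] in
lemma inv_top {Q : Subgroup H} (h : Q.Normal) : Inv ⊤ Q := fun g _ x hx => h.conj_mem x hx g

end gen

section sol

/-- extensions of solvable groups -/
lemma sol_ext {G : Type*} {G' : Type*} [Group G] [Group G'] (f : G →* G')
    (h1 : Group.IsSolvable f.ker) (h2 : Group.IsSolvable f.range) : Group.IsSolvable G := by
  refine Group.isSolvable_of_ker_le_range f.ker.subtype f.rangeRestrict ?_
  rw [MonoidHom.ker_rangeRestrict, Subgroup.range_subtype]

lemma sol_of_normal {G : Type u} [Group G] (N : Subgroup G) [N.Normal]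
    (h1 : Group.IsSolvable N) (h2 : Group.IsSolvable (G ⧸ N)) : Group.IsSolvable G := by
  refine sol_ext (QuotientGroup.mk' N) ?_ ?_
  · rw [QuotientGroup.ker_mk']; exact h1
  · infer_instance

lemma sol_le {G : Type u} [Group G] {A B : Subgroup G} (h : A ≤ B) (hB : Group.IsSolvable B) :
    Group.IsSolvable A :=
  Group.isSolvable_of_isSolvable_injective (Subgroup.inclusion_injective h)

lemma sol_sup {G : Type u} [Group G] (A B : Subgroup G) (hBn : B.Normal)
    (hA : Group.IsSolvable A) (hB : Group.IsSolvable B) :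
    Group.IsSolvable (A ⊔ B : Subgroup G) := by
  refine sol_ext ((QuotientGroup.mk' B).comp (A ⊔ B).subtype) ?_ ?_
  · have h1 : Group.IsSolvable (B.subgroupOf (A ⊔ B)) := by
      refine Group.isSolvable_of_isSolvable_injective
        (f := (Subgroup.subgroupOfEquivOfLe (le_sup_right : B ≤ A ⊔ B)).toMonoidHom) ?_
      exact (Subgroup.subgroupOfEquivOfLe (le_sup_right : B ≤ A ⊔ B)).injective
    have h2 : ((QuotientGroup.mk' B).comp (A ⊔ B).subtype).ker = B.subgroupOf (A ⊔ B) := by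
      rw [← MonoidHom.comap_ker, QuotientGroup.ker_mk']; rfl
    rw [h2]; exact h1
  · have h2 : ((QuotientGroup.mk' B).comp (A ⊔ B).subtype).range = A.map (QuotientGroup.mk' B) := by
      rw [MonoidHom.range_comp, Subgroup.range_subtype, Subgroup.map_sup]
      have h3 : B.map (QuotientGroup.mk' B) = ⊥ := by
        rw [Subgroup.map_eq_bot_iff, QuotientGroup.ker_mk']
      rw [h3, sup_bot_eq]
    rw [h2]
    exact Group.isSolvable_of_surjective (f := (QuotientGroup.mk' B).subgroupMap A)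
      ((QuotientGroup.mk' B).subgroupMap_surjective A)

lemma sol_of_nilpotent {G : Type u} [Group G] (h : Group.IsNilpotent G) : Group.IsSolvable G := by
  infer_instance

end sol

variable {Y : Type u} [Group Y] [Finite Y] {p : ℕ} [hp : Fact p.Prime]

/-- a `p`-element in a product of a normal `p'`-subgroup and a `p`-subgroup -/
lemma conj_mem_of_sylow (K D : Subgroup Y) (hK : K.Normal) (hKp : (Nat.card K).Coprime p)
    (hD : PF p ⊥ D) (x : Y) (hx : x ∈ D ⊔ K) (hxp : orderOf x = p) :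
    ∃ g : Y, g * x * g⁻¹ ∈ D := by
  classical
  have hDp : IsPGroup p D := PF_bot_iff.1 hD
  obtain ⟨H, hH⟩ : ∃ H : Subgroup Y, H = D ⊔ K := ⟨_, rfl⟩
  have hDH : D ≤ H := by rw [hH]; exact le_sup_left
  have hDp' : IsPGroup p (D.subgroupOf H) :=
    hDp.of_injective (Subgroup.subgroupOfEquivOfLe hDH).toMonoidHom
      (Subgroup.subgroupOfEquivOfLe hDH).injective
  have hDK : D ⊓ K = ⊥ := by
    rw [eq_bot_iff]
    rintro y ⟨hy1, hy2⟩
    obtain ⟨k, hk⟩ := hD y hy1
    rw [Subgroup.mem_bot] at hk ⊢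
    have h1 : orderOf y ∣ p ^ k := orderOf_dvd_of_pow_eq_one hk
    have h2 : orderOf y ∣ Nat.card K := Subgroup.orderOf_dvd_natCard K hy2
    have h3 : (Nat.card K).Coprime (p ^ k) := Nat.Coprime.pow_right k hKp
    exact orderOf_eq_one_iff.1 (Nat.Coprime.eq_one_of_dvd (h3.coprime_dvd_left h2) h1)
  have hcard : Nat.card H = Nat.card K * Nat.card D := by
    have h1 := Subgroup.relIndex_mul_relIndex ⊥ K H bot_le (by rw [hH]; exact le_sup_right)
    rw [Subgroup.relIndex_bot_left, Subgroup.relIndex_bot_left, hH,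
      Subgroup.relIndex_sup_right] at h1
    rw [hH, ← h1]
    congr 1
    have h2 : (K ⊓ D).relIndex D = K.relIndex D := Subgroup.inf_relIndex_right K D
    rw [← h2, inf_comm, hDK, Subgroup.relIndex_bot_left]
  have hidx : (D.subgroupOf H).index = Nat.card K := by
    have h1 := (D.subgroupOf H).card_mul_index
    have h2 : Nat.card (D.subgroupOf H) = Nat.card D :=
      Nat.card_congr (Subgroup.subgroupOfEquivOfLe hDH).toEquiv
    rw [h2, hcard, mul_comm] at h1
    exact Nat.eq_of_mul_eq_mul_right Nat.card_pos h1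
  have hndvd : ¬ p ∣ (D.subgroupOf H).index := by
    rw [hidx]
    intro h
    exact hp.out.one_lt.ne' (Nat.Coprime.eq_one_of_dvd hKp.symm h)
  let P : Sylow p H := hDp'.toSylow hndvd
  have hP : (P : Subgroup H) = D.subgroupOf H := rfl
  have hxH : x ∈ H := by rw [hH]; exact hx
  have hxz : IsPGroup p (Subgroup.zpowers (⟨x, hxH⟩ : H)) := by
    rw [IsPGroup.iff_card]
    refine ⟨1, ?_⟩
    rw [Nat.card_zpowers, pow_one, ← hxp]
    exact orderOf_injective H.subtype H.subtype_injective ⟨x, hxH⟩ ▸ rfl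
  obtain ⟨Q, hQ⟩ := hxz.exists_le_sylow
  obtain ⟨g, hg⟩ := MulAction.exists_smul_eq H Q P
  refine ⟨g, ?_⟩
  have h1 : (⟨x, hxH⟩ : H) ∈ (Q : Subgroup H) := hQ (Subgroup.mem_zpowers _)
  have h2 : g * ⟨x, hxH⟩ * g⁻¹ ∈ ((g • Q : Sylow p H) : Subgroup H) := by
    rw [Sylow.smul_def, Sylow.pointwise_smul_def]
    exact Subgroup.smul_mem_pointwise_smul _ (MulAut.conj g) _ h1
  rw [hg, hP, Subgroup.mem_subgroupOf] at h2
  exact h2

end Pool.Agent.R683.Crit
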