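import Pool.Agent.R683.CritA

/-!
# Critical `p`-solvable groups: the normal `p'`-subgroup is solvable
-/

set_option autoImplicit false

namespace Pool.Agent.R683.Crit

open Pool.Agent.Helper407.PL

universe u

variable {Y : Type u} [Group Y] [Finite Y] {p : ℕ} [hp : Fact p.Prime]

/-- a normal subgroup is nilpotent modulo a normal subgroup which is not contained in a proper
supplement -/
lemma sol_of_no_supp (K F : Subgroup Y) (hK : K.Normal) (hF : F.Normal) (hFK : F ≤ K)
    (hFs : Group.IsSolvable F)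
    (h : ∀ T : Subgroup Y, T ≠ ⊤ → T ⊔ K = ⊤ → ¬ F ≤ T) : Group.IsSolvable K := by
  have hfr : K.map (QuotientGroup.mk' F) ≤ frattini (Y ⧸ F) := by
    unfold frattini Order.radical
    refine le_iInf₂ ?_
    intro M hM
    have hM' : IsCoatom M := hM
    by_contra hcon
    have h1 : M ⊔ K.map (QuotientGroup.mk' F) = ⊤ := hM'.2 _ (left_lt_sup.2 hcon)
    have hsurj : Function.Surjective (QuotientGroup.mk' F) := QuotientGroup.mk'_surjective F
    refine h (M.comap (QuotientGroup.mk' F)) ?_ ?_ ?_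
    · intro h2
      apply hM'.1
      apply Subgroup.comap_injective hsurj
      rw [h2, Subgroup.comap_top]
    · have h2 : (M.comap (QuotientGroup.mk' F) ⊔ K).map (QuotientGroup.mk' F) = ⊤ := by
        rw [Subgroup.map_sup, Subgroup.map_comap_eq_self_of_surjective hsurj, h1]
      have h3 := congrArg (Subgroup.comap (QuotientGroup.mk' F)) h2
      rw [Subgroup.comap_map_eq, QuotientGroup.ker_mk', Subgroup.comap_top] at h3
      rw [← h3]
      exact (sup_eq_left.2 (hFK.trans le_sup_right)).symm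
    · intro f hf
      rw [Subgroup.mem_comap]
      have : (QuotientGroup.mk' F) f = 1 := (QuotientGroup.eq_one_iff f).2 hf
      rw [this]
      exact M.one_mem
  have hs : Group.IsSolvable (K.map (QuotientGroup.mk' F)) := by
    have h1 : Group.IsSolvable (frattini (Y ⧸ F)) := sol_of_nilpotent frattini_nilpotent
    exact sol_le hfr h1
  refine sol_ext ((QuotientGroup.mk' F).comp K.subtype) ?_ ?_
  · have h2 : ((QuotientGroup.mk' F).comp K.subtype).ker = F.subgroupOf K := by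
      rw [← MonoidHom.comap_ker, QuotientGroup.ker_mk']; rfl
    rw [h2]
    exact Group.isSolvable_of_isSolvable_injective
      (f := (Subgroup.subgroupOfEquivOfLe hFK).toMonoidHom)
      (Subgroup.subgroupOfEquivOfLe hFK).injective
  · rw [MonoidHom.range_comp, Subgroup.range_subtype]
    exact hs

/-- the key step -/
theorem sol_of_supp (K : Subgroup Y) (hK : K.Normal) (hKp : (Nat.card K).Coprime p)
    (hKC : ∀ x, (∀ y ∈ K, x * y = y * x) → x ∈ K) (hsol : Group.IsSolvable (Y ⧸ K)) (k : ℕ)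
    (hk : ¬ RLp p k K ⊤)
    (hT : ∀ T : Subgroup Y, T ≠ ⊤ → T ⊔ K = ⊤ →
      ∃ D ≤ T, Inv T D ∧ PF p ⊥ D ∧ RLp p k (D ⊔ K) ⊤) : Group.IsSolvable Y := by
  classical
  suffices hKs : Group.IsSolvable K from sol_of_normal K hKs hsol
  -- the solvable radical of K
  obtain ⟨F, ⟨hFn, hFK, hFs⟩, hFmax⟩ := exists_largest'
    (fun F : Subgroup Y => F.Normal ∧ F ≤ K ∧ Group.IsSolvable F)
    ⟨⊥, inferInstance, bot_le, inferInstance⟩ (by
      rintro A B ⟨hA1, hA2, hA3⟩ ⟨hB1, hB2, hB3⟩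
      exact ⟨inferInstance, sup_le hA2 hB2, sol_sup A B hB1 hA3 hB3⟩)
  refine sol_of_no_supp K F hK hFn hFK hFs ?_
  intro T₀ hT₀ hT₀K hFT₀
  -- the smallest normal subgroup above K with a short series above
  obtain ⟨A, ⟨hKA, hAr⟩, hAmin⟩ := exists_smallest'
    (fun A : Subgroup Y => K ≤ A ∧ RLp p k A ⊤) ⟨⊤, le_top, RLp.refl _ _⟩ (by
      rintro A B ⟨hA1, hA2⟩ ⟨hB1, hB2⟩
      exact ⟨le_inf hA1 hB1, hA2.inf hB2⟩)
  have hAK : A ≠ K := by
    rintro rfl
    exact hk hAr
  obtain ⟨a, haA, haK⟩ := SetLike.exists_of_lt (lt_of_le_of_ne hKA (Ne.symm hAK))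
  -- an element of order p in A
  have hpA : p ∣ Nat.card A := by
    by_contra hcon
    obtain ⟨D, hDT, hDi, hDp, hDr⟩ := hT T₀ hT₀ hT₀K
    have h1 : a ∈ D ⊔ K := hAmin _ ⟨le_sup_right, hDr⟩ haA
    have h2 : PF p K (D ⊔ K) := by
      have := PF.sup (N := (⊤ : Subgroup Y)) (T := K) hDp le_top (inv_top hK)
      rwa [bot_sup_eq] at this
    obtain ⟨m, hm⟩ := h2 a h1
    have h3 : (Nat.card A).Coprime (p ^ m) :=
      Nat.Coprime.pow_right m ((Nat.Prime.coprime_iff_not_dvd hp.out).2 hcon).symm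
    have h4 : orderOf a ∣ Nat.card A := Subgroup.orderOf_dvd_natCard A haA
    have h5 : (orderOf a).Coprime (p ^ m) := h3.coprime_dvd_left h4
    apply haK
    have h6 : a ∈ Subgroup.zpowers (a ^ (p ^ m)) := by
      obtain ⟨s, hs⟩ := exists_pow_eq_self_of_coprime (x := a) h5.symm
      exact ⟨(s : ℤ), by
        show (a ^ (p ^ m)) ^ (s : ℤ) = a
        rw [zpow_natCast]
        exact hs⟩
    exact (Subgroup.zpowers_le.2 hm) h6
  obtain ⟨⟨x, hxA⟩, hxo⟩ := exists_prime_orderOf_dvd_card' p hpA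
  have hxp : orderOf x = p := by
    rw [← hxo]
    exact orderOf_injective A.subtype A.subtype_injective ⟨x, hxA⟩
  -- x centralizes a conjugate of the intersection with K for each proper supplement
  have hcen : ∀ T : Subgroup Y, T ≠ ⊤ → T ⊔ K = ⊤ →
      ∃ g : Y, ∀ t ∈ T, t ∈ K → x * (g⁻¹ * t * g) = (g⁻¹ * t * g) * x := by
    intro T hT1 hT2
    obtain ⟨D, hDT, hDi, hDp, hDr⟩ := hT T hT1 hT2
    obtain ⟨g, hg⟩ := conj_mem_of_sylow K D hK hKp hDp x
      (hAmin _ ⟨le_sup_right, hDr⟩ hxA) hxp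
    refine ⟨g, fun t ht1 ht2 => ?_⟩
    have hDK : ∀ y, y ∈ D → y ∈ K → y = 1 := by
      intro y hy1 hy2
      obtain ⟨k, hk⟩ := hDp y hy1
      rw [Subgroup.mem_bot] at hk
      have h1 : orderOf y ∣ p ^ k := orderOf_dvd_of_pow_eq_one hk
      have h2 : orderOf y ∣ Nat.card K := Subgroup.orderOf_dvd_natCard K hy2
      have h3 : (Nat.card K).Coprime (p ^ k) := Nat.Coprime.pow_right k hKp
      exact orderOf_eq_one_iff.1 (Nat.Coprime.eq_one_of_dvd (h3.coprime_dvd_left h2) h1)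
    generalize hd : g * x * g⁻¹ = d at hg
    have h1 : d * t * d⁻¹ * t⁻¹ = 1 := by
      refine hDK _ ?_ ?_
      · have h2 := D.mul_mem hg (hDi t ht1 d⁻¹ (D.inv_mem hg))
        have h3 : d * (t * d⁻¹ * t⁻¹) = d * t * d⁻¹ * t⁻¹ := by group
        rwa [h3] at h2
      · exact K.mul_mem (hK.conj_mem t ht2 d) (K.inv_mem ht2)
    have h2 : d * t = t * d := by
      have h3 : d * t = (d * t * d⁻¹ * t⁻¹) * (t * d) := by group
      rw [h3, h1, one_mul]
    have hx : x = g⁻¹ * d * g := by rw [← hd]; group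
    rw [hx]
    calc g⁻¹ * d * g * (g⁻¹ * t * g) = g⁻¹ * (d * t) * g := by group
      _ = g⁻¹ * (t * d) * g := by rw [h2]
      _ = _ := by group
  -- the centralizer
  obtain ⟨C, hC⟩ : ∃ C : Subgroup Y, C = K ⊓ Subgroup.centralizer {x} := ⟨_, rfl⟩
  have hCmem : ∀ y, y ∈ C ↔ y ∈ K ∧ x * y = y * x := by
    intro y
    rw [hC, Subgroup.mem_inf, Subgroup.mem_centralizer_singleton_iff]
    constructor
    · rintro ⟨h1, h2⟩; exact ⟨h1, h2.symm⟩
    · rintro ⟨h1, h2⟩; exact ⟨h1, h2.symm⟩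
  have hdvd : Nat.card K ∣ Nat.card C := by
    rw [Nat.dvd_iff_prime_pow_dvd_dvd]
    intro r m hr hrm
    haveI : Fact r.Prime := ⟨hr⟩
    obtain ⟨S⟩ : Nonempty (Sylow r K) := inferInstance
    have h1 : r ^ m ∣ Nat.card (S : Subgroup K) := S.pow_dvd_card_of_pow_dvd_card hrm
    obtain ⟨S₀, hS₀⟩ : ∃ S₀ : Subgroup Y, S₀ = (S : Subgroup K).map K.subtype := ⟨_, rfl⟩
    have hS₀c : Nat.card S₀ = Nat.card (S : Subgroup K) := by
      rw [hS₀]
      exact Nat.card_congr
        ((S : Subgroup K).equivMapOfInjective K.subtype K.subtype_injective).symm.toEquiv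
    have hS₀K : S₀ ≤ K := by
      rw [hS₀]
      exact Subgroup.map_subtype_le _
    have hg : ∃ g : Y, ∀ s ∈ S₀, x * (g⁻¹ * s * g) = (g⁻¹ * s * g) * x := by
      by_cases hn : S₀.Normal
      · have hS₀s : Group.IsSolvable S₀ := by
          have h2 : IsPGroup r S₀ := by
            rw [IsPGroup.iff_card]
            obtain ⟨j, hj⟩ := IsPGroup.iff_card.1 S.isPGroup'
            exact ⟨j, by rw [hS₀c, hj]⟩
          exact sol_of_nilpotent h2.isNilpotent
        have h2 : S₀ ≤ F := hFmax _ ⟨hn, hS₀K, hS₀s⟩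
        obtain ⟨g, hg⟩ := hcen T₀ hT₀ hT₀K
        refine ⟨g, fun s hs => ?_⟩
        exact hg s (hFT₀ (h2 hs)) (hS₀K hs)
      · have h2 : Subgroup.normalizer (S₀ : Set Y) ⊔ K = ⊤ := by
          rw [hS₀]
          exact Sylow.normalizer_sup_eq_top S
        have h3 : Subgroup.normalizer (S₀ : Set Y) ≠ ⊤ := by
          intro h
          exact hn (Subgroup.normalizer_eq_top_iff.1 h)
        obtain ⟨g, hg⟩ := hcen _ h3 h2
        refine ⟨g, fun s hs => ?_⟩
        exact hg s (Subgroup.le_normalizer hs) (hS₀K hs)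
    obtain ⟨g, hg⟩ := hg
    have h2 : S₀.map (MulAut.conj g⁻¹).toMonoidHom ≤ C := by
      rintro _ ⟨s, hs, rfl⟩
      have h3 : (MulAut.conj g⁻¹).toMonoidHom s = g⁻¹ * s * g := by
        simp [MulAut.conj_apply]
      rw [h3, hCmem]
      refine ⟨?_, hg s hs⟩
      have := hK.conj_mem s (hS₀K hs) g⁻¹
      rwa [inv_inv] at this
    have h3 : Nat.card (S₀.map (MulAut.conj g⁻¹).toMonoidHom) = Nat.card S₀ :=
      Nat.card_congr (S₀.equivMapOfInjective _ (MulAut.conj g⁻¹).injective).symm.toEquiv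
    have h4 := Subgroup.card_dvd_of_le h2
    rw [h3, hS₀c] at h4
    exact h1.trans h4
  have hCK : C = K := by
    have hle : C ≤ K := by rw [hC]; exact inf_le_left
    exact Subgroup.eq_of_le_of_card_ge hle (Nat.le_of_dvd Nat.card_pos hdvd)
  have hxK : x ∈ K := hKC x (fun y hy => by
    rw [← hCK] at hy
    exact ((hCmem y).1 hy).2)
  have h1 : p ∣ Nat.card K := by
    rw [← hxp]
    exact Subgroup.orderOf_dvd_natCard K hxK
  exact hp.out.one_lt.ne' (Nat.Coprime.eq_one_of_dvd hKp.symm h1)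

end Pool.Agent.R683.Crit
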