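import Pool.Agent.R683.CritB

/-!
# Critical `p`-solvable groups are solvable
-/

set_option autoImplicit false

namespace Pool.Agent.R683.Crit

open Pool.Agent.Helper407.PL

universe u

section quot

variable {G : Type u} [Group G] {p : ℕ}

lemma rlp_quot {n : ℕ} (N : Subgroup G) [N.Normal]
    (h : RLp p n (⊥ : Subgroup (G ⧸ N)) ⊤) : RLp p n N ⊤ := by
  have h1 := h.comap (QuotientGroup.mk' N)
  rwa [Subgroup.comap_top, MonoidHom.comap_bot, QuotientGroup.ker_mk'] at h1

lemma rlp_to_quot {n : ℕ} (N X : Subgroup G) [N.Normal] (h : RLp p n ⊥ X) :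
    RLp p n (⊥ : Subgroup (G ⧸ N)) (X.map (QuotientGroup.mk' N)) := by
  have h1 := h.map (QuotientGroup.mk' N)
  rwa [Subgroup.map_bot] at h1

lemma rlp_sup {n : ℕ} (N D T : Subgroup G) [N.Normal] (h : RLp p n D T) :
    RLp p n (D ⊔ N) (T ⊔ N) := by
  have h1 := (h.map (QuotientGroup.mk' N)).comap (QuotientGroup.mk' N)
  rwa [Subgroup.comap_map_eq, Subgroup.comap_map_eq, QuotientGroup.ker_mk'] at h1

end quot

variable {p : ℕ} [hp : Fact p.Prime]

/-- elements of coprime orders -/
lemma bot_of_both {G : Type u} [Group G] {D K : Subgroup G} (hD : PF p ⊥ D) (hK : PF' p ⊥ K)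
    {y : G} (hy1 : y ∈ D) (hy2 : y ∈ K) : y = 1 := by
  obtain ⟨k, hk⟩ := hD y hy1
  obtain ⟨m, hm, hm'⟩ := hK y hy2
  rw [Subgroup.mem_bot] at hk hm'
  have h1 : orderOf y ∣ p ^ k := orderOf_dvd_of_pow_eq_one hk
  have h2 : orderOf y ∣ m := orderOf_dvd_of_pow_eq_one hm'
  have h3 : m.Coprime (p ^ k) := Nat.Coprime.pow_right k hm
  exact orderOf_eq_one_iff.1 (Nat.Coprime.eq_one_of_dvd (h3.coprime_dvd_left h2) h1)

/-- a `p`-subgroup and a `p'`-subgroup which normalize each other commute -/
lemma comm_of_both {G : Type u} [Group G] {X D K : Subgroup G} (hD : PF p ⊥ D) (hK : PF' p ⊥ K)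
    (hDX : D ≤ X) (hKX : K ≤ X) (hDi : Inv X D) (hKi : Inv X K) :
    ∀ d ∈ D, ∀ y ∈ K, d * y = y * d := by
  intro d hd y hy
  have h1 : d * y * d⁻¹ * y⁻¹ = 1 := by
    refine bot_of_both hD hK (y := d * y * d⁻¹ * y⁻¹) ?_ ?_
    · have h2 := D.mul_mem hd (hDi y (hKX hy) d⁻¹ (D.inv_mem hd))
      have h3 : d * (y * d⁻¹ * y⁻¹) = d * y * d⁻¹ * y⁻¹ := by group
      rwa [h3] at h2
    · exact K.mul_mem (hKi d (hDX hd) y hy) (K.inv_mem hy)
  have h3 : d * y = (d * y * d⁻¹ * y⁻¹) * (y * d) := by group
  rw [h3, h1, one_mul]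

theorem critical_solvable (m : ℕ) : ∀ (G : Type u) [Group G] [Finite G], Nat.card G ≤ m →
    ∀ n, (∃ N, RLp p N (⊥ : Subgroup G) ⊤) → ¬ RLp p n (⊥ : Subgroup G) ⊤ →
    (∀ X : Subgroup G, X ≠ ⊤ → RLp p n ⊥ X) → Group.IsSolvable G := by
  classical
  induction m with
  | zero =>
    intro G _ _ h
    have : 0 < Nat.card G := Nat.card_pos
    omega
  | succ m ih =>
  intro G _ _ hGm n hps hn hcrit
  obtain ⟨K₀, ⟨hK₀i, hK₀p⟩, hK₀max⟩ := exists_largest'
    (fun X : Subgroup G => Inv ⊤ X ∧ PF' p ⊥ X) ⟨⊥, Inv.bot _, PF'.refl _⟩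
    (fun X Y hX hY => ⟨hX.1.sup hY.1, PF'_sup_bot hX.1 bot_le bot_le hX.2 hY.2⟩)
  have hK₀n : K₀.Normal := inv_normal hK₀i
  by_cases hK₀ : K₀ = ⊥
  · -- no normal p'-subgroup
    obtain ⟨P, ⟨hPi, hPp⟩, hPmax⟩ := exists_largest'
      (fun X : Subgroup G => Inv ⊤ X ∧ PF p ⊥ X) ⟨⊥, Inv.bot _, PF.refl _⟩
      (fun X Y hX hY => ⟨hX.1.sup hY.1, PF_sup_bot hX.1 bot_le bot_le hX.2 hY.2⟩)
    have hPn : P.Normal := inv_normal hPi
    have hCP := HH2 (p := p) hps P hPi hPp (fun X h1 h2 => hPmax X ⟨h1, h2⟩) (by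
      intro X h1 h2
      have h3 := hK₀max X ⟨h1, h2⟩
      rw [hK₀] at h3
      exact le_bot_iff.1 h3)
    have hPsol : Group.IsSolvable P := sol_of_nilpotent (PF_bot_iff.1 hPp).isNilpotent
    have hPbot : P ≠ ⊥ := by
      intro hP
      apply hn
      have h1 : (⊤ : Subgroup G) = ⊥ := by
        rw [eq_bot_iff]
        intro x _
        have := hCP x (by
          intro y hy
          rw [hP, Subgroup.mem_bot] at hy
          rw [hy]; simp)
        rwa [hP] at this
      rw [h1]
      exact RLp.refl _ _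
    rcases Nat.eq_zero_or_pos n with hn0 | hn0
    · -- p-groups
      by_cases hPt : P = ⊤
      · refine sol_of_normal P hPsol ?_
        have : Subsingleton (G ⧸ P) := by
          rw [hPt]
          exact QuotientGroup.subsingleton_quotient_top
        infer_instance
      · exfalso
        apply hPbot
        rw [eq_bot_iff]
        intro y hy
        have h1 := hcrit P hPt
        rw [hn0] at h1
        obtain ⟨S, h0, h1', -, -, h4, -⟩ := h1
        have h5 := h4 0 le_rfl
        rw [Nat.mul_zero, h0] at h5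
        rw [Nat.mul_zero] at h1'
        rw [h1'] at h5
        exact bot_of_both hPp h5 hy hy
    · obtain ⟨k, rfl⟩ := Nat.exists_eq_succ_of_ne_zero hn0.ne'
      refine sol_of_normal P hPsol ?_
      let π : G →* G ⧸ P := QuotientGroup.mk' P
      have hπs : Function.Surjective π := QuotientGroup.mk'_surjective P
      have hπ1 : ∀ g, π g = 1 ↔ g ∈ P := fun g => QuotientGroup.eq_one_iff g
      have hcardY : Nat.card (G ⧸ P) ≤ m := by
        have h1 := Subgroup.card_eq_card_quotient_mul_card_subgroup P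
        have h2 : 1 < Nat.card P := by
          rw [Subgroup.one_lt_card_iff_ne_bot]
          exact hPbot
        have h3 : 0 < Nat.card (G ⧸ P) := Nat.card_pos
        have h4 : Nat.card (G ⧸ P) * 2 ≤ Nat.card G := by
          rw [h1]; exact Nat.mul_le_mul_left _ h2
        omega
      have hpsY : ∃ N, RLp p N (⊥ : Subgroup (G ⧸ P)) ⊤ := by
        obtain ⟨N, hN⟩ := hps
        refine ⟨N, ?_⟩
        have h1 := rlp_to_quot P ⊤ hN
        rwa [Subgroup.map_top_of_surjective _ hπs] at h1
      obtain ⟨K, ⟨hKi, hKp⟩, hKmax⟩ := exists_largest'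
        (fun X : Subgroup (G ⧸ P) => Inv ⊤ X ∧ PF' p ⊥ X) ⟨⊥, Inv.bot _, PF'.refl _⟩
        (fun X Y hX hY => ⟨hX.1.sup hY.1, PF'_sup_bot hX.1 bot_le bot_le hX.2 hY.2⟩)
      have hKn : K.Normal := inv_normal hKi
      have hCK := HH1 (p := p) hpsY K hKi hKp (fun X h1 h2 => hKmax X ⟨h1, h2⟩) (by
        intro X h1 h2
        have h3 : X.comap π ≤ P := by
          refine hPmax _ ⟨?_, ?_⟩
          · intro g _ x hx
            rw [Subgroup.mem_comap, map_mul, map_mul, map_inv]
            exact h1 _ trivial _ hx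
          · refine hPp.trans ?_
            intro y hy
            obtain ⟨j, hj⟩ := h2 _ hy
            refine ⟨j, ?_⟩
            rwa [Subgroup.mem_bot, ← map_pow, hπ1] at hj
        rw [eq_bot_iff]
        intro y hy
        obtain ⟨y, rfl⟩ := hπs y
        rw [Subgroup.mem_bot, hπ1]
        exact h3 hy)
      have hK0 : RLp p 0 (⊥ : Subgroup (G ⧸ P)) K := RLp.of_PF' 0 hKp bot_le (Inv.bot _)
      have hnK : ¬ RLp p k K ⊤ := by
        intro h
        have h1 : RLp p (0 + k) (⊥ : Subgroup (G ⧸ P)) ⊤ := hK0.trans h (Inv.bot _)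
        rw [Nat.zero_add] at h1
        have h2 := rlp_quot P h1
        have h3 : RLp p 1 (⊥ : Subgroup G) P := RLp.of_PF hPp bot_le (Inv.bot _)
        have h4 := h3.trans h2 (Inv.bot _)
        rw [Nat.add_comm] at h4
        exact hn h4
      have hsub : ∀ X : Subgroup (G ⧸ P), X ≠ ⊤ →
          ∃ D ≤ X, Inv X D ∧ PF p ⊥ D ∧ RLp p k D X := by
        intro X' hX'
        obtain ⟨X, hX⟩ : ∃ X : Subgroup G, X = X'.comap π := ⟨_, rfl⟩
        have hXt : X ≠ ⊤ := by
          intro h
          apply hX'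
          apply Subgroup.comap_injective hπs
          rw [← hX, h, Subgroup.comap_top]
        have hPX : P ≤ X := by
          intro y hy
          rw [hX, Subgroup.mem_comap, (hπ1 y).2 hy]
          exact X'.one_mem
        have hmapX : X.map π = X' := by
          rw [hX]; exact Subgroup.map_comap_eq_self_of_surjective hπs X'
        obtain ⟨S, h0, h1, h2, h3, h4, h5⟩ := hcrit X hXt
        have hSX : ∀ i ≤ 2 * (k + 1) + 1, S i ≤ X := fun i hi => h1 ▸ chain_le h3 hi
        have hS1p : PF' p ⊥ (S 1) := by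
          have := h4 0 (Nat.zero_le _)
          rwa [Nat.mul_zero, h0] at this
        have hS1 : S 1 = ⊥ := by
          rw [eq_bot_iff]
          intro y hy
          have h6 := comm_of_both hPp hS1p hPX (hSX 1 (by omega)) (hPi.mono le_top) (h2 1)
          have h7 : y ∈ P := hCP y (fun z hz => (h6 z hz y hy).symm)
          exact bot_of_both hPp hS1p h7 hy
        have hS2p : PF p ⊥ (S 2) := by
          have := h5 0 (by omega)
          rw [Nat.mul_zero, Nat.zero_add, Nat.zero_add, hS1] at this
          exact this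
        have hS2r : RLp p k (S 2) X := by
          refine ⟨fun i => S (i + 2), rfl, ?_, fun i => h2 _, fun i => ?_, ?_, ?_⟩
          · show S (2 * k + 1 + 2) = X
            rw [← h1]
            congr 1
          · show S (i + 2) ≤ S (i + 1 + 2)
            have := h3 (i + 2)
            rwa [show i + 2 + 1 = i + 1 + 2 by omega] at this
          · intro i hi
            have := h4 (i + 1) (by omega)
            rw [show 2 * (i + 1) = 2 * i + 2 by omega,
              show 2 * i + 2 + 1 = 2 * i + 1 + 2 by omega] at this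
            exact this
          · intro i hi
            have := h5 (i + 1) (by omega)
            rw [show 2 * (i + 1) + 1 = 2 * i + 1 + 2 by omega,
              show 2 * (i + 1) + 2 = 2 * i + 2 + 2 by omega] at this
            exact this
        refine ⟨(S 2).map π, ?_, ?_, ?_, ?_⟩
        · rw [← hmapX]
          exact Subgroup.map_mono (hSX 2 (by omega))
        · rw [← hmapX]
          rintro _ ⟨g, hg, rfl⟩ _ ⟨y, hy, rfl⟩
          exact ⟨g * y * g⁻¹, h2 2 g hg y hy, by simp⟩
        · rintro _ ⟨y, hy, rfl⟩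
          obtain ⟨j, hj⟩ := hS2p y hy
          refine ⟨j, ?_⟩
          rw [Subgroup.mem_bot] at hj ⊢
          rw [← map_pow, hj, map_one]
        · have h6 := hS2r.map π
          rwa [hmapX] at h6
      -- the quotient by K is critical
      have hsolR : Group.IsSolvable ((G ⧸ P) ⧸ K) := by
        refine ih ((G ⧸ P) ⧸ K) ?_ k ?_ ?_ ?_
        · have h1 := Subgroup.card_eq_card_quotient_mul_card_subgroup K
          have h2 : 0 < Nat.card K := Nat.card_pos
          refine le_trans ?_ hcardY
          rw [h1]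
          exact Nat.le_mul_of_pos_right _ h2
        · obtain ⟨N, hN⟩ := hpsY
          refine ⟨N, ?_⟩
          have h1 := rlp_to_quot K ⊤ hN
          rwa [Subgroup.map_top_of_surjective _ (QuotientGroup.mk'_surjective K)] at h1
        · intro h
          exact hnK (rlp_quot K h)
        · intro X' hX'
          obtain ⟨X, hX⟩ : ∃ X : Subgroup (G ⧸ P), X = X'.comap (QuotientGroup.mk' K) := ⟨_, rfl⟩
          have hXt : X ≠ ⊤ := by
            intro h
            apply hX'
            apply Subgroup.comap_injective (QuotientGroup.mk'_surjective K)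
            rw [← hX, h, Subgroup.comap_top]
          have hKX : K ≤ X := by
            intro y hy
            rw [hX, Subgroup.mem_comap]
            have : (QuotientGroup.mk' K) y = 1 := (QuotientGroup.eq_one_iff y).2 hy
            rw [this]
            exact X'.one_mem
          have hmapX : X.map (QuotientGroup.mk' K) = X' := by
            rw [hX]
            exact Subgroup.map_comap_eq_self_of_surjective (QuotientGroup.mk'_surjective K) X'
          obtain ⟨D, hDX, hDi, hDp, hDr⟩ := hsub X hXt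
          have hDbot : D = ⊥ := by
            rw [eq_bot_iff]
            intro d hd
            have h6 := comm_of_both hDp hKp hDX hKX hDi (hKi.mono le_top) d hd
            have h7 : d ∈ K := hCK d (fun z hz => h6 z hz)
            exact bot_of_both hDp hKp hd h7
          rw [hDbot] at hDr
          have h8 := rlp_to_quot K X hDr
          rwa [hmapX] at h8
      refine sol_of_supp K hKn (PF'_bot_iff.1 hKp) hCK hsolR k hnK ?_
      intro T hT1 hT2
      obtain ⟨D, hDT, hDi, hDp, hDr⟩ := hsub T hT1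
      refine ⟨D, hDT, hDi, hDp, ?_⟩
      have h1 := rlp_sup K D T hDr
      rwa [hT2] at h1
  · -- a normal p'-subgroup
    have hK0 : RLp p 0 (⊥ : Subgroup G) K₀ := RLp.of_PF' 0 hK₀p bot_le (Inv.bot _)
    have hnK : ¬ RLp p n K₀ ⊤ := by
      intro h
      have h1 := hK0.trans h (Inv.bot _)
      rw [Nat.zero_add] at h1
      exact hn h1
    have hfr : K₀ ≤ frattini G := by
      unfold frattini Order.radical
      refine le_iInf₂ ?_
      intro M hM
      have hM' : IsCoatom M := hM
      by_contra hcon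
      have h1 : M ⊔ K₀ = ⊤ := hM'.2 _ (left_lt_sup.2 hcon)
      have h2 := rlp_sup K₀ ⊥ M (hcrit M hM'.1)
      rw [h1, bot_sup_eq] at h2
      exact hnK h2
    have hKsol : Group.IsSolvable K₀ := sol_le hfr (sol_of_nilpotent frattini_nilpotent)
    refine sol_of_normal K₀ hKsol ?_
    refine ih (G ⧸ K₀) ?_ n ?_ ?_ ?_
    · have h1 := Subgroup.card_eq_card_quotient_mul_card_subgroup K₀
      have h2 : 1 < Nat.card K₀ := by
        rw [Subgroup.one_lt_card_iff_ne_bot]
        exact hK₀
      have h3 : 0 < Nat.card (G ⧸ K₀) := Nat.card_pos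
      have h4 : Nat.card (G ⧸ K₀) * 2 ≤ Nat.card G := by
        rw [h1]; exact Nat.mul_le_mul_left _ h2
      omega
    · obtain ⟨N, hN⟩ := hps
      refine ⟨N, ?_⟩
      have h1 := rlp_to_quot K₀ ⊤ hN
      rwa [Subgroup.map_top_of_surjective _ (QuotientGroup.mk'_surjective K₀)] at h1
    · intro h
      exact hnK (rlp_quot K₀ h)
    · intro X' hX'
      have hXt : X'.comap (QuotientGroup.mk' K₀) ≠ ⊤ := by
        intro h
        apply hX'
        apply Subgroup.comap_injective (QuotientGroup.mk'_surjective K₀)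
        rw [h, Subgroup.comap_top]
      have h8 := rlp_to_quot K₀ _ (hcrit _ hXt)
      rwa [Subgroup.map_comap_eq_self_of_surjective (QuotientGroup.mk'_surjective K₀)] at h8

/-- every `p`-solvable group contains a solvable subgroup of the same `p`-length -/
theorem exists_solvable_subgroup {G : Type u} [Group G] [Finite G]
    (hps : ∃ N, RLp p N (⊥ : Subgroup G) ⊤) (n : ℕ) (hn : ¬ RLp p n (⊥ : Subgroup G) ⊤) :
    ∃ H : Subgroup G, Group.IsSolvable H ∧ ¬ RLp p n (⊥ : Subgroup H) ⊤ := by
  obtain ⟨H, hH, hmin⟩ := (Set.toFinite {X : Subgroup G | ¬ RLp p n ⊥ X}).exists_minimal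
    ⟨⊤, hn⟩
  have hbot : ∀ X : Subgroup H, (X.map H.subtype).comap H.subtype = X := by
    intro X
    exact Subgroup.comap_map_eq_self_of_injective H.subtype_injective X
  have hnH : ¬ RLp p n (⊥ : Subgroup H) ⊤ := by
    intro h
    apply hH
    have h1 := h.map H.subtype
    rwa [Subgroup.map_bot, ← MonoidHom.range_eq_map, Subgroup.range_subtype] at h1
  refine ⟨H, ?_, hnH⟩
  refine critical_solvable (p := p) (Nat.card H) H le_rfl n ?_ hnH ?_
  · obtain ⟨N, hN⟩ := hps
    refine ⟨N, ?_⟩
    have h1 := hN.comap H.subtype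
    rwa [Subgroup.comap_top, MonoidHom.comap_bot, Subgroup.ker_subtype] at h1
  · intro X hX
    by_contra hcon
    apply hX
    have h1 : X.map H.subtype ∈ {X : Subgroup G | ¬ RLp p n ⊥ X} := by
      intro h
      apply hcon
      have h2 := h.comap H.subtype
      rwa [hbot, MonoidHom.comap_bot, Subgroup.ker_subtype] at h2
    have h2 : X.map H.subtype ≤ H := Subgroup.map_subtype_le X
    have h3 := hmin h1 h2
    rw [eq_top_iff]
    intro x _
    have h4 := h3 x.2
    obtain ⟨y, hy, hyx⟩ := h4
    have h5 : y = x := Subtype.ext hyx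
    rwa [h5] at hy

end Pool.Agent.R683.Crit
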