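import Pool.Agent.R683.Affine

/-!
# Abelian `p`-groups with an affine full cycle are cyclic or of order four
-/

set_option autoImplicit false

namespace Pool.Agent.R683.FullCycle

open Pool.Agent.R683.Affine
open Polynomial in
lemma geom_X (p : ℕ) [Fact p.Prime] (e : ℕ) :
    ∑ i ∈ Finset.range (p ^ e), (X : (ZMod p)[X]) ^ i = (X - 1) ^ (p ^ e - 1) := by
  have h1 : (X - 1 : (ZMod p)[X]) ≠ 0 := X_sub_C_ne_zero (1 : ZMod p)
  apply mul_left_cancel₀ h1
  rw [mul_comm, geom_sum_mul, ← pow_succ', Nat.sub_add_cancel (Nat.one_le_pow _ _ (Fact.out : p.Prime).pos),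
    sub_pow_char_pow, one_pow]

/-- the geometric sum of a unipotent operator vanishes -/
lemma geom_sum_eq_zero {p : ℕ} [hp : Fact p.Prime] {M : Type*} [AddCommGroup M] [Module (ZMod p) M]
    [Module.Finite (ZMod p) M] (W : Module.End (ZMod p) M) (m : ℕ) (hW : W ^ p ^ m = 1) (e : ℕ)
    (he : Module.finrank (ZMod p) M < p ^ e) : ∑ i ∈ Finset.range (p ^ e), W ^ i = 0 := by
  have h1 : ∑ i ∈ Finset.range (p ^ e), W ^ i = (W - 1) ^ (p ^ e - 1) := by
    have := congrArg (Polynomial.aeval W) (geom_X p e)
    simpa using this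
  have h2 : (W - 1) ^ p ^ m = 0 := by
    have h3 : (Polynomial.X - 1 : Polynomial (ZMod p)) ^ p ^ m = Polynomial.X ^ p ^ m - 1 := by
      rw [sub_pow_char_pow, one_pow]
    have := congrArg (Polynomial.aeval W) h3
    simpa [hW] using this
  have h3 : (W - 1) ^ Module.finrank (ZMod p) M = 0 := by
    have := Module.End.ker_pow_le_ker_pow_finrank (W - 1) (p ^ m)
    rw [h2] at this
    apply LinearMap.ext
    intro x
    have hx : x ∈ LinearMap.ker (0 : Module.End (ZMod p) M) := by simp
    exact this hx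
  rw [h1]
  exact pow_eq_zero_of_le (by omega) h3

/-- unipotent operators in dimension two over the field with two elements -/
lemma sq_eq_one {M : Type*} [AddCommGroup M] [Module (ZMod 2) M]
    [Module.Finite (ZMod 2) M] (W : Module.End (ZMod 2) M) (m : ℕ) (hW : W ^ 2 ^ m = 1)
    (hd : Module.finrank (ZMod 2) M = 2) : W ^ 2 = 1 := by
  have h2 : (W - 1) ^ 2 ^ m = 0 := by
    have h3 : (Polynomial.X - 1 : Polynomial (ZMod 2)) ^ 2 ^ m = Polynomial.X ^ 2 ^ m - 1 := by
      rw [sub_pow_char_pow, one_pow]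
    have := congrArg (Polynomial.aeval W) h3
    simpa [hW] using this
  have h3 : (W - 1) ^ 2 = 0 := by
    have := Module.End.ker_pow_le_ker_pow_finrank (W - 1) (2 ^ m)
    rw [h2, hd] at this
    apply LinearMap.ext
    intro x
    have hx : x ∈ LinearMap.ker (0 : Module.End (ZMod 2) M) := by simp
    exact this hx
  have h4 : (Polynomial.X - 1 : Polynomial (ZMod 2)) ^ 2 = Polynomial.X ^ 2 - 1 := by
    rw [sub_pow_char, one_pow]
  have h5 := congrArg (Polynomial.aeval W) h4
  simp only [map_pow, map_sub, Polynomial.aeval_X, map_one] at h5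
  rw [h3] at h5
  exact (sub_eq_zero.mp h5.symm)

section transitive

variable {V : Type*} [Finite V]

/-- the permutation `B` acts transitively, as seen from `v₀` -/
def Trans {V : Type*} (B : Equiv.Perm V) (v₀ : V) : Prop := ∀ v : V, ∃ k : ℕ, (B ^ k) v₀ = v

lemma Trans.pow_eq {B : Equiv.Perm V} {v₀ : V} (h : Trans B v₀) (k : ℕ) :
    (B ^ k) v₀ = v₀ ↔ Nat.card V ∣ k := by
  have h0 : Nat.card V = Function.minimalPeriod B v₀ := by
    have hpos : 0 < Function.minimalPeriod B v₀ := by
      apply Function.IsPeriodicPt.minimalPeriod_pos (orderOf_pos B)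
      show (B^[orderOf B]) v₀ = v₀
      rw [Equiv.Perm.iterate_eq_pow, pow_orderOf_eq_one]; rfl
    apply le_antisymm
    · have hsurj : Function.Surjective
          (fun i : Fin (Function.minimalPeriod B v₀) => (B ^ (i : ℕ)) v₀) := by
        intro v
        obtain ⟨k, hk⟩ := h v
        refine ⟨⟨k % Function.minimalPeriod B v₀, Nat.mod_lt _ hpos⟩, ?_⟩
        show (B ^ (k % Function.minimalPeriod B v₀)) v₀ = v
        rw [← hk, ← Equiv.Perm.iterate_eq_pow, ← Equiv.Perm.iterate_eq_pow,
          Function.iterate_mod_minimalPeriod_eq]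
      have := Nat.card_le_card_of_surjective _ hsurj
      rwa [Nat.card_fin] at this
    · have hinj : Function.Injective
          (fun i : Fin (Function.minimalPeriod B v₀) => (B ^ (i : ℕ)) v₀) := by
        intro i j hij
        have h1 : (B^[(i : ℕ)]) v₀ = (B^[(j : ℕ)]) v₀ := by
          rw [Equiv.Perm.iterate_eq_pow, Equiv.Perm.iterate_eq_pow]; exact hij
        exact Fin.ext ((Function.iterate_injOn_Iio_minimalPeriod) i.2 j.2 h1)
      have := Nat.card_le_card_of_injective _ hinj
      rwa [Nat.card_fin] at this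
  rw [h0, ← Function.isPeriodicPt_iff_minimalPeriod_dvd, Function.IsPeriodicPt,
    Function.IsFixedPt, Equiv.Perm.iterate_eq_pow]

lemma Trans.pow_card {B : Equiv.Perm V} {v₀ : V} (h : Trans B v₀) : B ^ Nat.card V = 1 := by
  apply Equiv.ext
  intro v
  obtain ⟨k, rfl⟩ := h v
  rw [← Equiv.Perm.mul_apply, ← pow_add, add_comm, pow_add, Equiv.Perm.mul_apply,
    (h.pow_eq _).mpr dvd_rfl]
  rfl

end transitive

section cyclic

variable {V : Type*} [CommGroup V] [Finite V]

lemma isCyclic_of_card_le {p : ℕ} [hp : Fact p.Prime] (hV : IsPGroup p V)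
    (h : Nat.card {x : V // x ^ p = 1} ≤ p) : IsCyclic V := by
  classical
  have := Fintype.ofFinite V
  have key : ∀ n : ℕ, 0 < n → Nat.card {x : V // x ^ n = 1} ≤ n := by
    intro n
    induction n using Nat.strong_induction_on with
    | _ n ih =>
      intro hn
      by_cases hpn : p ∣ n
      · obtain ⟨m, rfl⟩ := hpn
        have hm : 0 < m := by
          rcases Nat.eq_zero_or_pos m with h0 | h0
          · subst h0; simp at hn
          · exact h0
        have hlt : m < p * m := by
          have := hp.out.one_lt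
          nlinarith
        have ihm := ih m hlt hm
        -- the fibres of the `p`-th power map
        let f : {x : V // x ^ (p * m) = 1} → {x : V // x ^ m = 1} :=
          fun x => ⟨x.1 ^ p, by rw [← pow_mul]; exact x.2⟩
        have h1 : Nat.card {x : V // x ^ (p * m) = 1} ≤
            Nat.card ({x : V // x ^ m = 1} × {x : V // x ^ p = 1}) := by
          -- choose preimages
          let g : {x : V // x ^ m = 1} → V := fun y =>
            if h : ∃ x : {x : V // x ^ (p * m) = 1}, f x = y then (Classical.choose h).1 else 1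
          have hg : ∀ x : {x : V // x ^ (p * m) = 1}, (g (f x)) ^ p = x.1 ^ p := by
            intro x
            have hex : ∃ x' : {x : V // x ^ (p * m) = 1}, f x' = f x := ⟨x, rfl⟩
            have h2 : g (f x) = (Classical.choose hex).1 := dif_pos hex
            rw [h2]
            exact congrArg Subtype.val (Classical.choose_spec hex)
          let F : {x : V // x ^ (p * m) = 1} → ({x : V // x ^ m = 1} × {x : V // x ^ p = 1}) :=
            fun x => (f x, ⟨(g (f x))⁻¹ * x.1, by
              rw [mul_pow, inv_pow, hg x, inv_mul_cancel]⟩)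
          apply Nat.card_le_card_of_injective F
          intro x y hxy
          have h2 : f x = f y := congrArg Prod.fst hxy
          have h3 : (g (f x))⁻¹ * x.1 = (g (f y))⁻¹ * y.1 :=
            congrArg Subtype.val (congrArg Prod.snd hxy)
          rw [h2] at h3
          exact Subtype.ext (mul_left_cancel h3)
        rw [Nat.card_prod] at h1
        calc Nat.card {x : V // x ^ (p * m) = 1}
            ≤ Nat.card {x : V // x ^ m = 1} * Nat.card {x : V // x ^ p = 1} := h1
          _ ≤ m * p := Nat.mul_le_mul ihm h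
          _ = p * m := mul_comm _ _
      · have h1 : Subsingleton {x : V // x ^ n = 1} := by
          refine ⟨fun x y => ?_⟩
          have h2 : ∀ z : V, z ^ n = 1 → z = 1 := by
            intro z hz
            obtain ⟨k, hk⟩ := IsPGroup.iff_orderOf.mp hV z
            have h3 : orderOf z ∣ n := orderOf_dvd_of_pow_eq_one hz
            rw [hk] at h3
            have h4 : k = 0 := by
              by_contra hk0
              exact hpn ((dvd_pow_self p hk0).trans h3)
            rw [h4, pow_zero] at hk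
            exact orderOf_eq_one_iff.mp hk
          apply Subtype.ext
          rw [h2 _ x.2, h2 _ y.2]
        have : Nat.card {x : V // x ^ n = 1} ≤ 1 := Finite.card_le_one_iff_subsingleton.mpr h1
        omega
  apply isCyclic_of_card_pow_eq_one_le
  intro n hn
  have h1 := key n hn
  rw [Nat.card_eq_fintype_card, Fintype.card_subtype] at h1
  exact h1

end cyclic

section main

/-- the linear algebra part -/
lemma core' {p : ℕ} [hp : Fact p.Prime] {M : Type*} [AddCommGroup M] [Finite M]
    [Module (ZMod p) M] (h : ∀ x : M, p • x = 0) (f : M →+ M) (m : ℕ) (hf : ∀ x, f^[p ^ m] x = x) (c : M) (s : ℕ)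
    (hs : s ∣ p ^ m)
    (hord : ∀ j, ∑ i ∈ Finset.range j, f^[s * i] c = 0 ↔ Nat.card M ∣ j) :
    ∃ d, Nat.card M = p ^ d ∧ (d ≤ 1 ∨ (p = 2 ∧ d = 2 ∧ s = 1)) := by
  have : Module.Finite (ZMod p) M := Module.Finite.of_finite
  let U : M →ₗ[ZMod p] M := f.toZModLinearMap p
  have hU : ∀ x, U x = f x := fun x => rfl
  have hUpow : ∀ k : ℕ, ∀ x, (U ^ k) x = f^[k] x := by
    intro k x
    rw [Module.End.pow_apply]; rfl
  have hcardM : Nat.card M = p ^ Module.finrank (ZMod p) M := by
    have h1 := Module.natCard_eq_pow_finrank (K := ZMod p) (V := M)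
    rw [Nat.card_zmod] at h1
    exact h1
  refine ⟨Module.finrank (ZMod p) M, hcardM, ?_⟩
  set d := Module.finrank (ZMod p) M with hd
  have hord' : ∀ j, (∑ i ∈ Finset.range j, (U ^ s) ^ i) c = 0 ↔ Nat.card M ∣ j := by
    intro j
    rw [← hord j, LinearMap.sum_apply]
    have : ∀ i ∈ Finset.range j, ((U ^ s) ^ i) c = f^[s * i] c := by
      intro i _
      rw [← pow_mul, hUpow]
    rw [Finset.sum_congr rfl this]
  have hUm : U ^ p ^ m = 1 := by
    apply LinearMap.ext
    intro x
    rw [hUpow, hf]; rfl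
  have hUsm : (U ^ s) ^ p ^ m = 1 := by
    rw [← pow_mul, mul_comm, pow_mul, hUm, one_pow]
  have hp2 := hp.out.two_le
  have hdle : d ≤ 1 ∨ (p = 2 ∧ d = 2) := by
    by_contra hcon
    push Not at hcon
    obtain ⟨h1, h2⟩ := hcon
    have h3 : d < p ^ (d - 1) := by
      by_cases hd2 : d = 2
      · have : p ≠ 2 := fun h => h2 h hd2
        rw [hd2]
        show 2 < p ^ 1
        rw [pow_one]
        omega
      · have h4 : ∀ n : ℕ, 3 ≤ n → n < 2 ^ (n - 1) := by
          intro n hn
          induction n, hn using Nat.le_induction with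
          | base => norm_num
          | succ n hn ih =>
            have h5 : n + 1 - 1 = (n - 1) + 1 := by omega
            rw [h5, pow_succ]
            omega
        exact (h4 d (by omega)).trans_le (Nat.pow_le_pow_left hp2 _)
    have h4 := geom_sum_eq_zero (U ^ s) m hUsm (d - 1) h3
    have h6 := (hord' (p ^ (d - 1))).mp (by rw [h4]; rfl)
    rw [hcardM, Nat.pow_dvd_pow_iff_le_right hp.out.one_lt] at h6
    omega
  rcases hdle with h1 | ⟨rfl, h1⟩
  · exact Or.inl h1
  · right
    refine ⟨rfl, h1, ?_⟩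
    have hU2 : U ^ 2 = 1 := sq_eq_one U m hUm h1
    -- `s` is odd
    have hsodd : ¬ 2 ∣ s := by
      rintro ⟨t, ht2⟩
      have h3 : U ^ s = 1 := by rw [ht2, pow_mul, hU2, one_pow]
      have h5 := (hord' 2).mp (by
        rw [Finset.sum_range_succ, Finset.sum_range_one, pow_zero, pow_one, h3]
        show c + c = 0
        rw [← two_nsmul]
        exact h c)
      rw [hcardM, h1] at h5
      norm_num at h5
    obtain ⟨k, _, hk⟩ := (Nat.dvd_prime_pow Nat.prime_two).mp hs
    rcases Nat.eq_zero_or_pos k with h4 | h4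
    · rw [hk, h4, pow_zero]
    · exact absurd (hk ▸ dvd_pow_self 2 h4.ne') hsodd

/-- the linear algebra part -/
lemma core {p : ℕ} [hp : Fact p.Prime] {M : Type*} [AddCommGroup M] [Finite M]
    (h : ∀ x : M, p • x = 0) (f : M →+ M) (m : ℕ) (hf : ∀ x, f^[p ^ m] x = x) (c : M) (s : ℕ)
    (hs : s ∣ p ^ m)
    (hord : ∀ j, ∑ i ∈ Finset.range j, f^[s * i] c = 0 ↔ Nat.card M ∣ j) :
    ∃ d, Nat.card M = p ^ d ∧ (d ≤ 1 ∨ (p = 2 ∧ d = 2 ∧ s = 1)) := by
  let _ := AddCommGroup.zmodModule h
  exact core' h f m hf c s hs hord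

variable {V : Type*} [CommGroup V] [Finite V]

/-- A finite abelian `p`-group with a transitive affine permutation is cyclic or of order four. -/
theorem cyclic_or_four {p : ℕ} [hp : Fact p.Prime] (hV : IsPGroup p V) (B : Equiv.Perm V)
    (u : MulAut V) (hB : HasLin B u) (ht : Trans B 1) : IsCyclic V ∨ (p = 2 ∧ Nat.card V = 4) := by
  let Ω : Subgroup V := (powMonoidHom p : V →* V).ker
  have hΩ : ∀ x, x ∈ Ω ↔ x ^ p = 1 := fun x => Iff.rfl
  have hi : Inv u Ω := by
    intro x
    rw [hΩ, hΩ, ← map_pow]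
    exact map_eq_one_iff u u.injective
  set s := Nat.card (V ⧸ Ω) with hs
  have hcardV : s * Nat.card Ω = Nat.card V := card_quot Ω
  have hs0 : 0 < s := Nat.card_pos
  have htq : Trans (qperm B u Ω hi) (1 : V ⧸ Ω) := by
    intro y
    obtain ⟨y, rfl⟩ := QuotientGroup.mk_surjective y
    obtain ⟨k, hk⟩ := ht y
    refine ⟨k, ?_⟩
    rw [← QuotientGroup.mk_one, qperm_pow_mk hB, hk]
  have hkΩ : ∀ k : ℕ, (B ^ k) 1 ∈ Ω ↔ s ∣ k := by
    intro k
    rw [← htq.pow_eq k, ← QuotientGroup.mk_one, qperm_pow_mk hB, QuotientGroup.mk_one,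
      QuotientGroup.eq_one_iff]
  have hcΩ : (B ^ s) 1 ∈ Ω := (hkΩ s).mpr dvd_rfl
  have hord : ∀ j : ℕ, ((B ^ s) ^ j) 1 = 1 ↔ Nat.card Ω ∣ j := by
    intro j
    rw [← pow_mul, ht.pow_eq, ← hcardV]
    exact Nat.mul_dvd_mul_iff_left hs0
  let ures : Ω →* Ω :=
    { toFun := fun x => ⟨u x, (hi x).mpr x.2⟩
      map_one' := Subtype.ext (map_one u)
      map_mul' := fun x y => Subtype.ext (map_mul u _ _) }
  let f : Additive Ω →+ Additive Ω := MonoidHom.toAdditive ures
  have hUpow : ∀ k : ℕ, ∀ x : Additive Ω, ((f^[k] x).toMul : V) = (u ^ k) (x.toMul : V) := by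
    intro k
    induction k with
    | zero => intro x; rfl
    | succ k ih =>
      intro x
      rw [Function.iterate_succ_apply, ih, pow_succ, MulAut.mul_apply]; rfl
  let c : Ω := ⟨(B ^ s) 1, hcΩ⟩
  have horb : ∀ j : ℕ, ((∑ i ∈ Finset.range j, f^[s * i] (Additive.ofMul c)).toMul : V) =
      ((B ^ s) ^ j) 1 := by
    intro j
    induction j with
    | zero => rfl
    | succ j ih =>
      rw [Finset.sum_range_succ, toMul_add, Subgroup.coe_mul, ih, hUpow]
      have h1 := ((hB.pow s).pow j) 1 c
      rw [one_mul, ← pow_mul] at h1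
      rw [pow_succ, Equiv.Perm.mul_apply]
      show ((B ^ s) ^ j) 1 * (u ^ (s * j)) c = ((B ^ s) ^ j) c
      rw [← pow_mul, h1, ← pow_mul]
  obtain ⟨m, hm⟩ := IsPGroup.iff_card.mp hV
  have hupow : u ^ p ^ m = 1 := by
    have h1 := ht.pow_card
    rw [hm] at h1
    exact (hB.pow (p ^ m)).eq_one h1
  obtain ⟨d, hd, hcase⟩ := core (p := p) (M := Additive Ω) (by
      intro x
      have hx : (Additive.toMul x : Ω) ^ p = 1 := Subtype.ext (Additive.toMul x).2
      exact hx) f m (by
      intro x
      apply Additive.toMul.injective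
      apply Subtype.ext
      rw [hUpow, hupow]; rfl) (Additive.ofMul c) s (by rw [← hm, ← hcardV]; exact Dvd.intro _ rfl)
    (by
      intro j
      have h1 := hord j
      rw [← horb j] at h1
      rw [show Nat.card (Additive Ω) = Nat.card Ω from rfl, ← h1]
      constructor
      · intro h2; rw [h2]; rfl
      · intro h2
        apply Additive.toMul.injective
        exact Subtype.ext h2)
  have hd' : Nat.card Ω = p ^ d := hd
  rcases hcase with h1 | ⟨rfl, h1, h2⟩
  · left
    apply isCyclic_of_card_le hV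
    have h2 : Nat.card {x : V // x ^ p = 1} = Nat.card Ω := rfl
    rw [h2, hd']
    calc p ^ d ≤ p ^ 1 := Nat.pow_le_pow_right hp.out.pos h1
      _ = p := pow_one p
  · right
    refine ⟨rfl, ?_⟩
    rw [← hcardV, h2, one_mul, hd', h1]
    norm_num

end main

end Pool.Agent.R683.FullCycle
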