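import Pool.Agent.R683.Affine
import Pool.Agent.R683.FullCycle

/-!
# Solvable groups with a large affine permutation are metabelian
-/

set_option autoImplicit false

namespace Pool.Agent.R683.Derived

open scoped commutatorElement
open Pool.Agent.R683.Affine Pool.Agent.R683.FullCycle

universe u

/-- In a finite nilpotent group, a subgroup that covers the abelianization is everything. -/
lemma eq_top_of_sup_commutator {G : Type*} [Group G] [Finite G] [Group.IsNilpotent G]
    (C : Subgroup G) (h : C ⊔ commutator G = ⊤) : C = ⊤ := by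
  by_contra hC
  obtain ⟨M, hM, hCM⟩ := (eq_top_or_exists_le_coatom C).resolve_left hC
  have hMn : M.Normal :=
    Subgroup.NormalizerCondition.normal_of_coatom M Group.normalizerCondition_of_isNilpotent hM
  -- the quotient is simple and nilpotent, so abelian
  have hle : commutator G ≤ M := by
    have hnt : Nontrivial (G ⧸ M) := by
      rw [QuotientGroup.nontrivial_iff]
      exact hM.1
    have hlt : commutator (G ⧸ M) < ⊤ := Group.IsSolvable.commutator_lt_top_of_nontrivial (G ⧸ M)
    have hsurj := QuotientGroup.mk'_surjective M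
    have h1 : M ≤ (commutator (G ⧸ M)).comap (QuotientGroup.mk' M) := by
      intro x hx
      rw [Subgroup.mem_comap, QuotientGroup.mk'_apply, (QuotientGroup.eq_one_iff x).mpr hx]
      exact one_mem _
    have h2 : (commutator (G ⧸ M)).comap (QuotientGroup.mk' M) ≠ ⊤ := by
      intro h3
      apply hlt.ne
      apply Subgroup.comap_injective hsurj
      rw [h3, Subgroup.comap_top]
    have h3 : (commutator (G ⧸ M)).comap (QuotientGroup.mk' M) = M := by
      by_contra hne
      exact h2 (hM.2 _ (lt_of_le_of_ne h1 (Ne.symm hne)))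
    have h4 : commutator G ≤ (commutator (G ⧸ M)).comap (QuotientGroup.mk' M) := by
      rw [← Subgroup.map_le_iff_le_comap, commutator_def, commutator_def, Subgroup.map_commutator]
      exact Subgroup.commutator_mono le_top le_top
    rw [h3] at h4
    exact h4
  apply hM.1
  rw [eq_top_iff, ← h]
  exact sup_le hCM hle

/-- the induced map on the abelianization -/
noncomputable def ab {G : Type*} [Group G] (A : Equiv.Perm G) (α : MulAut G) :
    Equiv.Perm (Abelianization G) :=
  (MulEquiv.abelianizationCongr α).toEquiv.trans (Equiv.mulLeft (Abelianization.of (A 1)))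

lemma ab_hasLin {G : Type*} [Group G] (A : Equiv.Perm G) (α : MulAut G) :
    HasLin (ab A α) (MulEquiv.abelianizationCongr α) := by
  intro x y
  show Abelianization.of (A 1) * (MulEquiv.abelianizationCongr α) (x * y) = Abelianization.of (A 1)
    * (MulEquiv.abelianizationCongr α) x * (MulEquiv.abelianizationCongr α) y
  rw [map_mul, mul_assoc]

lemma ab_of {G : Type*} [Group G] {A : Equiv.Perm G} {α : MulAut G} (hA : HasLin A α) (x : G) :
    ab A α (Abelianization.of x) = Abelianization.of (A x) := by
  show Abelianization.of (A 1) * (MulEquiv.abelianizationCongr α) (Abelianization.of x) = _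
  rw [abelianizationCongr_of, ← map_mul, ← hA, one_mul]

lemma ab_pow {G : Type*} [Group G] {A : Equiv.Perm G} {α : MulAut G} (hA : HasLin A α) (k : ℕ)
    (x : G) : (ab A α ^ k) (Abelianization.of x) = Abelianization.of ((A ^ k) x) := by
  induction k with
  | zero => rfl
  | succ k ih => rw [pow_succ', pow_succ', Equiv.Perm.mul_apply, ih, ab_of hA]; rfl

/-- a finite nilpotent group with cyclic abelianization is commutative -/
lemma comm_of_cyclic_ab {H : Type*} [Group H] [Finite H] [Group.IsNilpotent H]
    (hcyc : IsCyclic (Abelianization H)) : ∀ x y : H, x * y = y * x := by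
  obtain ⟨g, hg⟩ := hcyc.exists_generator
  obtain ⟨h, rfl⟩ : ∃ h, Abelianization.of h = g := QuotientGroup.mk'_surjective _ g
  have htop : Subgroup.zpowers h = ⊤ := by
    apply eq_top_of_sup_commutator
    rw [eq_top_iff]
    intro x _
    obtain ⟨k, hk⟩ := hg (Abelianization.of x)
    have hk' : Abelianization.of h ^ k = Abelianization.of x := hk
    have h1 : (h ^ k)⁻¹ * x ∈ commutator H := by
      rw [← Abelianization.ker_of, MonoidHom.mem_ker, map_mul, map_inv, map_zpow, hk',
        inv_mul_cancel]
    have h2 : x = h ^ k * ((h ^ k)⁻¹ * x) := by group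
    rw [h2]
    exact mul_mem (Subgroup.mem_sup_left ⟨k, rfl⟩) (Subgroup.mem_sup_right h1)
  intro x y
  have hx : x ∈ Subgroup.zpowers h := by rw [htop]; trivial
  have hy : y ∈ Subgroup.zpowers h := by rw [htop]; trivial
  obtain ⟨i, rfl⟩ := hx
  obtain ⟨j, rfl⟩ := hy
  show h ^ i * h ^ j = h ^ j * h ^ i
  rw [← zpow_add, ← zpow_add, add_comm]

/-- normal subgroups of order two are central -/
lemma central_of_card_two {G : Type*} [Group G] {N : Subgroup G} [hn : N.Normal]
    (h : Nat.card N = 2) : ∀ n ∈ N, ∀ g : G, g * n = n * g := by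
  intro n hnN g
  by_cases h1 : n = 1
  · subst h1; simp
  have h2 : g * n * g⁻¹ ∈ N := hn.conj_mem n hnN g
  have h3 : g * n * g⁻¹ ≠ 1 := by
    intro h4
    apply h1
    have : n = g⁻¹ * (g * n * g⁻¹) * g := by group
    rw [this, h4]; group
  rw [Nat.card_eq_two_iff] at h
  obtain ⟨a, b, hab, huniv⟩ := h
  have huniv' : ∀ x : N, x = a ∨ x = b := by
    intro x
    have : x ∈ ({a, b} : Set N) := by rw [huniv]; trivial
    exact this
  have key : (⟨g * n * g⁻¹, h2⟩ : N) = ⟨n, hnN⟩ := by
    have h1' : (⟨n, hnN⟩ : N) ≠ 1 := fun h => h1 (congrArg Subtype.val h)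
    have h3' : (⟨g * n * g⁻¹, h2⟩ : N) ≠ 1 := fun h => h3 (congrArg Subtype.val h)
    rcases huniv' ⟨g * n * g⁻¹, h2⟩ with e1 | e1 <;> rcases huniv' ⟨n, hnN⟩ with e2 | e2 <;>
      rcases huniv' 1 with e3 | e3 <;> simp_all
  have h5 : g * n * g⁻¹ = n := congrArg Subtype.val key
  calc g * n = g * n * g⁻¹ * g := by group
    _ = n * g := by rw [h5]

/-- a permutation whose order is a prime power has a cycle of that length -/
lemma exists_long_cycle {X : Type*} [Finite X] (A : Equiv.Perm X) {p a : ℕ} (hp : p.Prime)
    (ha : orderOf A = p ^ a) [Nonempty X] :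
    ∃ x, ∀ i < p ^ a, ∀ j < p ^ a, (A ^ i) x = (A ^ j) x → i = j := by
  have key : ∃ x, Function.minimalPeriod A x = p ^ a := by
    rcases Nat.eq_zero_or_pos a with h0 | h0
    · subst h0
      rw [pow_zero, orderOf_eq_one_iff] at ha
      obtain ⟨x⟩ := ‹Nonempty X›
      refine ⟨x, ?_⟩
      rw [pow_zero, Function.minimalPeriod_eq_one_iff_isFixedPt, ha]; rfl
    · have h1 : A ^ p ^ (a - 1) ≠ 1 := by
        intro h
        have h2 := orderOf_dvd_of_pow_eq_one h
        rw [ha, Nat.pow_dvd_pow_iff_le_right hp.one_lt] at h2
        omega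
      obtain ⟨x, hx⟩ : ∃ x, (A ^ p ^ (a - 1)) x ≠ x := by
        by_contra hcon
        push Not at hcon
        exact h1 (Equiv.ext hcon)
      refine ⟨x, ?_⟩
      have h2 : Function.minimalPeriod A x ∣ p ^ a := by
        apply Function.IsPeriodicPt.minimalPeriod_dvd
        show (A^[p ^ a]) x = x
        rw [Equiv.Perm.iterate_eq_pow, ← ha, pow_orderOf_eq_one]; rfl
      obtain ⟨k, hk, hk2⟩ := (Nat.dvd_prime_pow hp).mp h2
      have h3 : k = a := by
        by_contra hne
        apply hx
        have h4 : Function.minimalPeriod A x ∣ p ^ (a - 1) := by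
          rw [hk2]
          exact pow_dvd_pow p (by omega)
        have h5 : Function.IsPeriodicPt A (p ^ (a - 1)) x :=
          Function.isPeriodicPt_iff_minimalPeriod_dvd.mpr h4
        have h6 : (A^[p ^ (a - 1)]) x = x := h5
        rwa [Equiv.Perm.iterate_eq_pow] at h6
      rw [hk2, h3]
  obtain ⟨x, hx⟩ := key
  refine ⟨x, fun i hi j hj hij => ?_⟩
  rw [← Equiv.Perm.iterate_eq_pow, ← Equiv.Perm.iterate_eq_pow] at hij
  rw [← hx] at hi hj
  exact Function.iterate_injOn_Iio_minimalPeriod hi hj hij

/-- If the derived subgroup is a `p`-group, some affine permutation of it is transitive. -/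
lemma exists_trans {G : Type u} [Group G] [Finite G] [Group.IsSolvable G] {A : Equiv.Perm G}
    {α : MulAut G} (hA : HasLin A α) (hl : Nat.card G < 2 * orderOf A) {p a : ℕ} (hp : p.Prime)
    (ha : Nat.card (commutator G) = p ^ a) :
    ∃ (B : Equiv.Perm (commutator G)) (u : MulAut (commutator G)), HasLin B u ∧ Trans B 1 := by
  set s := ordM A α (commutator G) (inv_commutator α) with hs
  have h1 := order_eq_derived _ G rfl A α hA hl
  have h2 : orderOf A = s * orderOf (A ^ s) := orderOf_eq hA (inv_commutator α)
  have hs0 : 0 < s := ordM_pos _ _ _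
  have h3 : orderOf (A ^ s) = p ^ a := by
    rw [← ha]
    rw [h1] at h2
    exact (Nat.eq_of_mul_eq_mul_left hs0 h2).symm
  obtain ⟨x, hx⟩ := exists_long_cycle (A ^ s) hp h3
  have hspec : x⁻¹ * (A ^ s) x ∈ commutator G := ordM_spec hA _ (inv_commutator α) x
  let u : MulAut (commutator G) := MulAut.characteristic (commutator G) (α ^ s)
  let B : Equiv.Perm (commutator G) :=
    u.toEquiv.trans (Equiv.mulLeft ⟨x⁻¹ * (A ^ s) x, hspec⟩)
  have hB : HasLin B u := HasLin.of_formula (t := ⟨x⁻¹ * (A ^ s) x, hspec⟩) (fun _ => rfl)
  have hB1 : ∀ h : commutator G, (B h : G) = x⁻¹ * (A ^ s) (x * h) := by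
    intro h
    show x⁻¹ * (A ^ s) x * (α ^ s) h = _
    rw [(hA.pow s), mul_assoc]
  have hBk : ∀ (k : ℕ) (h : commutator G), ((B ^ k) h : G) = x⁻¹ * ((A ^ s) ^ k) (x * h) := by
    intro k
    induction k with
    | zero => intro h; simp
    | succ k ih =>
      intro h
      rw [pow_succ', Equiv.Perm.mul_apply, hB1, ih, mul_inv_cancel_left, pow_succ',
        Equiv.Perm.mul_apply]
  refine ⟨B, u, hB, ?_⟩
  -- the orbit of `1` is everything
  have hinj : Function.Injective (fun i : Fin (p ^ a) => (B ^ (i : ℕ)) 1) := by
    intro i j hij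
    have h4 : ((B ^ (i : ℕ)) 1 : G) = ((B ^ (j : ℕ)) 1 : G) := congrArg Subtype.val hij
    rw [hBk, hBk, Subgroup.coe_one, mul_one] at h4
    exact Fin.ext (hx i i.2 j j.2 (mul_left_cancel h4))
  have hbij : Function.Bijective (fun i : Fin (p ^ a) => (B ^ (i : ℕ)) 1) := by
    have := Fintype.ofFinite (commutator G)
    rw [Fintype.bijective_iff_injective_and_card]
    refine ⟨hinj, ?_⟩
    rw [Fintype.card_fin, ← Nat.card_eq_fintype_card, ha]
  intro h
  obtain ⟨i, hi⟩ := hbij.2 h
  exact ⟨i, hi⟩

lemma inv_derived {G : Type*} [Group G] (α : MulAut G) (n : ℕ) : Inv α (derivedSeries G n) :=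
  inv_of_characteristic α _ inferInstance

/-- Finite solvable groups with an affine permutation of order more than half of the group order
are metabelian. -/
theorem metabelian (n : ℕ) : ∀ (G : Type u) [Group G] [Finite G] [Group.IsSolvable G],
    Nat.card G = n → ∀ (A : Equiv.Perm G) (α : MulAut G) (_ : HasLin A α),
    Nat.card G < 2 * orderOf A → derivedSeries G 2 = ⊥ := by
  induction n using Nat.strong_induction_on with
  | _ n ih =>
    intro G _ _ _ hG A α hA hl
    by_contra hD
    -- the minimality
    have hmin : ∀ M : Subgroup G, M.Normal → Inv α M → M ≠ ⊥ → derivedSeries G 2 ≤ M := by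
      intro M _ hMi hM
      have hcard : Nat.card (G ⧸ M) * Nat.card M = n := by rw [card_quot, hG]
      have hN1 : 1 < Nat.card M := by
        rw [Subgroup.one_lt_card_iff_ne_bot]; exact hM
      have hlt : Nat.card (G ⧸ M) < n := by
        have h1 : 0 < Nat.card (G ⧸ M) := Nat.card_pos
        nlinarith
      have h1 := ih _ hlt (G ⧸ M) rfl (qperm A α M hMi) (qaut α M hMi) (qperm_hasLin A M hMi)
        (large_quot hA M hMi hl)
      have h2 := map_derivedSeries_eq (QuotientGroup.mk'_surjective M) 2
      rw [h1, Subgroup.map_eq_bot_iff, QuotientGroup.ker_mk'] at h2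
      exact h2
    set D := derivedSeries G 2 with hDdef
    have hDi : Inv α D := inv_derived α 2
    have hDmin : IsMin α D :=
      ⟨hD, inferInstance, hDi, fun K h1 h2 h3 h4 => le_antisymm h3 (hmin K h1 h2 h4)⟩
    have hDH : D ≤ commutator G := by
      rw [hDdef, ← derivedSeries_one]
      exact derivedSeries_antitone G (by norm_num)
    have hDHH : D = ⁅commutator G, commutator G⁆ := by
      rw [hDdef, derivedSeries_succ, derivedSeries_one]
    obtain ⟨hDp, -⟩ := hDmin.typeT_of_le hA hl hDH
    have hnil := nilpotent_commutator _ G rfl A α hA hl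
    set p := Nat.card D with hp
    -- the derived subgroup is a `p`-group
    have hprime : ∀ {r : ℕ}, r.Prime → r ∣ Nat.card (commutator G) → r = p := by
      intro r hr hrd
      have : Fact r.Prime := ⟨hr⟩
      let P : Sylow r (commutator G) := default
      have hPn : P.Normal := inferInstance
      have hPc : (P : Subgroup (commutator G)).Characteristic := P.characteristic_of_normal hPn
      have hPc' : ((P : Subgroup (commutator G)).map (commutator G).subtype).Characteristic :=
        inferInstance
      have hcardP : Nat.card ((P : Subgroup (commutator G)).map (commutator G).subtype) =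
          Nat.card P :=
        (Nat.card_congr ((P : Subgroup (commutator G)).equivMapOfInjective _
          (commutator G).subtype_injective).toEquiv).symm
      have hne : (P : Subgroup (commutator G)).map (commutator G).subtype ≠ ⊥ := by
        intro hbot
        rw [hbot, Subgroup.card_bot] at hcardP
        have h1 : r ∣ Nat.card P := P.dvd_card_of_dvd_card hrd
        rw [← hcardP] at h1
        exact hr.one_lt.ne' (Nat.dvd_one.mp h1)
      have h2 := hmin _ inferInstance (inv_of_characteristic α _ hPc') hne
      have h3 := Subgroup.card_dvd_of_le h2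
      rw [hcardP] at h3
      obtain ⟨k, hk⟩ := IsPGroup.iff_card.mp P.isPGroup'
      rw [show Nat.card P = r ^ k from hk] at h3
      exact ((Nat.prime_dvd_prime_iff_eq hDp hr).mp (hDp.dvd_of_dvd_pow h3)).symm
    have ha := Nat.eq_prime_pow_of_unique_prime_dvd (Nat.card_pos (α := commutator G)).ne' hprime
    set a := (Nat.card (commutator G)).primeFactorsList.length
    have : Fact p.Prime := ⟨hDp⟩
    have hHp : IsPGroup p (commutator G) := IsPGroup.of_card ha
    obtain ⟨B, u, hB, ht⟩ := exists_trans hA hl hDp ha
    -- the abelianization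
    have hsurj : Function.Surjective (Abelianization.of : commutator G →* _) :=
      QuotientGroup.mk'_surjective _
    have hVp : IsPGroup p (Abelianization (commutator G)) :=
      hHp.of_surjective Abelianization.of hsurj
    have htV : Trans (ab B u) 1 := by
      intro v
      obtain ⟨h, rfl⟩ := hsurj v
      obtain ⟨k, hk⟩ := ht h
      refine ⟨k, ?_⟩
      rw [← map_one Abelianization.of, ab_pow hB, hk]
    -- it suffices that the derived subgroup is commutative
    have hcomm : ¬ ∀ x y : commutator G, x * y = y * x := by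
      intro h
      apply hD
      rw [hDHH, Subgroup.commutator_eq_bot_iff_le_centralizer]
      intro x hx
      rw [Subgroup.mem_centralizer_iff]
      intro y hy
      exact congrArg Subtype.val (h ⟨y, hy⟩ ⟨x, hx⟩)
    rcases cyclic_or_four hVp (ab B u) _ (ab_hasLin B u) htV with hcyc | ⟨hp2, h4⟩
    · exact hcomm (comm_of_cyclic_ab hcyc)
    · -- the derived subgroup has order eight
      have hDcard : Nat.card (commutator (commutator G)) = Nat.card D := by
        rw [hDHH, ← Subgroup.map_subtype_commutator]
        exact Nat.card_congr ((commutator (commutator G)).equivMapOfInjective _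
          (commutator G).subtype_injective).toEquiv
      have hH8 : Nat.card (commutator G) = 8 := by
        have h1 := Subgroup.card_eq_card_quotient_mul_card_subgroup
          (commutator (commutator G))
        rw [hDcard] at h1
        have h2 : Nat.card (commutator G ⧸ commutator (commutator G)) = 4 := h4
        rw [h2, show Nat.card D = 2 from hp.symm.trans hp2] at h1
        exact h1
      have hD2 : Nat.card D = 2 := hp.symm.trans hp2
      have hDn : D.Normal := inferInstance
      -- a minimal subgroup of the quotient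
      have hquot : Nat.card (commutator (G ⧸ D)) = 4 := by
        have h1 := card_map_mk hDH
        rw [map_commutator_quot, hH8, hD2] at h1
        omega
      have hne : commutator (G ⧸ D) ≠ ⊥ := by
        intro h
        rw [h, Subgroup.card_bot] at hquot
        norm_num at hquot
      obtain ⟨W, hWle, hW⟩ := exists_isMin hne inferInstance (inv_commutator (qaut α D hDi))
      have hWn := hW.normal
      obtain ⟨hWp, -⟩ := hW.typeT_of_le (qperm_hasLin A D hDi) (large_quot hA D hDi hl) hWle
      have hW2 : Nat.card W = 2 := by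
        have h1 := Subgroup.card_dvd_of_le hWle
        rw [hquot, show (4 : ℕ) = 2 ^ 2 by norm_num] at h1
        exact (Nat.prime_dvd_prime_iff_eq hWp Nat.prime_two).mp (hWp.dvd_of_dvd_pow h1)
      let V₀ : Subgroup G := W.comap (QuotientGroup.mk' D)
      have hDV : D ≤ V₀ := by
        intro x hx
        rw [Subgroup.mem_comap, QuotientGroup.mk'_apply, (QuotientGroup.eq_one_iff x).mpr hx]
        exact one_mem _
      have hV4 : Nat.card V₀ = 4 := by
        rw [← card_map_mk hDV, Subgroup.map_comap_eq_self_of_surjective
          (QuotientGroup.mk'_surjective D), hW2, hD2]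
      have hVH : V₀ ≤ commutator G := by
        intro x hx
        have h1 : (x : G ⧸ D) ∈ commutator (G ⧸ D) := hWle hx
        rw [← map_commutator_quot, mem_map_mk hDH] at h1
        exact h1
      have hDc := central_of_card_two hD2
      have hWc := central_of_card_two hW2
      -- the derived subgroup centralizes `V₀`
      have hconj : ∀ v ∈ V₀, ∀ g : G, ∃ d ∈ D, g * v * g⁻¹ = v * d := by
        intro v hv g
        refine ⟨v⁻¹ * (g * v * g⁻¹), ?_, by group⟩
        rw [← QuotientGroup.eq_one_iff]
        have h1 := hWc (v : G ⧸ D) hv (g : G ⧸ D)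
        show ((v : G ⧸ D))⁻¹ * ((g : G ⧸ D) * (v : G ⧸ D) * (g : G ⧸ D)⁻¹) = 1
        rw [h1]; group
      have hcen : ∀ v ∈ V₀, ∀ h ∈ commutator G, h * v = v * h := by
        intro v hv h hh
        have hle : commutator G ≤ Subgroup.centralizer {v} := by
          rw [commutator_def, Subgroup.commutator_le]
          have key : ∀ g g' : G, ∀ d ∈ D, ∀ d' ∈ D, g * v * g⁻¹ = v * d → g' * v * g'⁻¹ = v * d' →
              (g * g') * v * (g * g')⁻¹ = v * (d * d') := by
            intro g g' d hd d' hd' h1 h2
            calc (g * g') * v * (g * g')⁻¹ = g * (g' * v * g'⁻¹) * g⁻¹ := by group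
              _ = g * (v * d') * g⁻¹ := by rw [h2]
              _ = (g * v * g⁻¹) * (g * d' * g⁻¹) := by group
              _ = v * d * d' := by
                rw [h1, hDc d' hd' g]; group
              _ = _ := by group
          have key2 : ∀ g g' : G, (g * g') * v * (g * g')⁻¹ = (g' * g) * v * (g' * g)⁻¹ := by
            intro g g'
            obtain ⟨d, hd, h1⟩ := hconj v hv g
            obtain ⟨d', hd', h2⟩ := hconj v hv g'
            rw [key g g' d hd d' hd' h1 h2, key g' g d' hd' d hd h2 h1, hDc d' hd' d]
          intro g _ g' _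
          rw [Subgroup.mem_centralizer_singleton_iff, commutatorElement_def]
          have h3 := key2 g⁻¹ g'⁻¹
          calc g * g' * g⁻¹ * g'⁻¹ * v
              = (g'⁻¹ * g⁻¹)⁻¹ * ((g⁻¹ * g'⁻¹) * v * (g⁻¹ * g'⁻¹)⁻¹) * (g⁻¹ * g'⁻¹) := by
                group
            _ = (g'⁻¹ * g⁻¹)⁻¹ * ((g'⁻¹ * g⁻¹) * v * (g'⁻¹ * g⁻¹)⁻¹) * (g⁻¹ * g'⁻¹) := by rw [h3]
            _ = v * (g * g' * g⁻¹ * g'⁻¹) := by group
        have := hle hh
        rwa [Subgroup.mem_centralizer_singleton_iff] at this
      apply hcomm
      -- the quotient by `V₀` is cyclic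
      let V₁ : Subgroup (commutator G) := V₀.subgroupOf (commutator G)
      have hV₁n : V₁.Normal := by
        have : V₀.Normal := hWn.comap _
        infer_instance
      have hV₁card : Nat.card V₁ = 4 := by
        rw [← hV4]
        exact Nat.card_congr (Subgroup.subgroupOfEquivOfLe hVH).toEquiv
      have hq2 : Nat.card (commutator G ⧸ V₁) = 2 := by
        have h1 := card_quot V₁
        rw [hV₁card, hH8] at h1
        omega
      have : Fact (Nat.Prime 2) := ⟨Nat.prime_two⟩
      have hqc : IsCyclic (commutator G ⧸ V₁) := isCyclic_of_prime_card hq2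
      have hker : (QuotientGroup.mk' V₁).ker ≤ Subgroup.center (commutator G) := by
        rw [QuotientGroup.ker_mk']
        intro v hv
        rw [Subgroup.mem_center_iff]
        intro h
        exact Subtype.ext (hcen v hv h h.2)
      exact ((QuotientGroup.mk' V₁).isMulCommutative_of_isCyclic_of_ker_le_center hker).is_comm.comm

end Pool.Agent.R683.Derived
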