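import Mathlib

namespace R683HT
open Matrix Finset

/-- spectral decomposition of a real symmetric matrix with decreasing eigenvalues -/
theorem spec {N : ℕ} (A : Matrix (Fin N) (Fin N) ℝ) (hA : Aᵀ = A) :
    ∃ (l : Fin N → ℝ) (Φ : Matrix (Fin N) (Fin N) ℝ), Antitone l ∧ Φᵀ * Φ = 1 ∧ Φ * Φᵀ = 1 ∧
      A = Φ * diagonal l * Φᵀ := by
  have hH : A.IsHermitian := by
    rw [Matrix.IsHermitian, Matrix.conjTranspose_eq_transpose_of_trivial, hA]
  have hs := (isSymmetric_toEuclideanLin_iff.mpr hH)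
  have hn : Module.finrank ℝ (EuclideanSpace ℝ (Fin N)) = N := by simp
  refine ⟨hs.eigenvalues hn, Matrix.of fun i k => hs.eigenvectorBasis hn k i,
    hs.eigenvalues_antitone hn, ?_⟩
  have h1 : (Matrix.of fun i k => hs.eigenvectorBasis hn k i)ᵀ *
      (Matrix.of fun i k => hs.eigenvectorBasis hn k i) = (1 : Matrix (Fin N) (Fin N) ℝ) := by
    ext k l
    have := (orthonormal_iff_ite.mp (hs.eigenvectorBasis hn).orthonormal) l k
    rw [PiLp.inner_apply] at this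
    simp only [Matrix.mul_apply, Matrix.transpose_apply, Matrix.of_apply, Matrix.one_apply]
    rw [show (if k = l then (1:ℝ) else 0) = if l = k then 1 else 0 by simp only [eq_comm], ← this]
    apply Finset.sum_congr rfl
    intro i _
    simp
  have h2 : (Matrix.of fun i k => hs.eigenvectorBasis hn k i) *
      (Matrix.of fun i k => hs.eigenvectorBasis hn k i)ᵀ = (1 : Matrix (Fin N) (Fin N) ℝ) :=
    mul_eq_one_comm.mp h1
  refine ⟨h1, h2, ?_⟩
  have h3 : A * (Matrix.of fun i k => hs.eigenvectorBasis hn k i) =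
      (Matrix.of fun i k => hs.eigenvectorBasis hn k i) * diagonal (hs.eigenvalues hn) := by
    ext i k
    have := hs.apply_eigenvectorBasis hn k
    have h4 := congrArg (fun v : EuclideanSpace ℝ (Fin N) => v i) this
    simp only [toLpLin_apply, PiLp.smul_apply, smul_eq_mul] at h4
    rw [Matrix.mul_diagonal]
    simp only [Matrix.mul_apply, Matrix.of_apply]
    rw [Matrix.mulVec, dotProduct] at h4
    rw [h4]
    simp [mul_comm]
  rw [← h3, Matrix.mul_assoc, h2, Matrix.mul_one]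

/-- the quadratic form of `Φ diag(l) Φᵀ` -/
theorem form_eq {N : ℕ} (l : Fin N → ℝ) (Φ : Matrix (Fin N) (Fin N) ℝ) (x : Fin N → ℝ) :
    x ⬝ᵥ ((Φ * diagonal l * Φᵀ) *ᵥ x) = ∑ i, l i * (Φᵀ *ᵥ x) i ^ 2 := by
  rw [← Matrix.mulVec_mulVec, ← Matrix.mulVec_mulVec, Matrix.dotProduct_mulVec,
    ← Matrix.mulVec_transpose]
  simp only [dotProduct, Matrix.mulVec_diagonal]
  apply Finset.sum_congr rfl
  intro i _
  ring

theorem norm_eq {N : ℕ} (Φ : Matrix (Fin N) (Fin N) ℝ) (hΦ : Φ * Φᵀ = 1) (x : Fin N → ℝ) :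
    ∑ i, (Φᵀ *ᵥ x) i ^ 2 = x ⬝ᵥ x := by
  have h := form_eq (fun _ => (1:ℝ)) Φ x
  rw [show diagonal (fun _ : Fin N => (1:ℝ)) = 1 from diagonal_one, Matrix.mul_one, hΦ,
    Matrix.one_mulVec] at h
  rw [h]
  simp

/-- lower bound of the eigenvalues by a subspace -/
theorem minmax {N k : ℕ} (l : Fin N → ℝ) (hl : Antitone l) (Φ : Matrix (Fin N) (Fin N) ℝ)
    (hΦ : Φ * Φᵀ = 1) (γ : ℝ)
    (L : (Fin (k+1) → ℝ) →ₗ[ℝ] (Fin N → ℝ)) (hL : ∀ c, c ≠ 0 → L c ≠ 0)
    (h : ∀ c, γ * (L c ⬝ᵥ L c) ≤ L c ⬝ᵥ ((Φ * diagonal l * Φᵀ) *ᵥ L c)) :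
    ∃ hk : k < N, γ ≤ l ⟨k, hk⟩ := by
  let Ψ : (Fin (k+1) → ℝ) →ₗ[ℝ] (Fin k → ℝ) :=
    LinearMap.pi fun i : Fin k =>
      if h : (i : ℕ) < N then (LinearMap.proj (⟨i, h⟩ : Fin N)) ∘ₗ (Matrix.mulVecLin Φᵀ) ∘ₗ L else 0
  have hker : LinearMap.ker Ψ ≠ ⊥ := by
    apply LinearMap.ker_ne_bot_of_finrank_lt
    simp
  obtain ⟨c, hc, hc0⟩ := (Submodule.ne_bot_iff _).mp hker
  have hw : ∀ i : Fin N, (i : ℕ) < k → (Φᵀ *ᵥ L c) i = 0 := by
    intro i hi
    have := congrFun (LinearMap.mem_ker.mp hc) ⟨i, hi⟩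
    rw [Matrix.mulVec_transpose]
    simpa [Ψ, LinearMap.pi_apply] using this
  have hpos : 0 < L c ⬝ᵥ L c := by
    have h1 : L c ⬝ᵥ L c ≠ 0 := by
      intro h0
      exact hL c hc0 (dotProduct_self_eq_zero.mp h0)
    have h2 : 0 ≤ L c ⬝ᵥ L c := by
      simp only [dotProduct]
      exact Finset.sum_nonneg fun i _ => mul_self_nonneg _
    exact lt_of_le_of_ne h2 (Ne.symm h1)
  have hkN : k < N := by
    by_contra hcon
    push Not at hcon
    have : ∑ i, (Φᵀ *ᵥ L c) i ^ 2 = 0 := by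
      apply Finset.sum_eq_zero
      intro i _
      rw [hw i (lt_of_lt_of_le i.2 hcon)]
      ring
    rw [norm_eq Φ hΦ] at this
    linarith
  refine ⟨hkN, ?_⟩
  have h1 := h c
  rw [form_eq] at h1
  have h2 : ∑ i, l i * (Φᵀ *ᵥ L c) i ^ 2 ≤ l ⟨k, hkN⟩ * (L c ⬝ᵥ L c) := by
    rw [← norm_eq Φ hΦ, Finset.mul_sum]
    apply Finset.sum_le_sum
    intro i _
    rcases lt_or_ge (i : ℕ) k with hi | hi
    · rw [hw i hi]; simp
    · exact mul_le_mul_of_nonneg_right (hl (by exact_mod_cast (show (⟨k, hkN⟩ : Fin N) ≤ i from hi)))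
        (sq_nonneg _)
  have h3 : γ * (L c ⬝ᵥ L c) ≤ l ⟨k, hkN⟩ * (L c ⬝ᵥ L c) := le_trans h1 h2
  exact le_of_mul_le_mul_right h3 hpos

/-- the top eigenvectors give a subspace where the form is at least `l k` -/
theorem topspace {N k : ℕ} (hk : k < N) (l : Fin N → ℝ) (hl : Antitone l)
    (Φ : Matrix (Fin N) (Fin N) ℝ) (hΦ : Φ * Φᵀ = 1) (hΦ' : Φᵀ * Φ = 1) :
    ∃ L : (Fin (k+1) → ℝ) →ₗ[ℝ] (Fin N → ℝ), (∀ c, c ≠ 0 → L c ≠ 0) ∧
      ∀ c, l ⟨k, hk⟩ * (L c ⬝ᵥ L c) ≤ L c ⬝ᵥ ((Φ * diagonal l * Φᵀ) *ᵥ L c) := by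
  let J : (Fin (k+1) → ℝ) →ₗ[ℝ] (Fin N → ℝ) :=
    LinearMap.pi fun i : Fin N =>
      if h : (i : ℕ) < k + 1 then (LinearMap.proj (⟨i, h⟩ : Fin (k+1))) else 0
  have hJ1 : ∀ c (i : Fin N) (h : (i : ℕ) < k + 1), J c i = c ⟨i, h⟩ := by
    intro c i h
    simp only [J, LinearMap.pi_apply]
    rw [dif_pos h]
    rfl
  have hJ2 : ∀ c (i : Fin N) (h : ¬ (i : ℕ) < k + 1), J c i = 0 := by
    intro c i h
    simp only [J, LinearMap.pi_apply]
    rw [dif_neg h]
    rfl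
  refine ⟨(Matrix.mulVecLin Φ) ∘ₗ J, ?_, ?_⟩
  · intro c hc h0
    apply hc
    have h1 : J c = 0 := by
      have : Φᵀ *ᵥ (Φ *ᵥ J c) = 0 := by
        have h2 : Φ *ᵥ J c = 0 := h0
        rw [h2, Matrix.mulVec_zero]
      rwa [Matrix.mulVec_mulVec, hΦ', Matrix.one_mulVec] at this
    ext i
    have hi : (i : ℕ) < N := lt_of_lt_of_le i.2 hk
    have := congrFun h1 ⟨i, hi⟩
    rw [hJ1 c ⟨i, hi⟩ i.2] at this
    simpa using this
  · intro c
    rw [form_eq, ← norm_eq Φ hΦ, Finset.mul_sum]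
    apply Finset.sum_le_sum
    intro i _
    have h1 : (Φᵀ *ᵥ ((Matrix.mulVecLin Φ ∘ₗ J) c)) i = J c i := by
      have : Φᵀ *ᵥ (Φ *ᵥ J c) = J c := by
        rw [Matrix.mulVec_mulVec, hΦ', Matrix.one_mulVec]
      exact congrFun this i
    rw [h1]
    by_cases hi : (i : ℕ) < k + 1
    · exact mul_le_mul_of_nonneg_right (hl (show i ≤ (⟨k, hk⟩ : Fin N) from Nat.lt_succ_iff.mp hi))
        (sq_nonneg _)
    · rw [hJ2 c i hi]; simp

/-- the rank one determinant formula at a zero of the diagonal -/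
theorem det_rank_one {n : Type*} [Fintype n] [DecidableEq n] (d p c : n → ℝ) (k : n)
    (hd : d k = 0) :
    (diagonal d - vecMulVec p c).det = - (p k * c k * ∏ l ∈ univ.erase k, d l) := by
  by_cases hp : p k = 0
  · rw [hp]
    rw [Matrix.det_eq_zero_of_row_eq_zero k]
    · ring
    · intro j
      by_cases hj : k = j
      · subst hj; simp [vecMulVec_apply, hd, hp]
      · simp [vecMulVec_apply, hp, hj]
  · have h1 : (diagonal d - vecMulVec p c).det =
        ((diagonal d).updateRow k (fun j => - (p k) * c j)).det := by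
      apply Matrix.det_eq_of_forall_row_eq_smul_add_const
        (fun i => if i = k then 0 else p i / p k) k (by simp)
      intro i j
      by_cases hi : i = k
      · subst hi
        by_cases hj : i = j
        · subst hj; simp [vecMulVec_apply, hd]
        · simp [vecMulVec_apply, hj]
      · rw [Matrix.updateRow_ne hi, Matrix.updateRow_self]
        simp only [Matrix.sub_apply, vecMulVec_apply, hi, if_false]
        field_simp
        ring
    rw [h1, ← Matrix.cramer_transpose_apply, Matrix.diagonal_transpose,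
      Matrix.cramer_eq_adjugate_mulVec, Matrix.adjugate_diagonal, Matrix.mulVec_diagonal]
    ring

end R683HT
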