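import Pool.Agent.R683.HT3

namespace R683HT
open Matrix Finset Filter Topology

/-- the resolvent formula -/
theorem res_formula {N : ℕ} (t q : Fin N → ℝ) (F Fi F' Fi' A B : Matrix (Fin N) (Fin N) ℝ)
    (ht : ∀ i, 0 < t i ∧ t i ≤ 1) (hF : F * Fi = 1) (hF' : F' * Fi' = 1)
    (hA : F * F' = A) (hB : F * diagonal t * F' = B)
    (h1 : Fi *ᵥ (fun _ => 1) = q) (h2 : (fun _ => 1) ᵥ* Fi' = q) (z : ℂ) (hz : ‖z‖ < 1) :
    (fun _ => (1:ℂ)) ⬝ᵥ ((A.map (algebraMap ℝ ℂ) - z • B.map (algebraMap ℝ ℂ))⁻¹ *ᵥ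
      (fun _ => (1:ℂ))) = ∑ i, (q i : ℂ) ^ 2 * (1 - (t i : ℂ) * z)⁻¹ := by
  have hne : ∀ i, (1 - (t i : ℂ) * z) ≠ 0 := by
    intro i h
    have h3 : (t i : ℂ) * z = 1 := (sub_eq_zero.mp h).symm
    have h4 := congrArg norm h3
    rw [norm_mul, Complex.norm_real, norm_one, Real.norm_eq_abs, abs_of_pos (ht i).1] at h4
    nlinarith [(ht i).1, (ht i).2, norm_nonneg z]
  set f : Matrix (Fin N) (Fin N) ℝ → Matrix (Fin N) (Fin N) ℂ :=
    fun X => X.map (algebraMap ℝ ℂ) with hf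
  have fmul : ∀ X Y, f (X * Y) = f X * f Y := fun X Y => Matrix.map_mul
  have fone : f 1 = 1 := Matrix.map_one _ (map_zero _) (map_one _)
  have fdiag : ∀ d : Fin N → ℝ, f (diagonal d) = diagonal (fun i => (d i : ℂ)) := by
    intro d
    simp only [hf]
    rw [Matrix.diagonal_map (map_zero _)]
    rfl
  have hC : A.map (algebraMap ℝ ℂ) - z • B.map (algebraMap ℝ ℂ) =
      f F * diagonal (fun i => 1 - (t i : ℂ) * z) * f F' := by
    have e1 : A.map (algebraMap ℝ ℂ) = f F * 1 * f F' := by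
      rw [← hA, Matrix.mul_one, ← fmul]
    have e2 : z • B.map (algebraMap ℝ ℂ) = f F * diagonal (fun i => (t i : ℂ) * z) * f F' := by
      have e3 : B.map (algebraMap ℝ ℂ) = f F * diagonal (fun i => (t i : ℂ)) * f F' := by
        rw [← hB, ← fdiag, ← fmul, ← fmul]
      have e4 : diagonal (fun i => (t i : ℂ) * z) = z • diagonal (fun i => (t i : ℂ)) := by
        rw [← Matrix.diagonal_smul]; congr 1; ext i; simp [mul_comm]
      rw [e3, e4, Matrix.mul_smul, Matrix.smul_mul]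
    rw [e1, e2, ← Matrix.sub_mul, ← Matrix.mul_sub]
    congr 2
    rw [← Matrix.diagonal_one, Matrix.diagonal_sub]
  have hfF : f F * f Fi = 1 := by rw [← fmul, hF, fone]
  have hfF' : f F' * f Fi' = 1 := by rw [← fmul, hF', fone]
  have hinv : (A.map (algebraMap ℝ ℂ) - z • B.map (algebraMap ℝ ℂ))⁻¹ =
      f Fi' * diagonal (fun i => (1 - (t i : ℂ) * z)⁻¹) * f Fi := by
    apply Matrix.inv_eq_right_inv
    rw [hC]
    calc f F * diagonal (fun i => 1 - (t i : ℂ) * z) * f F' *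
          (f Fi' * diagonal (fun i => (1 - (t i : ℂ) * z)⁻¹) * f Fi)
        = f F * diagonal (fun i => 1 - (t i : ℂ) * z) * (f F' * f Fi') *
            diagonal (fun i => (1 - (t i : ℂ) * z)⁻¹) * f Fi := by simp only [Matrix.mul_assoc]
      _ = f F * (diagonal (fun i => 1 - (t i : ℂ) * z) *
            diagonal (fun i => (1 - (t i : ℂ) * z)⁻¹)) * f Fi := by
          rw [hfF', Matrix.mul_one]; simp only [Matrix.mul_assoc]
      _ = 1 := by
          rw [Matrix.diagonal_mul_diagonal]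
          rw [show (fun i => (1 - (t i : ℂ) * z) * (1 - (t i : ℂ) * z)⁻¹) = fun _ => 1 by
            ext i; exact mul_inv_cancel₀ (hne i)]
          rw [Matrix.diagonal_one, Matrix.mul_one, hfF]
  rw [hinv, ← Matrix.mulVec_mulVec, ← Matrix.mulVec_mulVec, Matrix.dotProduct_mulVec]
  have e1 : f Fi *ᵥ (fun _ => (1:ℂ)) = fun i => (q i : ℂ) := by
    ext i
    rw [← h1, Matrix.mulVec, Matrix.mulVec, dotProduct, dotProduct]
    simp [hf]
  have e2 : (fun _ => (1:ℂ)) ᵥ* f Fi' = fun i => (q i : ℂ) := by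
    ext i
    rw [← h2, Matrix.vecMul, Matrix.vecMul, dotProduct, dotProduct]
    simp [hf]
  rw [e1, e2, dotProduct]
  apply Finset.sum_congr rfl
  intro i _
  rw [Matrix.mulVec_diagonal]
  ring

end R683HT
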