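import Pool.Agent.R683.HT1

namespace R683HT
open Matrix Finset

theorem det_conj' {N : ℕ} (Φ A : Matrix (Fin N) (Fin N) ℝ) (hΦ : Φ * Φᵀ = 1) :
    (Φᵀ * A * Φ).det = A.det := by
  rw [Matrix.det_mul, Matrix.det_mul, mul_comm (Φᵀ.det), mul_assoc, ← Matrix.det_mul,
    show Φᵀ * Φ = 1 from mul_eq_one_comm.mp hΦ, Matrix.det_one, mul_one]

theorem vmv_conj {N : ℕ} (Φ : Matrix (Fin N) (Fin N) ℝ) (p c : Fin N → ℝ) :
    Φᵀ * vecMulVec p c * Φ = vecMulVec (Φᵀ *ᵥ p) (Φᵀ *ᵥ c) := by
  rw [Matrix.mul_vecMulVec, Matrix.vecMulVec_mul, Matrix.mulVec_transpose Φ c]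

theorem partOne {N : ℕ} (e q : Fin N → ℝ) (he : ∀ i, 0 < e i) (he1 : ∀ i, e i < 1)
    (G : Matrix (Fin N) (Fin N) ℝ) (hG : ∀ i j, G i j * (1 - e i ^ 2 * e j ^ 2) = q i * q j)
    (ρ σ : Fin N → ℝ) (Ψ Φ : Matrix (Fin N) (Fin N) ℝ)
    (hΨ : Ψ * Ψᵀ = 1) (hΦ : Φ * Φᵀ = 1)
    (hGd : G = Ψ * diagonal ρ * Ψᵀ)
    (hKd : diagonal e * G * diagonal e = Φ * diagonal σ * Φᵀ)
    (hρ : ∀ j, 0 ≤ ρ j) (hσ : ∀ l, 0 ≤ σ l) :
    ∃ c : Fin N → ℝ, ∑ k, c k ^ 2 = ∑ i, q i ^ 2 * e i ^ 2 / (1 - e i ^ 2) ^ 2 ∧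
      ∀ k j, 0 < σ k → σ k * (ρ j + σ k) ≤ c k ^ 2 * |ρ j - σ k| := by
  have hΦ' : Φᵀ * Φ = 1 := mul_eq_one_comm.mp hΦ
  have hΨ' : Ψᵀ * Ψ = 1 := mul_eq_one_comm.mp hΨ
  have hpos : ∀ i, 0 < 1 - e i ^ 2 := fun i => by nlinarith [he i, he1 i]
  set p : Fin N → ℝ := fun i => q i / e i with hp
  set c0 : Fin N → ℝ := fun i => e i * (q i / (1 - e i ^ 2)) with hc0
  set K := diagonal e * G * diagonal e with hK
  have hGT : Gᵀ = G := by
    rw [hGd]; simp [Matrix.transpose_mul, Matrix.mul_assoc]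
  have hKconj : Φᵀ * K * Φ = diagonal σ := by
    rw [hKd]
    rw [show Φᵀ * (Φ * diagonal σ * Φᵀ) * Φ = (Φᵀ * Φ) * diagonal σ * (Φᵀ * Φ) by
      simp only [Matrix.mul_assoc]]
    rw [hΦ', Matrix.one_mul, Matrix.mul_one]
  have hGconj : Ψᵀ * G * Ψ = diagonal ρ := by
    rw [hGd]
    rw [show Ψᵀ * (Ψ * diagonal ρ * Ψᵀ) * Ψ = (Ψᵀ * Ψ) * diagonal ρ * (Ψᵀ * Ψ) by
      simp only [Matrix.mul_assoc]]
    rw [hΨ', Matrix.one_mul, Matrix.mul_one]
  -- first determinant identity
  have hI : ∀ x : ℝ, (x • (1 : Matrix (Fin N) (Fin N) ℝ) + K - vecMulVec p c0).det =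
      ∏ j, (x - ρ j) := by
    intro x
    have h1 : (x • (1 : Matrix (Fin N) (Fin N) ℝ) + K - vecMulVec p c0) *
        diagonal (fun i => (1 - e i ^ 2) / e i) =
        diagonal (fun i => (1 - e i ^ 2) / e i) * (x • (1 : Matrix (Fin N) (Fin N) ℝ) - G) := by
      ext i j
      rw [Matrix.mul_diagonal, Matrix.diagonal_mul]
      simp only [Matrix.sub_apply, Matrix.add_apply, Matrix.smul_apply, vecMulVec_apply, hK,
        Matrix.mul_diagonal, Matrix.diagonal_mul, smul_eq_mul, hp, hc0, Matrix.one_apply]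
      have h2 := hG i j
      have h3 := (he i).ne'
      have h4 := (he j).ne'
      have h5 := (hpos j).ne'
      by_cases hij : i = j
      · subst hij
        simp only [if_true]
        field_simp
        linear_combination h2
      · simp only [hij, if_false]
        field_simp
        linear_combination (e j) * h2
    have h2 := congrArg Matrix.det h1
    rw [Matrix.det_mul, Matrix.det_mul, mul_comm] at h2
    have h3 : (diagonal (fun i => (1 - e i ^ 2) / e i)).det ≠ 0 := by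
      rw [Matrix.det_diagonal]
      exact Finset.prod_ne_zero_iff.mpr fun i _ => div_ne_zero (hpos i).ne' (he i).ne'
    rw [mul_left_cancel₀ h3 h2, ← det_conj' Ψ _ hΨ, Matrix.mul_sub, Matrix.sub_mul, hGconj,
      Matrix.mul_smul, Matrix.mul_one, Matrix.smul_mul, hΨ', Matrix.smul_one_eq_diagonal,
      Matrix.diagonal_sub, Matrix.det_diagonal]
  -- second determinant identity
  have hGD : G = diagonal (fun i => e i ^ 2) * G * diagonal (fun i => e i ^ 2) + vecMulVec q q := by
    ext i j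
    simp only [Matrix.add_apply, Matrix.mul_diagonal, Matrix.diagonal_mul, vecMulVec_apply]
    linear_combination hG i j
  have hII : ∀ y : ℝ, (y • (1 : Matrix (Fin N) (Fin N) ℝ) - K * K - vecMulVec p (K *ᵥ p)).det =
      ∏ j, (y - ρ j ^ 2) := by
    intro y
    have h1 : (y • (1 : Matrix (Fin N) (Fin N) ℝ) - K * K - vecMulVec p (K *ᵥ p)) *
        diagonal (fun i => (e i)⁻¹) =
        diagonal (fun i => (e i)⁻¹) * (y • (1 : Matrix (Fin N) (Fin N) ℝ) - G * G) := by
      have hee : diagonal e * diagonal (fun i => (e i)⁻¹) = (1 : Matrix (Fin N) (Fin N) ℝ) := by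
        rw [Matrix.diagonal_mul_diagonal, ← Matrix.diagonal_one]
        congr 1; ext i; exact mul_inv_cancel₀ (he i).ne'
      have hee2 : diagonal e * diagonal e = diagonal (fun i => e i ^ 2) := by
        rw [Matrix.diagonal_mul_diagonal]; congr 1; ext i; ring
      have hinv2 : diagonal (fun i => (e i)⁻¹) * diagonal (fun i => e i ^ 2) = diagonal e := by
        rw [Matrix.diagonal_mul_diagonal]; congr 1; ext i
        have := (he i).ne'
        field_simp
      have hpq : p = diagonal (fun i => (e i)⁻¹) *ᵥ q := by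
        ext i; rw [Matrix.mulVec_diagonal]; simp only [hp]; ring
      have hKp : K *ᵥ p = diagonal e *ᵥ (G *ᵥ q) := by
        rw [hpq, hK, Matrix.mulVec_mulVec, Matrix.mulVec_mulVec,
          Matrix.mul_assoc (diagonal e * G), hee, Matrix.mul_one]
      have h5 : vecMulVec p (K *ᵥ p) * diagonal (fun i => (e i)⁻¹) =
          diagonal (fun i => (e i)⁻¹) * (vecMulVec q q * G) := by
        rw [hKp, hpq, ← Matrix.mul_vecMulVec, Matrix.mul_assoc, Matrix.vecMulVec_mul,
          Matrix.vecMulVec_mul]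
        congr 2
        rw [← Matrix.mulVec_transpose, ← Matrix.mulVec_transpose, Matrix.mulVec_mulVec,
          Matrix.diagonal_transpose, Matrix.diagonal_mul_diagonal, hGT]
        rw [show (fun i => (e i)⁻¹ * e i) = fun _ => (1:ℝ) by
          ext i; exact inv_mul_cancel₀ (he i).ne', Matrix.diagonal_one, Matrix.one_mulVec]
      have h6 : K * K * diagonal (fun i => (e i)⁻¹) =
          diagonal (fun i => (e i)⁻¹) *
            ((diagonal (fun i => e i ^ 2) * G * diagonal (fun i => e i ^ 2)) * G) := by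
        rw [hK]
        calc (diagonal e * G * diagonal e) * (diagonal e * G * diagonal e) *
              diagonal (fun i => (e i)⁻¹)
            = diagonal e * G * (diagonal e * diagonal e) * G *
                (diagonal e * diagonal (fun i => (e i)⁻¹)) := by simp only [Matrix.mul_assoc]
          _ = diagonal e * G * diagonal (fun i => e i ^ 2) * G := by
                rw [hee, hee2, Matrix.mul_one]
          _ = _ := by rw [← hinv2]; simp only [Matrix.mul_assoc]
      have h7 : G * G = (diagonal (fun i => e i ^ 2) * G * diagonal (fun i => e i ^ 2)) * G +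
          vecMulVec q q * G := by
        rw [← Matrix.add_mul, ← hGD]
      rw [Matrix.sub_mul, Matrix.sub_mul, h5, h6, h7, Matrix.mul_sub, Matrix.mul_add,
        Matrix.smul_mul, Matrix.one_mul, Matrix.mul_smul, Matrix.mul_one, sub_sub]
    have h2 := congrArg Matrix.det h1
    rw [Matrix.det_mul, Matrix.det_mul, mul_comm] at h2
    have h3 : (diagonal (fun i => (e i)⁻¹)).det ≠ 0 := by
      rw [Matrix.det_diagonal]
      exact Finset.prod_ne_zero_iff.mpr fun i _ => inv_ne_zero (he i).ne'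
    have h4 : Ψᵀ * (G * G) * Ψ = diagonal (fun j => ρ j ^ 2) := by
      calc Ψᵀ * (G * G) * Ψ = Ψᵀ * G * (Ψ * Ψᵀ) * G * Ψ := by
            rw [hΨ, Matrix.mul_one]; simp only [Matrix.mul_assoc]
        _ = (Ψᵀ * G * Ψ) * (Ψᵀ * G * Ψ) := by simp only [Matrix.mul_assoc]
        _ = _ := by
            rw [hGconj, Matrix.diagonal_mul_diagonal]; congr 1; ext i; ring
    rw [mul_left_cancel₀ h3 h2, ← det_conj' Ψ _ hΨ, Matrix.mul_sub, Matrix.sub_mul, h4,
      Matrix.mul_smul, Matrix.mul_one, Matrix.smul_mul, hΨ', Matrix.smul_one_eq_diagonal,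
      Matrix.diagonal_sub, Matrix.det_diagonal]
  have hKK : Φᵀ * (K * K) * Φ = diagonal (fun j => σ j ^ 2) := by
    calc Φᵀ * (K * K) * Φ = Φᵀ * K * (Φ * Φᵀ) * K * Φ := by
          rw [hΦ, Matrix.mul_one]; simp only [Matrix.mul_assoc]
      _ = (Φᵀ * K * Φ) * (Φᵀ * K * Φ) := by simp only [Matrix.mul_assoc]
      _ = _ := by
          rw [hKconj, Matrix.diagonal_mul_diagonal]; congr 1; ext i; ring
  set P := Φᵀ *ᵥ p with hP
  set C := Φᵀ *ᵥ c0 with hC
  have hKP : Φᵀ *ᵥ (K *ᵥ p) = fun l => σ l * P l := by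
    have : Φᵀ *ᵥ (K *ᵥ p) = (Φᵀ * K * Φ) *ᵥ (Φᵀ *ᵥ p) := by
      rw [Matrix.mulVec_mulVec, Matrix.mulVec_mulVec, Matrix.mul_assoc, hΦ, Matrix.mul_one]
    rw [this, hKconj]
    ext l
    rw [Matrix.mulVec_diagonal]
  refine ⟨C, ?_, ?_⟩
  · rw [norm_eq Φ hΦ, dotProduct]
    apply Finset.sum_congr rfl
    intro i _
    simp only [hc0]
    have := (hpos i).ne'
    field_simp
  · intro k j hk
    have h1 : P k * C k * ∏ l ∈ univ.erase k, (σ l - σ k) = - ∏ j, (-σ k - ρ j) := by
      have h := hI (-σ k)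
      rw [← det_conj' Φ _ hΦ, Matrix.mul_sub, Matrix.sub_mul, vmv_conj, Matrix.mul_add,
        Matrix.add_mul, hKconj, Matrix.mul_smul, Matrix.mul_one, Matrix.smul_mul, hΦ',
        Matrix.smul_one_eq_diagonal, Matrix.diagonal_add, det_rank_one _ _ _ k (by ring)] at h
      have h' : ∏ l ∈ univ.erase k, (-σ k + σ l) = ∏ l ∈ univ.erase k, (σ l - σ k) :=
        Finset.prod_congr rfl fun l _ => by ring
      rw [h'] at h
      linarith
    have h2 : σ k * P k ^ 2 * ∏ l ∈ univ.erase k, (σ k ^ 2 - σ l ^ 2) =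
        - ∏ j, (σ k ^ 2 - ρ j ^ 2) := by
      have h := hII (σ k ^ 2)
      rw [← det_conj' Φ _ hΦ, Matrix.mul_sub, Matrix.sub_mul, vmv_conj, Matrix.mul_sub,
        Matrix.sub_mul, hKK, Matrix.mul_smul, Matrix.mul_one, Matrix.smul_mul, hΦ',
        Matrix.smul_one_eq_diagonal, Matrix.diagonal_sub, hKP, det_rank_one _ _ _ k (by ring)] at h
      linarith
    -- absolute values
    set R := ∏ j, (σ k + ρ j) with hR
    set R' := ∏ j, |ρ j - σ k| with hR'
    set W := ∏ l ∈ univ.erase k, |σ l - σ k| with hW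
    set W' := ∏ l ∈ univ.erase k, (σ l + σ k) with hW'
    have hRpos : 0 < R := Finset.prod_pos fun j _ => by linarith [hρ j]
    have hW'pos : 0 < W' := Finset.prod_pos fun l _ => by linarith [hσ l]
    have a1 : |P k * C k| * W = R := by
      have h := congrArg abs h1
      rw [abs_mul, abs_neg, Finset.abs_prod, Finset.abs_prod] at h
      rw [hW, h, hR]
      apply Finset.prod_congr rfl
      intro j _
      rw [show -σ k - ρ j = -(σ k + ρ j) by ring, abs_neg, abs_of_pos (by linarith [hρ j])]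
    have a2 : σ k * P k ^ 2 * (W * W') = R * R' := by
      have h := congrArg abs h2
      rw [abs_mul, abs_neg, Finset.abs_prod, Finset.abs_prod,
        abs_of_nonneg (mul_nonneg hk.le (sq_nonneg (P k)))] at h
      have e1 : ∏ l ∈ univ.erase k, |σ k ^ 2 - σ l ^ 2| = W * W' := by
        rw [hW, hW', ← Finset.prod_mul_distrib]
        apply Finset.prod_congr rfl
        intro l _
        rw [show σ k ^ 2 - σ l ^ 2 = -((σ l - σ k) * (σ l + σ k)) by ring, abs_neg, abs_mul,
          abs_of_pos (show 0 < σ l + σ k by linarith [hσ l])]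
      have e2 : ∏ j, |σ k ^ 2 - ρ j ^ 2| = R * R' := by
        rw [hR, hR', ← Finset.prod_mul_distrib]
        apply Finset.prod_congr rfl
        intro l _
        rw [show σ k ^ 2 - ρ l ^ 2 = -((σ k + ρ l) * (ρ l - σ k)) by ring, abs_neg, abs_mul,
          abs_of_pos (show 0 < σ k + ρ l by linarith [hρ l])]
      rw [e1, e2] at h
      exact h
    have hW0 : 0 ≤ W := Finset.prod_nonneg fun l _ => abs_nonneg _
    have hWpos : 0 < W := by
      rcases hW0.lt_or_eq with h | h
      · exact h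
      · rw [← h] at a1; simp at a1; linarith
    have hWW : W ≤ W' := by
      apply Finset.prod_le_prod
      · intro l _; exact abs_nonneg _
      · intro l _
        rw [abs_le]
        constructor <;> linarith [hσ l]
    have hRR : R' * (ρ j + σ k) ≤ R * |ρ j - σ k| := by
      rw [hR, hR', ← Finset.mul_prod_erase univ _ (Finset.mem_univ j),
        ← Finset.mul_prod_erase univ (fun j => σ k + ρ j) (Finset.mem_univ j)]
      have h3 : ∏ x ∈ univ.erase j, |ρ x - σ k| ≤ ∏ x ∈ univ.erase j, (σ k + ρ x) := by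
        apply Finset.prod_le_prod
        · intro l _; exact abs_nonneg _
        · intro l _
          rw [abs_le]
          constructor <;> linarith [hρ l]
      have h4 : 0 ≤ |ρ j - σ k| * (ρ j + σ k) :=
        mul_nonneg (abs_nonneg _) (by linarith [hρ j])
      nlinarith [mul_le_mul_of_nonneg_left h3 h4]
    have hR'0 : 0 ≤ R' := Finset.prod_nonneg fun l _ => abs_nonneg _
    have a3 : (P k) ^ 2 * (C k) ^ 2 * W ^ 2 = R ^ 2 := by
      rw [← a1, mul_pow, sq_abs]; ring
    have hP2 : 0 < P k ^ 2 := by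
      rcases (sq_nonneg (P k)).lt_or_eq with h | h
      · exact h
      · rw [← h] at a3
        have : R ^ 2 > 0 := by positivity
        simp at a3
        linarith [a3]
    -- C² W R' = σ R W'
    have a4 : C k ^ 2 * W * R' = σ k * R * W' := by
      have : P k ^ 2 * R * (C k ^ 2 * W * R') = P k ^ 2 * R * (σ k * R * W') := by
        calc P k ^ 2 * R * (C k ^ 2 * W * R') = P k ^ 2 * C k ^ 2 * W * (R * R') := by ring
          _ = P k ^ 2 * C k ^ 2 * W * (σ k * P k ^ 2 * (W * W')) := by rw [a2]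
          _ = (P k ^ 2 * C k ^ 2 * W ^ 2) * (σ k * P k ^ 2 * W') := by ring
          _ = R ^ 2 * (σ k * P k ^ 2 * W') := by rw [a3]
          _ = _ := by ring
      exact mul_left_cancel₀ (mul_pos hP2 hRpos).ne' this
    have a5 : (W * R) * (σ k * (ρ j + σ k)) ≤ (W * R) * (C k ^ 2 * |ρ j - σ k|) := by
      have b1 : C k ^ 2 * W * (R' * (ρ j + σ k)) ≤ C k ^ 2 * W * (R * |ρ j - σ k|) :=
        mul_le_mul_of_nonneg_left hRR (mul_nonneg (sq_nonneg _) hW0)
      have b2 : C k ^ 2 * W * (R' * (ρ j + σ k)) = σ k * R * W' * (ρ j + σ k) := by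
        rw [← a4]; ring
      have b3 : σ k * R * W * (ρ j + σ k) ≤ σ k * R * W' * (ρ j + σ k) := by
        apply mul_le_mul_of_nonneg_right _ (by linarith [hρ j])
        exact mul_le_mul_of_nonneg_left hWW (mul_nonneg hk.le hRpos.le)
      nlinarith [b1, b2, b3]
    exact le_of_mul_le_mul_left a5 (mul_pos hWpos hRpos)

end R683HT
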