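import Pool.Agent.R683.HT2

namespace R683HT
open Matrix Finset Polynomial

/-- weights -/
noncomputable def wt {N : ℕ} (x y : Fin N → ℝ) (k : Fin N) : ℝ :=
  (x k - y k) * ∏ l ∈ univ.erase k, ((y k - x l) / (y k - y l))

theorem wt_pos {N : ℕ} (x y : Fin N → ℝ) (h1 : ∀ j k, j ≤ k → y k < x j)
    (h2 : ∀ j k, k < j → x j < y k) (k : Fin N) : 0 < wt x y k := by
  unfold wt
  apply mul_pos (by linarith [h1 k k le_rfl])
  apply Finset.prod_pos
  intro l hl
  have hlk : l ≠ k := (Finset.mem_erase.mp hl).1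
  rcases lt_or_gt_of_ne hlk with h | h
  · apply div_pos_of_neg_of_neg
    · linarith [h1 l k h.le]
    · linarith [h2 k l h, h1 k k le_rfl]
  · apply div_pos
    · linarith [h2 l k h]
    · linarith [h2 l k h, h1 l l le_rfl]

theorem wt_sum {N : ℕ} (x y : Fin N → ℝ) (hy : Function.Injective y)
    (hxy : ∀ j k, x j ≠ y k) (j : Fin N) : ∑ k, wt x y k / (x j - y k) = 1 := by
  have hd1 : (Lagrange.nodal univ y).degree = (N : ℕ) := by
    rw [Lagrange.degree_nodal]; simp
  have hd2 : (Lagrange.nodal univ x).degree = (N : ℕ) := by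
    rw [Lagrange.degree_nodal]; simp
  set R : ℝ[X] := Lagrange.nodal univ y - Lagrange.nodal univ x with hR
  have hdeg : R.degree < #(univ : Finset (Fin N)) := by
    have := Polynomial.degree_sub_lt_left (p := Lagrange.nodal univ y) (q := Lagrange.nodal univ x)
      (by rw [hd1, hd2]) Lagrange.nodal_ne_zero
      (by rw [Lagrange.nodal_monic.leadingCoeff, Lagrange.nodal_monic.leadingCoeff])
    rw [hd1] at this
    simpa using this
  have h1 := Lagrange.eq_interpolate (s := univ) (v := y) (hy.injOn) hdeg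
  have h2 := congrArg (Polynomial.eval (x j)) h1
  rw [Lagrange.eval_interpolate_not_at_node _ (fun i _ => hxy j i)] at h2
  have h3 : Polynomial.eval (x j) R = ∏ i, (x j - y i) := by
    have h0 : ∏ i, (x j - x i) = 0 := Finset.prod_eq_zero (Finset.mem_univ j) (sub_self (x j))
    rw [hR, Polynomial.eval_sub, Lagrange.eval_nodal, Lagrange.eval_nodal, h0, sub_zero]
  rw [h3, Lagrange.eval_nodal] at h2
  have h4 : ∏ i, (x j - y i) ≠ 0 := Finset.prod_ne_zero_iff.mpr fun i _ => sub_ne_zero.mpr (hxy j i)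
  have h5 : ∑ i, Lagrange.nodalWeight univ y i * (x j - y i)⁻¹ * Polynomial.eval (y i) R = 1 := by
    have : (∏ i, (x j - y i)) * ∑ i, Lagrange.nodalWeight univ y i * (x j - y i)⁻¹ *
      Polynomial.eval (y i) R = (∏ i, (x j - y i)) * 1 := by rw [← h2, mul_one]
    exact mul_left_cancel₀ h4 this
  rw [← h5]
  apply Finset.sum_congr rfl
  intro i _
  have h6 : Polynomial.eval (y i) R = (x i - y i) * ∏ l ∈ univ.erase i, (y i - x l) := by
    rw [hR, Polynomial.eval_sub, Lagrange.eval_nodal_at_node (Finset.mem_univ i),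
      Lagrange.eval_nodal, ← Finset.mul_prod_erase univ _ (Finset.mem_univ i)]
    ring
  rw [h6, Lagrange.nodalWeight]
  unfold wt
  rw [Finset.prod_div_distrib, Finset.prod_inv_distrib]
  ring

theorem diag_pos {N : ℕ} (Y Y' : Matrix (Fin N) (Fin N) ℝ) (h : Y * Y' = 1) (d : Fin N → ℝ)
    (hd : ∀ i, 0 < d i) (i : Fin N) : 0 < (Y * diagonal d * Yᵀ) i i := by
  have h1 : (Y * diagonal d * Yᵀ) i i = ∑ k, d k * Y i k ^ 2 := by
    rw [Matrix.mul_apply]
    apply Finset.sum_congr rfl
    intro k _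
    rw [Matrix.mul_diagonal, Matrix.transpose_apply]
    ring
  rw [h1]
  have h0 : 0 ≤ ∑ k, d k * Y i k ^ 2 :=
    Finset.sum_nonneg fun k _ => mul_nonneg (hd k).le (sq_nonneg _)
  rcases h0.lt_or_eq with h2 | h2
  · exact h2
  · exfalso
    have h3 := (Finset.sum_eq_zero_iff_of_nonneg
      (fun k _ => mul_nonneg (hd k).le (sq_nonneg (Y i k)))).mp h2.symm
    have h4 : (Y * Y') i i = 0 := by
      rw [Matrix.mul_apply]
      apply Finset.sum_eq_zero
      intro k hk
      have := h3 k hk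
      have h5 : Y i k = 0 := by
        rcases mul_eq_zero.mp this with h6 | h6
        · exact absurd h6 (hd k).ne'
        · exact pow_eq_zero_iff (two_ne_zero) |>.mp h6
      rw [h5, zero_mul]
    rw [h] at h4
    simp at h4

/-- The structure of the finite rank symbol. -/
theorem pack {N : ℕ} (ρ σ : Fin N → ℝ) (hσ : ∀ k, 0 < σ k) (h1 : ∀ j k, j ≤ k → σ k < ρ j)
    (h2 : ∀ j k, k < j → ρ j < σ k) :
    ∃ (t q : Fin N → ℝ) (Φ F Fi F' Fi' : Matrix (Fin N) (Fin N) ℝ),
      (∀ i, 0 < t i ∧ t i ≤ 1) ∧ Φᵀ * Φ = 1 ∧ Φ * Φᵀ = 1 ∧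
      (Φ * diagonal ρ * Φᵀ) = diagonal t * (Φ * diagonal ρ * Φᵀ) * diagonal t + vecMulVec q q ∧
      F * Fi = 1 ∧ F' * Fi' = 1 ∧
      F * F' = Matrix.of (fun j k => ρ j / (ρ j ^ 2 - σ k ^ 2)) ∧
      F * diagonal t * F' = Matrix.of (fun j k => σ k / (ρ j ^ 2 - σ k ^ 2)) ∧
      Fi *ᵥ (fun _ => 1) = q ∧ (fun _ => 1) ᵥ* Fi' = q := by
  have hρ : ∀ j, 0 < ρ j := fun j => lt_trans (hσ j) (h1 j j le_rfl)
  set x : Fin N → ℝ := fun j => ρ j ^ 2 with hx
  set y : Fin N → ℝ := fun j => σ j ^ 2 with hy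
  have hxy1 : ∀ j k, j ≤ k → y k < x j := fun j k h => by
    simp only [hx, hy]; exact pow_lt_pow_left₀ (h1 j k h) (hσ k).le (by norm_num)
  have hxy2 : ∀ j k, k < j → x j < y k := fun j k h => by
    simp only [hx, hy]; exact pow_lt_pow_left₀ (h2 j k h) (hρ j).le (by norm_num)
  have hxyne : ∀ j k, x j ≠ y k := fun j k => by
    rcases le_or_gt j k with h | h
    · exact (hxy1 j k h).ne'
    · exact (hxy2 j k h).ne
  have hyanti : ∀ j k, j < k → y k < y j := fun j k h =>
    lt_trans (hxy1 k k le_rfl) (hxy2 k j h)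
  have hyinj : Function.Injective y := by
    intro j k h
    by_contra hne
    rcases lt_or_gt_of_ne hne with h' | h'
    · exact (hyanti j k h').ne' h
    · exact (hyanti k j h').ne h
  have hxinj : ∀ j k, j ≠ k → x j ≠ x k := by
    intro j k hne
    rcases lt_or_gt_of_ne hne with h' | h'
    · exact (lt_trans (hxy2 k j h') (hxy1 j j le_rfl)).ne'
    · exact (lt_trans (hxy2 j k h') (hxy1 k k le_rfl)).ne
  set w : Fin N → ℝ := wt x y with hw
  have hwpos : ∀ k, 0 < w k := wt_pos x y hxy1 hxy2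
  have hwsum : ∀ j, ∑ k, w k / (x j - y k) = 1 := wt_sum x y hyinj hxyne
  set v : Fin N → ℝ := fun k => Real.sqrt (w k) with hv
  have hvpos : ∀ k, 0 < v k := fun k => Real.sqrt_pos.mpr (hwpos k)
  have hvsq : ∀ k, v k * v k = w k := fun k => Real.mul_self_sqrt (hwpos k).le
  set M : Fin N → ℝ := fun j => ∑ k, w k / (x j - y k) ^ 2 with hM
  have hMpos : ∀ j, 0 < M j := fun j => by
    apply Finset.sum_pos
    · intro k _
      have := sub_ne_zero.mpr (hxyne j k)
      exact div_pos (hwpos k) (by positivity)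
    · exact ⟨j, Finset.mem_univ j⟩
  set μ : Fin N → ℝ := fun j => (Real.sqrt (M j))⁻¹ with hμ
  have hμpos : ∀ k, 0 < μ k := fun k => inv_pos.mpr (Real.sqrt_pos.mpr (hMpos k))
  have hμsq : ∀ k, μ k * μ k * M k = 1 := fun k => by
    have h3 := Real.mul_self_sqrt (hMpos k).le
    have h4 := (Real.sqrt_pos.mpr (hMpos k)).ne'
    simp only [hμ]
    nth_rewrite 3 [← h3]
    field_simp
  -- the orthogonal matrix
  set O : Matrix (Fin N) (Fin N) ℝ := Matrix.of fun j k => μ j * v k / (x j - y k) with hO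
  have hOO : O * Oᵀ = 1 := by
    ext j j'
    rw [Matrix.mul_apply]
    have e1 : ∑ k, O j k * Oᵀ k j' = μ j * μ j' * ∑ k, w k / ((x j - y k) * (x j' - y k)) := by
      rw [Finset.mul_sum]
      apply Finset.sum_congr rfl
      intro k _
      simp only [hO, Matrix.transpose_apply, Matrix.of_apply]
      rw [← hvsq k]
      have a1 := sub_ne_zero.mpr (hxyne j k)
      have a2 := sub_ne_zero.mpr (hxyne j' k)
      field_simp
    rw [e1]
    by_cases hjj : j = j'
    · subst hjj
      rw [Matrix.one_apply_eq, ← hμsq j, hM]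
      congr 1
      apply Finset.sum_congr rfl
      intro k _
      rw [sq]
    · rw [Matrix.one_apply_ne hjj]
      have e2 : ∑ k, w k / ((x j - y k) * (x j' - y k)) = 0 := by
        have e3 : (x j' - x j) * ∑ k, w k / ((x j - y k) * (x j' - y k)) = 0 := by
          rw [Finset.mul_sum]
          calc ∑ k, (x j' - x j) * (w k / ((x j - y k) * (x j' - y k)))
              = ∑ k, (w k / (x j - y k) - w k / (x j' - y k)) := by
                apply Finset.sum_congr rfl
                intro k _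
                have a1 := sub_ne_zero.mpr (hxyne j k)
                have a2 := sub_ne_zero.mpr (hxyne j' k)
                field_simp
                ring
            _ = 0 := by rw [Finset.sum_sub_distrib, hwsum, hwsum, sub_self]
        rcases mul_eq_zero.mp e3 with h | h
        · exact absurd h (sub_ne_zero.mpr (hxinj j' j (Ne.symm hjj)))
        · exact h
      rw [e2, mul_zero]
  have hOO' : Oᵀ * O = 1 := mul_eq_one_comm.mp hOO
  have hOv : O *ᵥ v = μ := by
    ext j
    rw [Matrix.mulVec, dotProduct]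
    calc ∑ k, O j k * v k = μ j * ∑ k, w k / (x j - y k) := by
          rw [Finset.mul_sum]
          apply Finset.sum_congr rfl
          intro k _
          simp only [hO, Matrix.of_apply]
          rw [← hvsq k]
          ring
      _ = μ j := by rw [hwsum, mul_one]
  have hOyO : diagonal x = O * diagonal y * Oᵀ + vecMulVec μ μ := by
    ext j j'
    have e1 : (O * diagonal y * Oᵀ) j j' =
        x j * (O * Oᵀ) j j' - μ j * (O *ᵥ v) j' := by
      rw [Matrix.mul_apply, Matrix.mul_apply, Matrix.mulVec, dotProduct, Finset.mul_sum,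
        Finset.mul_sum, ← Finset.sum_sub_distrib]
      apply Finset.sum_congr rfl
      intro k _
      rw [Matrix.mul_diagonal, Matrix.transpose_apply]
      simp only [hO, Matrix.of_apply]
      have a1 := sub_ne_zero.mpr (hxyne j k)
      have a2 := sub_ne_zero.mpr (hxyne j' k)
      field_simp
      ring
    rw [Matrix.add_apply, e1, hOO, hOv, vecMulVec_apply, Matrix.diagonal_apply, Matrix.one_apply]
    split_ifs <;> ring
  set a : Fin N → ℝ := fun j => Real.sqrt (ρ j) with ha
  have hapos : ∀ j, 0 < a j := fun j => Real.sqrt_pos.mpr (hρ j)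
  have hasq : ∀ j, a j * a j = ρ j := fun j => Real.mul_self_sqrt (hρ j).le
  set A : Matrix (Fin N) (Fin N) ℝ := diagonal a with hA
  set Ai : Matrix (Fin N) (Fin N) ℝ := diagonal (fun j => (a j)⁻¹) with hAi
  have hAAi : A * Ai = 1 := by
    rw [hA, hAi, Matrix.diagonal_mul_diagonal, ← Matrix.diagonal_one]
    congr 1; ext j; exact mul_inv_cancel₀ (hapos j).ne'
  have hAiA : Ai * A = 1 := mul_eq_one_comm.mp hAAi
  have hAA : A * A = diagonal ρ := by
    rw [hA, Matrix.diagonal_mul_diagonal]; congr 1; ext j; exact hasq j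
  have hAiT : Aiᵀ = Ai := by rw [hAi, Matrix.diagonal_transpose]
  have hAT : Aᵀ = A := by rw [hA, Matrix.diagonal_transpose]
  set K : Matrix (Fin N) (Fin N) ℝ := O * diagonal σ * Oᵀ with hK
  have hKK : K * K = O * diagonal y * Oᵀ := by
    calc K * K = O * diagonal σ * (Oᵀ * O) * diagonal σ * Oᵀ := by
          rw [hK]; simp only [Matrix.mul_assoc]
      _ = O * (diagonal σ * diagonal σ) * Oᵀ := by
          rw [hOO', Matrix.mul_one]; simp only [Matrix.mul_assoc]
      _ = _ := by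
          rw [Matrix.diagonal_mul_diagonal]; congr 3; ext j; simp only [hy]; ring
  have hKT : Kᵀ = K := by
    rw [hK]; simp [Matrix.transpose_mul, Matrix.mul_assoc]
  have hKO : K * O = O * diagonal σ := by
    rw [hK, Matrix.mul_assoc, hOO', Matrix.mul_one]
  set T : Matrix (Fin N) (Fin N) ℝ := Ai * K * Ai with hT
  have hTT : Tᵀ = T := by
    rw [hT]; simp only [Matrix.transpose_mul, hAiT, hKT, Matrix.mul_assoc]
  obtain ⟨t, Θ, -, hΘ', hΘ, hTd⟩ := spec T hTT
  have htd : diagonal t = Θᵀ * T * Θ := by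
    rw [hTd]
    calc diagonal t = (Θᵀ * Θ) * diagonal t * (Θᵀ * Θ) := by
          rw [hΘ', Matrix.one_mul, Matrix.mul_one]
      _ = _ := by simp only [Matrix.mul_assoc]
  set q : Fin N → ℝ := Θᵀ *ᵥ (Ai *ᵥ μ) with hq
  have hP : (Θᵀ * diagonal ρ * Θ) = diagonal t * (Θᵀ * diagonal ρ * Θ) * diagonal t +
      vecMulVec q q := by
    have e1 : diagonal t * (Θᵀ * diagonal ρ * Θ) * diagonal t = Θᵀ * (Ai * (K * K) * Ai) * Θ := by
      rw [htd, ← hAA]
      calc (Θᵀ * T * Θ) * (Θᵀ * (A * A) * Θ) * (Θᵀ * T * Θ)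
          = Θᵀ * T * (Θ * Θᵀ) * (A * A) * (Θ * Θᵀ) * T * Θ := by simp only [Matrix.mul_assoc]
        _ = Θᵀ * T * (A * A) * T * Θ := by rw [hΘ, Matrix.mul_one, Matrix.mul_one]
        _ = Θᵀ * (Ai * K * (Ai * A) * (A * Ai) * K * Ai) * Θ := by
            rw [hT]; simp only [Matrix.mul_assoc]
        _ = _ := by rw [hAiA, hAAi, Matrix.mul_one, Matrix.mul_one]; simp only [Matrix.mul_assoc]
    have e2 : Θᵀ * diagonal ρ * Θ = Θᵀ * (Ai * diagonal x * Ai) * Θ := by
      congr 2
      rw [hAi, Matrix.diagonal_mul_diagonal, Matrix.diagonal_mul_diagonal]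
      congr 1; ext j
      have := (hapos j).ne'
      simp only [hx]
      rw [← hasq j]
      field_simp
    have e3 : Θᵀ * (Ai * vecMulVec μ μ * Ai) * Θ = vecMulVec q q := by
      rw [Matrix.mul_vecMulVec, Matrix.vecMulVec_mul, Matrix.mul_vecMulVec, Matrix.vecMulVec_mul]
      rw [hq]
      congr 1
      rw [← Matrix.mulVec_transpose, ← Matrix.mulVec_transpose, hAiT]
    rw [e1, hKK]
    nth_rewrite 1 [e2]
    rw [hOyO, Matrix.mul_add, Matrix.add_mul, Matrix.mul_add, Matrix.add_mul, e3]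
  have hΘtt : Θᵀᵀ = Θ := Matrix.transpose_transpose Θ
  refine ⟨t, q, Θᵀ, diagonal (fun j => (μ j)⁻¹) * A * Θ, Θᵀ * Ai * diagonal μ,
    Θᵀ * A * O * diagonal (fun j => (v j)⁻¹), diagonal v * Oᵀ * Ai * Θ, ?_, ?_, ?_, ?_, ?_, ?_, ?_,
    ?_, ?_, ?_⟩
  · intro i
    have hpos : 0 < t i := by
      have e1 : diagonal t = (Θᵀ * Ai * O) * diagonal σ * (Θᵀ * Ai * O)ᵀ := by
        rw [htd, hT, hK]
        simp only [Matrix.transpose_mul, Matrix.transpose_transpose, hAiT, Matrix.mul_assoc]
      have e2 : (Θᵀ * Ai * O) * (Oᵀ * A * Θ) = 1 := by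
        calc (Θᵀ * Ai * O) * (Oᵀ * A * Θ) = Θᵀ * Ai * (O * Oᵀ) * A * Θ := by
              simp only [Matrix.mul_assoc]
          _ = Θᵀ * (Ai * A) * Θ := by rw [hOO, Matrix.mul_one]; simp only [Matrix.mul_assoc]
          _ = 1 := by rw [hAiA, Matrix.mul_one, hΘ']
      have := diag_pos _ _ e2 σ hσ i
      rw [← e1, Matrix.diagonal_apply_eq] at this
      exact this
    refine ⟨hpos, ?_⟩
    have hPii : 0 < (Θᵀ * diagonal ρ * Θ) i i := by
      have := diag_pos Θᵀ Θ hΘ' ρ hρ i
      rwa [hΘtt] at this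
    have h3 := congrFun (congrFun hP i) i
    rw [Matrix.add_apply, Matrix.mul_diagonal, Matrix.diagonal_mul, vecMulVec_apply] at h3
    by_contra hcon
    push Not at hcon
    nlinarith [mul_self_nonneg (q i), mul_pos hPii (show 0 < t i * t i - 1 by nlinarith)]
  · rw [hΘtt, hΘ]
  · rw [hΘtt, hΘ']
  · rw [hΘtt]; exact hP
  · calc diagonal (fun j => (μ j)⁻¹) * A * Θ * (Θᵀ * Ai * diagonal μ)
        = diagonal (fun j => (μ j)⁻¹) * A * (Θ * Θᵀ) * Ai * diagonal μ := by
          simp only [Matrix.mul_assoc]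
      _ = diagonal (fun j => (μ j)⁻¹) * (A * Ai) * diagonal μ := by
          rw [hΘ, Matrix.mul_one]; simp only [Matrix.mul_assoc]
      _ = 1 := by
          rw [hAAi, Matrix.mul_one, Matrix.diagonal_mul_diagonal, ← Matrix.diagonal_one]
          congr 1; ext j; exact inv_mul_cancel₀ (hμpos j).ne'
  · have e1 : diagonal (fun j => (v j)⁻¹) * diagonal v = (1 : Matrix (Fin N) (Fin N) ℝ) := by
      rw [Matrix.diagonal_mul_diagonal, ← Matrix.diagonal_one]
      congr 1; ext j; exact inv_mul_cancel₀ (hvpos j).ne'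
    calc Θᵀ * A * O * diagonal (fun j => (v j)⁻¹) * (diagonal v * Oᵀ * Ai * Θ)
        = Θᵀ * A * O * (diagonal (fun j => (v j)⁻¹) * diagonal v) * Oᵀ * Ai * Θ := by
          simp only [Matrix.mul_assoc]
      _ = Θᵀ * A * (O * Oᵀ) * Ai * Θ := by
          rw [e1, Matrix.mul_one]; simp only [Matrix.mul_assoc]
      _ = Θᵀ * (A * Ai) * Θ := by
          rw [hOO, Matrix.mul_one]; simp only [Matrix.mul_assoc]
      _ = 1 := by rw [hAAi, Matrix.mul_one, hΘ']
  · have e1 : diagonal (fun j => (μ j)⁻¹) * A * Θ * (Θᵀ * A * O * diagonal (fun j => (v j)⁻¹)) =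
        diagonal (fun j => (μ j)⁻¹) * (diagonal ρ * O) * diagonal (fun j => (v j)⁻¹) := by
      calc diagonal (fun j => (μ j)⁻¹) * A * Θ * (Θᵀ * A * O * diagonal (fun j => (v j)⁻¹))
          = diagonal (fun j => (μ j)⁻¹) * A * (Θ * Θᵀ) * A * O * diagonal (fun j => (v j)⁻¹) := by
            simp only [Matrix.mul_assoc]
        _ = _ := by rw [hΘ, Matrix.mul_one, ← hAA]; simp only [Matrix.mul_assoc]
    rw [e1]
    ext j k
    rw [Matrix.mul_diagonal, Matrix.diagonal_mul, Matrix.diagonal_mul]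
    simp only [hO, Matrix.of_apply]
    have a1 := sub_ne_zero.mpr (hxyne j k)
    have a2 := (hμpos j).ne'
    have a3 := (hvpos k).ne'
    simp only [hx, hy] at a1 ⊢
    field_simp
  · have e1 : diagonal (fun j => (μ j)⁻¹) * A * Θ * diagonal t *
        (Θᵀ * A * O * diagonal (fun j => (v j)⁻¹)) =
        diagonal (fun j => (μ j)⁻¹) * (O * diagonal σ) * diagonal (fun j => (v j)⁻¹) := by
      calc diagonal (fun j => (μ j)⁻¹) * A * Θ * diagonal t *
            (Θᵀ * A * O * diagonal (fun j => (v j)⁻¹))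
          = diagonal (fun j => (μ j)⁻¹) * A * (Θ * diagonal t * Θᵀ) * A * O *
              diagonal (fun j => (v j)⁻¹) := by
            simp only [Matrix.mul_assoc]
        _ = diagonal (fun j => (μ j)⁻¹) * (A * Ai) * K * (Ai * A) * O *
              diagonal (fun j => (v j)⁻¹) := by
            rw [← hTd, hT]; simp only [Matrix.mul_assoc]
        _ = _ := by
            rw [hAAi, hAiA, Matrix.mul_one, Matrix.mul_one, ← hKO]; simp only [Matrix.mul_assoc]
    rw [e1]
    ext j k
    rw [Matrix.mul_diagonal, Matrix.diagonal_mul, Matrix.mul_diagonal]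
    simp only [hO, Matrix.of_apply]
    have a1 := sub_ne_zero.mpr (hxyne j k)
    have a2 := (hμpos j).ne'
    have a3 := (hvpos k).ne'
    simp only [hx, hy] at a1 ⊢
    field_simp
  · rw [← Matrix.mulVec_mulVec, ← Matrix.mulVec_mulVec, hq]
    congr 2
    ext j
    rw [Matrix.mulVec_diagonal, mul_one]
  · rw [← Matrix.mulVec_transpose]
    simp only [Matrix.transpose_mul, Matrix.transpose_transpose, hAiT, Matrix.diagonal_transpose]
    rw [← Matrix.mulVec_mulVec, ← Matrix.mulVec_mulVec, ← Matrix.mulVec_mulVec, hq]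
    have e1 : diagonal v *ᵥ (fun _ => (1:ℝ)) = v := by
      ext j; rw [Matrix.mulVec_diagonal, mul_one]
    rw [e1, hOv]

end R683HT
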