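import Pool.Agent.R683.HT3

namespace R683HT
open Matrix Finset

/-- the Gram form as a sum of squares -/
theorem geo {N : ℕ} (τ q : Fin N → ℝ) (h0 : ∀ i, 0 ≤ τ i) (h1 : ∀ i, τ i < 1)
    (y : Fin N → ℝ) :
    HasSum (fun n : ℕ => (∑ i, τ i ^ n * q i * y i) ^ 2)
      (y ⬝ᵥ ((Matrix.of fun i j => q i * q j / (1 - τ i * τ j)) *ᵥ y)) := by
  have h2 : ∀ i j : Fin N, HasSum (fun n : ℕ => (τ i * τ j) ^ n * (q i * q j * y i * y j))
      ((1 - τ i * τ j)⁻¹ * (q i * q j * y i * y j)) := by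
    intro i j
    apply HasSum.mul_right
    apply hasSum_geometric_of_lt_one (mul_nonneg (h0 i) (h0 j))
    nlinarith [h0 i, h0 j, h1 i, h1 j]
  have h3 := hasSum_sum (s := (univ : Finset (Fin N))) (fun i _ =>
    hasSum_sum (s := (univ : Finset (Fin N))) (fun j _ => h2 i j))
  convert h3 using 1
  · funext n
    rw [sq, Finset.sum_mul_sum]
    apply Finset.sum_congr rfl
    intro i _
    apply Finset.sum_congr rfl
    intro j _
    rw [mul_pow]
    ring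
  · rw [dotProduct]
    apply Finset.sum_congr rfl
    intro i _
    rw [Matrix.mulVec, dotProduct, Finset.mul_sum]
    apply Finset.sum_congr rfl
    intro j _
    rw [Matrix.of_apply]
    ring

theorem geo_le {N : ℕ} (τ q : Fin N → ℝ) (h0 : ∀ i, 0 ≤ τ i) (h1 : ∀ i, τ i < 1)
    (y : Fin N → ℝ) (L : ℕ) :
    ∑ n ∈ range L, (∑ i, τ i ^ n * q i * y i) ^ 2 ≤
      (y ⬝ᵥ ((Matrix.of fun i j => q i * q j / (1 - τ i * τ j)) *ᵥ y)) :=
  sum_le_hasSum _ (fun _ _ => sq_nonneg _) (geo τ q h0 h1 y)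

theorem geo_nonneg {N : ℕ} (τ q : Fin N → ℝ) (h0 : ∀ i, 0 ≤ τ i) (h1 : ∀ i, τ i < 1)
    (y : Fin N → ℝ) :
    0 ≤ (y ⬝ᵥ ((Matrix.of fun i j => q i * q j / (1 - τ i * τ j)) *ᵥ y)) := by
  have := geo_le τ q h0 h1 y 0
  simpa using this

/-- eigenvalues of a nonnegative form are nonnegative -/
theorem eig_nonneg {N : ℕ} (l : Fin N → ℝ) (Φ : Matrix (Fin N) (Fin N) ℝ) (hΦ : Φᵀ * Φ = 1)
    (h : ∀ y : Fin N → ℝ, 0 ≤ y ⬝ᵥ ((Φ * diagonal l * Φᵀ) *ᵥ y)) (j : Fin N) : 0 ≤ l j := by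
  have h1 := h (Φ *ᵥ (Pi.single j 1))
  rw [form_eq, Matrix.mulVec_mulVec, hΦ, Matrix.one_mulVec,
    Finset.sum_eq_single j] at h1
  · simpa using h1
  · intro b _ hb
    simp [Pi.single_eq_of_ne hb]
  · simp

theorem dot_vmv {N : ℕ} (q y : Fin N → ℝ) : y ⬝ᵥ (vecMulVec q q *ᵥ y) = (∑ i, q i * y i) ^ 2 := by
  rw [Matrix.vecMulVec_mulVec]
  simp only [dotProduct, Pi.smul_apply, MulOpposite.smul_eq_mul_unop, MulOpposite.unop_op]
  rw [sq, Finset.sum_mul]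
  apply Finset.sum_congr rfl
  intro i _
  ring

/-- the damped Gram matrix is dominated by `P` -/
theorem gram_le {N : ℕ} (t q ρ : Fin N → ℝ) (Φ : Matrix (Fin N) (Fin N) ℝ)
    (ht : ∀ i, 0 < t i ∧ t i ≤ 1) (hρ : ∀ j, 0 ≤ ρ j)
    (hP : (Φ * diagonal ρ * Φᵀ) = diagonal t * (Φ * diagonal ρ * Φᵀ) * diagonal t +
      vecMulVec q q) (r : ℝ) (hr0 : 0 < r) (hr1 : r < 1) (y : Fin N → ℝ) :
    (y ⬝ᵥ ((Matrix.of fun i j => q i * q j / (1 - (r * t i) * (r * t j))) *ᵥ y)) ≤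
      y ⬝ᵥ ((Φ * diagonal ρ * Φᵀ) *ᵥ y) := by
  set P := Φ * diagonal ρ * Φᵀ with hPdef
  have hPnn : ∀ z : Fin N → ℝ, 0 ≤ z ⬝ᵥ (P *ᵥ z) := by
    intro z
    rw [hPdef, form_eq]
    exact Finset.sum_nonneg fun i _ => mul_nonneg (hρ i) (sq_nonneg _)
  have hPq : ∀ z : Fin N → ℝ, z ⬝ᵥ (P *ᵥ z) =
      (fun i => t i * z i) ⬝ᵥ (P *ᵥ (fun i => t i * z i)) + (∑ i, q i * z i) ^ 2 := by
    intro z
    nth_rewrite 1 [hP]
    rw [Matrix.add_mulVec, dotProduct_add, dot_vmv, ← Matrix.mulVec_mulVec, ← Matrix.mulVec_mulVec,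
      Matrix.dotProduct_mulVec, ← Matrix.mulVec_transpose, Matrix.diagonal_transpose]
    congr 3
    · ext i; rw [Matrix.mulVec_diagonal]
    · congr 1
      ext i; rw [Matrix.mulVec_diagonal]
  have hg := geo (fun i => r * t i) q (fun i => mul_nonneg hr0.le (ht i).1.le)
    (fun i => by nlinarith [(ht i).1, (ht i).2]) y
  refine le_of_tendsto' hg.tendsto_sum_nat (fun L => ?_)
  have hstep : ∀ L : ℕ, ∑ n ∈ range L, (∑ i, (r * t i) ^ n * q i * y i) ^ 2 +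
      (fun i => (r * t i) ^ L * y i) ⬝ᵥ (P *ᵥ (fun i => (r * t i) ^ L * y i)) ≤
      y ⬝ᵥ (P *ᵥ y) := by
    intro L
    induction L with
    | zero => simp
    | succ L ih =>
      rw [Finset.sum_range_succ]
      have h1 := hPq (fun i => (r * t i) ^ L * y i)
      have h2 : (∑ i, q i * ((r * t i) ^ L * y i)) = ∑ i, (r * t i) ^ L * q i * y i :=
        Finset.sum_congr rfl fun i _ => by ring
      rw [h2] at h1
      have h3 : (fun i => (r * t i) ^ (L + 1) * y i) =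
          r • (fun i => t i * ((r * t i) ^ L * y i)) := by
        ext i; simp only [Pi.smul_apply, smul_eq_mul]; ring
      rw [h3, Matrix.mulVec_smul, smul_dotProduct, dotProduct_smul, smul_eq_mul, smul_eq_mul]
      have h4 := hPnn (fun i => t i * ((r * t i) ^ L * y i))
      have h5 : r * (r * ((fun i => t i * ((r * t i) ^ L * y i)) ⬝ᵥ
          (P *ᵥ (fun i => t i * ((r * t i) ^ L * y i))))) ≤
          ((fun i => t i * ((r * t i) ^ L * y i)) ⬝ᵥ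
          (P *ᵥ (fun i => t i * ((r * t i) ^ L * y i)))) := by
        nlinarith [mul_nonneg (mul_nonneg hr0.le hr0.le) h4, mul_nonneg (by nlinarith : 0 ≤ 1 - r * r) h4]
      linarith
  have := hstep L
  linarith [hPnn (fun i => (r * t i) ^ L * y i)]


/-- finite case: damped symbols satisfy the lower bound -/
theorem keyFin {N M : ℕ} (ρ : ℕ → ℝ) (hρ0 : ∀ j, 0 < ρ j) (hρ : Antitone ρ)
    (t q : Fin N → ℝ) (Φ : Matrix (Fin N) (Fin N) ℝ)
    (ht : ∀ i, 0 < t i ∧ t i ≤ 1) (hΦ : Φ * Φᵀ = 1)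
    (hP : (Φ * diagonal (fun j : Fin N => ρ j) * Φᵀ) =
      diagonal t * (Φ * diagonal (fun j : Fin N => ρ j) * Φᵀ) * diagonal t + vecMulVec q q)
    (r : ℝ) (hr0 : 0 < r) (hr1 : r < 1) (γ : ℕ → ℝ) (hγ : ∀ k, 0 < γ k) (hγρ : ∀ k, γ k < ρ k)
    (hL : ∀ k, k < M → ∃ L : (Fin (k+1) → ℝ) →ₗ[ℝ] (Fin N → ℝ), (∀ c, c ≠ 0 → L c ≠ 0) ∧
      ∀ c, γ k * (L c ⬝ᵥ L c) ≤
        (fun i => Real.sqrt (r * t i) * L c i) ⬝ᵥ
          ((Matrix.of fun i j => q i * q j / (1 - (r * t i) * (r * t j))) *ᵥ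
            (fun i => Real.sqrt (r * t i) * L c i))) :
    ∑ k ∈ range M, γ k * ρ k / (ρ k - γ k) ≤ ∑ i, q i ^ 2 * (r * t i) / (1 - r * t i) ^ 2 := by
  set τ : Fin N → ℝ := fun i => r * t i with hτ
  have hτ0 : ∀ i, 0 < τ i := fun i => mul_pos hr0 (ht i).1
  have hτ1 : ∀ i, τ i < 1 := fun i => by simp only [hτ]; nlinarith [(ht i).1, (ht i).2]
  set e : Fin N → ℝ := fun i => Real.sqrt (τ i) with he
  have he0 : ∀ i, 0 < e i := fun i => Real.sqrt_pos.mpr (hτ0 i)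
  have hesq : ∀ i, e i ^ 2 = τ i := fun i => Real.sq_sqrt (hτ0 i).le
  have he1 : ∀ i, e i < 1 := fun i => by
    have := hesq i
    nlinarith [he0 i, hτ1 i]
  set G : Matrix (Fin N) (Fin N) ℝ := Matrix.of fun i j => q i * q j / (1 - τ i * τ j) with hG
  have hGe : ∀ i j, G i j * (1 - e i ^ 2 * e j ^ 2) = q i * q j := by
    intro i j
    rw [hesq, hesq, hG, Matrix.of_apply]
    have : 1 - τ i * τ j ≠ 0 := by nlinarith [hτ0 i, hτ0 j, hτ1 i, hτ1 j]
    field_simp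
  have hGT : Gᵀ = G := by
    ext i j
    rw [Matrix.transpose_apply, hG, Matrix.of_apply, Matrix.of_apply, mul_comm (q j),
      mul_comm (τ j)]
  have hKT : (diagonal e * G * diagonal e)ᵀ = diagonal e * G * diagonal e := by
    simp only [Matrix.transpose_mul, Matrix.diagonal_transpose, hGT, Matrix.mul_assoc]
  have hKform : ∀ y : Fin N → ℝ, y ⬝ᵥ ((diagonal e * G * diagonal e) *ᵥ y) =
      (fun i => e i * y i) ⬝ᵥ (G *ᵥ (fun i => e i * y i)) := by
    intro y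
    rw [← Matrix.mulVec_mulVec, ← Matrix.mulVec_mulVec,
      Matrix.dotProduct_mulVec, ← Matrix.mulVec_transpose, Matrix.diagonal_transpose]
    congr 2
    · ext i; rw [Matrix.mulVec_diagonal]
    · ext i; rw [Matrix.mulVec_diagonal]
  have hGnn : ∀ y : Fin N → ℝ, 0 ≤ y ⬝ᵥ (G *ᵥ y) :=
    fun y => geo_nonneg τ q (fun i => (hτ0 i).le) hτ1 y
  obtain ⟨ρ', Ψ, hρ'anti, hΨ', hΨ, hGd⟩ := spec G hGT
  obtain ⟨σ', Θ, hσ'anti, hΘ', hΘ, hKd⟩ := spec _ hKT
  have hρ'nn : ∀ j, 0 ≤ ρ' j := eig_nonneg ρ' Ψ hΨ' (fun y => by rw [← hGd]; exact hGnn y)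
  have hσ'nn : ∀ j, 0 ≤ σ' j := eig_nonneg σ' Θ hΘ' (fun y => by
    rw [← hKd, hKform]; exact hGnn _)
  obtain ⟨c, hc1, hc2⟩ := partOne e q he0 he1 G hGe ρ' σ' Ψ Θ hΨ hΘ hGd hKd hρ'nn hσ'nn
  have hmain : ∀ k, k < M → ∃ hk : k < N, γ k * ρ k / (ρ k - γ k) ≤ c ⟨k, hk⟩ ^ 2 := by
    intro k hkM
    obtain ⟨L, hL1, hL2⟩ := hL k hkM
    obtain ⟨hk, hk2⟩ := minmax σ' hσ'anti Θ hΘ (γ k) L hL1 (fun c => by
      rw [← hKd, hKform]; exact hL2 c)
    refine ⟨hk, ?_⟩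
    -- ρ' ≤ ρ
    have hρρ : ρ' ⟨k, hk⟩ ≤ ρ k := by
      obtain ⟨L', hL'1, hL'2⟩ := topspace hk ρ' hρ'anti Ψ hΨ hΨ'
      obtain ⟨_, h3⟩ := minmax (fun j : Fin N => ρ j) (fun a b hab => hρ hab) Φ hΦ (ρ' ⟨k, hk⟩)
        L' hL'1 (fun c => by
          refine le_trans (hL'2 c) ?_
          rw [← hGd]
          exact gram_le t q _ Φ ht (fun j => (hρ0 j).le) hP r hr0 hr1 (L' c))
      exact h3
    -- σ' ≤ ρ'
    have hσρ : σ' ⟨k, hk⟩ ≤ ρ' ⟨k, hk⟩ := by
      obtain ⟨L', hL'1, hL'2⟩ := topspace hk σ' hσ'anti Θ hΘ hΘ'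
      have hlin : ∀ c, (Matrix.mulVecLin (diagonal e) ∘ₗ L') c = fun i => e i * L' c i := by
        intro c
        ext i
        show (diagonal e *ᵥ L' c) i = _
        rw [Matrix.mulVec_diagonal]
      obtain ⟨_, h3⟩ := minmax ρ' hρ'anti Ψ hΨ (σ' ⟨k, hk⟩)
        (Matrix.mulVecLin (diagonal e) ∘ₗ L') (fun c hc h0 => by
          apply hL'1 c hc
          rw [hlin] at h0
          ext i
          have := congrFun h0 i
          simp only [Pi.zero_apply, mul_eq_zero] at this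
          rcases this with h | h
          · exact absurd h (he0 i).ne'
          · simpa using h) (fun c => by
          have h4 := hL'2 c
          rw [← hKd, hKform] at h4
          rw [hlin, ← hGd]
          refine le_trans ?_ h4
          apply mul_le_mul_of_nonneg_left _ (hσ'nn _)
          simp only [dotProduct]
          apply Finset.sum_le_sum
          intro i _
          nlinarith [mul_self_nonneg (L' c i), mul_nonneg (mul_self_nonneg (L' c i))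
            (show 0 ≤ 1 - e i * e i by nlinarith [he0 i, he1 i])])
      exact h3
    have h5 := hc2 ⟨k, hk⟩ ⟨k, hk⟩ (lt_of_lt_of_le (hγ k) hk2)
    rw [abs_of_nonneg (by linarith)] at h5
    set S := σ' ⟨k, hk⟩
    set R := ρ' ⟨k, hk⟩
    set C := c ⟨k, hk⟩ ^ 2 with hC
    have hS : 0 < S := lt_of_lt_of_le (hγ k) hk2
    have hSR : 0 < R - S := by
      rcases (sub_nonneg.mpr hσρ).lt_or_eq with h | h
      · exact h
      · rw [← h] at h5
        nlinarith [mul_pos hS hS, mul_nonneg hS.le (hρ'nn ⟨k, hk⟩)]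
    have hργ : 0 < ρ k - γ k := by linarith [hγρ k]
    rw [div_le_iff₀ hργ]
    have h6 : S * R / (R - S) ≤ C := by
      rw [div_le_iff₀ hSR]
      nlinarith [mul_pos hS hS]
    have h7 : γ k * ρ k ≤ S * R / (R - S) * (ρ k - γ k) := by
      rw [div_mul_eq_mul_div, le_div_iff₀ hSR]
      nlinarith [mul_nonneg (mul_nonneg (hρ0 k).le (hρ'nn ⟨k, hk⟩)) (sub_nonneg.mpr hk2),
        mul_nonneg (mul_nonneg (hγ k).le hS.le) (sub_nonneg.mpr hρρ)]
    exact le_trans h7 (mul_le_mul_of_nonneg_right h6 hργ.le)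
  have hsum : ∑ i, q i ^ 2 * (r * t i) / (1 - r * t i) ^ 2 = ∑ k, c k ^ 2 := by
    rw [hc1]
    apply Finset.sum_congr rfl
    intro i _
    rw [hesq]
  rw [hsum]
  have hMN : M ≤ N := by
    by_contra hcon
    push Not at hcon
    obtain ⟨h, _⟩ := hmain N hcon
    exact lt_irrefl _ h
  have h8 : ∑ k : Fin N, c k ^ 2 = ∑ k ∈ range N, (if h : k < N then c ⟨k, h⟩ ^ 2 else 0) := by
    rw [Finset.sum_range]
    apply Finset.sum_congr rfl
    intro k _
    simp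
  rw [h8]
  calc ∑ k ∈ range M, γ k * ρ k / (ρ k - γ k)
      ≤ ∑ k ∈ range M, (if h : k < N then c ⟨k, h⟩ ^ 2 else 0) := by
        apply Finset.sum_le_sum
        intro k hk
        obtain ⟨h, h'⟩ := hmain k (Finset.mem_range.mp hk)
        rw [dif_pos h]
        exact h'
    _ ≤ _ := by
        apply Finset.sum_le_sum_of_subset_of_nonneg
        · exact Finset.range_mono hMN
        · intro k _ _
          split_ifs
          · exact sq_nonneg _
          · exact le_rfl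

end R683HT
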