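import Pool.Agent.R683.HT4

namespace R683HT
open Matrix Finset Filter Topology

/-- strict positivity of a form -/
def PD {K : ℕ} (M : Matrix (Fin K) (Fin K) ℝ) : Prop :=
  ∃ m : ℝ, 0 < m ∧ ∀ c : Fin K → ℝ, m * (c ⬝ᵥ c) ≤ c ⬝ᵥ (M *ᵥ c)

theorem PD.eventually {K : ℕ} {ι : Type*} {l : Filter ι} (F : ι → Matrix (Fin K) (Fin K) ℝ)
    (M : Matrix (Fin K) (Fin K) ℝ) (hF : ∀ i j, Tendsto (fun α => F α i j) l (𝓝 (M i j)))
    (hM : PD M) : ∀ᶠ α in l, PD (F α) := by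
  obtain ⟨m, hm, h⟩ := hM
  have hδ : 0 < m / (2 * (K + 1)) := by positivity
  have h1 : ∀ᶠ α in l, ∀ i j, |F α i j - M i j| ≤ m / (2 * (K + 1)) := by
    rw [Filter.eventually_all]
    intro i
    rw [Filter.eventually_all]
    intro j
    have := (Metric.tendsto_nhds.mp (hF i j)) _ hδ
    filter_upwards [this] with α hα
    rw [Real.dist_eq] at hα
    exact hα.le
  filter_upwards [h1] with α hα
  refine ⟨m / 2, by positivity, fun c => ?_⟩
  have h2 : c ⬝ᵥ (M *ᵥ c) - c ⬝ᵥ (F α *ᵥ c) ≤ m / (2 * (K + 1)) * (∑ i, |c i|) ^ 2 := by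
    rw [← dotProduct_sub, ← Matrix.sub_mulVec, sq, Finset.sum_mul_sum, Finset.mul_sum, dotProduct]
    apply Finset.sum_le_sum
    intro i _
    rw [Matrix.mulVec, dotProduct, Finset.mul_sum, Finset.mul_sum]
    apply Finset.sum_le_sum
    intro j _
    calc c i * ((M - F α) i j * c j) ≤ |c i * ((M - F α) i j * c j)| := le_abs_self _
      _ = |F α i j - M i j| * (|c i| * |c j|) := by
          rw [abs_mul, abs_mul, Matrix.sub_apply, abs_sub_comm]; ring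
      _ ≤ _ := mul_le_mul_of_nonneg_right (hα i j) (by positivity)
  have h3 : (∑ i, |c i|) ^ 2 ≤ K * (c ⬝ᵥ c) := by
    have := sq_sum_le_card_mul_sum_sq (s := (univ : Finset (Fin K))) (f := fun i => |c i|)
    simp only [Finset.card_univ, Fintype.card_fin, sq_abs] at this
    rw [dotProduct]
    simpa [sq] using this
  have h4 : 0 ≤ c ⬝ᵥ c := by
    simp only [dotProduct]
    exact Finset.sum_nonneg fun i _ => mul_self_nonneg _
  have h5 : m / (2 * (K + 1)) * (∑ i, |c i|) ^ 2 ≤ m / 2 * (c ⬝ᵥ c) := by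
    calc m / (2 * (K + 1)) * (∑ i, |c i|) ^ 2 ≤ m / (2 * (K + 1)) * (K * (c ⬝ᵥ c)) :=
          mul_le_mul_of_nonneg_left h3 hδ.le
      _ = (m / 2 * (c ⬝ᵥ c)) * (K / (K + 1)) := by field_simp
      _ ≤ (m / 2 * (c ⬝ᵥ c)) * 1 := by
          apply mul_le_mul_of_nonneg_left _ (by positivity)
          rw [div_le_one (by positivity)]
          linarith
      _ = _ := mul_one _
  have h6 := h c
  linarith

/-- from positivity of the truncated Hankel form to a subspace -/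
theorem mkL {N k Lh : ℕ} (t q : Fin N → ℝ) (ht : ∀ i, 0 < t i ∧ t i ≤ 1)
    (r : ℝ) (hr0 : 0 < r) (hr1 : r < 1) (Gm : Matrix (Fin Lh) (Fin (k+1)) ℝ) (γ : ℝ) (hγ : 0 < γ)
    (hPD : PD (Gmᵀ * (Matrix.of (fun n p : Fin Lh => r ^ ((n:ℕ) + p + 1) *
      ∑ i, q i ^ 2 * t i ^ ((n:ℕ) + p + 1)) - γ • (1 : Matrix (Fin Lh) (Fin Lh) ℝ)) * Gm)) :
    ∃ L : (Fin (k+1) → ℝ) →ₗ[ℝ] (Fin N → ℝ), (∀ c, c ≠ 0 → L c ≠ 0) ∧
      ∀ c, γ * (L c ⬝ᵥ L c) ≤
        (fun i => Real.sqrt (r * t i) * L c i) ⬝ᵥ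
          ((Matrix.of fun i j => q i * q j / (1 - (r * t i) * (r * t j))) *ᵥ
            (fun i => Real.sqrt (r * t i) * L c i)) := by
  set τ : Fin N → ℝ := fun i => r * t i with hτ
  have hτ0 : ∀ i, 0 < τ i := fun i => mul_pos hr0 (ht i).1
  have hτ1 : ∀ i, τ i < 1 := fun i => by simp only [hτ]; nlinarith [(ht i).1, (ht i).2]
  set e : Fin N → ℝ := fun i => Real.sqrt (τ i) with he
  have hesq : ∀ i, e i * e i = τ i := fun i => Real.mul_self_sqrt (hτ0 i).le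
  let Z : Matrix (Fin N) (Fin Lh) ℝ := Matrix.of fun i n => q i * e i * τ i ^ (n:ℕ)
  obtain ⟨m, hm, h⟩ := hPD
  have hZ : Zᵀ * Z = Matrix.of (fun n p : Fin Lh => r ^ ((n:ℕ) + p + 1) *
      ∑ i, q i ^ 2 * t i ^ ((n:ℕ) + p + 1)) := by
    ext n p
    rw [Matrix.mul_apply, Matrix.of_apply, Finset.mul_sum]
    apply Finset.sum_congr rfl
    intro i _
    simp only [Z, Matrix.transpose_apply, Matrix.of_apply]
    calc q i * e i * τ i ^ (n:ℕ) * (q i * e i * τ i ^ (p:ℕ))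
        = q i ^ 2 * (e i * e i) * τ i ^ ((n:ℕ) + p) := by rw [pow_add]; ring
      _ = q i ^ 2 * τ i ^ ((n:ℕ) + p + 1) := by rw [hesq]; ring
      _ = _ := by simp only [hτ]; rw [mul_pow]; ring
  -- the form
  have hform : ∀ c : Fin (k+1) → ℝ, m * (c ⬝ᵥ c) + γ * ((Gm *ᵥ c) ⬝ᵥ (Gm *ᵥ c)) ≤
      (Z *ᵥ (Gm *ᵥ c)) ⬝ᵥ (Z *ᵥ (Gm *ᵥ c)) := by
    intro c
    have h1 := h c
    rw [← hZ, ← Matrix.mulVec_mulVec, ← Matrix.mulVec_mulVec, Matrix.sub_mulVec,
      Matrix.dotProduct_mulVec, Matrix.vecMul_transpose, dotProduct_sub, ← Matrix.mulVec_mulVec,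
      Matrix.dotProduct_mulVec, Matrix.vecMul_transpose, Matrix.smul_mulVec, Matrix.one_mulVec,
      dotProduct_smul, smul_eq_mul] at h1
    linarith
  refine ⟨Matrix.mulVecLin (Z * Gm), ?_, ?_⟩
  · intro c hc h0
    have h1 := hform c
    have h2 : Z *ᵥ (Gm *ᵥ c) = 0 := by
      rw [Matrix.mulVec_mulVec]; exact h0
    rw [h2] at h1
    have h3 : 0 < c ⬝ᵥ c := by
      have h4 : 0 ≤ c ⬝ᵥ c := by
        simp only [dotProduct]
        exact Finset.sum_nonneg fun i _ => mul_self_nonneg _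
      exact lt_of_le_of_ne h4 (fun h5 => hc (dotProduct_self_eq_zero.mp h5.symm))
    have h4 : 0 ≤ (Gm *ᵥ c) ⬝ᵥ (Gm *ᵥ c) := by
      simp only [dotProduct]
      exact Finset.sum_nonneg fun i _ => mul_self_nonneg _
    have h5 : (0 : Fin N → ℝ) ⬝ᵥ 0 = 0 := by simp
    rw [h5] at h1
    nlinarith [mul_pos hm h3, mul_nonneg hγ.le h4]
  · intro c
    set x := Gm *ᵥ c with hx
    set z := Z *ᵥ x with hz
    have hLz : Matrix.mulVecLin (Z * Gm) c = z := by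
      rw [hz, hx, Matrix.mulVec_mulVec]; rfl
    rw [hLz]
    -- Zᵀ z
    set u := Zᵀ *ᵥ z with hu
    have h1 : z ⬝ᵥ z = x ⬝ᵥ u := by
      rw [hu, Matrix.dotProduct_mulVec, ← Matrix.mulVec_transpose, dotProduct_comm]
    have h2 : (z ⬝ᵥ z) ^ 2 ≤ (x ⬝ᵥ x) * (u ⬝ᵥ u) := by
      rw [h1]
      have := Finset.sum_mul_sq_le_sq_mul_sq (univ : Finset (Fin Lh)) x u
      simp only [dotProduct]
      simpa [sq] using this
    have h3 : u ⬝ᵥ u ≤ (fun i => e i * z i) ⬝ᵥ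
        ((Matrix.of fun i j => q i * q j / (1 - τ i * τ j)) *ᵥ (fun i => e i * z i)) := by
      have h4 := geo_le τ q (fun i => (hτ0 i).le) hτ1 (fun i => e i * z i) Lh
      refine le_trans (le_of_eq ?_) h4
      rw [Finset.sum_range, dotProduct]
      apply Finset.sum_congr rfl
      intro n _
      rw [← sq]
      congr 1
      rw [hu, Matrix.mulVec, dotProduct]
      apply Finset.sum_congr rfl
      intro i _
      simp only [Z, Matrix.transpose_apply, Matrix.of_apply]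
      ring
    refine le_trans ?_ h3
    have h5 : 0 ≤ z ⬝ᵥ z := by
      simp only [dotProduct]
      exact Finset.sum_nonneg fun i _ => mul_self_nonneg _
    have h6 : 0 ≤ u ⬝ᵥ u := by
      simp only [dotProduct]
      exact Finset.sum_nonneg fun i _ => mul_self_nonneg _
    have h7 : γ * (x ⬝ᵥ x) ≤ z ⬝ᵥ z := by
      have := hform c
      have h8 : 0 ≤ c ⬝ᵥ c := by
        simp only [dotProduct]
        exact Finset.sum_nonneg fun i _ => mul_self_nonneg _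
      nlinarith [mul_nonneg hm.le h8]
    rcases h5.lt_or_eq with h8 | h8
    · have h9 : (z ⬝ᵥ z) * (γ * (z ⬝ᵥ z)) ≤ (z ⬝ᵥ z) * (u ⬝ᵥ u) := by
        nlinarith [mul_le_mul_of_nonneg_left h2 hγ.le, mul_le_mul_of_nonneg_right h7 h6]
      exact le_of_mul_le_mul_left h9 h8
    · rw [← h8]; simpa using h6

end R683HT
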