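import Pool.Agent.R683.HT5

namespace R683HT
open Matrix Finset Filter Topology

theorem tendsto_range_prod : Tendsto (fun L : ℕ => range L ×ˢ range L) atTop atTop := by
  apply tendsto_atTop_finset_of_monotone
  · intro a b hab
    exact Finset.product_subset_product (Finset.range_mono hab) (Finset.range_mono hab)
  · intro x
    refine ⟨max x.1 x.2 + 1, ?_⟩
    simp only [Finset.mem_product, Finset.mem_range]
    omega

/-- the truncated forms become positive -/
theorem trunc_pd (σ : ℕ → ℝ) (hσ : StrictAnti σ) (a : ℕ → ℝ)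
    (g : ℕ → ℕ → ℝ) (hg : ∀ i j, HasSum (fun n => g i n * g j n) (if i = j then 1 else 0))
    (hK : ∀ i j, HasSum (fun x : ℕ × ℕ => a (x.1 + x.2 + 1) * g i x.1 * g j x.2)
      (if i = j then σ i else 0)) (k : ℕ) (γ : ℝ) (hγ : γ < σ k) :
    ∃ L : ℕ, PD ((Matrix.of fun (n : Fin L) (i : Fin (k+1)) => g i n)ᵀ *
      (Matrix.of (fun n p : Fin L => a ((n:ℕ) + p + 1)) - γ • (1 : Matrix (Fin L) (Fin L) ℝ)) *
      (Matrix.of fun (n : Fin L) (i : Fin (k+1)) => g i n)) := by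
  have hentry : ∀ (L : ℕ) (i j : Fin (k+1)),
      ((Matrix.of fun (n : Fin L) (i : Fin (k+1)) => g i n)ᵀ *
      (Matrix.of (fun n p : Fin L => a ((n:ℕ) + p + 1)) - γ • (1 : Matrix (Fin L) (Fin L) ℝ)) *
      (Matrix.of fun (n : Fin L) (i : Fin (k+1)) => g i n)) i j =
      ∑ x ∈ range L ×ˢ range L, a (x.1 + x.2 + 1) * g i x.1 * g j x.2 -
        γ * ∑ n ∈ range L, g i n * g j n := by
    intro L i j
    rw [Matrix.mul_sub, Matrix.sub_mul, Matrix.sub_apply]
    congr 1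
    · rw [Matrix.mul_apply, Finset.sum_product_right, Finset.sum_range]
      apply Finset.sum_congr rfl
      intro p _
      rw [Matrix.mul_apply, Finset.sum_mul, Finset.sum_range]
      apply Finset.sum_congr rfl
      intro n _
      simp only [Matrix.transpose_apply, Matrix.of_apply]
      ring
    · rw [Matrix.mul_smul, Matrix.mul_one, Matrix.smul_mul, Matrix.smul_apply, smul_eq_mul,
        Matrix.mul_apply, Finset.sum_range]
      rfl
  have hlim : ∀ i j : Fin (k+1), Tendsto (fun L : ℕ =>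
      ((Matrix.of fun (n : Fin L) (i : Fin (k+1)) => g i n)ᵀ *
      (Matrix.of (fun n p : Fin L => a ((n:ℕ) + p + 1)) - γ • (1 : Matrix (Fin L) (Fin L) ℝ)) *
      (Matrix.of fun (n : Fin L) (i : Fin (k+1)) => g i n)) i j) atTop
      (𝓝 ((diagonal fun i : Fin (k+1) => σ i - γ) i j)) := by
    intro i j
    simp_rw [hentry]
    have h1 := ((hK i j).comp tendsto_range_prod)
    have h2 := ((hg i j).tendsto_sum_nat).const_mul γ
    have h3 := h1.sub h2
    have h4 : (diagonal fun i : Fin (k+1) => σ i - γ) i j =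
        (if (i:ℕ) = j then σ i else 0) - γ * (if (i:ℕ) = j then 1 else 0) := by
      rw [Matrix.diagonal_apply]
      by_cases hij : i = j
      · subst hij; simp
      · have : (i : ℕ) ≠ j := fun h => hij (Fin.ext h)
        simp [hij, this]
    rw [h4]
    exact h3
  have hpd : PD (diagonal fun i : Fin (k+1) => σ i - γ) := by
    refine ⟨σ k - γ, by linarith, fun c => ?_⟩
    simp only [dotProduct, Finset.mul_sum, Matrix.mulVec_diagonal]
    apply Finset.sum_le_sum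
    intro i _
    have h1 : σ k ≤ σ i := hσ.antitone (Nat.lt_succ_iff.mp i.2)
    nlinarith [mul_self_nonneg (c i)]
  exact (PD.eventually _ _ hlim hpd).exists

theorem keyLim (ρ : ℕ → ℝ) (hρ0 : ∀ k, 0 < ρ k) (hρ : Antitone ρ)
    (σ : ℕ → ℝ) (hσρ : ∀ k, σ k < ρ k) (hσ : StrictAnti σ) (hσ0 : ∀ k, 0 < σ k)
    (t q : ∀ N : ℕ, Fin N → ℝ) (Φ : ∀ N : ℕ, Matrix (Fin N) (Fin N) ℝ)
    (ht : ∀ N i, 0 < t N i ∧ t N i ≤ 1) (hΦ : ∀ N, Φ N * (Φ N)ᵀ = 1)
    (hP : ∀ N, (Φ N * diagonal (fun j : Fin N => ρ j) * (Φ N)ᵀ) =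
      diagonal (t N) * (Φ N * diagonal (fun j : Fin N => ρ j) * (Φ N)ᵀ) * diagonal (t N) +
        vecMulVec (q N) (q N))
    (a : ℕ → ℝ) (hconv : ∀ m, Tendsto (fun N => ∑ i, q N i ^ 2 * t N i ^ m) atTop (𝓝 (a m)))
    (hsum : Summable fun n : ℕ => (n:ℝ) * a n)
    (g : ℕ → ℕ → ℝ) (hg : ∀ i j, HasSum (fun n => g i n * g j n) (if i = j then 1 else 0))
    (hK : ∀ i j, HasSum (fun x : ℕ × ℕ => a (x.1 + x.2 + 1) * g i x.1 * g j x.2)
      (if i = j then σ i else 0)) (M : ℕ) :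
    ∑ k ∈ range M, σ k * ρ k / (ρ k - σ k) ≤ ∑' n : ℕ, (n:ℝ) * a n := by
  have ha0 : ∀ n, 0 ≤ a n := fun n => ge_of_tendsto' (hconv n) fun N =>
    Finset.sum_nonneg fun i _ => mul_nonneg (sq_nonneg _) (pow_nonneg (ht N i).1.le _)
  -- the inequality for smaller values
  have hcore : ∀ γ : ℕ → ℝ, (∀ k, 0 < γ k) → (∀ k, γ k < σ k) →
      ∑ k ∈ range M, γ k * ρ k / (ρ k - γ k) ≤ ∑' n : ℕ, (n:ℝ) * a n := by
    intro γ hγ0 hγ
    choose L hL using fun k => trunc_pd σ hσ a g hg hK k (γ k) (hγ k)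
    have hcont : ∀ k : ℕ, Continuous (fun X : Matrix (Fin (L k)) (Fin (L k)) ℝ =>
        (Matrix.of fun (n : Fin (L k)) (i : Fin (k+1)) => g i n)ᵀ *
          (X - γ k • (1 : Matrix (Fin (L k)) (Fin (L k)) ℝ)) *
          (Matrix.of fun (n : Fin (L k)) (i : Fin (k+1)) => g i n)) := fun k =>
      (Continuous.matrix_mul continuous_const (continuous_id.sub continuous_const)).matrix_mul
        continuous_const
    -- damping
    have hr : ∀ k : ℕ, ∀ᶠ r in 𝓝[<] (1:ℝ), PD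
        ((Matrix.of fun (n : Fin (L k)) (i : Fin (k+1)) => g i n)ᵀ *
        (Matrix.of (fun n p : Fin (L k) => r ^ ((n:ℕ) + p + 1) * a ((n:ℕ) + p + 1)) -
          γ k • (1 : Matrix (Fin (L k)) (Fin (L k)) ℝ)) *
        (Matrix.of fun (n : Fin (L k)) (i : Fin (k+1)) => g i n)) := by
      intro k
      have h1 : Tendsto (fun r : ℝ => (Matrix.of (fun n p : Fin (L k) =>
          r ^ ((n:ℕ) + p + 1) * a ((n:ℕ) + p + 1)))) (𝓝[<] (1:ℝ))
          (𝓝 (Matrix.of (fun n p : Fin (L k) => a ((n:ℕ) + p + 1)))) := by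
        refine tendsto_pi_nhds.mpr fun n => tendsto_pi_nhds.mpr fun p => ?_
        have h2 : Continuous (fun r : ℝ => r ^ ((n:ℕ) + p + 1) * a ((n:ℕ) + p + 1)) := by fun_prop
        have h3 := (h2.tendsto 1).mono_left (nhdsWithin_le_nhds (s := Set.Iio 1))
        simpa using h3
      have h2 := ((hcont k).tendsto _).comp h1
      apply PD.eventually _ _ _ (hL k)
      intro i j
      have h3 := (tendsto_pi_nhds.mp h2) i
      exact (tendsto_pi_nhds.mp h3) j
    have hr' : ∀ᶠ r in 𝓝[<] (1:ℝ), ∀ k ∈ range M, PD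
        ((Matrix.of fun (n : Fin (L k)) (i : Fin (k+1)) => g i n)ᵀ *
        (Matrix.of (fun n p : Fin (L k) => r ^ ((n:ℕ) + p + 1) * a ((n:ℕ) + p + 1)) -
          γ k • (1 : Matrix (Fin (L k)) (Fin (L k)) ℝ)) *
        (Matrix.of fun (n : Fin (L k)) (i : Fin (k+1)) => g i n)) := by
      rw [Filter.eventually_all_finset]
      intro k _
      exact hr k
    have hr01 : ∀ᶠ r in 𝓝[<] (1:ℝ), 0 < r ∧ r < 1 := by
      have h1 : ∀ᶠ r in 𝓝[<] (1:ℝ), r < 1 := eventually_nhdsWithin_of_forall fun r hr => hr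
      have h2 : ∀ᶠ r in 𝓝[<] (1:ℝ), 0 < r :=
        (eventually_gt_nhds (by norm_num : (0:ℝ) < 1)).filter_mono nhdsWithin_le_nhds
      filter_upwards [h1, h2] with r h h' using ⟨h', h⟩
    obtain ⟨r, hrPD, hr0, hr1⟩ := (hr'.and hr01).exists
    -- N → ∞
    have hN : ∀ᶠ N in atTop, ∀ k ∈ range M, PD
        ((Matrix.of fun (n : Fin (L k)) (i : Fin (k+1)) => g i n)ᵀ *
        (Matrix.of (fun n p : Fin (L k) => r ^ ((n:ℕ) + p + 1) *
          ∑ i, q N i ^ 2 * t N i ^ ((n:ℕ) + p + 1)) -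
          γ k • (1 : Matrix (Fin (L k)) (Fin (L k)) ℝ)) *
        (Matrix.of fun (n : Fin (L k)) (i : Fin (k+1)) => g i n)) := by
      rw [Filter.eventually_all_finset]
      intro k hk
      have h1 : Tendsto (fun N : ℕ => (Matrix.of (fun n p : Fin (L k) =>
          r ^ ((n:ℕ) + p + 1) * ∑ i, q N i ^ 2 * t N i ^ ((n:ℕ) + p + 1)))) atTop
          (𝓝 (Matrix.of (fun n p : Fin (L k) => r ^ ((n:ℕ) + p + 1) * a ((n:ℕ) + p + 1)))) := by
        refine tendsto_pi_nhds.mpr fun n => tendsto_pi_nhds.mpr fun p => ?_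
        exact (hconv _).const_mul _
      have h2 := ((hcont k).tendsto _).comp h1
      apply PD.eventually _ _ _ (hrPD k hk)
      intro i j
      have h3 := (tendsto_pi_nhds.mp h2) i
      exact (tendsto_pi_nhds.mp h3) j
    have hineq : ∀ᶠ N in atTop, ∑ k ∈ range M, γ k * ρ k / (ρ k - γ k) ≤
        ∑ i, q N i ^ 2 * (r * t N i) / (1 - r * t N i) ^ 2 := by
      filter_upwards [hN] with N hNPD
      apply keyFin ρ hρ0 hρ (t N) (q N) (Φ N) (ht N) (hΦ N) (hP N) r hr0 hr1 γ hγ0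
        (fun k => lt_trans (hγ k) (hσρ k))
      intro k hk
      exact mkL (t N) (q N) (ht N) r hr0 hr1 _ (γ k) (hγ0 k) (hNPD k (Finset.mem_range.mpr hk))
    -- the sum of the damped symbols
    have hS : ∀ N, HasSum (fun n : ℕ => (n:ℝ) * r ^ n * ∑ i, q N i ^ 2 * t N i ^ n)
        (∑ i, q N i ^ 2 * (r * t N i) / (1 - r * t N i) ^ 2) := by
      intro N
      have h1 : ∀ i : Fin N, HasSum (fun n : ℕ => q N i ^ 2 * ((n:ℝ) * (r * t N i) ^ n))
          (q N i ^ 2 * ((r * t N i) / (1 - r * t N i) ^ 2)) := by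
        intro i
        apply HasSum.mul_left
        apply hasSum_coe_mul_geometric_of_norm_lt_one
        rw [Real.norm_eq_abs, abs_of_pos (mul_pos hr0 (ht N i).1)]
        nlinarith [(ht N i).1, (ht N i).2]
      have h2 := hasSum_sum (s := (univ : Finset (Fin N))) (fun i _ => h1 i)
      convert h2 using 1
      · funext n
        rw [Finset.mul_sum]
        apply Finset.sum_congr rfl
        intro i _
        rw [mul_pow]; ring
      · apply Finset.sum_congr rfl
        intro i _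
        ring
    obtain ⟨C, hC⟩ : ∃ C : ℝ, ∀ N, (∑ i, q N i ^ 2 * t N i ^ 0) ≤ C := by
      obtain ⟨C, hC⟩ := (hconv 0).bddAbove_range
      exact ⟨C, fun N => hC (Set.mem_range_self N)⟩
    have hbound : ∀ N n : ℕ, ‖(n:ℝ) * r ^ n * ∑ i, q N i ^ 2 * t N i ^ n‖ ≤ (n:ℝ) * r ^ n * C := by
      intro N n
      have h0 : 0 ≤ ∑ i, q N i ^ 2 * t N i ^ n :=
        Finset.sum_nonneg fun i _ => mul_nonneg (sq_nonneg _) (pow_nonneg (ht N i).1.le _)
      have h1 : ∑ i, q N i ^ 2 * t N i ^ n ≤ C := by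
        refine le_trans ?_ (hC N)
        apply Finset.sum_le_sum
        intro i _
        apply mul_le_mul_of_nonneg_left _ (sq_nonneg _)
        rw [pow_zero]
        exact pow_le_one₀ (ht N i).1.le (ht N i).2
      have h2 : 0 ≤ (n:ℝ) * r ^ n := by positivity
      rw [Real.norm_eq_abs, abs_of_nonneg (mul_nonneg h2 h0)]
      exact mul_le_mul_of_nonneg_left h1 h2
    have hbs : Summable fun n : ℕ => (n:ℝ) * r ^ n * C := by
      apply Summable.mul_right
      exact (hasSum_coe_mul_geometric_of_norm_lt_one (by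
        rw [Real.norm_eq_abs, abs_of_pos hr0]; exact hr1)).summable
    have hlim : Tendsto (fun N => ∑ i, q N i ^ 2 * (r * t N i) / (1 - r * t N i) ^ 2) atTop
        (𝓝 (∑' n : ℕ, (n:ℝ) * r ^ n * a n)) := by
      have h1 := tendsto_tsum_of_dominated_convergence (𝓕 := atTop)
        (f := fun (N n : ℕ) => (n:ℝ) * r ^ n * ∑ i, q N i ^ 2 * t N i ^ n)
        (g := fun n : ℕ => (n:ℝ) * r ^ n * a n) hbs (fun n => (hconv n).const_mul _)
        (Filter.Eventually.of_forall fun N n => hbound N n)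
      refine h1.congr fun N => ?_
      exact (hS N).tsum_eq
    have h3 : ∑ k ∈ range M, γ k * ρ k / (ρ k - γ k) ≤ ∑' n : ℕ, (n:ℝ) * r ^ n * a n :=
      ge_of_tendsto hlim hineq
    refine le_trans h3 ?_
    have h4 : ∀ n : ℕ, (n:ℝ) * r ^ n * a n ≤ (n:ℝ) * a n := by
      intro n
      have h5 : r ^ n ≤ 1 := pow_le_one₀ hr0.le hr1.le
      have h6 : 0 ≤ (n:ℝ) * a n := mul_nonneg (Nat.cast_nonneg n) (ha0 n)
      nlinarith
    have h5 : Summable fun n : ℕ => (n:ℝ) * r ^ n * a n :=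
      Summable.of_nonneg_of_le (fun n => by have := ha0 n; positivity) h4 hsum
    exact Summable.tsum_le_tsum h4 h5 hsum
  -- limit γ → σ
  have hlim : Tendsto (fun s : ℝ => ∑ k ∈ range M, (s * σ k) * ρ k / (ρ k - s * σ k)) (𝓝[<] 1)
      (𝓝 (∑ k ∈ range M, σ k * ρ k / (ρ k - σ k))) := by
    apply tendsto_finsetSum
    intro k _
    have h1 : ContinuousAt (fun s : ℝ => (s * σ k) * ρ k / (ρ k - s * σ k)) 1 := by
      apply ContinuousAt.div
      · fun_prop
      · fun_prop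
      · rw [one_mul]; linarith [hσρ k]
    have h2 := h1.tendsto.mono_left (nhdsWithin_le_nhds (s := Set.Iio 1))
    simpa using h2
  have hr01 : ∀ᶠ s in 𝓝[<] (1:ℝ), 0 < s ∧ s < 1 := by
    have h1 : ∀ᶠ r in 𝓝[<] (1:ℝ), r < 1 := eventually_nhdsWithin_of_forall fun r hr => hr
    have h2 : ∀ᶠ r in 𝓝[<] (1:ℝ), 0 < r :=
      (eventually_gt_nhds (by norm_num : (0:ℝ) < 1)).filter_mono nhdsWithin_le_nhds
    filter_upwards [h1, h2] with r h h' using ⟨h', h⟩
  apply le_of_tendsto hlim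
  filter_upwards [hr01] with s hs
  apply hcore (fun k => s * σ k) (fun k => mul_pos hs.1 (hσ0 k))
  intro k
  nlinarith [hσ0 k, hs.2]

end R683HT
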