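import Pool.Agent.R683.HT6

namespace R683HT
open Finset Filter Topology

/-- square summable real sequences -/
def Sq (x : ℕ → ℝ) : Prop := Summable fun n => x n ^ 2

/-- the Hankel operator with kernel `a (n+p+1)` -/
noncomputable def Kop (a x : ℕ → ℝ) : ℕ → ℝ := fun n => ∑' p, a (n + p + 1) * x p

/-- Hilbert-Schmidt condition -/
def HS (a : ℕ → ℝ) : Prop := Summable fun x : ℕ × ℕ => a (x.1 + x.2 + 1) ^ 2

theorem hs_of (a : ℕ → ℝ) (ha : Summable fun n : ℕ => ((n:ℝ) + 1) * a n ^ 2) : HS a := by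
  unfold HS
  rw [← (Finset.HasAntidiagonal.sigmaAntidiagonalEquivProd (A := ℕ)).summable_iff]
  rw [summable_sigma_of_nonneg (fun _ => by simp only [Function.comp]; positivity)]
  constructor
  · intro m
    exact (hasSum_fintype _).summable
  · have h1 : ∀ m : ℕ, (∑' y : antidiagonal m,
        ((fun x : ℕ × ℕ => a (x.1 + x.2 + 1) ^ 2) ∘ (Finset.HasAntidiagonal.sigmaAntidiagonalEquivProd (A := ℕ)))
          ⟨m, y⟩) = ((m:ℝ) + 1) * a (m + 1) ^ 2 := by
      intro m
      rw [tsum_fintype]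
      have h2 : ∀ y : antidiagonal m, ((fun x : ℕ × ℕ => a (x.1 + x.2 + 1) ^ 2) ∘
        (Finset.HasAntidiagonal.sigmaAntidiagonalEquivProd (A := ℕ))) ⟨m, y⟩ = a (m + 1) ^ 2 := by
        intro y
        have := Finset.HasAntidiagonal.mem_antidiagonal.mp y.2
        simp only [Function.comp, Finset.HasAntidiagonal.sigmaAntidiagonalEquivProd_apply]
        rw [this]
      rw [Finset.sum_congr rfl (fun y _ => h2 y), Finset.sum_const, Finset.card_univ,
        Fintype.card_coe, Finset.Nat.card_antidiagonal, nsmul_eq_mul]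
      push_cast
      ring
    simp_rw [h1]
    have h3 := (summable_nat_add_iff 1).mpr ha
    apply Summable.of_nonneg_of_le _ _ h3
    · intro m; positivity
    · intro m
      push_cast
      nlinarith [sq_nonneg (a (m+1))]

theorem HS.row {a : ℕ → ℝ} (h : HS a) (n : ℕ) : Summable fun p : ℕ => a (n + p + 1) ^ 2 :=
  h.prod_factor n

theorem sum_mul {x y : ℕ → ℝ} (hx : Sq x) (hy : Sq y) : Summable fun n => x n * y n := by
  apply Summable.of_norm_bounded (g := fun n => x n ^ 2 + y n ^ 2) (Summable.add hx hy)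
  intro n
  rw [Real.norm_eq_abs, abs_le]
  constructor <;> nlinarith [sq_nonneg (x n + y n), sq_nonneg (x n - y n), sq_nonneg (x n),
    sq_nonneg (y n)]

theorem cs {x y : ℕ → ℝ} (hx : Sq x) (hy : Sq y) :
    (∑' n, x n * y n) ^ 2 ≤ (∑' n, x n ^ 2) * (∑' n, y n ^ 2) := by
  have h1 := ((sum_mul hx hy).hasSum.tendsto_sum_nat).pow 2
  apply le_of_tendsto' h1
  intro L
  calc (∑ n ∈ range L, x n * y n) ^ 2 ≤ (∑ n ∈ range L, x n ^ 2) * ∑ n ∈ range L, y n ^ 2 :=
        Finset.sum_mul_sq_le_sq_mul_sq _ _ _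
    _ ≤ _ := by
        apply mul_le_mul (hx.sum_le_tsum _ (fun _ _ => sq_nonneg _))
          (hy.sum_le_tsum _ (fun _ _ => sq_nonneg _))
          (Finset.sum_nonneg fun _ _ => sq_nonneg _) (tsum_nonneg fun _ => sq_nonneg _)

theorem Kop_summable {a x : ℕ → ℝ} (h : HS a) (hx : Sq x) (n : ℕ) :
    Summable fun p => a (n + p + 1) * x p := sum_mul (h.row n) hx

theorem Kop_sq {a x : ℕ → ℝ} (h : HS a) (hx : Sq x) : Sq (Kop a x) := by
  have h1 : Summable fun n => (∑' p, a (n + p + 1) ^ 2) * (∑' n, x n ^ 2) :=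
    (h.prod).mul_right _
  exact Summable.of_nonneg_of_le (fun _ => sq_nonneg _) (fun n => cs (h.row n) hx) h1

theorem Sq_add {x y : ℕ → ℝ} (hx : Sq x) (hy : Sq y) : Sq (fun n => x n + y n) := by
  have h1 : Summable fun n => 2 * (x n ^ 2 + y n ^ 2) := (Summable.add hx hy).mul_left 2
  apply Summable.of_nonneg_of_le (fun _ => sq_nonneg _) _ h1
  intro n
  nlinarith [sq_nonneg (x n - y n)]

theorem Sq_smul {x : ℕ → ℝ} (c : ℝ) (hx : Sq x) : Sq (fun n => c * x n) := by
  have := Summable.mul_left (c ^ 2) hx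
  refine this.congr fun n => ?_
  ring

theorem Kop_lin {a x y : ℕ → ℝ} (h : HS a) (hx : Sq x) (hy : Sq y) (c d : ℝ) :
    Kop a (fun n => c * x n + d * y n) = fun n => c * Kop a x n + d * Kop a y n := by
  ext n
  unfold Kop
  rw [← tsum_mul_left, ← tsum_mul_left, ← Summable.tsum_add]
  · apply tsum_congr
    intro p
    ring
  · exact (Kop_summable h hx n).mul_left c
  · exact (Kop_summable h hy n).mul_left d

theorem dbl {a x y : ℕ → ℝ} (h : HS a) (hx : Sq x) (hy : Sq y) :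
    Summable fun z : ℕ × ℕ => a (z.1 + z.2 + 1) * x z.1 * y z.2 := by
  have h1 : Summable fun z : ℕ × ℕ => x z.1 ^ 2 * y z.2 ^ 2 :=
    Summable.mul_of_nonneg hx hy (fun _ => sq_nonneg _) (fun _ => sq_nonneg _)
  have h2 : Summable fun z : ℕ × ℕ => a (z.1 + z.2 + 1) ^ 2 := h
  apply Summable.of_norm_bounded (g := fun z : ℕ × ℕ => a (z.1 + z.2 + 1) ^ 2 +
    x z.1 ^ 2 * y z.2 ^ 2) (h2.add h1)
  intro z
  rw [Real.norm_eq_abs, abs_le]
  constructor <;> nlinarith [sq_nonneg (a (z.1 + z.2 + 1) + x z.1 * y z.2),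
    sq_nonneg (a (z.1 + z.2 + 1) - x z.1 * y z.2), sq_nonneg (a (z.1 + z.2 + 1)),
    sq_nonneg (x z.1 * y z.2)]

theorem dbl_hasSum {a x y : ℕ → ℝ} (h : HS a) (hx : Sq x) (hy : Sq y) :
    HasSum (fun z : ℕ × ℕ => a (z.1 + z.2 + 1) * x z.1 * y z.2) (∑' n, x n * Kop a y n) := by
  have h1 := dbl h hx hy
  have h2 := h1.hasSum
  have h3 : (∑' z : ℕ × ℕ, a (z.1 + z.2 + 1) * x z.1 * y z.2) = ∑' n, x n * Kop a y n := by
    rw [h1.tsum_prod]
    apply tsum_congr
    intro n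
    unfold Kop
    rw [← tsum_mul_left]
    apply tsum_congr
    intro p
    ring
  rwa [h3] at h2

theorem Kop_symm {a x y : ℕ → ℝ} (h : HS a) (hx : Sq x) (hy : Sq y) :
    ∑' n, x n * Kop a y n = ∑' n, y n * Kop a x n := by
  have h1 := (dbl_hasSum h hx hy)
  have h2 := (dbl_hasSum h hy hx)
  have h3 := (Equiv.prodComm ℕ ℕ).hasSum_iff.mpr h2
  have h4 : ((fun z : ℕ × ℕ => a (z.1 + z.2 + 1) * y z.1 * x z.2) ∘ (Equiv.prodComm ℕ ℕ)) =
      fun z : ℕ × ℕ => a (z.1 + z.2 + 1) * x z.1 * y z.2 := by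
    funext z
    simp only [Function.comp, Equiv.prodComm_apply, Prod.swap]
    rw [add_comm z.2 z.1]
    ring
  rw [h4] at h3
  exact h1.unique h3

theorem Kop_nonneg {a x : ℕ → ℝ} (h : HS a) (hx : Sq x)
    (hpsd : ∀ L : ℕ, 0 ≤ ∑ z ∈ range L ×ˢ range L, a (z.1 + z.2 + 1) * x z.1 * x z.2) :
    0 ≤ ∑' n, x n * Kop a x n :=
  ge_of_tendsto' ((dbl_hasSum h hx hx).comp tendsto_range_prod) hpsd

/-- from an eigenvector of `K^2` to a normalised eigenvector of `K` -/
theorem eig_of_sq {a : ℕ → ℝ} (h : HS a)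
    (hpsd : ∀ (x : ℕ → ℝ) (L : ℕ),
      0 ≤ ∑ z ∈ range L ×ˢ range L, a (z.1 + z.2 + 1) * x z.1 * x z.2)
    (σ : ℝ) (hσ : 0 < σ) (x : ℕ → ℝ) (hx : Sq x) (hx0 : x ≠ 0)
    (hKK : Kop a (Kop a x) = fun n => σ ^ 2 * x n) :
    ∃ g : ℕ → ℝ, Sq g ∧ ∑' n, g n * g n = 1 ∧ Kop a g = fun n => σ * g n := by
  set y : ℕ → ℝ := fun n => 1 * Kop a x n + σ * x n with hy
  have hKx := Kop_sq h hx
  have hysq : Sq y := by
    exact Sq_add (Sq_smul 1 hKx) (Sq_smul σ hx)
  have hxpos : 0 < ∑' n, x n * x n := by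
    have hs := sum_mul hx hx
    obtain ⟨m, hm⟩ : ∃ m, x m ≠ 0 := by
      by_contra hcon
      push Not at hcon
      exact hx0 (funext hcon)
    exact hs.tsum_pos (fun n => mul_self_nonneg _) m (mul_self_pos.mpr hm)
  have hy0 : y ≠ 0 := by
    intro h0
    have h1 : Kop a x = fun n => - (σ * x n) := by
      ext n
      have := congrFun h0 n
      simp only [hy, Pi.zero_apply] at this
      linarith
    have h2 := Kop_nonneg h hx (hpsd x)
    rw [h1] at h2
    have h3 : ∑' n, x n * -(σ * x n) = -σ * ∑' n, x n * x n := by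
      rw [← tsum_mul_left]
      apply tsum_congr
      intro n; ring
    rw [h3] at h2
    nlinarith
  have hKy : Kop a y = fun n => σ * y n := by
    rw [hy, Kop_lin h hKx hx]
    ext n
    rw [hKK]
    ring
  have hypos : 0 < ∑' n, y n * y n := by
    have hs := sum_mul hysq hysq
    obtain ⟨m, hm⟩ : ∃ m, y m ≠ 0 := by
      by_contra hcon
      push Not at hcon
      exact hy0 (funext hcon)
    exact hs.tsum_pos (fun n => mul_self_nonneg _) m (mul_self_pos.mpr hm)
  set s := ∑' n, y n * y n with hs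
  refine ⟨fun n => (Real.sqrt s)⁻¹ * y n, Sq_smul _ hysq, ?_, ?_⟩
  · have h1 : ∀ n, ((Real.sqrt s)⁻¹ * y n) * ((Real.sqrt s)⁻¹ * y n) = s⁻¹ * (y n * y n) := by
      intro n
      have h2 : (Real.sqrt s)⁻¹ * (Real.sqrt s)⁻¹ = s⁻¹ := by
        rw [← mul_inv, Real.mul_self_sqrt hypos.le]
      rw [← h2]; ring
    simp_rw [h1]
    rw [tsum_mul_left, ← hs, inv_mul_cancel₀ hypos.ne']
  · have h1 := Kop_lin h hysq hysq ((Real.sqrt s)⁻¹) 0
    simp only [zero_mul, add_zero] at h1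
    rw [h1, hKy]
    ext n
    ring

/-- orthonormality and the matrix of the form -/
theorem ortho {a : ℕ → ℝ} (h : HS a) (σ : ℕ → ℝ) (hσ : Function.Injective σ) (g : ℕ → ℕ → ℝ)
    (hg : ∀ k, Sq (g k)) (hg1 : ∀ k, ∑' n, g k n * g k n = 1)
    (hgK : ∀ k, Kop a (g k) = fun n => σ k * g k n) :
    (∀ i j, HasSum (fun n => g i n * g j n) (if i = j then 1 else 0)) ∧
    (∀ i j, HasSum (fun x : ℕ × ℕ => a (x.1 + x.2 + 1) * g i x.1 * g j x.2)
      (if i = j then σ i else 0)) := by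
  have h1 : ∀ i j, ∑' n, g i n * Kop a (g j) n = σ j * ∑' n, g i n * g j n := by
    intro i j
    rw [hgK, ← tsum_mul_left]
    apply tsum_congr
    intro n; ring
  have h2 : ∀ i j, i ≠ j → ∑' n, g i n * g j n = 0 := by
    intro i j hij
    have h3 := Kop_symm h (hg i) (hg j)
    rw [h1, h1] at h3
    have h4 : ∑' n, g j n * g i n = ∑' n, g i n * g j n := tsum_congr fun n => mul_comm _ _
    rw [h4] at h3
    have h5 : (σ j - σ i) * ∑' n, g i n * g j n = 0 := by linarith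
    rcases mul_eq_zero.mp h5 with h6 | h6
    · exact absurd (hσ (sub_eq_zero.mp h6)).symm hij
    · exact h6
  have h3 : ∀ i j, ∑' n, g i n * g j n = if i = j then 1 else 0 := by
    intro i j
    split_ifs with hij
    · subst hij; exact hg1 i
    · exact h2 i j hij
  refine ⟨fun i j => ?_, fun i j => ?_⟩
  · have := (sum_mul (hg i) (hg j)).hasSum
    rwa [h3] at this
  · have := dbl_hasSum h (hg i) (hg j)
    rw [h1, h3] at this
    convert this using 1
    split_ifs with hij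
    · subst hij; ring
    · ring

end R683HT
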