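import Mathlib

namespace R683HT
open Finset Filter Topology

theorem tail_bound (A : ℕ → ℂ) (C : ℝ) (hA : ∀ n, ‖A n‖ ≤ C) (x : ℝ) (hx0 : 0 < x) (hx1 : x < 1) :
    Summable (fun n : ℕ => A n * (x:ℂ) ^ n) ∧
    ‖(∑' n : ℕ, A n * (x:ℂ) ^ n) - A 0‖ ≤ C * x / (1 - x) := by
  have hg := hasSum_geometric_of_lt_one hx0.le hx1
  have hb : ∀ n : ℕ, ‖A n * (x:ℂ) ^ n‖ ≤ C * x ^ n := by
    intro n
    rw [norm_mul, norm_pow, Complex.norm_real, Real.norm_eq_abs, abs_of_pos hx0]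
    exact mul_le_mul_of_nonneg_right (hA n) (pow_nonneg hx0.le n)
  have hs : Summable (fun n : ℕ => A n * (x:ℂ) ^ n) :=
    Summable.of_norm_bounded (g := fun n : ℕ => C * x ^ n) (hg.summable.mul_left C) hb
  refine ⟨hs, ?_⟩
  rw [hs.tsum_eq_zero_add]
  have h1 : A 0 * (x:ℂ) ^ 0 + ∑' (b : ℕ), A (b + 1) * (x:ℂ) ^ (b + 1) - A 0 =
      ∑' (b : ℕ), A (b + 1) * (x:ℂ) ^ (b + 1) := by
    rw [pow_zero, mul_one]; ring
  rw [h1]
  have h2 : HasSum (fun n : ℕ => C * x * x ^ n) (C * x * (1 - x)⁻¹) := hg.mul_left _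
  calc ‖∑' (b : ℕ), A (b + 1) * (x:ℂ) ^ (b + 1)‖ ≤ C * x * (1 - x)⁻¹ := by
        apply tsum_of_norm_bounded h2
        intro n
        refine le_trans (hb (n+1)) (le_of_eq (by ring))
    _ = _ := by rw [div_eq_mul_inv]

/-- convergence of the coefficients from convergence of the power series -/
theorem coef_conv_aux (n : ℕ) : ∀ (A : ℕ → ℕ → ℂ) (c : ℕ → ℂ) (C : ℝ),
    (∀ N m, ‖A N m‖ ≤ C) → (∀ m, ‖c m‖ ≤ C) →
    (∀ x : ℝ, 0 < x → x < 1 → Tendsto (fun N => ∑' m : ℕ, A N m * (x:ℂ) ^ m) atTop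
      (𝓝 (∑' m : ℕ, c m * (x:ℂ) ^ m))) → Tendsto (fun N => A N n) atTop (𝓝 (c n)) := by
  have base : ∀ (A : ℕ → ℕ → ℂ) (c : ℕ → ℂ) (C : ℝ),
    (∀ N m, ‖A N m‖ ≤ C) → (∀ m, ‖c m‖ ≤ C) →
    (∀ x : ℝ, 0 < x → x < 1 → Tendsto (fun N => ∑' m : ℕ, A N m * (x:ℂ) ^ m) atTop
      (𝓝 (∑' m : ℕ, c m * (x:ℂ) ^ m))) → Tendsto (fun N => A N 0) atTop (𝓝 (c 0)) := by
    intro A c C hA hc hlim
    have hC : 0 ≤ C := le_trans (norm_nonneg _) (hc 0)
    rw [Metric.tendsto_nhds]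
    intro ε hε
    -- choose x
    have h1 : Tendsto (fun x : ℝ => C * x / (1 - x)) (𝓝 0) (𝓝 0) := by
      have : ContinuousAt (fun x : ℝ => C * x / (1 - x)) 0 := by
        apply ContinuousAt.div
        · fun_prop
        · fun_prop
        · norm_num
      simpa using this.tendsto
    have h2 : ∀ᶠ x in 𝓝[>] (0:ℝ), C * x / (1 - x) < ε / 3 :=
      ((h1.eventually (gt_mem_nhds (by positivity))).filter_mono nhdsWithin_le_nhds)
    have h3 : ∀ᶠ x in 𝓝[>] (0:ℝ), x < 1 :=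
      (eventually_lt_nhds (by norm_num : (0:ℝ) < 1)).filter_mono nhdsWithin_le_nhds
    have h4 : ∀ᶠ x in 𝓝[>] (0:ℝ), 0 < x := eventually_nhdsWithin_of_forall fun r hr => hr
    obtain ⟨x, hx1, hx2, hx3⟩ := (h2.and (h3.and h4)).exists
    have h5 := (Metric.tendsto_nhds.mp (hlim x hx3 hx2)) (ε / 3) (by positivity)
    filter_upwards [h5] with N hN
    have h6 := (tail_bound (A N) C (hA N) x hx3 hx2).2
    have h7 := (tail_bound c C hc x hx3 hx2).2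
    rw [dist_eq_norm] at hN ⊢
    calc ‖A N 0 - c 0‖ = ‖-((∑' n : ℕ, A N n * (x:ℂ) ^ n) - A N 0) +
          ((∑' n : ℕ, A N n * (x:ℂ) ^ n) - (∑' n : ℕ, c n * (x:ℂ) ^ n)) +
          ((∑' n : ℕ, c n * (x:ℂ) ^ n) - c 0)‖ := by congr 1; ring
      _ ≤ ‖-((∑' n : ℕ, A N n * (x:ℂ) ^ n) - A N 0)‖ +
          ‖(∑' n : ℕ, A N n * (x:ℂ) ^ n) - (∑' n : ℕ, c n * (x:ℂ) ^ n)‖ +
          ‖(∑' n : ℕ, c n * (x:ℂ) ^ n) - c 0‖ := norm_add₃_le
      _ < ε := by rw [norm_neg]; linarith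
  induction n with
  | zero => exact base
  | succ n ih =>
    intro A c C hA hc hlim
    have h0 := base A c C hA hc hlim
    apply ih (fun N m => A N (m+1)) (fun m => c (m+1)) C (fun N m => hA N (m+1))
      (fun m => hc (m+1))
    intro x hx0 hx1
    have e : ∀ B : ℕ → ℂ, (∀ m, ‖B m‖ ≤ C) →
        ∑' m : ℕ, B (m+1) * (x:ℂ) ^ m = ((∑' m : ℕ, B m * (x:ℂ) ^ m) - B 0) / x := by
      intro B hB
      have hs := (tail_bound B C hB x hx0 hx1).1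
      rw [hs.tsum_eq_zero_add, pow_zero, mul_one, add_sub_cancel_left]
      have hx : (x:ℂ) ≠ 0 := by exact_mod_cast hx0.ne'
      rw [eq_div_iff hx, ← tsum_mul_right]
      apply tsum_congr
      intro m
      ring
    rw [e c hc]
    refine Tendsto.congr (fun N => (e (A N) (hA N)).symm) ?_
    exact ((hlim x hx0 hx1).sub h0).div_const _

end R683HT
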