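import Mathlib

namespace R683HT
open Finset Filter Topology Real Complex

/-- exponential -/
noncomputable def ex (n : ℤ) (θ : ℝ) : ℂ := Complex.exp (-((n:ℂ) * θ * Complex.I))

theorem ex_cont (n : ℤ) : Continuous (ex n) := by unfold ex; fun_prop

theorem ex_deriv (n : ℤ) (θ : ℝ) : HasDerivAt (ex n) (-((n:ℂ) * Complex.I) * ex n θ) θ := by
  have h1 : HasDerivAt (fun θ : ℝ => -((n:ℂ) * θ * Complex.I)) (-((n:ℂ) * Complex.I)) θ := by
    have h2 : HasDerivAt (fun θ : ℝ => (θ:ℂ)) 1 θ := Complex.ofRealCLM.hasDerivAt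
    have h3 := ((h2.const_mul (n:ℂ)).mul_const Complex.I).fun_neg
    simpa using h3
  have h2 := h1.cexp
  unfold ex
  rw [mul_comm] at h2
  exact h2

theorem ex_two_pi (n : ℤ) : ex n (2 * π) = 1 := by
  unfold ex
  rw [show -((n:ℂ) * ((2 * π : ℝ) : ℂ) * Complex.I) = ((-n : ℤ) : ℂ) * (2 * π * Complex.I) by
    push_cast; ring]
  exact Complex.exp_int_mul_two_pi_mul_I _

theorem ex_zero (n : ℤ) : ex n 0 = 1 := by simp [ex]

theorem int_ex (n : ℤ) : ∫ θ in (0:ℝ)..(2*π), ex n θ = if n = 0 then 2 * (π:ℂ) else 0 := by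
  split_ifs with h
  · subst h
    simp [ex]
  · have h1 : ∀ θ : ℝ, HasDerivAt (fun θ => (-((n:ℂ) * Complex.I))⁻¹ * ex n θ) (ex n θ) θ := by
      intro θ
      have h2 := (ex_deriv n θ).const_mul ((-((n:ℂ) * Complex.I))⁻¹)
      have h3 : (-((n:ℂ) * Complex.I)) ≠ 0 :=
        neg_ne_zero.mpr (mul_ne_zero (by exact_mod_cast h) Complex.I_ne_zero)
      rwa [← mul_assoc, inv_mul_cancel₀ h3, one_mul] at h2
    rw [intervalIntegral.integral_eq_sub_of_hasDerivAt (fun θ _ => h1 θ)
      ((ex_cont n).intervalIntegrable _ _), ex_two_pi, ex_zero, sub_self]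

theorem int_parts (U : ℝ → ℂ) (hU : ContDiff ℝ 1 U) (hper : Function.Periodic U (2*π)) (n : ℤ) :
    ∫ θ in (0:ℝ)..(2*π), deriv U θ * ex n θ =
      (n:ℂ) * Complex.I * ∫ θ in (0:ℝ)..(2*π), U θ * ex n θ := by
  have hUd : ∀ θ, HasDerivAt U (deriv U θ) θ := fun θ =>
    (hU.differentiable one_ne_zero θ).hasDerivAt
  have hcd : Continuous (deriv U) := hU.continuous_deriv le_rfl
  have h1 : ∀ θ : ℝ, HasDerivAt (fun θ => U θ * ex n θ)
      (deriv U θ * ex n θ + U θ * (-((n:ℂ) * Complex.I) * ex n θ)) θ := fun θ =>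
    (hUd θ).mul (ex_deriv n θ)
  have hc1 : Continuous (fun θ => deriv U θ * ex n θ) := hcd.mul (ex_cont n)
  have hc2 : Continuous (fun θ => U θ * (-((n:ℂ) * Complex.I) * ex n θ)) :=
    hU.continuous.mul (continuous_const.mul (ex_cont n))
  have h2 := intervalIntegral.integral_eq_sub_of_hasDerivAt (a := 0) (b := 2*π) (fun θ _ => h1 θ)
    ((hc1.add hc2).intervalIntegrable _ _)
  rw [ex_two_pi, ex_zero, show U (2*π) = U 0 by simpa using hper 0, sub_self,
    intervalIntegral.integral_add (hc1.intervalIntegrable _ _) (hc2.intervalIntegrable _ _)] at h2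
  have h3 : ∫ θ in (0:ℝ)..(2*π), U θ * (-((n:ℂ) * Complex.I) * ex n θ) =
      -((n:ℂ) * Complex.I) * ∫ θ in (0:ℝ)..(2*π), U θ * ex n θ := by
    rw [← intervalIntegral.integral_const_mul]
    congr 1
    ext θ
    ring
  rw [h3] at h2
  linear_combination h2

/-- Fejér kernel -/
noncomputable def fej (L : ℕ) (θ : ℝ) : ℂ := ∑ z ∈ range L ×ˢ range L, ex ((z.1:ℤ) - z.2) θ

theorem fej_norm (L : ℕ) (θ : ℝ) : ((‖fej L θ‖ : ℝ) : ℂ) = fej L θ := by
  have h1 : fej L θ = (Complex.normSq (∑ j ∈ range L, ex j θ) : ℂ) := by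
    rw [← Complex.mul_conj, map_sum, Finset.sum_mul_sum, fej, Finset.sum_product]
    apply Finset.sum_congr rfl
    intro j _
    apply Finset.sum_congr rfl
    intro l _
    unfold ex
    rw [← Complex.exp_conj, ← Complex.exp_add]
    congr 1
    simp only [map_neg, map_mul, Complex.conj_I, Complex.conj_ofReal, Int.cast_sub,
      Int.cast_natCast, map_natCast]
    ring
  rw [h1]
  rw [Complex.norm_real, Real.norm_of_nonneg (Complex.normSq_nonneg _)]

theorem fej_cont (L : ℕ) : Continuous (fej L) := by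
  unfold fej
  exact continuous_finsetSum _ fun z _ => ex_cont _

theorem fej_int (L : ℕ) : ∫ θ in (0:ℝ)..(2*π), ‖fej L θ‖ = 2 * π * L := by
  have h1 : ((∫ θ in (0:ℝ)..(2*π), ‖fej L θ‖ : ℝ) : ℂ) = ((2 * π * L : ℝ) : ℂ) := by
    rw [← intervalIntegral.integral_ofReal]
    simp_rw [fej_norm]
    unfold fej
    rw [intervalIntegral.integral_finsetSum (fun z _ => (ex_cont _).intervalIntegrable _ _)]
    simp_rw [int_ex]
    rw [Finset.sum_product]
    have h2 : ∀ x ∈ range L, (∑ y ∈ range L, (if ((x:ℤ) - y) = 0 then (2 * (π:ℂ)) else 0)) =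
        2 * π := by
      intro x hx
      rw [Finset.sum_eq_single x]
      · simp
      · intro y _ hy
        rw [if_neg]
        intro h
        apply hy
        omega
      · intro h; exact absurd hx h
    rw [Finset.sum_congr rfl h2, Finset.sum_const, Finset.card_range, nsmul_eq_mul]
    push_cast
    ring
  exact_mod_cast h1

theorem c1_summable (U : ℝ → ℂ) (hU : ContDiff ℝ 1 U) (hper : Function.Periodic U (2*π))
    (a : ℕ → ℝ) (ha : ∀ n, 0 ≤ a n)
    (hF : ∀ n : ℤ, ∫ θ in (0:ℝ)..(2*π), U θ * ex n θ =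
      2 * π * (if 0 ≤ n then (a n.toNat : ℂ) else 0)) :
    Summable fun n : ℕ => (n:ℝ) * a n := by
  have hcd : Continuous (deriv U) := hU.continuous_deriv le_rfl
  obtain ⟨B, hB⟩ := (isCompact_Icc (a := (0:ℝ)) (b := 2*π)).exists_bound_of_continuousOn
    hcd.continuousOn
  set b : ℤ → ℝ := fun n => if 0 ≤ n then (n.toNat : ℝ) * a n.toNat else 0 with hb
  have hb0 : ∀ n, 0 ≤ b n := by
    intro n
    simp only [hb]
    split_ifs
    · exact mul_nonneg (Nat.cast_nonneg _) (ha _)
    · exact le_rfl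
  have hI : ∀ n : ℤ, ∫ θ in (0:ℝ)..(2*π), deriv U θ * ex n θ = 2 * π * Complex.I * (b n : ℂ) := by
    intro n
    rw [int_parts U hU hper n, hF n]
    simp only [hb]
    split_ifs with h
    · obtain ⟨m, rfl⟩ := Int.eq_ofNat_of_zero_le h
      simp only [Int.toNat_natCast, Int.cast_natCast, Complex.ofReal_mul, Complex.ofReal_natCast]
      ring
    · simp
  have hmain : ∀ L : ℕ, ∑ z ∈ range L ×ˢ range L, b ((z.1:ℤ) - z.2) ≤ B * L := by
    intro L
    have h1 : ∫ θ in (0:ℝ)..(2*π), deriv U θ * fej L θ =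
        2 * π * Complex.I * ((∑ z ∈ range L ×ˢ range L, b ((z.1:ℤ) - z.2) : ℝ) : ℂ) := by
      have h2 : ∀ θ, deriv U θ * fej L θ = ∑ z ∈ range L ×ˢ range L,
          deriv U θ * ex ((z.1:ℤ) - z.2) θ := by
        intro θ
        rw [fej, Finset.mul_sum]
      simp_rw [h2]
      rw [intervalIntegral.integral_finsetSum
        (f := fun (z : ℕ × ℕ) θ => deriv U θ * ex ((z.1:ℤ) - z.2) θ)
        (fun z _ => (hcd.mul (ex_cont _)).intervalIntegrable _ _)]
      simp_rw [hI]
      rw [← Finset.mul_sum]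
      push_cast
      rfl
    have h2 : ‖∫ θ in (0:ℝ)..(2*π), deriv U θ * fej L θ‖ ≤
        ∫ θ in (0:ℝ)..(2*π), B * ‖fej L θ‖ := by
      apply intervalIntegral.norm_integral_le_of_norm_le (by positivity)
      · apply Filter.Eventually.of_forall
        intro θ hθ
        rw [norm_mul]
        exact mul_le_mul_of_nonneg_right (hB θ ⟨hθ.1.le, hθ.2⟩) (norm_nonneg _)
      · exact (continuous_const.mul (fej_cont L).norm).intervalIntegrable _ _
    rw [intervalIntegral.integral_const_mul, fej_int, h1] at h2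
    have h3 : 0 ≤ ∑ z ∈ range L ×ˢ range L, b ((z.1:ℤ) - z.2) :=
      Finset.sum_nonneg fun z _ => hb0 _
    rw [norm_mul, norm_mul, norm_mul, Complex.norm_I, Complex.norm_real, Complex.norm_real,
      Real.norm_of_nonneg h3, Real.norm_of_nonneg pi_pos.le, Complex.norm_ofNat, mul_one] at h2
    have h4 : (2 * π) * ∑ z ∈ range L ×ˢ range L, b ((z.1:ℤ) - z.2) ≤ (2 * π) * (B * L) := by
      linarith
    exact le_of_mul_le_mul_left h4 (by positivity)
  have hB0 : 0 ≤ B := le_trans (norm_nonneg _) (hB 0 ⟨le_rfl, by positivity⟩)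
  apply summable_of_sum_range_le (c := 2 * B) (fun n => mul_nonneg (Nat.cast_nonneg _) (ha _))
  intro M
  rcases Nat.eq_zero_or_pos M with hM | hM
  · subst hM; simp; exact hB0
  have h1 := hmain (2 * M)
  have h2 : (M:ℝ) * ∑ n ∈ range M, (n:ℝ) * a n ≤
      ∑ z ∈ range (2*M) ×ˢ range (2*M), b ((z.1:ℤ) - z.2) := by
    have h3 : (M:ℝ) * ∑ n ∈ range M, (n:ℝ) * a n =
        ∑ z ∈ (range M ×ˢ range M).image (fun z : ℕ × ℕ => (z.1 + z.2, z.1)),
          b ((z.1:ℤ) - z.2) := by
      rw [Finset.sum_image]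
      · rw [Finset.sum_product]
        have h4 : ∀ x ∈ range M, ∑ y ∈ range M, b (((x + y : ℕ):ℤ) - x) =
            ∑ n ∈ range M, (n:ℝ) * a n := by
          intro x _
          apply Finset.sum_congr rfl
          intro y _
          simp only [hb]
          rw [show (((x + y : ℕ):ℤ) - x) = (y:ℤ) by push_cast; ring]
          simp
        rw [Finset.sum_congr rfl h4, Finset.sum_const, Finset.card_range, nsmul_eq_mul]
      · intro x _ y _ hxy
        simp only [Prod.mk.injEq] at hxy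
        ext
        · omega
        · omega
    rw [h3]
    apply Finset.sum_le_sum_of_subset_of_nonneg
    · intro z hz
      simp only [Finset.mem_image, Finset.mem_product, Finset.mem_range] at hz ⊢
      obtain ⟨w, hw, rfl⟩ := hz
      simp only
      omega
    · intro z _ _
      exact hb0 _
  have hMr : (0:ℝ) < M := by exact_mod_cast hM
  have h5 : (M:ℝ) * ∑ n ∈ range M, (n:ℝ) * a n ≤ (M:ℝ) * (2 * B) := by
    push_cast at h1
    linarith
  exact le_of_mul_le_mul_left h5 hMr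

end R683HT
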