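import Pool.Agent.R755.KF.Defs

/-!
# Slices of compact convex sets: measurability and Fubini
-/

set_option autoImplicit false

namespace Pool.Agent.R683.KFx

open MeasureTheory Set Filter Topology
open scoped ENNReal InnerProductSpace
open Pool.Agent.R754.KG (E un sl Rv lint_half un_lint un_int un_prob R_nonneg)
open Pool.Agent.R755.KF (CB)

variable {N d : ℕ} {K : Set (E N × E d)}

theorem meas (h : CB K) : MeasurableSet K := h.comp.isClosed.measurableSet

theorem kfin (h : CB K) : volume K ≠ ⊤ := h.comp.measure_lt_top.ne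

theorem sl_meas (h : CB K) (t : E d) : MeasurableSet (sl K t) :=
  measurable_prodMk_right (meas h)

theorem sl_bd (h : CB K) (t : E d) : Bornology.IsBounded (sl K t) :=
  h.comp.isBounded.image_fst.subset fun x hx => ⟨(x, t), hx, rfl⟩

theorem sl_comp (h : CB K) (t : E d) : IsCompact (sl K t) := by
  refine Metric.isCompact_of_isClosed_isBounded ?_ (sl_bd h t)
  exact h.comp.isClosed.preimage (Continuous.prodMk_left t)

theorem sl_conv (h : CB K) (t : E d) : Convex ℝ (sl K t) := by
  intro x hx y hy a b ha hb hab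
  have k := h.conv hx hy ha hb hab
  have e : a • (x, t) + b • (y, t) = (a • x + b • y, t) := by
    ext1
    · rfl
    · show a • t + b • t = t
      rw [← add_smul, hab, one_smul]
  rw [e] at k
  exact k

theorem sl_fin (h : CB K) (t : E d) : volume (sl K t) ≠ ⊤ := (sl_bd h t).measure_lt_top.ne

theorem R_vol (h : CB K) (t : E d) : volume (sl K t) = ENNReal.ofReal (Rv K t) := by
  unfold Rv
  rw [ENNReal.ofReal_toReal (sl_fin h t)]

theorem ne_of_R {t : E d} (ht : 0 < Rv K t) : volume (sl K t) ≠ 0 := by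
  intro h0
  unfold Rv at ht
  rw [h0] at ht
  simp at ht

theorem fub (h : CB K) (F : E N × E d → ℝ≥0∞) (hF : Measurable F) :
    ∫⁻ z in K, F z = ∫⁻ t, ∫⁻ x in sl K t, F (x, t) := by
  rw [← lintegral_indicator (meas h), Measure.volume_eq_prod,
    lintegral_prod_symm' _ (hF.indicator (meas h))]
  refine lintegral_congr fun t => ?_
  rw [← lintegral_indicator (sl_meas h t)]
  rfl

theorem sec_meas (h : CB K) (F : E N × E d → ℝ≥0∞) (hF : Measurable F) :
    Measurable fun t => ∫⁻ x in sl K t, F (x, t) := by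
  have h1 : Measurable fun t : E d => ∫⁻ x, K.indicator F (x, t) := by
    exact (hF.indicator (meas h)).lintegral_prod_left'
  convert h1 using 2 with t
  rw [← lintegral_indicator (sl_meas h t)]
  rfl

theorem vol_fub (h : CB K) : volume K = ∫⁻ t, volume (sl K t) := by
  have := fub h (fun _ => 1) measurable_const
  simpa using this

theorem vol_meas (h : CB K) : Measurable fun t => volume (sl K t) := by
  have := sec_meas h (fun _ => 1) measurable_const
  simpa using this

theorem R_meas (h : CB K) : Measurable (Rv K) := by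
  unfold Rv
  exact (vol_meas h).ennreal_toReal

theorem mid_mem (h : CB K) {t0 t1 : E d} {x y : E N} (hx : x ∈ sl K t0) (hy : y ∈ sl K t1) :
    (1 / 2 : ℝ) • (x + y) ∈ sl K ((1 / 2 : ℝ) • (t0 + t1)) := by
  have k := h.conv hx hy (by norm_num : (0 : ℝ) ≤ 1 / 2) (by norm_num : (0 : ℝ) ≤ 1 / 2)
    (by norm_num)
  have e : (1 / 2 : ℝ) • (x, t0) + (1 / 2 : ℝ) • (y, t1) =
      ((1 / 2 : ℝ) • (x + y), (1 / 2 : ℝ) • (t0 + t1)) := by
    rw [smul_add (1 / 2 : ℝ) x, smul_add (1 / 2 : ℝ) t0]
    rfl
  rw [e] at k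
  exact k

end Pool.Agent.R683.KFx
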