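import Pool.Agent.R683.Rec

/-!
# The `p`-length of linear groups
-/

set_option autoImplicit false

namespace Pool.Agent.R683.Rec

open Pool.Agent.Helper407.PL Pool.Agent.R683.Crit Pool.Agent.R683.Ord

universe u

variable {p : ℕ} [hp : Fact p.Prime]

/-- a solvable linear group over a field of characteristic `p` has a large normal
`p`-subgroup -/
theorem exists_normal_p {H : Type u} [Group H] [Finite H] [Group.IsSolvable H] (V : Type u)
    [AddCommGroup V] [Finite V] (φ : H →* MulAut (Multiplicative V)) (hφ : Function.Injective φ)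
    (hV : ∃ a, Nat.card V = p ^ a) :
    ∃ D : Subgroup H, D.Normal ∧ PF p ⊥ D ∧
      Nat.card H ^ 5 ≤ Nat.card D ^ 5 * Nat.card V ^ 12 := by
  classical
  let G := Multiplicative V ⋊[φ] H
  let r : G →* H := SemidirectProduct.rightHom
  have hfinG : Finite G := Finite.of_equiv _ SemidirectProduct.equivProd.symm
  have hrs : Function.Surjective r := SemidirectProduct.rightHom_surjective
  have hcardM : Nat.card r.ker = Nat.card V := by
    have h1 : r.ker = (SemidirectProduct.inl : Multiplicative V →* G).range :=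
      SemidirectProduct.range_inl_eq_ker_rightHom.symm
    rw [h1]
    exact Nat.card_congr
      (MonoidHom.ofInjective (SemidirectProduct.inl_injective (φ := φ))).symm.toEquiv
  have hsolM : Group.IsSolvable r.ker := by
    have h1 : r.ker = (SemidirectProduct.inl : Multiplicative V →* G).range :=
      SemidirectProduct.range_inl_eq_ker_rightHom.symm
    rw [h1]
    exact Group.isSolvable_of_surjective
      (f := (SemidirectProduct.inl : Multiplicative V →* G).rangeRestrict)
      (MonoidHom.rangeRestrict_surjective _)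
  have hsolG : Group.IsSolvable G := sol_ext r hsolM inferInstance
  have hC : ∀ x : G, (∀ y ∈ r.ker, x * y = y * x) → x ∈ r.ker := by
    intro x hx
    rw [MonoidHom.mem_ker]
    show x.right = 1
    apply hφ
    rw [map_one]
    apply MulEquiv.ext
    intro b
    have h1 : (SemidirectProduct.inl b : G) ∈ r.ker := by
      rw [MonoidHom.mem_ker]
      exact SemidirectProduct.rightHom_inl b
    have h2 := congrArg SemidirectProduct.left (hx _ h1)
    rw [SemidirectProduct.mul_left, SemidirectProduct.mul_left, SemidirectProduct.left_inl,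
      SemidirectProduct.right_inl, map_one, MulAut.one_apply, mul_comm b x.left] at h2
    exact mul_left_cancel h2
  obtain ⟨D, hDn, hDc, hDk⟩ := self_centralizing r.ker inferInstance hC
  refine ⟨D.map r, hDn.map r hrs, ?_, ?_⟩
  · rintro _ ⟨d, hd, rfl⟩
    obtain ⟨k, hk⟩ := hDk d hd
    obtain ⟨a, ha⟩ := hV
    refine ⟨a * k, ?_⟩
    rw [Subgroup.mem_bot, ← map_pow, pow_mul, ← ha, ← hcardM, hk, map_one]
  · have hcG : Nat.card G = Nat.card V * Nat.card H := SemidirectProduct.card
    have hcD : Nat.card D ≤ Nat.card V * Nat.card (D.map r) := by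
      have h1 : Nat.card D = Nat.card (r.subgroupMap D).ker * Nat.card (D.map r) := by
        have h2 := Subgroup.card_eq_card_quotient_mul_card_subgroup (r.subgroupMap D).ker
        rw [h2, mul_comm]
        congr 1
        exact Nat.card_congr (QuotientGroup.quotientKerEquivOfSurjective _
          (r.subgroupMap_surjective D)).toEquiv
      rw [h1]
      refine Nat.mul_le_mul_right _ ?_
      rw [← hcardM]
      refine Nat.card_le_card_of_injective (fun x => (⟨(x : D), by
        have h3 := x.2
        rw [MonoidHom.mem_ker] at h3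
        have h4 := congrArg Subtype.val h3
        exact h4⟩ : r.ker)) ?_
      intro x y hxy
      apply Subtype.ext
      apply Subtype.ext
      exact congrArg (fun z : r.ker => (z : G)) hxy
    rw [hcardM, hcG] at hDc
    have hVpos : 0 < Nat.card V := Nat.card_pos
    have h1 : Nat.card V ^ 5 * Nat.card H ^ 5 ≤
        Nat.card V ^ 5 * (Nat.card (D.map r) ^ 5 * Nat.card V ^ 12) := by
      calc Nat.card V ^ 5 * Nat.card H ^ 5 = (Nat.card V * Nat.card H) ^ 5 := by rw [mul_pow]
        _ ≤ Nat.card D ^ 5 * Nat.card V ^ 12 := hDc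
        _ ≤ (Nat.card V * Nat.card (D.map r)) ^ 5 * Nat.card V ^ 12 :=
            Nat.mul_le_mul_right _ (Nat.pow_le_pow_left hcD 5)
        _ = _ := by ring
    exact Nat.le_of_mul_le_mul_left h1 (by positivity)

/-- the bound for solvable linear groups -/
theorem linear_bound {H : Type u} [Group H] [Finite H] [Group.IsSolvable H] (V : Type u)
    [AddCommGroup V] [Finite V] (φ : H →* MulAut (Multiplicative V)) (hφ : Function.Injective φ)
    (hV : ∃ a, Nat.card V = p ^ a) (l : ℕ) (hl : ¬ RLp p (l + 1) (⊥ : Subgroup H) ⊤) :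
    (289 / 144 : ℝ) ^ l ≤ 12 / 5 * Real.logb 2 (Nat.card V) := by
  obtain ⟨D, hDn, hDp, hDc⟩ := exists_normal_p V φ hφ hV
  have hY : Nat.card (H ⧸ D) ^ 5 ≤ Nat.card V ^ 12 := by
    have h1 := Subgroup.card_eq_card_quotient_mul_card_subgroup D
    have hDpos : 0 < Nat.card D := Nat.card_pos
    have h2 : Nat.card D ^ 5 * Nat.card (H ⧸ D) ^ 5 ≤ Nat.card D ^ 5 * Nat.card V ^ 12 := by
      rw [← mul_pow, mul_comm (Nat.card D), ← h1]
      exact hDc
    exact Nat.le_of_mul_le_mul_left h2 (by positivity)
  obtain ⟨K, hKn, hKp, hKmax⟩ := exists_opp (p := p) (G := H ⧸ D)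
  have h3 := not_rlp_quot_p' (K := K) hKp (not_rlp_quot_p (K := D) hDp hl)
  have h4 := order_bound (p := p) l ((H ⧸ D) ⧸ K) (quot_opp hKp hKmax) h3
  have h5 : Nat.card ((H ⧸ D) ⧸ K) ≤ Nat.card (H ⧸ D) := by
    have h1 := Subgroup.card_eq_card_quotient_mul_card_subgroup K
    have h2 : 0 < Nat.card K := Nat.card_pos
    rw [h1]
    exact Nat.le_mul_of_pos_right _ h2
  have hpos1 : (0 : ℝ) < Nat.card ((H ⧸ D) ⧸ K) := by exact_mod_cast Nat.card_pos
  have hpos2 : (0 : ℝ) < Nat.card (H ⧸ D) := by exact_mod_cast Nat.card_pos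
  have hpos3 : (0 : ℝ) < Nat.card V := by exact_mod_cast Nat.card_pos
  have h6 : Real.logb 2 (Nat.card ((H ⧸ D) ⧸ K)) ≤ Real.logb 2 (Nat.card (H ⧸ D)) :=
    Real.logb_le_logb_of_le (by norm_num) hpos1 (by exact_mod_cast h5)
  have h7 : 5 * Real.logb 2 (Nat.card (H ⧸ D)) ≤ 12 * Real.logb 2 (Nat.card V) := by
    have h8 : ((Nat.card (H ⧸ D) : ℝ)) ^ 5 ≤ (Nat.card V : ℝ) ^ 12 := by exact_mod_cast hY
    have h9 := Real.logb_le_logb_of_le (b := 2) (by norm_num) (by positivity) h8
    rw [Real.logb_pow, Real.logb_pow] at h9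
    push_cast at h9
    exact h9
  linarith

end Pool.Agent.R683.Rec
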