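import Pool.Agent.R683.RQ
import Pool.Agent.R683.LinB

/-!
# Lengths of solvable permutation groups
-/

set_option autoImplicit false

namespace Pool.Agent.R683.LenP

open Pool.Agent.Helper407.PL Pool.Agent.R683.Q Pool.Agent.Y759.CT Subgroup

/-- the properties of a length -/
structure Len (L : (G : Type) → [Group G] → ℕ → Subgroup G → Subgroup G → Prop) : Prop where
  refl : ∀ (G : Type) [Group G] (n : ℕ) (N : Subgroup G), L G n N N
  mono : ∀ (G : Type) [Group G] (n m : ℕ) (K N : Subgroup G), L G n K N → n ≤ m → L G m K N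
  inf : ∀ (G : Type) [Group G] (n : ℕ) (K K' N : Subgroup G), L G n K N → L G n K' N →
    L G n (K ⊓ K') N
  comap : ∀ (G H : Type) [Group G] [Group H] (f : G →* H) (n : ℕ) (K N : Subgroup H),
    L H n K N → L G n (K.comap f) (N.comap f)
  map : ∀ (G H : Type) [Group G] [Group H] (f : G →* H) (n : ℕ) (K N : Subgroup G),
    L G n K N → L H n (K.map f) (N.map f)
  trans : ∀ (G : Type) [Group G] [Finite G] (b c : ℕ) (K N1 N : Subgroup G), L G b K N1 →
    L G c N1 N → Inv N K → L G (b + c) K N

theorem len_p (p : ℕ) : Len (fun G _ n K N => RLp (G := G) p n K N) where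
  refl _ _ n N := RLp.refl n N
  mono _ _ _ _ _ _ h hnm := h.mono_n hnm
  inf _ _ _ _ _ _ h h' := h.inf h'
  comap _ _ _ _ f _ _ _ h := h.comap f
  map _ _ _ _ f _ _ _ h := h.map f
  trans _ _ _ _ _ _ _ _ h h' hi := h.trans h' hi

theorem len_q (p : ℕ) : Len (fun G _ n K N => RLq (G := G) p n K N) where
  refl _ _ n N := RLq.refl n N
  mono _ _ _ _ _ _ h hnm := h.mono_n hnm
  inf _ _ _ _ _ _ h h' := h.inf h'
  comap _ _ _ _ f _ _ _ h := h.comap f
  map _ _ _ _ f _ _ _ h := h.map f
  trans _ _ _ _ _ _ _ _ h h' hi := h.trans h' hi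

section

variable {L : (G : Type) → [Group G] → ℕ → Subgroup G → Subgroup G → Prop} (hL : Len L)

include hL

lemma Len.iInf {G ι : Type} [Group G] [Finite ι] (n : ℕ) (K : ι → Subgroup G)
    (h : ∀ i, L G n (K i) ⊤) : L G n (⨅ i, K i) ⊤ := by
  classical
  have := Fintype.ofFinite ι
  have key : ∀ s : Finset ι, L G n (⨅ i ∈ s, K i) ⊤ := by
    intro s
    induction s using Finset.induction_on with
    | empty => simpa using hL.refl G n ⊤
    | insert a s _ ih =>
      rw [Finset.iInf_insert]
      exact hL.inf G n _ _ _ (h a) ih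
  have h1 := key Finset.univ
  simpa using h1

lemma Len.of_hom {G H : Type} [Group G] [Group H] (f : G →* H) (n : ℕ)
    (h : L f.range n ⊥ ⊤) : L G n f.ker ⊤ := by
  have h1 := hL.comap G f.range f.rangeRestrict n ⊥ ⊤ h
  rwa [Subgroup.comap_top, MonoidHom.comap_bot, MonoidHom.ker_rangeRestrict] at h1

lemma Len.to_sub {G : Type} [Group G] (H : Subgroup G) (n : ℕ) (h : L H n ⊥ ⊤) :
    L G n ⊥ H := by
  have h1 := hL.map H G H.subtype n ⊥ ⊤ h
  rwa [Subgroup.map_bot, ← MonoidHom.range_eq_map, Subgroup.range_subtype] at h1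

lemma Len.of_inj {G H : Type} [Group G] [Group H] (f : G →* H) (hf : Function.Injective f) (n : ℕ)
    (h : L f.range n ⊥ ⊤) : L G n ⊥ ⊤ := by
  have h1 := hL.of_hom f n h
  rwa [(MonoidHom.ker_eq_bot_iff f).2 hf] at h1

/-- the quotient by the normal core of a maximal subgroup -/
theorem quot_len {c : ℕ} (hprim : ∀ (Q : Type) [Group Q] [Finite Q] [Group.IsSolvable Q]
      (M : Subgroup Q), IsCoatom M → M.normalCore = ⊥ → L Q (Nat.log c M.index) ⊥ ⊤)
    {T : Type} [Group T] [Finite T] [Group.IsSolvable T]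
    (M : Subgroup T) (hM : IsCoatom M) :
    L T (Nat.log c M.index) M.normalCore ⊤ := by
  set L₀ := M.normalCore with hL₀
  have hLM : L₀ ≤ M := Subgroup.normalCore_le M
  have hsurj : Function.Surjective (QuotientGroup.mk' L₀) := QuotientGroup.mk'_surjective L₀
  have hcomap : (M.map (QuotientGroup.mk' L₀)).comap (QuotientGroup.mk' L₀) = M := by
    rw [Subgroup.comap_map_eq, QuotientGroup.ker_mk']
    exact sup_eq_left.2 hLM
  have hidx : (M.map (QuotientGroup.mk' L₀)).index = M.index := by
    have h1 := Subgroup.index_comap_of_surjective (M.map (QuotientGroup.mk' L₀)) hsurj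
    rw [hcomap] at h1
    exact h1.symm
  have hco : IsCoatom (M.map (QuotientGroup.mk' L₀)) := by
    constructor
    · intro h
      rw [h, Subgroup.comap_top] at hcomap
      exact hM.1 hcomap.symm
    · intro K hK
      have h1 : M < K.comap (QuotientGroup.mk' L₀) := by
        refine lt_of_le_of_ne ?_ ?_
        · exact hcomap.symm.le.trans (Subgroup.comap_mono hK.le)
        · intro h
          apply hK.ne
          apply Subgroup.comap_injective hsurj
          exact hcomap.trans h
      have h2 := hM.2 _ h1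
      apply Subgroup.comap_injective hsurj
      rw [h2, Subgroup.comap_top]
  have hcore : (M.map (QuotientGroup.mk' L₀)).normalCore = ⊥ := by
    rw [eq_bot_iff]
    intro z hz
    obtain ⟨t, rfl⟩ := hsurj z
    have h1 : ((M.map (QuotientGroup.mk' L₀)).normalCore).comap (QuotientGroup.mk' L₀) ≤ L₀ := by
      exact Subgroup.normal_le_normalCore.2
        ((Subgroup.comap_mono (Subgroup.normalCore_le _)).trans hcomap.le)
    have h2 : t ∈ L₀ := h1 hz
    rw [Subgroup.mem_bot]
    exact (QuotientGroup.eq_one_iff t).2 h2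
  have h3 := hprim (T ⧸ L₀) (M.map (QuotientGroup.mk' L₀)) hco hcore
  rw [hidx] at h3
  have h4 := hL.comap T (T ⧸ L₀) (QuotientGroup.mk' L₀) _ ⊥ ⊤ h3
  rwa [Subgroup.comap_top, MonoidHom.comap_bot, QuotientGroup.ker_mk'] at h4

omit hL in
lemma log_add {c : ℕ} (hc : 2 ≤ c) {a b : ℕ} (ha : 0 < a) (hb : 0 < b) :
    Nat.log c a + Nat.log c b ≤ Nat.log c (a * b) := by
  apply Nat.le_log_of_pow_le hc
  rw [pow_add]
  exact Nat.mul_le_mul (Nat.pow_log_le_self c ha.ne') (Nat.pow_log_le_self c hb.ne')

theorem perm_len' {c : ℕ} (hc : 2 ≤ c)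
    (hprim : ∀ (Q : Type) [Group Q] [Finite Q] [Group.IsSolvable Q]
      (M : Subgroup Q), IsCoatom M → M.normalCore = ⊥ → L Q (Nat.log c M.index) ⊥ ⊤)
    (s : ℕ) : ∀ (X : Type) [Finite X] [Nonempty X], Nat.card X = s →
    ∀ (T : Subgroup (Equiv.Perm X)), Group.IsSolvable T → L T (Nat.log c s) ⊥ ⊤ := by
  induction s using Nat.strong_induction_on with
  | _ s ih =>
  intro X _ _ hs T hT
  classical
  -- the induction hypothesis for homomorphisms
  have IH : ∀ (Y : Type) [Finite Y] [Nonempty Y], Nat.card Y < s → ∀ (G : Type) [Group G]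
      [Group.IsSolvable G] (f : G →* Equiv.Perm Y), L G (Nat.log c (Nat.card Y)) f.ker ⊤ := by
    intro Y _ _ hY G _ _ f
    apply hL.of_hom
    exact ih _ hY Y rfl f.range
      (Group.isSolvable_of_surjective (f := f.rangeRestrict) f.rangeRestrict_surjective)
  have hs1 : 0 < Nat.card X := Nat.card_pos
  by_cases htr : ∀ x y : X, ∃ t : T, t • x = y
  · obtain ⟨x⟩ := (inferInstance : Nonempty X)
    by_cases hs2 : s ≤ 1
    · have h1 : Nat.card X = 1 := by omega
      have h2 : Subsingleton X := (Nat.card_eq_one_iff_unique.1 h1).1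
      have h3 : Subsingleton T := inferInstance
      have h4 : (⊤ : Subgroup T) = ⊥ := Subsingleton.elim _ _
      rw [h4]
      exact hL.refl _ _ _
    · have hH : MulAction.stabilizer T x ≠ ⊤ := by
        intro h
        apply hs2
        rw [← hs]
        apply Finite.card_le_one_iff_subsingleton.2
        constructor
        intro y z
        obtain ⟨t, ht⟩ := htr x y
        obtain ⟨u, hu⟩ := htr x z
        have h1 : t ∈ MulAction.stabilizer T x := h ▸ Subgroup.mem_top t
        have h2 : u ∈ MulAction.stabilizer T x := h ▸ Subgroup.mem_top u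
        rw [← ht, ← hu, MulAction.mem_stabilizer_iff.1 h1, MulAction.mem_stabilizer_iff.1 h2]
      obtain ⟨M, hM, hHM⟩ := (eq_top_or_exists_le_coatom (MulAction.stabilizer T x)).resolve_left hH
      choose τ hτ using fun y => htr x y
      set f : X → T ⧸ M := fun y => (τ y : T ⧸ M) with hf
      have hfx : ∀ t : T, f (t • x) = (t : T ⧸ M) := by
        intro t
        rw [hf]
        simp only
        rw [QuotientGroup.eq]
        apply hHM
        rw [MulAction.mem_stabilizer_iff, mul_smul, inv_smul_eq_iff]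
        exact (hτ (t • x)).symm
      have hfe : ∀ (t : T) (y : X), f (t • y) = t • f y := by
        intro t y
        obtain ⟨u, rfl⟩ := htr x y
        rw [← mul_smul, hfx, hfx]
        rfl
      have hLn : M.normalCore.Normal := Subgroup.normalCore_normal M
      have hLtriv : ∀ l ∈ M.normalCore, ∀ c : T ⧸ M, l • c = c := by
        intro l hl c
        obtain ⟨g, rfl⟩ := QuotientGroup.mk_surjective c
        change ((l * g : T) : T ⧸ M) = (g : T ⧸ M)
        rw [QuotientGroup.eq]
        have h1 : g⁻¹ * l⁻¹ * g⁻¹⁻¹ ∈ M.normalCore :=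
          hLn.conj_mem l⁻¹ (M.normalCore.inv_mem hl) g⁻¹
        have h2 : (l * g)⁻¹ * g = g⁻¹ * l⁻¹ * g⁻¹⁻¹ := by group
        rw [h2]
        exact Subgroup.normalCore_le M h1
      have hinv : ∀ (c : T ⧸ M) (l : M.normalCore) (y : X), f y = c → f (l • y) = c := by
        intro c l y hy
        have h1 : f ((l : T) • y) = (l : T) • f y := hfe _ _
        rw [hLtriv _ l.2, hy] at h1
        exact h1
      have : Fintype (T ⧸ M) := Fintype.ofFinite _
      have hne : ∀ c : T ⧸ M, Nonempty {y // f y = c} := by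
        intro c
        obtain ⟨g, rfl⟩ := QuotientGroup.mk_surjective c
        exact ⟨⟨g • x, hfx g⟩⟩
      have hcard : ∀ c : T ⧸ M, Nat.card {y // f y = c} =
          Nat.card {y // f y = ((1 : T) : T ⧸ M)} := by
        intro c
        obtain ⟨g, rfl⟩ := QuotientGroup.mk_surjective c
        refine Nat.card_congr ⟨fun y => ⟨g⁻¹ • y.1, ?_⟩, fun y => ⟨g • y.1, ?_⟩, ?_, ?_⟩
        · rw [hfe, y.2]
          change ((g⁻¹ * g : T) : T ⧸ M) = _
          rw [inv_mul_cancel]
        · rw [hfe, y.2]
          change ((g * 1 : T) : T ⧸ M) = _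
          rw [mul_one]
        · intro y
          exact Subtype.ext (smul_inv_smul _ _)
        · intro y
          exact Subtype.ext (inv_smul_smul _ _)
      have hsum : s = M.index * Nat.card {y // f y = ((1 : T) : T ⧸ M)} := by
        rw [← hs, ← Nat.card_congr (Equiv.sigmaFiberEquiv f), Nat.card_sigma,
          Finset.sum_congr rfl (fun c _ => hcard c), Finset.sum_const, Finset.card_univ,
          ← Nat.card_eq_fintype_card, smul_eq_mul]
        rfl
      have ha1 : 0 < Nat.card {y // f y = ((1 : T) : T ⧸ M)} := by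
        have := hne ((1 : T) : T ⧸ M)
        exact Nat.card_pos
      have hb1 : 2 ≤ M.index := by
        have h4 : M.index ≠ 0 := Subgroup.index_ne_zero_of_finite
        have h5 : M.index ≠ 1 := fun h => hM.1 (Subgroup.index_eq_one.1 h)
        omega
      have hlt : Nat.card {y // f y = ((1 : T) : T ⧸ M)} < s := by
        rw [hsum]
        nlinarith
      have hcoreL : L M.normalCore (Nat.log c (Nat.card {y // f y = ((1 : T) : T ⧸ M)})) ⊥ ⊤ := by
        have h1 := hL.iInf (G := M.normalCore) (ι := T ⧸ M)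
          (Nat.log c (Nat.card {y // f y = ((1 : T) : T ⧸ M)}))
          (fun d => (restr (G := M.normalCore) (fun y => f y = d) (hinv d)).ker) (by
            intro d
            have := hne d
            have h2 := IH {y // f y = d} (by rw [hcard]; exact hlt) M.normalCore
              (restr (G := M.normalCore) (fun y => f y = d) (hinv d))
            rwa [hcard] at h2)
        have h2 : (⨅ d : T ⧸ M,
            (restr (G := M.normalCore) (fun y => f y = d) (hinv d)).ker) = ⊥ := by
          rw [eq_bot_iff]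
          intro l hl
          rw [Subgroup.mem_iInf] at hl
          rw [Subgroup.mem_bot]
          apply Subtype.ext
          apply Subtype.ext
          apply Equiv.ext
          intro y
          have h3 := congrArg (fun e : Equiv.Perm {z // f z = f y} => (e ⟨y, rfl⟩).1)
            (MonoidHom.mem_ker.1 (hl (f y)))
          exact h3
        rwa [h2] at h1
      have h1 := hL.to_sub M.normalCore _ hcoreL
      have h2 := quot_len hL hprim M hM
      have h3 := hL.trans T _ _ _ _ _ h1 h2 (Inv.bot _)
      refine hL.mono T _ _ _ _ h3 ?_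
      rw [hsum, mul_comm]
      exact log_add hc ha1 (by omega)
  · push Not at htr
    obtain ⟨x, y, hxy⟩ := htr
    set p : X → Prop := fun z => ∃ t : T, t • x = z with hp
    have hp1 : ∀ (g : T) (z : X), p z → p (g • z) := by
      rintro g z ⟨t, rfl⟩
      exact ⟨g * t, mul_smul _ _ _⟩
    have hp2 : ∀ (g : T) (z : X), ¬ p z → ¬ p (g • z) := by
      rintro g z hz ⟨t, ht⟩
      apply hz
      refine ⟨g⁻¹ * t, ?_⟩
      rw [mul_smul, ht, inv_smul_smul]
    have hne1 : Nonempty {z // p z} := ⟨⟨x, 1, one_smul _ _⟩⟩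
    have hne2 : Nonempty {z // ¬ p z} := ⟨⟨y, fun ⟨t, ht⟩ => hxy t ht⟩⟩
    have hc1 : 0 < Nat.card {z // p z} := Nat.card_pos
    have hc2 : 0 < Nat.card {z // ¬ p z} := Nat.card_pos
    have hsum : Nat.card {z // p z} + Nat.card {z // ¬ p z} = s := by
      rw [← hs, ← Nat.card_sum]
      exact Nat.card_congr (Equiv.sumCompl p)
    have h1 := hL.mono _ _ _ _ _ (IH {z // p z} (by omega) T (restr (G := T) p hp1))
      (Nat.log_mono_right (by omega) : Nat.log c (Nat.card {z // p z}) ≤ Nat.log c s)
    have h2 := hL.mono _ _ _ _ _ (IH {z // ¬ p z} (by omega) T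
        (restr (G := T) (fun z => ¬ p z) hp2))
      (Nat.log_mono_right (by omega) : Nat.log c (Nat.card {z // ¬ p z}) ≤ Nat.log c s)
    have h3 := hL.inf _ _ _ _ _ h1 h2
    have h4 : (restr (G := T) p hp1).ker ⊓ (restr (G := T) (fun z => ¬ p z) hp2).ker = ⊥ := by
      rw [eq_bot_iff]
      rintro t ⟨ht1, ht2⟩
      rw [Subgroup.mem_bot]
      apply Subtype.ext
      apply Equiv.ext
      intro z
      by_cases hz : p z
      · exact congrArg (fun e : Equiv.Perm {z // p z} => (e ⟨z, hz⟩).1) (MonoidHom.mem_ker.1 ht1)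
      · exact congrArg (fun e : Equiv.Perm {z // ¬ p z} => (e ⟨z, hz⟩).1)
          (MonoidHom.mem_ker.1 ht2)
    rwa [h4] at h3

/-- lengths of solvable permutation groups -/
theorem perm_len {c : ℕ} (hc : 2 ≤ c)
    (hprim : ∀ (Q : Type) [Group Q] [Finite Q] [Group.IsSolvable Q]
      (M : Subgroup Q), IsCoatom M → M.normalCore = ⊥ → L Q (Nat.log c M.index) ⊥ ⊤)
    (T : Type) [Group T] [Finite T] [Group.IsSolvable T] (X : Type) [Finite X] [Nonempty X]
    [MulAction T X] [FaithfulSMul T X] : L T (Nat.log c (Nat.card X)) ⊥ ⊤ := by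
  have hinj : Function.Injective (MulAction.toPermHom T X) := MulAction.toPerm_injective
  exact hL.of_inj _ hinj _ (perm_len' hL hc hprim (Nat.card X) X rfl
    (MulAction.toPermHom T X).range
    (Group.isSolvable_of_surjective (f := (MulAction.toPermHom T X).rangeRestrict)
      (MulAction.toPermHom T X).rangeRestrict_surjective))

end

end Pool.Agent.R683.LenP
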