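import Pool.Agent.R683.PrimP

/-!
# The `2'`-length of primitive solvable permutation groups
-/

set_option autoImplicit false

namespace Pool.Agent.R683.Prim

open Pool.Agent.Helper407.PL Pool.Agent.R683.Q Pool.Agent.R683.Crit Pool.Agent.R683.Rec
  Pool.Agent.R683.Ord Subgroup

universe u

section gen

variable {p : ℕ} [hp : Fact p.Prime]

omit hp in
lemma rlq_quot {G : Type u} [Group G] {n : ℕ} (N : Subgroup G) [N.Normal]
    (h : RLq p n (⊥ : Subgroup (G ⧸ N)) ⊤) : RLq p n N ⊤ := by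
  have h1 := h.comap (QuotientGroup.mk' N)
  rwa [Subgroup.comap_top, MonoidHom.comap_bot, QuotientGroup.ker_mk'] at h1

omit hp in
lemma not_rlq_quot_p {G : Type u} [Group G] [Finite G] {n : ℕ} {K : Subgroup G} [K.Normal]
    (hKp : PF p ⊥ K) (hn : ¬ RLq p n (⊥ : Subgroup G) ⊤) :
    ¬ RLq p n (⊥ : Subgroup (G ⧸ K)) ⊤ := by
  intro h
  have hK0 : RLq p 0 (⊥ : Subgroup G) K := RLq.of_PF 0 hKp bot_le (Inv.bot _)
  have h1 := hK0.trans (rlq_quot K h) (Inv.bot _)
  rw [Nat.zero_add] at h1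
  exact hn h1

omit hp in
lemma not_rlq_quot_p' {G : Type u} [Group G] [Finite G] {n : ℕ} {K : Subgroup G} [K.Normal]
    (hKp : PF' p ⊥ K) (hn : ¬ RLq p (n + 1) (⊥ : Subgroup G) ⊤) :
    ¬ RLq p n (⊥ : Subgroup (G ⧸ K)) ⊤ := by
  intro h
  have hK0 : RLq p 1 (⊥ : Subgroup G) K := RLq.of_PF' hKp bot_le (Inv.bot _)
  have h1 := hK0.trans (rlq_quot K h) (Inv.bot _)
  rw [Nat.add_comm] at h1
  exact hn h1

/-- the lower bound for the order, with an arbitrary base -/
theorem order_bound_q (m : ℕ) (B : ℝ)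
    (hbase : ∀ (G : Type u) [Group G] [Finite G] [Group.IsSolvable G],
      (∀ X : Subgroup G, Inv ⊤ X → PF p ⊥ X → X = ⊥) → ¬ RLq p m (⊥ : Subgroup G) ⊤ →
      B ≤ Real.logb 2 (Nat.card G)) (n : ℕ) :
    ∀ (G : Type u) [Group G] [Finite G] [Group.IsSolvable G],
    (∀ X : Subgroup G, Inv ⊤ X → PF p ⊥ X → X = ⊥) → ¬ RLq p (m + n) (⊥ : Subgroup G) ⊤ →
    (289 / 144 : ℝ) ^ n * B ≤ Real.logb 2 (Nat.card G) := by
  induction n with
  | zero =>
    intro G _ _ _ h1 hn
    rw [pow_zero, one_mul]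
    exact hbase G h1 hn
  | succ n ih =>
    intro G _ _ _ hO hn
    obtain ⟨K, hKn, hKp, hKmax⟩ := exists_opp (p := p) (G := G)
    have hCK := HH1 (p := p) ps_of_solvable K (inv_top hKn) hKp hKmax hO
    have h1 := step_p' K hKn hKp hKmax hCK
    obtain ⟨P, hPn, hPp, hPmax⟩ := exists_op (p := p) (G := G ⧸ K)
    have hCP := HH2 (p := p) (ps_of_solvable (G := G ⧸ K)) P (inv_top hPn) hPp hPmax
      (quot_opp hKp hKmax)
    have h2 := step_p P hPn hPp hPmax hCP
    have h3 := not_rlq_quot_p (K := P) hPp (not_rlq_quot_p' (K := K) hKp hn)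
    have h4 := ih ((G ⧸ K) ⧸ P) (quot_op hPp hPmax) h3
    have h5 := log_step Nat.card_pos Nat.card_pos h1
    have h6 := log_step Nat.card_pos Nat.card_pos h2
    have h7 : (289 / 144 : ℝ) ^ (n + 1) * B = 17 / 12 * (17 / 12 * ((289 / 144 : ℝ) ^ n * B)) := by
      rw [pow_succ]; ring
    rw [h7]
    linarith

end gen

/-- a self-centralizing normal subgroup of prime order -/
lemma aut_small {G : Type u} [Group G] [Finite G] (K : Subgroup G) (hKn : K.Normal)
    (hKpr : (Nat.card K).Prime) (hC : ∀ x, (∀ y ∈ K, x * y = y * x) → x ∈ K) :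
    Nat.card (G ⧸ K) ≤ Nat.card K - 1 := by
  classical
  haveI : Fact (Nat.card K).Prime := ⟨hKpr⟩
  have hnt : Nontrivial K := Finite.one_lt_card_iff_nontrivial.1 hKpr.one_lt
  obtain ⟨y, hy⟩ := exists_ne (1 : K)
  have hyz : ∀ z ∈ K, ∃ i : ℤ, (y : G) ^ i = z := by
    intro z hz
    have h1 : (⟨z, hz⟩ : K) ∈ Subgroup.zpowers y := mem_zpowers_of_prime_card rfl hy
    obtain ⟨i, hi⟩ := h1
    exact ⟨i, congrArg Subtype.val hi⟩
  have hKab : ∀ a ∈ K, ∀ b ∈ K, a * b = b * a := by
    intro a ha b hb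
    obtain ⟨i, rfl⟩ := hyz a ha
    obtain ⟨j, rfl⟩ := hyz b hb
    rw [← zpow_add, ← zpow_add, add_comm]
  let f : G ⧸ K → {z : K // z ≠ 1} := fun x => ⟨⟨x.out * y * x.out⁻¹, hKn.conj_mem y y.2 _⟩, by
    intro h
    apply hy
    apply Subtype.ext
    have h1 : x.out * (y : G) * x.out⁻¹ = 1 := congrArg Subtype.val h
    have h2 : (y : G) = x.out⁻¹ * (x.out * (y : G) * x.out⁻¹) * x.out := by group
    rw [h2, h1]; simp⟩
  have hf : Function.Injective f := by
    intro a b hab
    have h1 : a.out * (y : G) * a.out⁻¹ = b.out * (y : G) * b.out⁻¹ :=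
      congrArg (fun z : {z : K // z ≠ 1} => ((z : K) : G)) hab
    have h2 : a.out⁻¹ * b.out ∈ K := by
      apply hC
      intro z hz
      obtain ⟨i, rfl⟩ := hyz z hz
      have h3 : Commute (a.out⁻¹ * b.out) (y : G) := by
        show a.out⁻¹ * b.out * (y : G) = y * (a.out⁻¹ * b.out)
        calc a.out⁻¹ * b.out * (y : G) = a.out⁻¹ * (b.out * (y : G) * b.out⁻¹) * b.out := by group
          _ = a.out⁻¹ * (a.out * (y : G) * a.out⁻¹) * b.out := by rw [h1]
          _ = _ := by group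
      exact (h3.zpow_right i).eq
    rw [← QuotientGroup.out_eq' a, ← QuotientGroup.out_eq' b]
    exact QuotientGroup.eq.2 h2
  have h1 := Nat.card_le_card_of_injective f hf
  have h2 : Nat.card {z : K // z ≠ 1} = Nat.card K - 1 := by
    have : Fintype K := Fintype.ofFinite K
    rw [Nat.card_eq_fintype_card, Fintype.card_subtype_compl, Fintype.card_subtype_eq,
      ← Nat.card_eq_fintype_card]
  rw [h2] at h1
  exact h1

instance : Fact (Nat.Prime 2) := ⟨Nat.prime_two⟩

/-- groups of `2'`-length at least two -/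
theorem base_q {G : Type u} [Group G] [Finite G] [Group.IsSolvable G]
    (hO : ∀ X : Subgroup G, Inv ⊤ X → PF 2 ⊥ X → X = ⊥) (hn : ¬ RLq 2 1 (⊥ : Subgroup G) ⊤) :
    108 ≤ Nat.card G := by
  obtain ⟨K, hKn, hKp, hKmax⟩ := exists_opp (p := 2) (G := G)
  have hCK := HH1 (p := 2) ps_of_solvable K (inv_top hKn) hKp hKmax hO
  have hnY := not_rlq_quot_p' (K := K) (n := 0) hKp hn
  obtain ⟨P, hPn, hPp, hPmax⟩ := exists_op (p := 2) (G := G ⧸ K)
  have hCP := HH2 (p := 2) (ps_of_solvable (G := G ⧸ K)) P (inv_top hPn) hPp hPmax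
    (quot_opp hKp hKmax)
  have hnR := not_rlq_quot_p (K := P) hPp hnY
  -- an element of odd prime order
  obtain ⟨ℓ, hℓ, hℓ3, hℓd⟩ : ∃ ℓ : ℕ, ℓ.Prime ∧ 3 ≤ ℓ ∧ ℓ ∣ Nat.card ((G ⧸ K) ⧸ P) := by
    by_contra hcon
    push Not at hcon
    apply hnR
    refine RLq.of_PF 0 ?_ le_top (Inv.bot _)
    have h1 : IsPGroup 2 ((G ⧸ K) ⧸ P) := by
      rw [IsPGroup.iff_card]
      have h2 : ∀ q : ℕ, q.Prime → q ∣ Nat.card ((G ⧸ K) ⧸ P) → q = 2 := by
        intro q hq hqd
        by_contra hne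
        have : 3 ≤ q := by
          have := hq.two_le
          omega
        exact hcon q hq this hqd
      exact ⟨_, Nat.eq_prime_pow_of_unique_prime_dvd Nat.card_pos.ne' (fun {q} hq hqd => h2 q hq hqd)⟩
    intro x _
    obtain ⟨k, hk⟩ := h1 x
    exact ⟨k, by rw [Subgroup.mem_bot]; exact hk⟩
  haveI : Fact ℓ.Prime := ⟨hℓ⟩
  have hℓY : ℓ ∣ Nat.card (G ⧸ K) := by
    rw [Subgroup.card_eq_card_quotient_mul_card_subgroup P]
    exact hℓd.mul_right _
  obtain ⟨g, hg⟩ := exists_prime_orderOf_dvd_card' (G := G ⧸ K) ℓ hℓY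
  have hg1 : g ^ (ℓ ^ 1) = 1 := by
    rw [pow_one, ← hg]; exact pow_orderOf_eq_one g
  have hgP : g ∉ P := by
    intro h
    obtain ⟨k, hk⟩ := hPp g h
    rw [Subgroup.mem_bot] at hk
    have h1 : ℓ ∣ 2 ^ k := by rw [← hg]; exact orderOf_dvd_of_pow_eq_one hk
    have h2 := hℓ.dvd_of_dvd_pow h1
    have := Nat.le_of_dvd (by norm_num) h2
    omega
  have hPcard : 4 ≤ Nat.card P := by
    by_contra hcon
    apply hgP
    apply hCP
    exact cent_of_card_le P hPn (by omega) g 1 hg1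
  have hYcard : 12 ≤ Nat.card (G ⧸ K) := by
    rw [Subgroup.card_eq_card_quotient_mul_card_subgroup P]
    have h3 : 3 ≤ Nat.card ((G ⧸ K) ⧸ P) := hℓ3.trans (Nat.le_of_dvd Nat.card_pos hℓd)
    calc 12 = 3 * 4 := by norm_num
      _ ≤ _ := Nat.mul_le_mul h3 hPcard
  have hKcard : 9 ≤ Nat.card K := by
    have hodd : (Nat.card K).Coprime 2 := PF'_bot_iff.1 hKp
    by_contra hcon
    have h1 : Nat.card K = 1 ∨ Nat.card K = 3 ∨ Nat.card K = 5 ∨ Nat.card K = 7 := by
      have h2 : 0 < Nat.card K := Nat.card_pos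
      have h3 : Nat.card K < 9 := by omega
      generalize Nat.card K = c at *
      interval_cases c <;> simp_all (config := {decide := true})
    rcases h1 with h1 | h1
    · have hKb : K = ⊥ := Subgroup.card_eq_one.1 h1
      have h2 : ∀ x : G, x ∈ K := by
        intro x
        apply hCK
        intro y hy
        rw [hKb, Subgroup.mem_bot] at hy
        rw [hy]; simp
      have h3 : Nat.card (G ⧸ K) = 1 := by
        have : K = ⊤ := eq_top_iff.2 fun x _ => h2 x
        have h4 : Nat.card (G ⧸ K) = K.index := rfl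
        rw [h4, this, Subgroup.index_top]
      omega
    · have hpr : (Nat.card K).Prime := by
        rcases h1 with h1 | h1 | h1 <;> rw [h1] <;> norm_num
      have h2 := aut_small K hKn hpr hCK
      omega
  rw [Subgroup.card_eq_card_quotient_mul_card_subgroup K]
  calc 108 = 12 * 9 := by norm_num
    _ ≤ _ := Nat.mul_le_mul hYcard hKcard

lemma log108 : 4 * Real.logb 2 3 ≤ Real.logb 2 108 := by
  have h : (4 : ℝ) * Real.logb 2 3 = Real.logb 2 (3 ^ 4) := by
    rw [Real.logb_pow]; norm_num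
  rw [h]
  exact Real.logb_le_logb_of_le (by norm_num) (by norm_num) (by norm_num)

theorem base_q_log {G : Type u} [Group G] [Finite G] [Group.IsSolvable G]
    (hO : ∀ X : Subgroup G, Inv ⊤ X → PF 2 ⊥ X → X = ⊥) (hn : ¬ RLq 2 1 (⊥ : Subgroup G) ⊤) :
    4 * Real.logb 2 3 ≤ Real.logb 2 (Nat.card G) := by
  have h1 : (108 : ℝ) ≤ Nat.card G := by exact_mod_cast base_q hO hn
  exact log108.trans (Real.logb_le_logb_of_le (by norm_num) (by norm_num) h1)

lemma num3 (l : ℕ) : 12 * ((l : ℝ) + 4) < 85 / 3 * (289 / 144) ^ (l + 1) := by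
  induction l with
  | zero => norm_num
  | succ l ih =>
    have h1 : (85 / 3 : ℝ) * (289 / 144) ^ (l + 1 + 1) =
        289 / 144 * (85 / 3 * (289 / 144) ^ (l + 1)) := by
      rw [pow_succ _ (l + 1)]; ring
    have hl : (0 : ℝ) ≤ l := Nat.cast_nonneg l
    rw [h1]
    push_cast
    nlinarith

/-- the `2'`-length of primitive solvable groups -/
theorem prim_q {Q : Type u} [Group Q] [Finite Q] [Group.IsSolvable Q]
    (M : Subgroup Q) (hM : IsCoatom M) (hcore : M.normalCore = ⊥) :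
    RLq 2 (Nat.log 3 M.index) (⊥ : Subgroup Q) ⊤ := by
  classical
  obtain ⟨V, hVn, hV0, hVab, hCV, hVidx, hmin, hbd⟩ := prim_struct M hM hcore
  obtain ⟨r, d, hr, hd0, hVrd, hVr⟩ := min_prime V hVn hV0 hVab hmin
  by_contra hnot
  obtain ⟨n, hn⟩ : ∃ n, n = Nat.log 3 M.index := ⟨_, rfl⟩
  rw [← hn] at hnot
  have hblt : Nat.card V < 3 ^ (n + 1) := by
    rw [hVidx, hn]
    exact Nat.lt_pow_succ_log_self (by norm_num) _
  have hV2 : 2 ≤ Nat.card V := by
    have h1 : 0 < Nat.card V := Nat.card_pos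
    have h2 : Nat.card V ≠ 1 := fun h => hV0 (Subgroup.card_eq_one.1 h)
    omega
  have hQV := Subgroup.card_eq_card_quotient_mul_card_subgroup V
  rcases Nat.lt_or_ge n 1 with hn0 | hn0
  · -- degree two
    have hn0' : n = 0 := by omega
    rw [hn0'] at hnot hblt
    have hV2' : Nat.card V = 2 := by
      rw [Nat.zero_add, pow_one] at hblt
      omega
    have h1 := aut_small V hVn (by rw [hV2']; exact Nat.prime_two) hCV
    rw [hV2'] at h1 hQV
    have h2 : Nat.card (Q ⧸ V) = 1 := by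
      have : 0 < Nat.card (Q ⧸ V) := Nat.card_pos
      omega
    rw [h2, one_mul] at hQV
    apply hnot
    refine RLq.of_PF 0 ?_ le_top (Inv.bot _)
    intro x _
    refine ⟨1, ?_⟩
    rw [Subgroup.mem_bot, pow_one, ← hQV]
    exact pow_card_eq_one'
  rcases Nat.lt_or_ge n 2 with hn1 | hn1
  · have hn1' : n = 1 := by omega
    rw [hn1'] at hnot hblt
    have hb8 : Nat.card V ≤ 8 := by
      have : (3 : ℕ) ^ (1 + 1) = 9 := by norm_num
      omega
    by_cases hr2 : r = 2
    · rw [hr2] at hVr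
      have hOY := op_trivial V hV0 hCV hmin hVr
      have hnY := not_rlq_quot_p (K := V) hVr hnot
      have h1 := base_q hOY hnY
      have h2 : (3 * 108) ^ 5 ≤ 8 ^ 12 := by
        calc (3 * 108) ^ 5 ≤ (3 * Nat.card (Q ⧸ V)) ^ 5 :=
              Nat.pow_le_pow_left (Nat.mul_le_mul_left _ h1) 5
          _ ≤ Nat.card V ^ 12 := hbd
          _ ≤ 8 ^ 12 := Nat.pow_le_pow_left hb8 12
      norm_num at h2
    · have hr3 : 3 ≤ r := by
        have := hr.two_le
        omega
      have hd1 : d = 1 := by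
        by_contra hne
        have h1 : 3 ^ 2 ≤ r ^ d :=
          (Nat.pow_le_pow_left hr3 2).trans (Nat.pow_le_pow_right (by omega) (by omega))
        rw [← hVrd] at h1
        omega
      rw [hd1, pow_one] at hVrd
      have h1 := aut_small V hVn (by rw [hVrd]; exact hr) hCV
      have hOQ : ∀ X : Subgroup Q, Inv ⊤ X → PF 2 ⊥ X → X = ⊥ := by
        intro X hX1 hX2
        have hVp' : PF' 2 ⊥ V := by
          rw [PF'_bot_iff, hVrd]
          exact (Nat.coprime_primes hr Nat.prime_two).2 hr2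
        rw [eq_bot_iff]
        intro x hx
        have h2 := comm_of_both hX2 hVp' (le_top : X ≤ ⊤) (le_top : V ≤ ⊤) hX1 (inv_top hVn) x hx
        have h3 : x ∈ V := hCV x h2
        exact bot_of_both hX2 hVp' hx h3
      have h2 := base_q hOQ hnot
      rw [hQV] at h2
      have h3 : Nat.card (Q ⧸ V) * Nat.card V ≤ 7 * 8 := Nat.mul_le_mul (by omega) hb8
      omega
  · obtain ⟨l, hl⟩ := Nat.exists_eq_add_of_le hn1
    have hlog3 : 0 < Real.logb 2 3 := Real.logb_pos (by norm_num) (by norm_num)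
    have hV0' : (0 : ℝ) < Nat.card V := by exact_mod_cast Nat.card_pos
    have hY : 5 * Real.logb 2 (Nat.card (Q ⧸ V)) ≤ 12 * Real.logb 2 (Nat.card V) := by
      have h1 : (Nat.card (Q ⧸ V)) ^ 5 ≤ Nat.card V ^ 12 :=
        le_trans (Nat.pow_le_pow_left (by omega) 5) hbd
      have h2 : ((Nat.card (Q ⧸ V) : ℝ)) ^ 5 ≤ (Nat.card V : ℝ) ^ 12 := by exact_mod_cast h1
      have h0 : (0 : ℝ) < Nat.card (Q ⧸ V) := by exact_mod_cast Nat.card_pos
      have h3 := Real.logb_le_logb_of_le (b := 2) (by norm_num) (by positivity) h2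
      rw [Real.logb_pow, Real.logb_pow] at h3
      push_cast at h3
      exact h3
    have hlogV : Real.logb 2 (Nat.card V) ≤ ((l : ℝ) + 3) * Real.logb 2 3 := by
      have h1 : (Nat.card V : ℝ) ≤ (3 : ℝ) ^ (l + 3) := by
        have : Nat.card V ≤ 3 ^ (l + 3) := by
          rw [show l + 3 = n + 1 by omega]
          exact hblt.le
        exact_mod_cast this
      have h2 := Real.logb_le_logb_of_le (b := 2) (by norm_num) hV0' h1
      rw [Real.logb_pow] at h2
      push_cast at h2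
      exact h2
    by_cases hr2 : r = 2
    · rw [hr2] at hVr
      have hOY := op_trivial V hV0 hCV hmin hVr
      have hnY := not_rlq_quot_p (K := V) hVr hnot
      rw [show n = 1 + (l + 1) by omega] at hnY
      have h4 := order_bound_q (p := 2) 1 _ (fun G _ _ _ h1 h2 => base_q_log h1 h2) (l + 1)
        (Q ⧸ V) hOY hnY
      have h7 : 20 * (289 / 144 : ℝ) ^ (l + 1) * Real.logb 2 3 ≤
          12 * ((l : ℝ) + 3) * Real.logb 2 3 := by
        have h8 : 20 * (289 / 144 : ℝ) ^ (l + 1) * Real.logb 2 3 =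
            5 * ((289 / 144 : ℝ) ^ (l + 1) * (4 * Real.logb 2 3)) := by ring
        rw [h8]
        nlinarith
      have h8 := le_of_mul_le_mul_right h7 hlog3
      linarith [num2 l]
    · have hVp' : PF' 2 ⊥ V := by
        rw [PF'_bot_iff, hVrd]
        exact Nat.Coprime.pow_left d ((Nat.coprime_primes hr Nat.prime_two).2 hr2)
      obtain ⟨K, hKn, hKp, hKmax⟩ := exists_opp (p := 2) (G := Q)
      have hVK : V ≤ K := hKmax V (inv_top hVn) hVp'
      have hnK := not_rlq_quot_p' (K := K) (n := l + 1) hKp (by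
        rw [show l + 1 + 1 = n by omega]; exact hnot)
      obtain ⟨P, hPn, hPp, hPmax⟩ := exists_op (p := 2) (G := Q ⧸ K)
      have hCP := HH2 (p := 2) (ps_of_solvable (G := Q ⧸ K)) P (inv_top hPn) hPp hPmax
        (quot_opp hKp hKmax)
      have h2 := step_p P hPn hPp hPmax hCP
      have hnR := not_rlq_quot_p (K := P) hPp hnK
      have hcard : Nat.card (Q ⧸ K) ≤ Nat.card (Q ⧸ V) := by
        have h1 : Nat.card (Q ⧸ K) = K.index := rfl
        have h2 : Nat.card (Q ⧸ V) = V.index := rfl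
        rw [h1, h2]
        exact Nat.le_of_dvd (Nat.pos_of_ne_zero Subgroup.index_ne_zero_of_finite)
          (Subgroup.index_dvd_of_le hVK)
      rcases Nat.eq_zero_or_pos l with hl0 | hl0
      · -- degree at most 25
        rw [hl0] at hnR
        have h3 := base_q (quot_op hPp hPmax) hnR
        have hb25 : Nat.card V ≤ 25 := by
          have h27 : Nat.card V < 27 := by
            rw [hl, hl0] at hblt
            norm_num at hblt
            exact hblt
          have hodd : ¬ 2 ∣ Nat.card V := by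
            intro h
            have h4 : (Nat.card V).Coprime 2 := PF'_bot_iff.1 hVp'
            rw [Nat.coprime_comm] at h4
            exact absurd h ((Nat.Prime.coprime_iff_not_dvd Nat.prime_two).1 h4)
          omega
        have h4 : 108 ^ 17 ≤ Nat.card (Q ⧸ V) ^ 12 :=
          (Nat.pow_le_pow_left h3 17).trans (h2.trans (Nat.pow_le_pow_left hcard 12))
        have h5 : (3 ^ 12 * 108 ^ 17) ^ 5 ≤ (25 ^ 12) ^ 12 := by
          calc (3 ^ 12 * 108 ^ 17) ^ 5 ≤ (3 ^ 12 * Nat.card (Q ⧸ V) ^ 12) ^ 5 :=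
                Nat.pow_le_pow_left (Nat.mul_le_mul_left _ h4) 5
            _ = ((3 * Nat.card (Q ⧸ V)) ^ 5) ^ 12 := by ring
            _ ≤ (Nat.card V ^ 12) ^ 12 := Nat.pow_le_pow_left hbd 12
            _ ≤ (25 ^ 12) ^ 12 := Nat.pow_le_pow_left (Nat.pow_le_pow_left hb25 12) 12
        norm_num at h5
      · obtain ⟨l', hl'⟩ := Nat.exists_eq_succ_of_ne_zero hl0.ne'
        rw [Nat.add_comm] at hnR
        have h4 := order_bound_q (p := 2) 1 _ (fun G _ _ _ h1 h2 => base_q_log h1 h2) l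
          ((Q ⧸ K) ⧸ P) (quot_op hPp hPmax) hnR
        have h6 := log_step Nat.card_pos Nat.card_pos h2
        have h50 : (0 : ℝ) < Nat.card (Q ⧸ K) := by exact_mod_cast Nat.card_pos
        have h51 : Real.logb 2 (Nat.card (Q ⧸ K)) ≤ Real.logb 2 (Nat.card (Q ⧸ V)) :=
          Real.logb_le_logb_of_le (by norm_num) h50 (by exact_mod_cast hcard)
        have h7 : 85 / 3 * (289 / 144 : ℝ) ^ l * Real.logb 2 3 ≤
            12 * ((l : ℝ) + 3) * Real.logb 2 3 := by
          have h8 : 85 / 3 * (289 / 144 : ℝ) ^ l * Real.logb 2 3 =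
              5 * (17 / 12 * ((289 / 144 : ℝ) ^ l * (4 * Real.logb 2 3))) := by ring
          rw [h8]
          nlinarith
        have h8 := le_of_mul_le_mul_right h7 hlog3
        have h9 := num3 l'
        rw [hl', Nat.succ_eq_add_one] at h8
        push_cast at h8
        linarith

end Pool.Agent.R683.Prim
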