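import Pool.Agent.R683.LinF
import Pool.Agent.R683.PrimQ

/-!
# The representation on a chief factor
-/

set_option autoImplicit false

namespace Pool.Agent.R683.Ord

open Pool.Agent.Y552.CT

universe u

variable {Γ : Type u} [Group Γ]

/-- the representation on a chief factor -/
theorem chief_rep [Finite Γ] (B N : Subgroup Γ)
    (hB : B.Normal) (hN : N.Normal) (hlt : B < N)
    (hmin : ∀ K : Subgroup Γ, K.Normal → B ≤ K → K ≤ N → K = B ∨ K = N)
    (hcomm : ∀ a ∈ N, ∀ b ∈ N, a * b * a⁻¹ * b⁻¹ ∈ B) :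
    ∃ (W : Type u) (_ : AddCommGroup W) (_ : Finite W) (_ : Nontrivial W)
      (ρ : Γ →* AddMonoid.End W) (ρ' : (Γ ⧸ ρ.ker) →* AddMonoid.End W),
      ρ.ker = CE B N hN ∧ Function.Injective ρ' ∧ Irr ρ' ∧
      Nat.card N = Nat.card W * Nat.card B := by
  classical
  let S : Subgroup N := B.subgroupOf N
  have hS : S.Normal := inferInstance
  let Q := N ⧸ S
  let _ : CommGroup Q :=
    { (inferInstance : Group (N ⧸ S)) with
      mul_comm := by
        intro a b
        obtain ⟨a, rfl⟩ := QuotientGroup.mk_surjective a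
        obtain ⟨b, rfl⟩ := QuotientGroup.mk_surjective b
        show ((a * b : N) : N ⧸ S) = ((b * a : N) : N ⧸ S)
        rw [QuotientGroup.eq]
        show ((a * b)⁻¹ * (b * a) : N) ∈ B.subgroupOf N
        rw [Subgroup.mem_subgroupOf]
        have := hcomm _ (N.inv_mem b.2) _ (N.inv_mem a.2)
        have h3 : (((a * b)⁻¹ * (b * a) : N) : Γ) =
            (b : Γ)⁻¹ * (a : Γ)⁻¹ * (b : Γ)⁻¹⁻¹ * (a : Γ)⁻¹⁻¹ := by
          push_cast; group
        rw [h3]; exact this }
  have hcN : ∀ g : Γ, ∀ a : N, ((MulAut.conjNormal g a : N) : Γ) = g * a * g⁻¹ :=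
    fun g a => MulAut.conjNormal_apply g a
  have hmap : ∀ g : Γ, S ≤ S.comap ((MulAut.conjNormal g : N ≃* N) : N →* N) := by
    intro g a ha
    rw [Subgroup.mem_comap]
    show MulAut.conjNormal g a ∈ B.subgroupOf N
    rw [Subgroup.mem_subgroupOf, hcN]
    exact hB.conj_mem _ (Subgroup.mem_subgroupOf.mp ha) g
  let ρ0 : Γ → (Q →* Q) := fun g => QuotientGroup.map S S ((MulAut.conjNormal g : N ≃* N) : N →* N)
    (hmap g)
  have hρ0 : ∀ g : Γ, ∀ a : N, ρ0 g (QuotientGroup.mk a) = QuotientGroup.mk (MulAut.conjNormal g a) :=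
    fun g a => rfl
  let ρ : Γ →* AddMonoid.End (Additive Q) :=
    { toFun := fun g => MonoidHom.toAdditive (ρ0 g)
      map_one' := by
        apply AddMonoidHom.ext
        intro w
        obtain ⟨a, ha⟩ := QuotientGroup.mk_surjective (Additive.toMul w)
        have hw : w = Additive.ofMul (QuotientGroup.mk a : Q) := by
          rw [ha]; rfl
        rw [hw]
        show Additive.ofMul (ρ0 1 (QuotientGroup.mk a)) = Additive.ofMul (QuotientGroup.mk a)
        rw [hρ0, map_one]; rfl
      map_mul' := by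
        intro g h
        apply AddMonoidHom.ext
        intro w
        obtain ⟨a, ha⟩ := QuotientGroup.mk_surjective (Additive.toMul w)
        have hw : w = Additive.ofMul (QuotientGroup.mk a : Q) := by
          rw [ha]; rfl
        rw [hw]
        show Additive.ofMul (ρ0 (g * h) (QuotientGroup.mk a)) =
          Additive.ofMul (ρ0 g (ρ0 h (QuotientGroup.mk a)))
        rw [hρ0, hρ0, hρ0, map_mul]; rfl }
  have hρ : ∀ (g : Γ) (a : N), ρ g (Additive.ofMul (QuotientGroup.mk a : Q)) =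
      Additive.ofMul (QuotientGroup.mk (MulAut.conjNormal g a) : Q) := fun g a => rfl
  have hsurj : ∀ w : Additive Q, ∃ a : N, w = Additive.ofMul (QuotientGroup.mk a : Q) := by
    intro w
    obtain ⟨a, ha⟩ := QuotientGroup.mk_surjective (Additive.toMul w)
    exact ⟨a, by rw [ha]; rfl⟩
  have hmk : ∀ a b : N, (Additive.ofMul (QuotientGroup.mk a : Q) =
      Additive.ofMul (QuotientGroup.mk b : Q)) ↔ (a : Γ)⁻¹ * b ∈ B := by
    intro a b
    rw [Equiv.apply_eq_iff_eq, QuotientGroup.eq]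
    show a⁻¹ * b ∈ B.subgroupOf N ↔ _
    rw [Subgroup.mem_subgroupOf]; rfl
  have hker : ρ.ker = CE B N hN := by
    ext x
    rw [MonoidHom.mem_ker, mem_CE]
    constructor
    · intro h a ha
      have h1 : ρ x (Additive.ofMul (QuotientGroup.mk (⟨a, ha⟩ : N) : Q)) =
          Additive.ofMul (QuotientGroup.mk (⟨a, ha⟩ : N) : Q) := by rw [h]; rfl
      rw [hρ, hmk, hcN] at h1
      have h2 := hB.conj_mem _ (B.inv_mem h1) a
      have h3 : x * a * x⁻¹ * a⁻¹ = a * ((x * a * x⁻¹)⁻¹ * a)⁻¹ * a⁻¹ := by group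
      rw [h3]; exact h2
    · intro h
      apply AddMonoidHom.ext
      intro w
      obtain ⟨a, rfl⟩ := hsurj w
      show ρ x _ = Additive.ofMul (QuotientGroup.mk a : Q)
      rw [hρ, hmk, hcN]
      have h1 := hB.conj_mem _ (B.inv_mem (h a a.2)) (a : Γ)⁻¹
      have h3 : (x * a * x⁻¹)⁻¹ * (a : Γ) = (a : Γ)⁻¹ * (x * a * x⁻¹ * (a : Γ)⁻¹)⁻¹ * (a : Γ)⁻¹⁻¹ := by
        group
      rw [h3]; exact h1
  -- the cardinality of the section
  have hcardN : Nat.card N = Nat.card (Additive Q) * Nat.card B := by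
    have h1 : Nat.card (Additive Q) = Nat.card (N ⧸ S) := rfl
    rw [h1, Subgroup.card_eq_card_quotient_mul_card_subgroup S]
    congr 1
    exact Nat.card_congr (Subgroup.subgroupOfEquivOfLe hlt.le).toEquiv
  have hBpos : 0 < Nat.card B := Nat.card_pos
  have hfinQ : Finite (Additive Q) := inferInstanceAs (Finite (N ⧸ S))
  have hnt : Nontrivial (Additive Q) := by
    obtain ⟨x, hxN, hxB⟩ := SetLike.exists_of_lt hlt
    refine ⟨Additive.ofMul (QuotientGroup.mk (⟨x, hxN⟩ : N) : Q),
      Additive.ofMul (QuotientGroup.mk (1 : N) : Q), fun h => ?_⟩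
    rw [hmk] at h
    apply hxB
    have := B.inv_mem h
    simpa using this
  let ρ' : (Γ ⧸ ρ.ker) →* AddMonoid.End (Additive Q) :=
    QuotientGroup.lift ρ.ker ρ (fun _ h => h)
  have hinj' : Function.Injective ρ' := by
    intro x y h
    obtain ⟨a, rfl⟩ := QuotientGroup.mk_surjective x
    obtain ⟨b, rfl⟩ := QuotientGroup.mk_surjective y
    have h1 : ρ a = ρ b := h
    rw [QuotientGroup.eq, MonoidHom.mem_ker, map_mul, ← h1, ← map_mul, inv_mul_cancel, map_one]
  have hirr : Irr ρ' := by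
    intro U hU
    let K : Subgroup Γ :=
      { carrier := {x | ∃ h : x ∈ N, Additive.ofMul (QuotientGroup.mk (⟨x, h⟩ : N) : Q) ∈ U}
        one_mem' := ⟨N.one_mem, by
          have : (⟨1, N.one_mem⟩ : N) = 1 := rfl
          rw [this]
          exact U.zero_mem⟩
        mul_mem' := by
          rintro a b ⟨ha, ha'⟩ ⟨hb, hb'⟩
          exact ⟨N.mul_mem ha hb, U.add_mem ha' hb'⟩
        inv_mem' := by
          rintro a ⟨ha, ha'⟩
          exact ⟨N.inv_mem ha, U.neg_mem ha'⟩ }
    have hK : K.Normal := by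
      constructor
      rintro x ⟨hx, hx'⟩ g
      have h1 := hU (QuotientGroup.mk g) _ hx'
      have h2 : ρ' (QuotientGroup.mk g)
          (Additive.ofMul (QuotientGroup.mk (⟨x, hx⟩ : N) : Q)) =
          Additive.ofMul (QuotientGroup.mk (⟨g * x * g⁻¹, hN.conj_mem x hx g⟩ : N) : Q) := by
        show ρ g _ = _
        rw [hρ]
        have h3 : MulAut.conjNormal g ⟨x, hx⟩ = (⟨g * x * g⁻¹, hN.conj_mem x hx g⟩ : N) :=
          Subtype.ext (hcN g ⟨x, hx⟩)
        rw [h3]
      rw [h2] at h1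
      exact ⟨_, h1⟩
    have hBK : B ≤ K := by
      intro b hb
      refine ⟨hlt.le hb, ?_⟩
      have : Additive.ofMul (QuotientGroup.mk (⟨b, hlt.le hb⟩ : N) : Q) = 0 := by
        have h1 : (0 : Additive Q) = Additive.ofMul (QuotientGroup.mk (1 : N) : Q) := rfl
        rw [h1, hmk]
        simpa using B.inv_mem hb
      rw [this]; exact U.zero_mem
    rcases hmin K hK hBK (fun x hx => hx.1) with h | h
    · left
      rw [eq_bot_iff]
      intro w hw
      obtain ⟨a, rfl⟩ := hsurj w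
      have h1 : (a : Γ) ∈ K := ⟨a.2, hw⟩
      rw [h] at h1
      rw [AddSubgroup.mem_bot]
      have h2 : (0 : Additive Q) = Additive.ofMul (QuotientGroup.mk (1 : N) : Q) := rfl
      rw [h2, hmk]
      simpa using B.inv_mem h1
    · right
      rw [eq_top_iff]
      intro w _
      obtain ⟨a, rfl⟩ := hsurj w
      have h1 : (a : Γ) ∈ K := by rw [h]; exact a.2
      obtain ⟨_, h2⟩ := h1
      exact h2
  exact ⟨Additive Q, inferInstance, hfinQ, hnt, ρ, ρ', hker, hinj', hirr, hcardN⟩

end Pool.Agent.R683.Ord
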