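import Pool.Agent.Helper407.PLHH

/-!
# Statement of the lower bound
-/

set_option autoImplicit false

namespace Pool.Agent.R683.Low

open Pool.Agent.Helper407.PL

/-- `3` for `p = 2` and `p` otherwise -/
def cc (p : ℕ) : ℕ := if p = 2 then 3 else p

/-- LOW: a solvable permutation group of degree `c ^ (k + 1)` of `p`-length at least `k + 1` -/
def S_LOW : Prop :=
  ∀ (p : ℕ) [Fact p.Prime] (k : ℕ), ∃ (T : Type) (_ : Group T) (_ : Finite T) (X : Type)
    (_ : Finite X) (φ : T →* Equiv.Perm X), Function.Injective φ ∧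
    Nat.card X = cc p ^ (k + 1) ∧ Group.IsSolvable T ∧ ¬ RLp p k (⊥ : Subgroup T) ⊤

end Pool.Agent.R683.Low
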