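import Pool.Agent.R683.LinI
import Pool.Agent.R683.LowStm

/-!
# The upper bound for the `p`-length of `p`-solvable linear groups
-/

set_option autoImplicit false

namespace Pool.Agent.R683.Upper

open Pool.Agent.Helper407.PL Pool.Agent.R683.Q Pool.Agent.R683.Crit Pool.Agent.R683.Rec
  Pool.Agent.R683.Ord Pool.Agent.R683.LenP Pool.Agent.R683.LinI Pool.Agent.R683.Prim
  Pool.Agent.R683.Low

lemma sol_of_comm {B : Type} [Group B] (h : ∀ a b : B, a * b = b * a) : Group.IsSolvable B := by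
  refine ⟨⟨1, ?_⟩⟩
  rw [derivedSeries_succ, derivedSeries_zero, Subgroup.commutator_eq_bot_iff_le_centralizer]
  intro a _
  rw [Subgroup.mem_centralizer_iff]
  intro b _
  exact h b a

lemma ab_p (p : ℕ) [Fact p.Prime] (B : Type) [Group B] [Finite B] (h : ∀ a b : B, a * b = b * a) :
    RLp p 1 (⊥ : Subgroup B) ⊤ := by
  have := sol_of_comm h
  exact rlp_one_of_abelian ps_of_solvable (fun S _ a _ b _ => h a b)

lemma sm_p (p : ℕ) [Fact p.Prime] (G : Type) [Group G] [Finite G] [Group.IsSolvable G] (n : ℕ)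
    (h : Real.logb 2 (Nat.card G) < (289 / 144 : ℝ) ^ n) : RLp p n (⊥ : Subgroup G) ⊤ := by
  by_contra hcon
  obtain ⟨K, hKn, hKp, hKmax⟩ := exists_opp (p := p) (G := G)
  have h1 := not_rlp_quot_p' (K := K) hKp hcon
  have h2 := order_bound (p := p) n (G ⧸ K) (quot_opp hKp hKmax) h1
  have h5 : Nat.card (G ⧸ K) ≤ Nat.card G := by
    rw [Subgroup.card_eq_card_quotient_mul_card_subgroup K]
    exact Nat.le_mul_of_pos_right _ Nat.card_pos
  have h50 : (0 : ℝ) < Nat.card (G ⧸ K) := by exact_mod_cast Nat.card_pos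
  have h6 : Real.logb 2 (Nat.card (G ⧸ K)) ≤ Real.logb 2 (Nat.card G) :=
    Real.logb_le_logb_of_le (by norm_num) h50 (by exact_mod_cast h5)
  linarith

/-- the upper bound for one solvable group -/
theorem upper_sol (p : ℕ) [hp : Fact p.Prime] {H : Type} [Group H] [Finite H]
    [Group.IsSolvable H] (V : Type)
    [AddCommGroup V] [Finite V] (φ : H →* MulAut (Multiplicative V)) (hφ : Function.Injective φ)
    (hV : ∃ a, Nat.card V = p ^ a) (A : ℕ)
    (hA : 8 * Real.logb 2 (Nat.log 2 (Nat.card V)) < (289 / 144 : ℝ) ^ A) :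
    RLp p (A + 4 + Nat.log (cc p) (Nat.log 2 (Nat.card V))) (⊥ : Subgroup H) ⊤ := by
  by_cases hp2 : p = 2
  · subst hp2
    have hcc : cc 2 = 3 := rfl
    rw [hcc]
    obtain ⟨D, hDn, hDp, hDL⟩ := linear_len (len_q 2) (c := 3) (by norm_num)
      (fun Q _ _ _ M hM hcore => prim_q M hM hcore)
      (fun B _ _ h => RLq_of_RLp (ab_p 2 B h))
      (fun G _ _ _ n h => RLq_of_RLp (sm_p 2 G n h)) V φ hφ hV A hA
    have h1 : RLq 2 0 (⊥ : Subgroup H) D := RLq.of_PF 0 hDp bot_le (Inv.bot _)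
    have h2 := h1.trans hDL (Inv.bot _)
    exact (RLp_of_RLq h2).mono_n (by omega)
  · have hcc : cc p = p := by unfold cc; rw [if_neg hp2]
    rw [hcc]
    obtain ⟨D, hDn, hDp, hDL⟩ := linear_len (len_p p) (c := p) hp.out.two_le
      (fun Q _ _ _ M hM hcore => prim_p M hM hcore)
      (fun B _ _ h => (ab_p p B h).mono_n (by norm_num))
      (fun G _ _ _ n h => (sm_p p G n h).mono_n (by omega)) V φ hφ hV A hA
    have h1 : RLp p 1 (⊥ : Subgroup H) D := RLp.of_PF hDp bot_le (Inv.bot _)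
    have h2 := h1.trans hDL (Inv.bot _)
    exact h2.mono_n (by omega)

/-- the upper bound for `p`-solvable groups -/
theorem upper (p : ℕ) [hp : Fact p.Prime] {H : Type} [Group H] [Finite H]
    (hps : ∃ N, RLp p N (⊥ : Subgroup H) ⊤) (V : Type)
    [AddCommGroup V] [Finite V] (φ : H →* MulAut (Multiplicative V)) (hφ : Function.Injective φ)
    (hV : ∃ a, Nat.card V = p ^ a) (A : ℕ)
    (hA : 8 * Real.logb 2 (Nat.log 2 (Nat.card V)) < (289 / 144 : ℝ) ^ A) :
    RLp p (A + 4 + Nat.log (cc p) (Nat.log 2 (Nat.card V))) (⊥ : Subgroup H) ⊤ := by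
  by_contra hnot
  obtain ⟨H', hH's, hH'n⟩ := exists_solvable_subgroup (p := p) hps _ hnot
  exact hH'n (upper_sol p V (φ.comp H'.subtype)
    (hφ.comp H'.subtype_injective) hV A hA)

end Pool.Agent.R683.Upper
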