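import Pool.Agent.R683.LowStm
import Pool.Agent.R683.CritC
import Pool.Agent.R683.Upper

/-!
# Iterated wreath products of dihedral groups
-/

set_option autoImplicit false

namespace Pool.Agent.R683.Low

open Pool.Agent.Helper407.PL Pool.Agent.R683.Crit Pool.Agent.R683

section dih

variable (c : ℕ) [hc : Fact c.Prime]

/-- the action of the dihedral group -/
def dihAct : DihedralGroup c →* Equiv.Perm (ZMod c) where
  toFun g := match g with
    | .r i => Equiv.subRight i
    | .sr j => Equiv.subLeft j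
  map_one' := by
    ext x
    show ((x - 0 : ZMod c)) = x
    rw [sub_zero]
  map_mul' a b := by
    cases a with
    | r i =>
      cases b with
      | r j =>
        ext x
        show x - (i + j) = x - j - i
        ring
      | sr j =>
        ext x
        show (j - i) - x = (j - x) - i
        ring
    | sr i =>
      cases b with
      | r j =>
        ext x
        show (i + j) - x = i - (x - j)
        ring
      | sr j =>
        ext x
        show x - (j - i) = i - (j - x)
        ring

variable {c} (hc3 : 3 ≤ c)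

include hc hc3

lemma two_ne : (2 : ZMod c) ≠ 0 := by
  intro h
  have h1 : ((2 : ℕ) : ZMod c) = 0 := by exact_mod_cast h
  rw [ZMod.natCast_eq_zero_iff] at h1
  have := Nat.le_of_dvd (by norm_num) h1
  omega

lemma dihAct_injective : Function.Injective (dihAct c) := by
  have h2 := two_ne (c := c) hc3
  have key : ∀ i j : ZMod c, dihAct c (.r i) ≠ dihAct c (.sr j) := by
    intro i j h
    have e0 : (0 : ZMod c) - i = j - 0 := DFunLike.congr_fun h 0
    have e1 : (1 : ZMod c) - i = j - 1 := DFunLike.congr_fun h 1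
    apply h2
    linear_combination e1 - e0
  intro a b h
  cases a with
  | r i =>
    cases b with
    | r j =>
      have e0 : (0 : ZMod c) - i = 0 - j := DFunLike.congr_fun h 0
      have : i = j := by linear_combination -e0
      rw [this]
    | sr j => exact absurd h (key i j)
  | sr i =>
    cases b with
    | r j => exact absurd h.symm (key j i)
    | sr j =>
      have e0 : i - (0 : ZMod c) = j - 0 := DFunLike.congr_fun h 0
      have : i = j := by linear_combination e0
      rw [this]

/-- elements commuting with all rotations are rotations -/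
lemma comm_rot (d : DihedralGroup c) (h : ∀ i : ZMod c, d * .r i = .r i * d) :
    ∃ i, d = .r i := by
  cases d with
  | r i => exact ⟨i, rfl⟩
  | sr j =>
    exfalso
    have h1 := h 1
    rw [DihedralGroup.sr_mul_r, DihedralGroup.r_mul_sr] at h1
    have h2 : j + 1 = j - 1 := DihedralGroup.sr.inj h1
    apply two_ne (c := c) hc3
    linear_combination h2

end dih

section wr

variable {c : ℕ} [hc : Fact c.Prime] (hc3 : 3 ≤ c) (T : Type) [Group T] [Finite T] (X : Type)
  [Finite X] [MulAction T X]

/-- the wreath product -/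
abbrev Wr (c : ℕ) (T : Type) [Group T] (X : Type) [MulAction T X] : Type :=
  (X → DihedralGroup c) ⋊[(mulAutArrow : T →* MulAut (X → DihedralGroup c))] T

variable {T X}

/-- the base element supported at a point -/
noncomputable def single [DecidableEq X] (x : X) (d : DihedralGroup c) : Wr c T X :=
  SemidirectProduct.inl (Pi.mulSingle x d)

omit [Finite T] [Finite X] hc in
lemma comm_coord [DecidableEq X] (s : Wr c T X) (x : X) (hx : s.right • x ≠ x)
    (d : DihedralGroup c) :
    (s * single x d * s⁻¹ * (single x d)⁻¹).right = 1 ∧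
    (s * single x d * s⁻¹ * (single x d)⁻¹).left (s.right • x) =
      s.left (s.right • x) * d * (s.left (s.right • x))⁻¹ := by
  constructor
  · simp [single]
  · simp only [single, SemidirectProduct.mul_left, SemidirectProduct.mul_right,
      SemidirectProduct.left_inl, SemidirectProduct.right_inl, SemidirectProduct.inv_left,
      SemidirectProduct.inv_right, mul_one, Pi.mul_apply]
    have h1 : ∀ (t : T) (f : X → DihedralGroup c) (y : X),
        (mulAutArrow t f : X → DihedralGroup c) y = f (t⁻¹ • y) := fun _ _ _ => rfl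
    simp only [h1, Pi.inv_apply, inv_smul_smul, Pi.mulSingle_eq_same, mul_inv_cancel, inv_one,
      one_smul, inv_inv]
    rw [Pi.mulSingle_eq_of_ne hx]
    simp


omit [Finite T] [Finite X] hc in
lemma mul_coord (s t : Wr c T X) (y : X) :
    (s * t).left y = s.left y * t.left (s.right⁻¹ • y) := rfl

omit [Finite T] [Finite X] hc in
lemma pow_left (s : Wr c T X) (hs : s.right = 1) (m : ℕ) :
    (s ^ m).right = 1 ∧ ∀ y, (s ^ m).left y = (s.left y) ^ m := by
  induction m with
  | zero => exact ⟨rfl, fun y => by simp⟩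
  | succ m ih =>
    obtain ⟨h1, h2⟩ := ih
    refine ⟨by rw [pow_succ, SemidirectProduct.mul_right, h1, hs, one_mul], fun y => ?_⟩
    rw [pow_succ, mul_coord, h2, h1, inv_one, one_smul, pow_succ]

omit [Finite T] [Finite X] hc in
lemma inv_coord (s : Wr c T X) (y : X) :
    (s⁻¹).left y = (s.left (s.right • y))⁻¹ := by
  have h : (s * s⁻¹).left (s.right • y) = 1 := by rw [mul_inv_cancel]; rfl
  rw [mul_coord, inv_smul_smul] at h
  exact (inv_eq_of_mul_eq_one_right h).symm

/-- no normal `c'`-subgroups -/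
def OO (c : ℕ) (T : Type) [Group T] : Prop := ∀ N : Subgroup T, Inv ⊤ N → PF' c ⊥ N → N = ⊥

/-- the base group of rotations -/
def rotSub (c : ℕ) (T : Type) [Group T] (X : Type) [MulAction T X] : Subgroup (Wr c T X) where
  carrier := {s | s.right = 1 ∧ ∀ y, ∃ i, s.left y = .r i}
  one_mem' := ⟨rfl, fun y => ⟨0, rfl⟩⟩
  mul_mem' := by
    rintro s t ⟨h1, h2⟩ ⟨h3, h4⟩
    refine ⟨by rw [SemidirectProduct.mul_right, h1, h3, one_mul], fun y => ?_⟩
    obtain ⟨i, hi⟩ := h2 y
    obtain ⟨j, hj⟩ := h4 (s.right⁻¹ • y)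
    exact ⟨i + j, by rw [mul_coord, hi, hj, DihedralGroup.r_mul_r]⟩
  inv_mem' := by
    rintro s ⟨h1, h2⟩
    refine ⟨by rw [SemidirectProduct.inv_right, h1, inv_one], fun y => ?_⟩
    obtain ⟨i, hi⟩ := h2 (s.right • y)
    exact ⟨-i, by rw [inv_coord, hi, DihedralGroup.inv_r]⟩

omit [Finite T] [Finite X] hc in
lemma rot_conj (d : DihedralGroup c) (i : ZMod c) : ∃ j, d * .r i * d⁻¹ = .r j := by
  cases d with
  | r k => exact ⟨k + i + -k, by rw [DihedralGroup.inv_r, DihedralGroup.r_mul_r, DihedralGroup.r_mul_r]⟩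
  | sr k => exact ⟨k - (k + i), by rw [DihedralGroup.inv_sr, DihedralGroup.sr_mul_r, DihedralGroup.sr_mul_sr]⟩

omit [Finite T] [Finite X] hc in
lemma rot_inv : Inv ⊤ (rotSub c T X) := by
  rintro g - x ⟨h1, h2⟩
  refine ⟨by simp [h1], fun y => ?_⟩
  rw [mul_coord, mul_coord, inv_coord]
  obtain ⟨i, hi⟩ := h2 (g.right⁻¹ • y)
  have h3 : g.right • (g * x).right⁻¹ • y = y := by
    rw [SemidirectProduct.mul_right, h1, mul_one, smul_inv_smul]
  rw [h3, hi]
  exact rot_conj _ _

omit [Finite T] [Finite X] hc in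
lemma rot_PF : PF c ⊥ (rotSub c T X) := by
  rintro s ⟨h1, h2⟩
  refine ⟨1, ?_⟩
  rw [Subgroup.mem_bot, pow_one]
  obtain ⟨h3, h4⟩ := pow_left s h1 c
  refine SemidirectProduct.ext ?_ h3
  funext y
  obtain ⟨i, hi⟩ := h2 y
  rw [h4, hi, DihedralGroup.r_pow, ZMod.natCast_self, mul_zero]
  rfl

lemma map_inv_top {G H : Type} [Group G] [Group H] (f : G →* H) (hf : Function.Surjective f)
    {N : Subgroup G} (h : Inv ⊤ N) : Inv ⊤ (N.map f) := by
  rintro g - _ ⟨x, hx, rfl⟩
  obtain ⟨g, rfl⟩ := hf g
  exact ⟨g * x * g⁻¹, h g trivial x hx, by simp⟩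

lemma map_PF' {G H : Type} [Group G] [Group H] {p : ℕ} (f : G →* H) {A B : Subgroup G}
    (h : PF' p A B) : PF' p (A.map f) (B.map f) := by
  rintro _ ⟨x, hx, rfl⟩
  obtain ⟨m, hm, hm'⟩ := h x hx
  exact ⟨m, hm, x ^ m, hm', by simp⟩

lemma map_PF {G H : Type} [Group G] [Group H] {p : ℕ} (f : G →* H) {A B : Subgroup G}
    (h : PF p A B) : PF p (A.map f) (B.map f) := by
  rintro _ ⟨x, hx, rfl⟩
  obtain ⟨m, hm'⟩ := h x hx
  exact ⟨m, x ^ (p ^ m), hm', by simp⟩

include hc3 in
/-- no normal `c'`-subgroups in the wreath product -/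
theorem oo_wr (hT : OO c T) : OO c (Wr c T X) := by
  classical
  intro N hN hNp
  have h1 : ∀ x ∈ N, x.right = 1 := by
    have h2 : N.map (SemidirectProduct.rightHom : Wr c T X →* T) = ⊥ := by
      refine hT _ (map_inv_top _ SemidirectProduct.rightHom_surjective hN) ?_
      have := map_PF' (SemidirectProduct.rightHom : Wr c T X →* T) hNp
      rwa [Subgroup.map_bot] at this
    intro x hx
    have h3 : SemidirectProduct.rightHom x ∈ N.map (SemidirectProduct.rightHom : Wr c T X →* T) :=
      ⟨x, hx, rfl⟩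
    rw [h2, Subgroup.mem_bot] at h3
    exact h3
  have h2 := comm_of_both (X := ⊤) (rot_PF (c := c) (T := T) (X := X)) hNp le_top le_top
    rot_inv hN
  rw [eq_bot_iff]
  intro y hy
  rw [Subgroup.mem_bot]
  refine bot_of_both (rot_PF (c := c) (T := T) (X := X)) hNp ⟨h1 y hy, fun x => ?_⟩ hy
  refine comm_rot hc3 _ (fun i => ?_)
  have h4 := h2 (single x (.r i)) ⟨rfl, fun z => ?_⟩ y hy
  · have h5 := congrFun (congrArg SemidirectProduct.left h4) x
    rw [mul_coord, mul_coord, h1 y hy] at h5
    simp only [single, SemidirectProduct.left_inl, SemidirectProduct.right_inl,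
      Pi.mulSingle_eq_same, inv_one, one_smul] at h5
    exact h5.symm
  · by_cases hz : z = x
    · subst hz
      exact ⟨i, by simp [single]⟩
    · refine ⟨0, ?_⟩
      show (Pi.mulSingle x (DihedralGroup.r i) : X → DihedralGroup c) z = _
      rw [Pi.mulSingle_eq_of_ne hz]
      rfl

omit [Finite T] [Finite X] hc in
lemma sr_odd (j : ZMod c) {m : ℕ} (hm : m.Coprime 2) (h : (DihedralGroup.sr j) ^ m = 1) : False := by
  have h1 : orderOf (DihedralGroup.sr j) ∣ m := orderOf_dvd_of_pow_eq_one h
  rw [DihedralGroup.orderOf_sr] at h1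
  have h2 := Nat.Coprime.eq_one_of_dvd hm.symm h1
  omega

omit [Finite T] [Finite X] hc in
/-- normal subgroups of odd order lie in the base group -/
theorem odd_base [FaithfulSMul T X] (S : Subgroup (Wr c T X)) (hS : Inv ⊤ S)
    (h : ∀ x ∈ S, ∃ m : ℕ, m.Coprime 2 ∧ x ^ m = 1) : ∀ x ∈ S, x.right = 1 := by
  classical
  intro s hs
  by_contra hcon
  have h1 : ∃ x : X, s.right • x ≠ x := by
    by_contra h2
    push Not at h2
    exact hcon (FaithfulSMul.eq_of_smul_eq_smul (α := X) (fun x => by rw [h2 x, one_smul]))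
  obtain ⟨x, hx⟩ := h1
  obtain ⟨h2, h3⟩ := comm_coord s x hx (DihedralGroup.sr (0 : ZMod c))
  set z := s * single x (DihedralGroup.sr (0 : ZMod c)) * s⁻¹ *
    (single x (DihedralGroup.sr (0 : ZMod c)))⁻¹ with hz
  have hzS : z ∈ S := by
    have h4 := S.mul_mem hs (hS (single x (DihedralGroup.sr (0 : ZMod c))) trivial _
      (S.inv_mem hs))
    have h5 : z = s * (single x (DihedralGroup.sr (0 : ZMod c)) * s⁻¹ *
      (single x (DihedralGroup.sr (0 : ZMod c)))⁻¹) := by
      rw [hz]; group
    rwa [h5]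
  obtain ⟨m, hm, hm'⟩ := h z hzS
  obtain ⟨-, h5⟩ := pow_left z h2 m
  have h6 := h5 (s.right • x)
  rw [hm', h3, conj_pow] at h6
  have h7 : (1 : DihedralGroup c) = s.left (s.right • x) * DihedralGroup.sr 0 ^ m *
    (s.left (s.right • x))⁻¹ := h6
  have h8 : (DihedralGroup.sr (0 : ZMod c)) ^ m = 1 := by
    have := h7.symm
    rwa [conj_eq_one_iff] at this
  exact sr_odd _ hm h8

include hc3 in
/-- the step of the induction -/
theorem step (p : ℕ) [hp : Fact p.Prime] (hcp : c = cc p) [FaithfulSMul T X] [Nonempty X]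
    (hT : OO c T) (k : ℕ)
    (hk : ∀ n < k, ¬ RLp p n (⊥ : Subgroup T) ⊤) :
    ∀ n < k + 1, ¬ RLp p n (⊥ : Subgroup (Wr c T X)) ⊤ := by
  classical
  intro n hn hcon
  have hoo := oo_wr (X := X) hc3 hT
  obtain ⟨S, h0, h1, h2, h3, h4, h5⟩ := hcon
  obtain ⟨x₀⟩ := ‹Nonempty X›
  let e : Wr c T X := single x₀ (DihedralGroup.sr 0)
  have he : e.right = 1 := rfl
  have hel : e.left x₀ = DihedralGroup.sr 0 := by simp [e, single]
  have hene : ∀ m : ℕ, m.Coprime 2 → e ^ m ≠ 1 := by
    intro m hm h
    obtain ⟨-, h6⟩ := pow_left e he m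
    have h7 := h6 x₀
    rw [h, hel] at h7
    exact sr_odd (0 : ZMod c) hm h7.symm
  let r : Wr c T X →* T := SemidirectProduct.rightHom
  have hrs : Function.Surjective r := SemidirectProduct.rightHom_surjective
  have hp2 : p ≠ 2 → p = c := fun h => by rw [hcp, cc, if_neg h]
  have hPc : p ≠ 2 → ∀ A B : Subgroup (Wr c T X), PF' p A B → PF' c A B := by
    intro h A B hAB b hb
    obtain ⟨m, hm, hm'⟩ := hAB b hb
    have h' : m.Coprime c := by
      have := hp2 h
      rwa [this] at hm
    exact ⟨m, h', hm'⟩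
  have hodd : p ≠ 2 → ∀ m, (p ^ m).Coprime 2 := fun h m =>
    Nat.Coprime.pow_left m ((Nat.coprime_primes hp.out Nat.prime_two).2 h)
  have hS1 : PF' p ⊥ (S 1) := by
    have := h4 0 (Nat.zero_le _)
    rwa [Nat.mul_zero, h0] at this
  rcases Nat.eq_zero_or_pos n with hn0 | hnpos
  · subst hn0
    rw [Nat.mul_zero, Nat.zero_add] at h1
    rw [h1] at hS1
    by_cases hp2' : p = 2
    · subst hp2'
      obtain ⟨m, hm, hm'⟩ := hS1 e trivial
      exact hene m hm hm'
    · have h6 : PF' c (⊥ : Subgroup (Wr c T X)) ⊤ := hPc hp2' _ _ hS1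
      have h7 := hoo ⊤ (fun _ _ _ _ => trivial) h6
      have h8 : e ∈ (⊤ : Subgroup (Wr c T X)) := trivial
      rw [h7, Subgroup.mem_bot] at h8
      exact hene 1 (Nat.coprime_one_left 2) (by rw [pow_one, h8])
  · obtain ⟨n, rfl⟩ : ∃ n', n = n' + 1 := ⟨n - 1, by omega⟩
    have h6 : (S 2).map r = ⊥ := by
      have h7 : PF p (S 1) (S 2) := by
        have := h5 0 (by omega)
        simpa using this
      by_cases hp2' : p = 2
      · subst hp2'
        have h8 : (S 1).map r = ⊥ := by
          rw [eq_bot_iff]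
          rintro _ ⟨x, hx, rfl⟩
          exact odd_base (S 1) (h1 ▸ h2 1) (fun x hx => by
            obtain ⟨m, hm, hm'⟩ := hS1 x hx
            exact ⟨m, hm, hm'⟩) x hx
        refine hT _ (map_inv_top r hrs (h1 ▸ h2 2)) ?_
        have h9 := map_PF r h7
        rw [h8] at h9
        intro y hy
        obtain ⟨m, hm⟩ := h9 y hy
        refine ⟨2 ^ m, ?_, hm⟩
        have : c = 3 := by rw [hcp]; rfl
        subst this
        exact Nat.Coprime.pow_left m (by norm_num)
      · have h8 : S 1 = ⊥ := hoo _ (h1 ▸ h2 1) (hPc hp2' _ _ hS1)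
        rw [eq_bot_iff]
        rintro _ ⟨x, hx, rfl⟩
        refine odd_base (S 2) (h1 ▸ h2 2) (fun x hx => ?_) x hx
        obtain ⟨m, hm⟩ := h7 x hx
        rw [h8, Subgroup.mem_bot] at hm
        exact ⟨p ^ m, hodd hp2' m, hm⟩
    refine hk n (by omega) ⟨fun i => (S (i + 2)).map r, h6, ?_, ?_, ?_, ?_, ?_⟩
    · show (S (2 * n + 1 + 2)).map r = ⊤
      have : 2 * n + 1 + 2 = 2 * (n + 1) + 1 := by ring
      rw [this, h1]
      exact Subgroup.map_top_of_surjective r hrs
    · intro i
      exact map_inv_top r hrs (h1 ▸ h2 _)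
    · intro i
      exact Subgroup.map_mono (h3 (i + 2))
    · intro i hi
      exact map_PF' r (h4 (i + 1) (by omega))
    · intro i hi
      exact map_PF r (h5 (i + 1) (by omega))

end wr

section act

variable {c : ℕ} [hc : Fact c.Prime] (hc3 : 3 ≤ c) (T : Type) [Group T] (X : Type)
  [MulAction T X]

/-- the imprimitive action of the wreath product -/
@[reducible] noncomputable def wrAct : MulAction (Wr c T X) (ZMod c × X) where
  smul s ix := (dihAct c (s.left (s.right • ix.2)) ix.1, s.right • ix.2)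
  one_smul ix := by
    show (dihAct c 1 ix.1, (1 : T) • ix.2) = ix
    rw [map_one, one_smul]
    rfl
  mul_smul s t ix := by
    show (dihAct c ((s * t).left ((s * t).right • ix.2)) ix.1, (s * t).right • ix.2) =
      (dihAct c (s.left (s.right • t.right • ix.2)) (dihAct c (t.left (t.right • ix.2)) ix.1),
        s.right • t.right • ix.2)
    rw [mul_coord, SemidirectProduct.mul_right, mul_smul, inv_smul_smul, map_mul]
    rfl

include hc3 in
lemma wrAct_faithful [FaithfulSMul T X] :
    let _ := wrAct (c := c) T X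
    FaithfulSMul (Wr c T X) (ZMod c × X) := by
  letI := wrAct (c := c) T X
  refine ⟨fun {s t} h => ?_⟩
  have h1 : ∀ (i : ZMod c) (x : X), (dihAct c (s.left (s.right • x)) i, s.right • x) =
    (dihAct c (t.left (t.right • x)) i, t.right • x) := fun i x => h (i, x)
  have h2 : s.right = t.right :=
    FaithfulSMul.eq_of_smul_eq_smul (α := X) (fun x => (Prod.ext_iff.1 (h1 0 x)).2)
  refine SemidirectProduct.ext ?_ h2
  funext y
  apply dihAct_injective hc3
  ext i
  have h3 := (Prod.ext_iff.1 (h1 i (s.right⁻¹ • y))).1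
  rw [← h2, smul_inv_smul] at h3
  exact h3

end act

section sol

variable {c : ℕ} [hc : Fact c.Prime] (hc3 : 3 ≤ c)

/-- the sign of an element of the dihedral group -/
def sg (c : ℕ) : DihedralGroup c →* ℤˣ where
  toFun g := match g with
    | .r _ => 1
    | .sr _ => -1
  map_one' := rfl
  map_mul' a b := by
    cases a <;> cases b <;> simp

/-- functions to a dihedral group form a solvable group -/
lemma sol_base (c : ℕ) (X : Type) : Group.IsSolvable (X → DihedralGroup c) := by
  let f : (X → DihedralGroup c) →* (X → ℤˣ) := MonoidHom.compLeft (sg c) X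
  refine sol_ext f ?_ ?_
  · refine Upper.sol_of_comm ?_
    rintro ⟨a, ha⟩ ⟨b, hb⟩
    rw [Subtype.mk.injEq]
    funext x
    have h1 : sg c (a x) = 1 := congrFun (MonoidHom.mem_ker.1 ha) x
    have h2 : sg c (b x) = 1 := congrFun (MonoidHom.mem_ker.1 hb) x
    show a x * b x = b x * a x
    cases hax : a x with
    | r i =>
      cases hbx : b x with
      | r j => rw [DihedralGroup.r_mul_r, DihedralGroup.r_mul_r, add_comm]
      | sr j =>
        rw [hbx] at h2
        exact absurd (show (-1 : ℤˣ) = 1 from h2) (by decide)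
    | sr i =>
      rw [hax] at h1
      exact absurd (show (-1 : ℤˣ) = 1 from h1) (by decide)
  · refine Upper.sol_of_comm ?_
    rintro ⟨a, ha⟩ ⟨b, hb⟩
    rw [Subtype.mk.injEq]
    exact mul_comm a b

lemma sol_wr {c : ℕ} (T : Type) [Group T] (X : Type) [MulAction T X] (hT : Group.IsSolvable T) :
    Group.IsSolvable (Wr c T X) := by
  refine sol_ext (SemidirectProduct.rightHom : Wr c T X →* T) ?_ ?_
  · have h1 := sol_base c X
    have h2 : (SemidirectProduct.rightHom : Wr c T X →* T).ker =
        (SemidirectProduct.inl : (X → DihedralGroup c) →* Wr c T X).range :=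
      SemidirectProduct.range_inl_eq_ker_rightHom.symm
    rw [h2]
    exact Group.isSolvable_of_surjective (MonoidHom.rangeRestrict_surjective _)
  · infer_instance

end sol

/-- the induction -/
theorem low_aux {c : ℕ} [hc : Fact c.Prime] (hc3 : 3 ≤ c) (p : ℕ) [hp : Fact p.Prime]
    (hcp : c = cc p) (k : ℕ) :
    ∃ (T : Type) (_ : Group T) (_ : Finite T) (X : Type) (_ : Finite X) (_ : MulAction T X)
      (_ : FaithfulSMul T X), Nat.card X = c ^ k ∧ Group.IsSolvable T ∧ OO c T ∧
      ∀ n < k, ¬ RLp p n (⊥ : Subgroup T) ⊤ := by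
  induction k with
  | zero =>
    refine ⟨Unit, inferInstance, inferInstance, Unit, inferInstance, inferInstance,
      ⟨fun _ => Subsingleton.elim _ _⟩, by simp, Upper.sol_of_comm (fun _ _ => rfl), ?_,
      fun n hn => absurd hn (Nat.not_lt_zero n)⟩
    intro N _ _
    rw [eq_bot_iff]
    intro x _
    exact Subgroup.mem_bot.2 (Subsingleton.elim _ _)
  | succ k ih =>
    obtain ⟨T, _, _, X, _, _, _, hX, hsol, hoo, hk⟩ := ih
    let _ := wrAct (c := c) T X
    have := wrAct_faithful (c := c) hc3 T X
    have hne : Nonempty X := by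
      rw [← Finite.card_pos_iff, hX]
      exact pow_pos hc.out.pos k
    have hfin : Finite (Wr c T X) := Finite.of_equiv _ SemidirectProduct.equivProd.symm
    refine ⟨Wr c T X, inferInstance, hfin, ZMod c × X, inferInstance, inferInstance, this, ?_,
      sol_wr T X hsol, oo_wr hc3 hoo, step hc3 p hcp hoo k hk⟩
    rw [Nat.card_prod, hX, Nat.card_zmod, pow_succ, mul_comm]

/-- LOW -/
theorem low : S_LOW := by
  intro p hp k
  have hcP : (cc p).Prime := by
    unfold cc
    split_ifs with h
    · exact Nat.prime_three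
    · exact hp.out
  haveI : Fact (cc p).Prime := ⟨hcP⟩
  have hc3 : 3 ≤ cc p := by
    unfold cc
    split_ifs with h
    · exact le_rfl
    · have := hp.out.two_le
      omega
  obtain ⟨T, _, _, X, _, _, _, hX, hsol, -, hk⟩ := low_aux hc3 p rfl (k + 1)
  exact ⟨T, inferInstance, inferInstance, X, inferInstance, MulAction.toPermHom T X,
    MulAction.toPerm_injective, hX, hsol, hk k (Nat.lt_succ_self k)⟩

end Pool.Agent.R683.Low
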