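import Pool.Agent.Y552.CT.Ord
import Pool.Agent.Y314.CT3.Prim
import Pool.Agent.Y759.CT.Dix
import Pool.Agent.Y931.CT.Clif

/-!
# Orders of solvable linear groups: chief factors
-/

set_option autoImplicit false

namespace Pool.Agent.R683.Ord

open Pool.Agent.Y552.CT

universe u

/-- the bound for irreducible solvable linear groups up to a given size -/
def LB (N : ℕ) : Prop :=
  ∀ (Γ : Type u) [Group Γ] [Finite Γ] [Group.IsSolvable Γ] (W : Type u) [AddCommGroup W]
    [Finite W] [Nontrivial W] (ρ : Γ →* AddMonoid.End W), Function.Injective ρ → Irr ρ →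
    Nat.card W ≤ N → (3 * Nat.card Γ) ^ 5 ≤ Nat.card W ^ 12

/-- the bound for solvable permutation groups up to a given degree -/
def PB (N : ℕ) : Prop :=
  ∀ (T : Type u) [Group T] [Finite T] [Group.IsSolvable T] (X : Type u) [Finite X] [Nonempty X]
    [MulAction T X] [FaithfulSMul T X], Nat.card X ≤ N → Nat.card T ≤ 3 ^ (Nat.card X - 1)

section chief

variable {Γ : Type u} [Group Γ]

/-- the centralizer of a section -/
def CE (B N : Subgroup Γ) (hN : N.Normal) : Subgroup Γ where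
  carrier := {x | ∀ a ∈ N, x * a * x⁻¹ * a⁻¹ ∈ B}
  one_mem' := by intro a _; simp
  mul_mem' := by
    intro x y hx hy a ha
    have h1 := hx _ (hN.conj_mem a ha y)
    have h2 := hy a ha
    have h3 : x * y * a * (x * y)⁻¹ * a⁻¹ =
        (x * (y * a * y⁻¹) * x⁻¹ * (y * a * y⁻¹)⁻¹) * (y * a * y⁻¹ * a⁻¹) := by group
    rw [h3]
    exact B.mul_mem h1 h2
  inv_mem' := by
    intro x hx a ha
    have h1 := hx _ (hN.conj_mem a ha x⁻¹)
    rw [inv_inv] at h1
    have h2 : x⁻¹ * a * x⁻¹⁻¹ * a⁻¹ = (x * (x⁻¹ * a * x) * x⁻¹ * (x⁻¹ * a * x)⁻¹)⁻¹ := by group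
    rw [h2]
    exact B.inv_mem h1

lemma mem_CE {B N : Subgroup Γ} {hN : N.Normal} {x : Γ} :
    x ∈ CE B N hN ↔ ∀ a ∈ N, x * a * x⁻¹ * a⁻¹ ∈ B := Iff.rfl

lemma CE_normal (B N : Subgroup Γ) (hB : B.Normal) (hN : N.Normal) : (CE B N hN).Normal := by
  constructor
  intro x hx g a ha
  have h1 := hx _ (hN.conj_mem a ha g⁻¹)
  have h2 := hB.conj_mem _ h1 g
  rw [inv_inv] at h2
  have h3 : g * x * g⁻¹ * a * (g * x * g⁻¹)⁻¹ * a⁻¹ =
      g * (x * (g⁻¹ * a * g) * x⁻¹ * (g⁻¹ * a * g)⁻¹) * g⁻¹ := by group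
  rw [h3]
  exact h2

/-- the bound for a chief factor -/
theorem chief_bound {M : ℕ} (hLB : LB.{u} M) [Finite Γ] [Group.IsSolvable Γ] (B N : Subgroup Γ)
    (hB : B.Normal) (hN : N.Normal) (hlt : B < N)
    (hmin : ∀ K : Subgroup Γ, K.Normal → B ≤ K → K ≤ N → K = B ∨ K = N)
    (hcomm : ∀ a ∈ N, ∀ b ∈ N, a * b * a⁻¹ * b⁻¹ ∈ B) (hcard : Nat.card N ≤ M * Nat.card B) :
    (3 * Nat.card Γ) ^ 5 * Nat.card B ^ 12 ≤ Nat.card (CE B N hN) ^ 5 * Nat.card N ^ 12 := by
  classical
  let S : Subgroup N := B.subgroupOf N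
  have hS : S.Normal := inferInstance
  let Q := N ⧸ S
  let _ : CommGroup Q :=
    { (inferInstance : Group (N ⧸ S)) with
      mul_comm := by
        intro a b
        obtain ⟨a, rfl⟩ := QuotientGroup.mk_surjective a
        obtain ⟨b, rfl⟩ := QuotientGroup.mk_surjective b
        show ((a * b : N) : N ⧸ S) = ((b * a : N) : N ⧸ S)
        rw [QuotientGroup.eq]
        show ((a * b)⁻¹ * (b * a) : N) ∈ B.subgroupOf N
        rw [Subgroup.mem_subgroupOf]
        have := hcomm _ (N.inv_mem b.2) _ (N.inv_mem a.2)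
        have h3 : (((a * b)⁻¹ * (b * a) : N) : Γ) =
            (b : Γ)⁻¹ * (a : Γ)⁻¹ * (b : Γ)⁻¹⁻¹ * (a : Γ)⁻¹⁻¹ := by
          push_cast; group
        rw [h3]; exact this }
  have hcN : ∀ g : Γ, ∀ a : N, ((MulAut.conjNormal g a : N) : Γ) = g * a * g⁻¹ :=
    fun g a => MulAut.conjNormal_apply g a
  have hmap : ∀ g : Γ, S ≤ S.comap ((MulAut.conjNormal g : N ≃* N) : N →* N) := by
    intro g a ha
    rw [Subgroup.mem_comap]
    show MulAut.conjNormal g a ∈ B.subgroupOf N
    rw [Subgroup.mem_subgroupOf, hcN]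
    exact hB.conj_mem _ (Subgroup.mem_subgroupOf.mp ha) g
  let ρ0 : Γ → (Q →* Q) := fun g => QuotientGroup.map S S ((MulAut.conjNormal g : N ≃* N) : N →* N)
    (hmap g)
  have hρ0 : ∀ g : Γ, ∀ a : N, ρ0 g (QuotientGroup.mk a) = QuotientGroup.mk (MulAut.conjNormal g a) :=
    fun g a => rfl
  let ρ : Γ →* AddMonoid.End (Additive Q) :=
    { toFun := fun g => MonoidHom.toAdditive (ρ0 g)
      map_one' := by
        apply AddMonoidHom.ext
        intro w
        obtain ⟨a, ha⟩ := QuotientGroup.mk_surjective (Additive.toMul w)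
        have hw : w = Additive.ofMul (QuotientGroup.mk a : Q) := by
          rw [ha]; rfl
        rw [hw]
        show Additive.ofMul (ρ0 1 (QuotientGroup.mk a)) = Additive.ofMul (QuotientGroup.mk a)
        rw [hρ0, map_one]; rfl
      map_mul' := by
        intro g h
        apply AddMonoidHom.ext
        intro w
        obtain ⟨a, ha⟩ := QuotientGroup.mk_surjective (Additive.toMul w)
        have hw : w = Additive.ofMul (QuotientGroup.mk a : Q) := by
          rw [ha]; rfl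
        rw [hw]
        show Additive.ofMul (ρ0 (g * h) (QuotientGroup.mk a)) =
          Additive.ofMul (ρ0 g (ρ0 h (QuotientGroup.mk a)))
        rw [hρ0, hρ0, hρ0, map_mul]; rfl }
  have hρ : ∀ (g : Γ) (a : N), ρ g (Additive.ofMul (QuotientGroup.mk a : Q)) =
      Additive.ofMul (QuotientGroup.mk (MulAut.conjNormal g a) : Q) := fun g a => rfl
  have hsurj : ∀ w : Additive Q, ∃ a : N, w = Additive.ofMul (QuotientGroup.mk a : Q) := by
    intro w
    obtain ⟨a, ha⟩ := QuotientGroup.mk_surjective (Additive.toMul w)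
    exact ⟨a, by rw [ha]; rfl⟩
  have hmk : ∀ a b : N, (Additive.ofMul (QuotientGroup.mk a : Q) =
      Additive.ofMul (QuotientGroup.mk b : Q)) ↔ (a : Γ)⁻¹ * b ∈ B := by
    intro a b
    rw [Equiv.apply_eq_iff_eq, QuotientGroup.eq]
    show a⁻¹ * b ∈ B.subgroupOf N ↔ _
    rw [Subgroup.mem_subgroupOf]; rfl
  have hker : ρ.ker = CE B N hN := by
    ext x
    rw [MonoidHom.mem_ker, mem_CE]
    constructor
    · intro h a ha
      have h1 : ρ x (Additive.ofMul (QuotientGroup.mk (⟨a, ha⟩ : N) : Q)) =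
          Additive.ofMul (QuotientGroup.mk (⟨a, ha⟩ : N) : Q) := by rw [h]; rfl
      rw [hρ, hmk, hcN] at h1
      have h2 := hB.conj_mem _ (B.inv_mem h1) a
      have h3 : x * a * x⁻¹ * a⁻¹ = a * ((x * a * x⁻¹)⁻¹ * a)⁻¹ * a⁻¹ := by group
      rw [h3]; exact h2
    · intro h
      apply AddMonoidHom.ext
      intro w
      obtain ⟨a, rfl⟩ := hsurj w
      show ρ x _ = Additive.ofMul (QuotientGroup.mk a : Q)
      rw [hρ, hmk, hcN]
      have h1 := hB.conj_mem _ (B.inv_mem (h a a.2)) (a : Γ)⁻¹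
      have h3 : (x * a * x⁻¹)⁻¹ * (a : Γ) = (a : Γ)⁻¹ * (x * a * x⁻¹ * (a : Γ)⁻¹)⁻¹ * (a : Γ)⁻¹⁻¹ := by
        group
      rw [h3]; exact h1
  -- the cardinality of the section
  have hcardN : Nat.card N = Nat.card (Additive Q) * Nat.card B := by
    have h1 : Nat.card (Additive Q) = Nat.card (N ⧸ S) := rfl
    rw [h1, Subgroup.card_eq_card_quotient_mul_card_subgroup S]
    congr 1
    exact Nat.card_congr (Subgroup.subgroupOfEquivOfLe hlt.le).toEquiv
  have hBpos : 0 < Nat.card B := Nat.card_pos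
  have hfinQ : Finite (Additive Q) := inferInstanceAs (Finite (N ⧸ S))
  have hnt : Nontrivial (Additive Q) := by
    obtain ⟨x, hxN, hxB⟩ := SetLike.exists_of_lt hlt
    refine ⟨Additive.ofMul (QuotientGroup.mk (⟨x, hxN⟩ : N) : Q),
      Additive.ofMul (QuotientGroup.mk (1 : N) : Q), fun h => ?_⟩
    rw [hmk] at h
    apply hxB
    have := B.inv_mem h
    simpa using this
  let ρ' : (Γ ⧸ ρ.ker) →* AddMonoid.End (Additive Q) :=
    QuotientGroup.lift ρ.ker ρ (fun _ h => h)
  have hinj' : Function.Injective ρ' := by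
    intro x y h
    obtain ⟨a, rfl⟩ := QuotientGroup.mk_surjective x
    obtain ⟨b, rfl⟩ := QuotientGroup.mk_surjective y
    have h1 : ρ a = ρ b := h
    rw [QuotientGroup.eq, MonoidHom.mem_ker, map_mul, ← h1, ← map_mul, inv_mul_cancel, map_one]
  have hirr : Irr ρ' := by
    intro U hU
    let K : Subgroup Γ :=
      { carrier := {x | ∃ h : x ∈ N, Additive.ofMul (QuotientGroup.mk (⟨x, h⟩ : N) : Q) ∈ U}
        one_mem' := ⟨N.one_mem, by
          have : (⟨1, N.one_mem⟩ : N) = 1 := rfl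
          rw [this]
          exact U.zero_mem⟩
        mul_mem' := by
          rintro a b ⟨ha, ha'⟩ ⟨hb, hb'⟩
          exact ⟨N.mul_mem ha hb, U.add_mem ha' hb'⟩
        inv_mem' := by
          rintro a ⟨ha, ha'⟩
          exact ⟨N.inv_mem ha, U.neg_mem ha'⟩ }
    have hK : K.Normal := by
      constructor
      rintro x ⟨hx, hx'⟩ g
      have h1 := hU (QuotientGroup.mk g) _ hx'
      have h2 : ρ' (QuotientGroup.mk g)
          (Additive.ofMul (QuotientGroup.mk (⟨x, hx⟩ : N) : Q)) =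
          Additive.ofMul (QuotientGroup.mk (⟨g * x * g⁻¹, hN.conj_mem x hx g⟩ : N) : Q) := by
        show ρ g _ = _
        rw [hρ]
        have h3 : MulAut.conjNormal g ⟨x, hx⟩ = (⟨g * x * g⁻¹, hN.conj_mem x hx g⟩ : N) :=
          Subtype.ext (hcN g ⟨x, hx⟩)
        rw [h3]
      rw [h2] at h1
      exact ⟨_, h1⟩
    have hBK : B ≤ K := by
      intro b hb
      refine ⟨hlt.le hb, ?_⟩
      have : Additive.ofMul (QuotientGroup.mk (⟨b, hlt.le hb⟩ : N) : Q) = 0 := by
        have h1 : (0 : Additive Q) = Additive.ofMul (QuotientGroup.mk (1 : N) : Q) := rfl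
        rw [h1, hmk]
        simpa using B.inv_mem hb
      rw [this]; exact U.zero_mem
    rcases hmin K hK hBK (fun x hx => hx.1) with h | h
    · left
      rw [eq_bot_iff]
      intro w hw
      obtain ⟨a, rfl⟩ := hsurj w
      have h1 : (a : Γ) ∈ K := ⟨a.2, hw⟩
      rw [h] at h1
      rw [AddSubgroup.mem_bot]
      have h2 : (0 : Additive Q) = Additive.ofMul (QuotientGroup.mk (1 : N) : Q) := rfl
      rw [h2, hmk]
      simpa using B.inv_mem h1
    · right
      rw [eq_top_iff]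
      intro w _
      obtain ⟨a, rfl⟩ := hsurj w
      have h1 : (a : Γ) ∈ K := by rw [h]; exact a.2
      obtain ⟨_, h2⟩ := h1
      exact h2
  have hMle : Nat.card (Additive Q) ≤ M := by
    rw [hcardN] at hcard
    exact Nat.le_of_mul_le_mul_right hcard hBpos
  have hmain := hLB (Γ ⧸ ρ.ker) (Additive Q) ρ' hinj' hirr hMle
  have hΓ : Nat.card Γ = Nat.card (Γ ⧸ ρ.ker) * Nat.card (CE B N hN) := by
    rw [← hker]; exact Subgroup.card_eq_card_quotient_mul_card_subgroup _
  rw [hΓ, hcardN]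
  calc (3 * (Nat.card (Γ ⧸ ρ.ker) * Nat.card (CE B N hN))) ^ 5 * Nat.card B ^ 12
      = (3 * Nat.card (Γ ⧸ ρ.ker)) ^ 5 * (Nat.card (CE B N hN) ^ 5 * Nat.card B ^ 12) := by ring
    _ ≤ Nat.card (Additive Q) ^ 12 * (Nat.card (CE B N hN) ^ 5 * Nat.card B ^ 12) :=
        Nat.mul_le_mul_right _ hmain
    _ = _ := by ring

end chief

end Pool.Agent.R683.Ord
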