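import Pool.Agent.R683.OrdA

/-!
# Orders of solvable linear groups: a large section of class two
-/

set_option autoImplicit false

namespace Pool.Agent.R683.Ord

open Pool.Agent.Y552.CT

universe u

section

variable {Γ : Type u} [Group Γ]

lemma perfect_bot {Q : Type u} [Group Q] [Group.IsSolvable Q] (N : Subgroup Q)
    (h : N ≤ ⁅N, N⁆) : N = ⊥ := by
  have h1 : ∀ k, N ≤ derivedSeries Q k := by
    intro k
    induction k with
    | zero => rw [derivedSeries_zero]; exact le_top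
    | succ k ih => rw [derivedSeries_succ]; exact h.trans (Subgroup.commutator_mono ih ih)
  obtain ⟨n, hn⟩ := (Group.IsSolvable.solvable (G := Q))
  have := h1 n
  rw [hn] at this
  exact le_bot_iff.mp this

lemma exists_min [Finite Γ] [Group.IsSolvable Γ] (B D : Subgroup Γ) (hB : B.Normal)
    (hD : D.Normal) (hlt : B < D) : ∃ N : Subgroup Γ, N.Normal ∧ B < N ∧ N ≤ D ∧
      (∀ K : Subgroup Γ, K.Normal → B ≤ K → K ≤ N → K = B ∨ K = N) ∧
      ∀ a ∈ N, ∀ b ∈ N, a * b * a⁻¹ * b⁻¹ ∈ B := by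
  obtain ⟨N, hN⟩ := (Set.toFinite {N : Subgroup Γ | N.Normal ∧ B < N ∧ N ≤ D}).exists_minimal
    ⟨D, hD, hlt, le_rfl⟩
  obtain ⟨hNn, hBN, hND⟩ := hN.prop
  have hmin : ∀ K : Subgroup Γ, K.Normal → B ≤ K → K ≤ N → K = B ∨ K = N := by
    intro K hK hBK hKN
    by_cases h : K = B
    · exact Or.inl h
    · right
      exact le_antisymm hKN (hN.le_of_le ⟨hK, lt_of_le_of_ne hBK (Ne.symm h), hKN.trans hND⟩ hKN)
  refine ⟨N, hNn, hBN, hND, hmin, ?_⟩
  have hKn : (B ⊔ ⁅N, N⁆).Normal := inferInstance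
  rcases hmin (B ⊔ ⁅N, N⁆) hKn le_sup_left
    (sup_le hBN.le (Subgroup.commutator_le_left N N)) with h | h
  · intro a ha b hb
    have h1 : ⁅N, N⁆ ≤ B := by rw [← h]; exact le_sup_right
    exact h1 (Subgroup.commutator_mem_commutator ha hb)
  · exfalso
    let π := QuotientGroup.mk' B
    have h1 : N.map π ≤ ⁅N.map π, N.map π⁆ := by
      rw [← Subgroup.map_commutator]
      conv_lhs => rw [← h]
      rw [Subgroup.map_sup]
      have h2 : B.map π = ⊥ := by
        rw [Subgroup.map_eq_bot_iff, QuotientGroup.ker_mk']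
      rw [h2, bot_sup_eq]
    have h2 := perfect_bot _ h1
    rw [Subgroup.map_eq_bot_iff, QuotientGroup.ker_mk'] at h2
    exact absurd hBN (not_lt_of_ge h2)

lemma card_mul_relIndex_of_le {H K : Subgroup Γ} (h : H ≤ K) :
    Nat.card H * H.relIndex K = Nat.card K := by
  have := Subgroup.relIndex_mul_relIndex ⊥ H K bot_le h
  rwa [Subgroup.relIndex_bot_left, Subgroup.relIndex_bot_left] at this

lemma card_inf_mul [Finite Γ] (H K : Subgroup Γ) :
    Nat.card H * Nat.card K ≤ Nat.card (H ⊓ K : Subgroup Γ) * Nat.card Γ := by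
  have h1 := Subgroup.index_inf_le (H := H) (K := K)
  have h2 := H.card_mul_index
  have h3 := K.card_mul_index
  have h4 := (H ⊓ K).card_mul_index
  have hpos : 0 < Nat.card Γ := Nat.card_pos
  have h5 : Nat.card H * Nat.card K * Nat.card Γ ≤
      Nat.card (H ⊓ K : Subgroup Γ) * Nat.card Γ * Nat.card Γ := by
    calc Nat.card H * Nat.card K * Nat.card Γ =
        Nat.card H * Nat.card K * (Nat.card (H ⊓ K : Subgroup Γ) * (H ⊓ K).index) := by rw [h4]
      _ ≤ Nat.card H * Nat.card K * (Nat.card (H ⊓ K : Subgroup Γ) * (H.index * K.index)) :=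
          Nat.mul_le_mul_left _ (Nat.mul_le_mul_left _ h1)
      _ = Nat.card (H ⊓ K : Subgroup Γ) * (Nat.card H * H.index) * (Nat.card K * K.index) := by
          ring
      _ = _ := by rw [h2, h3]
  exact Nat.le_of_mul_le_mul_right h5 hpos

/-- the section of class two -/
theorem exists_E {M : ℕ} (hLB : LB.{u} M) [Finite Γ] [Group.IsSolvable Γ] (B : Subgroup Γ)
    (hBn : B.Normal) (hBc : Comm B)
    (hmax : ∀ B' : Subgroup Γ, B'.Normal → Comm B' → B ≤ B' → B' = B)
    (hsize : ∀ N : Subgroup Γ, N.Normal → B < N → (∀ a ∈ N, ∀ b ∈ B, a * b = b * a) →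
      (∀ a ∈ N, ∀ b ∈ N, a * b * a⁻¹ * b⁻¹ ∈ B) → Nat.card N ≤ M * Nat.card B) :
    ∃ (E : Subgroup Γ) (hE : E.Normal), B ≤ E ∧ (∀ a ∈ E, ∀ b ∈ B, a * b = b * a) ∧
      (∀ a ∈ E, ∀ b ∈ E, a * b * a⁻¹ * b⁻¹ ∈ B) ∧
      (E ≠ B → (3 * Nat.card Γ) ^ 5 * Nat.card B ^ 12 ≤
        Nat.card (CE B E hE) ^ 5 * Nat.card E ^ 12) ∧
      ∀ c, (∀ b ∈ B, c * b = b * c) → (∀ a ∈ E, c * a = a * c) → c ∈ B := by
  classical
  have hcn : ∀ N : Subgroup Γ, N.Normal → (Subgroup.centralizer (N : Set Γ)).Normal := by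
    intro N hN
    infer_instance
  obtain ⟨E, hE⟩ := (Set.toFinite {E : Subgroup Γ | ∃ hE : E.Normal, B ≤ E ∧
      (∀ a ∈ E, ∀ b ∈ B, a * b = b * a) ∧ (∀ a ∈ E, ∀ b ∈ E, a * b * a⁻¹ * b⁻¹ ∈ B) ∧
      (E ≠ B → (3 * Nat.card Γ) ^ 5 * Nat.card B ^ 12 ≤
        Nat.card (CE B E hE) ^ 5 * Nat.card E ^ 12)}).exists_maximal
      ⟨B, hBn, le_rfl, fun a ha b hb => hBc a ha b hb, fun a ha b hb =>
        B.mul_mem (B.mul_mem (B.mul_mem ha hb) (B.inv_mem ha)) (B.inv_mem hb),
        fun h => absurd rfl h⟩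
  obtain ⟨hEn, hBE, hEB, hEE, hbd⟩ := hE.prop
  refine ⟨E, hEn, hBE, hEB, hEE, hbd, ?_⟩
  obtain ⟨D, hD⟩ : ∃ D : Subgroup Γ, D = Subgroup.centralizer (B : Set Γ) ⊓
      Subgroup.centralizer (E : Set Γ) := ⟨_, rfl⟩
  have hDn : D.Normal := by
    rw [hD]
    have := hcn E hEn
    have := hcn B hBn
    infer_instance
  have hDE : ∀ d ∈ D, ∀ a ∈ E, d * a = a * d := by
    intro d hd a ha
    rw [hD] at hd
    exact (Subgroup.mem_centralizer_iff.1 hd.2 a ha).symm
  have hDB : ∀ d ∈ D, ∀ b ∈ B, d * b = b * d := by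
    intro d hd b hb
    rw [hD] at hd
    exact (Subgroup.mem_centralizer_iff.1 hd.1 b hb).symm
  have hBD : B ≤ D := by
    rw [hD]
    refine le_inf ?_ ?_
    · intro b hb
      rw [Subgroup.mem_centralizer_iff]
      intro b' hb'
      exact hBc b' hb' b hb
    · intro b hb
      rw [Subgroup.mem_centralizer_iff]
      intro a ha
      exact hEB a ha b hb
  have hDle : D ≤ B := by
    by_contra hnot
    obtain ⟨N, hNn, hBN, hND, hmin, hNN⟩ := exists_min B D hBn hDn
      (lt_of_le_not_ge hBD hnot)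
    have hNE : ¬ N ≤ E := by
      intro hNE
      have h1 : Comm N := fun a ha b hb => hDE a (hND ha) b (hNE hb)
      exact hBN.ne' (hmax N hNn h1 hBN.le)
    have hinf : E ⊓ N = B := by
      rcases hmin (E ⊓ N) inferInstance (le_inf hBE hBN.le) inf_le_right with h | h
      · exact h
      · exact absurd (inf_eq_right.mp h) hNE
    have hcb := chief_bound hLB B N hBn hNn hBN hmin hNN
      (hsize N hNn hBN (fun a ha b hb => hDB a (hND ha) b hb) hNN)
    have hsupn : (E ⊔ N).Normal := inferInstance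
    have hmem : E ⊔ N ∈ {E : Subgroup Γ | ∃ hE : E.Normal, B ≤ E ∧
      (∀ a ∈ E, ∀ b ∈ B, a * b = b * a) ∧ (∀ a ∈ E, ∀ b ∈ E, a * b * a⁻¹ * b⁻¹ ∈ B) ∧
      (E ≠ B → (3 * Nat.card Γ) ^ 5 * Nat.card B ^ 12 ≤
        Nat.card (CE B E hE) ^ 5 * Nat.card E ^ 12)} := by
      refine ⟨hsupn, hBE.trans le_sup_left, ?_, ?_, fun _ => ?_⟩
      · intro a ha b hb
        obtain ⟨a1, ha1, e1, he1, rfl⟩ := Subgroup.mem_sup_of_normal_right.1 ha
        rw [mul_assoc, hDB e1 (hND he1) b hb, ← mul_assoc, hEB a1 ha1 b hb, mul_assoc]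
      · intro a ha b hb
        obtain ⟨a1, ha1, e1, he1, rfl⟩ := Subgroup.mem_sup_of_normal_right.1 ha
        obtain ⟨a2, ha2, e2, he2, rfl⟩ := Subgroup.mem_sup_of_normal_right.1 hb
        have c1 := hDE e1 (hND he1) a2 ha2
        have c2 := hDE e1 (hND he1) a1 ha1
        have c3 := hDE e2 (hND he2) a1 ha1
        have c4 := hDE e2 (hND he2) a2 ha2
        have hcomm : a1 * e1 * (a2 * e2) * (a1 * e1)⁻¹ * (a2 * e2)⁻¹ =
            (a1 * a2 * a1⁻¹ * a2⁻¹) * (e1 * e2 * e1⁻¹ * e2⁻¹) := by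
          have d1 : Commute e1 a2 := c1
          have d2 : Commute e1 a1 := c2
          have d3 : Commute e2 a1 := c3
          have d4 : Commute e2 a2 := c4
          have s1 : a1 * e1 * (a2 * e2) = (a1 * a2) * (e1 * e2) := by
            rw [mul_assoc, ← mul_assoc e1, d1.eq, mul_assoc, ← mul_assoc a1]
          have s2 : (a1 * e1)⁻¹ * (a2 * e2)⁻¹ = (a1⁻¹ * a2⁻¹) * (e1⁻¹ * e2⁻¹) := by
            rw [mul_inv_rev, mul_inv_rev]
            have t1 : e1⁻¹ * a1⁻¹ = a1⁻¹ * e1⁻¹ := d2.inv_inv.eq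
            have t2 : e2⁻¹ * a2⁻¹ = a2⁻¹ * e2⁻¹ := d4.inv_inv.eq
            have t3 : e1⁻¹ * a2⁻¹ = a2⁻¹ * e1⁻¹ := d1.inv_inv.eq
            rw [t1, t2, mul_assoc, ← mul_assoc e1⁻¹, t3, mul_assoc, ← mul_assoc a1⁻¹]
          have s3 : e1 * e2 * (a1⁻¹ * a2⁻¹) = (a1⁻¹ * a2⁻¹) * (e1 * e2) := by
            have u1 : Commute (e1 * e2) a1⁻¹ := (d2.mul_left d3).inv_right
            have u2 : Commute (e1 * e2) a2⁻¹ := (d1.mul_left d4).inv_right
            exact (u1.mul_right u2).eq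
          calc a1 * e1 * (a2 * e2) * (a1 * e1)⁻¹ * (a2 * e2)⁻¹
              = (a1 * e1 * (a2 * e2)) * ((a1 * e1)⁻¹ * (a2 * e2)⁻¹) := by rw [mul_assoc]
            _ = (a1 * a2) * (e1 * e2 * (a1⁻¹ * a2⁻¹)) * (e1⁻¹ * e2⁻¹) := by
                rw [s1, s2]; simp only [mul_assoc]
            _ = (a1 * a2 * a1⁻¹ * a2⁻¹) * (e1 * e2 * e1⁻¹ * e2⁻¹) := by
                rw [s3]; simp only [mul_assoc]
        rw [hcomm]
        exact B.mul_mem (hEE a1 ha1 a2 ha2) (hNN e1 he1 e2 he2)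
      · -- the bound
        have hs : Nat.card (E ⊔ N : Subgroup Γ) * Nat.card B = Nat.card E * Nat.card N := by
          have h1 : Nat.card E * E.relIndex (E ⊔ N) = Nat.card (E ⊔ N : Subgroup Γ) :=
            card_mul_relIndex_of_le le_sup_left
          have h2 : Nat.card B * B.relIndex N = Nat.card N :=
            card_mul_relIndex_of_le hBN.le
          have h3 : E.relIndex (E ⊔ N) = B.relIndex N := by
            rw [Subgroup.relIndex_sup_left, ← hinf, Subgroup.inf_relIndex_right]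
          rw [← h1, ← h2, h3]; ring
        have hcc : Nat.card (CE B E hEn) * Nat.card (CE B N hNn) ≤
            Nat.card (CE B (E ⊔ N) hsupn) * Nat.card Γ := by
          refine (card_inf_mul _ _).trans (Nat.mul_le_mul_right _ (Subgroup.card_le_of_le ?_))
          rintro x ⟨hx1, hx2⟩ a ha
          obtain ⟨a1, ha1, e1, he1, rfl⟩ := Subgroup.mem_sup_of_normal_right.1 ha
          have h1 := hx1 a1 ha1
          have h2 := hBn.conj_mem _ (hx2 e1 he1) a1
          have h3 : x * (a1 * e1) * x⁻¹ * (a1 * e1)⁻¹ =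
              (x * a1 * x⁻¹ * a1⁻¹) * (a1 * (x * e1 * x⁻¹ * e1⁻¹) * a1⁻¹) := by group
          rw [h3]
          exact B.mul_mem h1 h2
        have hold : Nat.card Γ ^ 5 * Nat.card B ^ 12 ≤
            Nat.card (CE B E hEn) ^ 5 * Nat.card E ^ 12 := by
          by_cases hEB' : E = B
          · have h1 : CE B E hEn = ⊤ := by
              rw [eq_top_iff]
              intro x _ a ha
              rw [hEB'] at ha
              exact B.mul_mem (hBn.conj_mem a ha x) (B.inv_mem ha)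
            rw [h1, Subgroup.card_top]
            have : Nat.card E = Nat.card B := by rw [hEB']
            rw [this]
          · refine le_trans ?_ (hbd hEB')
            rw [mul_pow]
            nlinarith [Nat.zero_le (Nat.card Γ ^ 5 * Nat.card B ^ 12)]
        have hgpos : 0 < Nat.card Γ ^ 5 * Nat.card B ^ 12 := by
          have h1 : 0 < Nat.card Γ := Nat.card_pos
          have h2 : 0 < Nat.card B := Nat.card_pos
          positivity
        refine Nat.le_of_mul_le_mul_right ?_ hgpos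
        calc (3 * Nat.card Γ) ^ 5 * Nat.card B ^ 12 * (Nat.card Γ ^ 5 * Nat.card B ^ 12)
            ≤ (Nat.card (CE B N hNn) ^ 5 * Nat.card N ^ 12) *
              (Nat.card (CE B E hEn) ^ 5 * Nat.card E ^ 12) := Nat.mul_le_mul hcb hold
          _ = (Nat.card (CE B E hEn) * Nat.card (CE B N hNn)) ^ 5 *
              (Nat.card E * Nat.card N) ^ 12 := by ring
          _ ≤ (Nat.card (CE B (E ⊔ N) hsupn) * Nat.card Γ) ^ 5 *
              (Nat.card E * Nat.card N) ^ 12 :=
              Nat.mul_le_mul_right _ (Nat.pow_le_pow_left hcc 5)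
          _ = (Nat.card (CE B (E ⊔ N) hsupn) * Nat.card Γ) ^ 5 *
              (Nat.card (E ⊔ N : Subgroup Γ) * Nat.card B) ^ 12 := by rw [hs]
          _ = _ := by ring
    exact hNE ((le_sup_right : N ≤ E ⊔ N).trans (hE.le_of_ge hmem le_sup_left))
  intro c hc1 hc2
  apply hDle
  rw [hD]
  refine ⟨?_, ?_⟩
  · refine Subgroup.mem_centralizer_iff.2 ?_
    intro b hb
    exact (hc1 b hb).symm
  · refine Subgroup.mem_centralizer_iff.2 ?_
    intro a ha
    exact (hc2 a ha).symm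

end

end Pool.Agent.R683.Ord
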