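import Pool.Agent.R683.OrdB

/-!
# Orders of solvable linear groups: the case of a field
-/

set_option autoImplicit false

namespace Pool.Agent.R683.Ord

open Pool.Agent.Y552.CT Pool.Agent.Y314.CT3

universe u

section num

lemma num_e (e : ℕ) (he : 2 ≤ e) : e ^ 34 ≤ 2 ^ 34 * 4 ^ (12 * (e - 2)) := by
  induction e, he using Nat.le_induction with
  | base => norm_num
  | succ e he ih =>
    have h1 : (e + 1) ^ 34 * 2 ^ 34 ≤ 3 ^ 34 * e ^ 34 := by
      rw [← mul_pow, ← mul_pow]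
      exact Nat.pow_le_pow_left (by omega) 34
    have h2 : 3 ^ 34 ≤ 2 ^ 34 * 4 ^ 12 := by norm_num
    have h3 : (e + 1) ^ 34 * 2 ^ 34 ≤ (2 ^ 34 * 4 ^ (12 * (e + 1 - 2))) * 2 ^ 34 := by
      calc (e + 1) ^ 34 * 2 ^ 34 ≤ 3 ^ 34 * e ^ 34 := h1
        _ ≤ (2 ^ 34 * 4 ^ 12) * (2 ^ 34 * 4 ^ (12 * (e - 2))) := Nat.mul_le_mul h2 ih
        _ = 2 ^ 34 * (4 ^ 12 * 4 ^ (12 * (e - 2))) * 2 ^ 34 := by ring
        _ = _ := by
          rw [← pow_add]
          congr 3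
          omega
    exact Nat.le_of_mul_le_mul_right h3 (by norm_num)

/-- the numerical inequality for fields with at least four elements -/
lemma num_q4 (q e e' b a : ℕ) (hq : 4 ≤ q) (he : 1 ≤ e) (he' : 2 * e' ≤ q) (hb : b + 1 ≤ q)
    (ha : a ≤ e * e) : (e' * b) ^ 5 * a ^ 17 ≤ (q ^ e) ^ 12 := by
  have hqb : (e' * b) ^ 5 * 2 ^ 5 ≤ (q * (q - 1)) ^ 5 := by
    rw [← mul_pow]
    apply Nat.pow_le_pow_left
    calc e' * b * 2 = (2 * e') * b := by ring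
      _ ≤ q * (q - 1) := Nat.mul_le_mul he' (by omega)
  rcases Nat.lt_or_ge e 2 with h | h
  · have he1 : e = 1 := by omega
    subst he1
    have ha1 : a ^ 17 ≤ 1 := by
      calc a ^ 17 ≤ 1 ^ 17 := Nat.pow_le_pow_left (by omega) 17
        _ = 1 := one_pow _
    have h1 : (e' * b) ^ 5 ≤ (q ^ 1) ^ 12 := by
      calc (e' * b) ^ 5 ≤ (q * q) ^ 5 := Nat.pow_le_pow_left (Nat.mul_le_mul (by omega) (by omega)) 5
        _ = q ^ 10 := by ring
        _ ≤ q ^ 12 := Nat.pow_le_pow_right (by omega) (by norm_num)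
        _ = _ := by ring
    calc (e' * b) ^ 5 * a ^ 17 ≤ (q ^ 1) ^ 12 * 1 := Nat.mul_le_mul h1 ha1
      _ = _ := mul_one _
  · have h34 : a ^ 17 ≤ 2 ^ 34 * q ^ (12 * (e - 2)) := by
      calc a ^ 17 ≤ (e * e) ^ 17 := Nat.pow_le_pow_left ha 17
        _ = e ^ 34 := by ring
        _ ≤ 2 ^ 34 * 4 ^ (12 * (e - 2)) := num_e e h
        _ ≤ 2 ^ 34 * q ^ (12 * (e - 2)) := Nat.mul_le_mul_left _ (Nat.pow_le_pow_left hq _)
    have h5 : (q - 1) ^ 5 * 2 ^ 29 ≤ q ^ 19 := by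
      rcases Nat.lt_or_ge q 5 with h' | h'
      · have : q = 4 := by omega
        subst this
        norm_num
      · calc (q - 1) ^ 5 * 2 ^ 29 ≤ q ^ 5 * q ^ 14 := by
              refine Nat.mul_le_mul (Nat.pow_le_pow_left (by omega) 5) ?_
              calc 2 ^ 29 ≤ 5 ^ 14 := by norm_num
                _ ≤ q ^ 14 := Nat.pow_le_pow_left h' 14
          _ = q ^ 19 := by ring
    have h6 : (q * (q - 1)) ^ 5 * 2 ^ 29 ≤ q ^ 24 := by
      calc (q * (q - 1)) ^ 5 * 2 ^ 29 = q ^ 5 * ((q - 1) ^ 5 * 2 ^ 29) := by ring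
        _ ≤ q ^ 5 * q ^ 19 := Nat.mul_le_mul_left _ h5
        _ = q ^ 24 := by ring
    have h7 : (e' * b) ^ 5 * a ^ 17 * 2 ^ 5 ≤ (q ^ e) ^ 12 * 2 ^ 5 := by
      calc (e' * b) ^ 5 * a ^ 17 * 2 ^ 5 = ((e' * b) ^ 5 * 2 ^ 5) * a ^ 17 := by ring
        _ ≤ (q * (q - 1)) ^ 5 * (2 ^ 34 * q ^ (12 * (e - 2))) := Nat.mul_le_mul hqb h34
        _ = ((q * (q - 1)) ^ 5 * 2 ^ 29) * q ^ (12 * (e - 2)) * 2 ^ 5 := by ring
        _ ≤ q ^ 24 * q ^ (12 * (e - 2)) * 2 ^ 5 :=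
            Nat.mul_le_mul_right _ (Nat.mul_le_mul_right _ h6)
        _ = (q ^ e) ^ 12 * 2 ^ 5 := by
            rw [← pow_add, ← pow_mul]
            congr 2
            omega
    exact Nat.le_of_mul_le_mul_right h7 (by norm_num)

/-- the numerical inequality for the field with three elements -/
lemma num_q3 (e b a : ℕ) (he : 1 ≤ e) (he2 : e ≠ 2) (hb : b ≤ 2) (ha : a ≤ e * e)
    (ha3 : e = 3 → a ≤ 8) : b ^ 5 * a ^ 17 ≤ (3 ^ e) ^ 12 := by
  have hb5 : b ^ 5 ≤ 2 ^ 5 := Nat.pow_le_pow_left hb 5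
  have key : ∀ e : ℕ, 4 ≤ e → 2 ^ 5 * e ^ 34 ≤ 3 ^ (12 * e) := by
    intro e he
    induction e, he using Nat.le_induction with
    | base => norm_num
    | succ e he ih =>
      have h1 : (e + 1) ^ 34 * 4 ^ 34 ≤ 5 ^ 34 * e ^ 34 := by
        rw [← mul_pow, ← mul_pow]
        exact Nat.pow_le_pow_left (by omega) 34
      have h2 : 5 ^ 34 ≤ 3 ^ 12 * 4 ^ 34 := by norm_num
      have h3 : 2 ^ 5 * (e + 1) ^ 34 * 4 ^ 34 ≤ 3 ^ (12 * (e + 1)) * 4 ^ 34 := by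
        calc 2 ^ 5 * (e + 1) ^ 34 * 4 ^ 34 = 2 ^ 5 * ((e + 1) ^ 34 * 4 ^ 34) := by ring
          _ ≤ 2 ^ 5 * (5 ^ 34 * e ^ 34) := Nat.mul_le_mul_left _ h1
          _ = 5 ^ 34 * (2 ^ 5 * e ^ 34) := by ring
          _ ≤ (3 ^ 12 * 4 ^ 34) * 3 ^ (12 * e) := Nat.mul_le_mul h2 ih
          _ = 3 ^ (12 * (e + 1)) * 4 ^ 34 := by ring
      exact Nat.le_of_mul_le_mul_right h3 (by norm_num)
  rcases Nat.lt_or_ge e 4 with h | h
  · interval_cases e
    · calc b ^ 5 * a ^ 17 ≤ 2 ^ 5 * 1 ^ 17 := Nat.mul_le_mul hb5 (Nat.pow_le_pow_left ha 17)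
        _ ≤ _ := by norm_num
    · exact absurd rfl he2
    · calc b ^ 5 * a ^ 17 ≤ 2 ^ 5 * 8 ^ 17 :=
            Nat.mul_le_mul hb5 (Nat.pow_le_pow_left (ha3 rfl) 17)
        _ ≤ _ := by norm_num
  · calc b ^ 5 * a ^ 17 ≤ 2 ^ 5 * (e * e) ^ 17 := Nat.mul_le_mul hb5 (Nat.pow_le_pow_left ha 17)
      _ = 2 ^ 5 * e ^ 34 := by ring
      _ ≤ 3 ^ (12 * e) := key e h
      _ = _ := by ring

/-- the numerical inequality for the abelian case -/
lemma num_ab (q e e' b : ℕ) (hq : 2 ≤ q) (he : 1 ≤ e) (he' : 2 * e' ≤ q) (hb : b + 1 ≤ q) :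
    (3 * (e' * b)) ^ 5 ≤ (q ^ e) ^ 12 := by
  have h0 : q ≤ q ^ e := Nat.le_self_pow (by omega) q
  refine le_trans ?_ (Nat.pow_le_pow_left h0 12)
  have h1 : (3 * (e' * b)) ^ 5 * 2 ^ 5 ≤ (3 * (q * (q - 1))) ^ 5 := by
    rw [← mul_pow]
    apply Nat.pow_le_pow_left
    calc 3 * (e' * b) * 2 = 3 * ((2 * e') * b) := by ring
      _ ≤ 3 * (q * (q - 1)) := Nat.mul_le_mul_left _ (Nat.mul_le_mul he' (by omega))
  have h2 : (3 * (q * (q - 1))) ^ 5 ≤ q ^ 12 * 2 ^ 5 := by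
    rcases Nat.lt_or_ge q 4 with h | h
    · interval_cases q <;> norm_num
    · calc (3 * (q * (q - 1))) ^ 5 ≤ (3 * (q * q)) ^ 5 :=
            Nat.pow_le_pow_left (Nat.mul_le_mul_left _ (Nat.mul_le_mul_left _ (by omega))) 5
        _ = q ^ 10 * 243 := by ring
        _ ≤ q ^ 10 * (q ^ 2 * 2 ^ 5) := by
            apply Nat.mul_le_mul_left
            nlinarith
        _ = q ^ 12 * 2 ^ 5 := by ring
  exact Nat.le_of_mul_le_mul_right (h1.trans h2) (by norm_num)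

end num

section autf

/-- the number of endomorphisms of a finite field -/
lemma card_end (F : Type u) [Field F] [Finite F] :
    ∃ e' : ℕ, Finite (F →+* F) ∧ Nat.card (F →+* F) ≤ e' ∧ 2 * e' ≤ Nat.card F := by
  obtain ⟨p, hp⟩ := CharP.exists F
  have hpp : Fact p.Prime := ⟨CharP.char_is_prime F p⟩
  let _ : Algebra (ZMod p) F := ZMod.algebra F p
  have : Module.Finite (ZMod p) F := Module.Finite.of_finite
  have hcard : Nat.card F = p ^ Module.finrank (ZMod p) F := by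
    rw [Module.natCard_eq_pow_finrank (K := ZMod p), Nat.card_zmod]
  have hpos : 0 < Module.finrank (ZMod p) F := Module.finrank_pos
  have hfin : Finite (F →+* F) :=
    Finite.of_injective (fun f : F →+* F => (f : F → F)) DFunLike.coe_injective
  refine ⟨Module.finrank (ZMod p) F, hfin, ?_, ?_⟩
  · have hfin' : Finite (F →ₐ[ZMod p] F) :=
      Finite.of_injective (fun f : F →ₐ[ZMod p] F => (f : F → F)) DFunLike.coe_injective
    have h1 : Nat.card (F →ₐ[ZMod p] F) ≤ Module.finrank (ZMod p) F :=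
      card_algHom_le_finrank (ZMod p) F F
    refine le_trans ?_ h1
    have hc : ∀ f : F →+* F, ∀ r : ZMod p, f (algebraMap (ZMod p) F r) = algebraMap (ZMod p) F r := by
      intro f r
      have h2 : f.comp (algebraMap (ZMod p) F) = algebraMap (ZMod p) F :=
        Subsingleton.elim _ _
      exact RingHom.congr_fun h2 r
    refine Nat.card_le_card_of_injective
      (fun f : F →+* F => (AlgHom.mk f (hc f) : F →ₐ[ZMod p] F)) ?_
    intro f g hfg
    ext x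
    exact DFunLike.congr_fun hfg x
  · rw [hcard]
    have h2 : 2 * Module.finrank (ZMod p) F ≤ 2 ^ Module.finrank (ZMod p) F := by
      obtain ⟨k, hk⟩ := Nat.exists_eq_succ_of_ne_zero hpos.ne'
      rw [hk, pow_succ, mul_comm]
      exact Nat.mul_le_mul_right 2 (Nat.lt_two_pow_self)
    exact h2.trans (Nat.pow_le_pow_left hpp.out.two_le _)

end autf

end Pool.Agent.R683.Ord
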