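import Pool.Agent.R683.OrdC

/-!
# Orders of solvable linear groups: the case of a field
-/

set_option autoImplicit false

namespace Pool.Agent.R683.Ord

open Pool.Agent.Y552.CT Pool.Agent.Y314.CT3

universe u

lemma num_exp (e : ℕ) : e * e ≤ 3 ^ e - 1 := by
  have h : e * e + 1 ≤ 3 ^ e := by
    induction e with
    | zero => norm_num
    | succ e ih =>
      rw [pow_succ]
      nlinarith
  omega

/-- independence of elements which commute modulo scalars -/
theorem indep_bound {Γ : Type u} [Group Γ] [Finite Γ] {W : Type u} [AddCommGroup W] [Finite W]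
    [Nontrivial W] (ρ : Γ →* AddMonoid.End W) (hρ : Function.Injective ρ) (B : Subgroup Γ)
    {F : Type u} [Field F] [Finite F] (j : F →+* AddMonoid.End W)
    (hj1 : ∀ b ∈ B, ∃ f, j f = ρ b)
    (hj2 : ∀ X : AddMonoid.End W, (∀ b ∈ B, X * ρ b = ρ b * X) → ∀ f, X * j f = j f * X)
    (X A : Subgroup Γ) (hXB : ∀ x ∈ X, ∀ b ∈ B, x * b = b * x)
    (hAB : ∀ a ∈ A, ∀ b ∈ B, a * b = b * a)
    (hAX : ∀ a ∈ A, ∀ x ∈ X, a * x * a⁻¹ * x⁻¹ ∈ B)
    (hZ : ∀ x ∈ X, (∀ a ∈ A, x * a = a * x) → x ∈ B)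
    (e : ℕ) (he : Nat.card W = Nat.card F ^ e) :
    Nat.card (X ⧸ B.subgroupOf X) ≤ e * e := by
  classical
  letI : Module F W := Module.compHom W j
  have hsmul : ∀ (f : F) (w : W), f • w = j f w := fun _ _ => rfl
  haveI : Module.Finite F W := Module.Finite.of_finite
  have he' : e = Module.finrank F W := by
    have h1 : Nat.card W = Nat.card F ^ Module.finrank F W := Module.natCard_eq_pow_finrank
    rw [he] at h1
    exact Nat.pow_right_injective Finite.one_lt_card h1
  have hgg : ∀ (g : Γ) (w : W), ρ g⁻¹ (ρ g w) = w := by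
    intro g w
    have : (ρ g⁻¹ * ρ g) w = w := by rw [← map_mul, inv_mul_cancel, map_one]; rfl
    exact this
  let L : (g : Γ) → (∀ b ∈ B, g * b = b * g) → Module.End F W := fun g hg =>
    { toFun := fun w => ρ g w
      map_add' := fun x y => map_add _ _ _
      map_smul' := fun f w => by
        have h1 := hj2 (ρ g) (fun b hb => by rw [← map_mul, ← map_mul, hg b hb]) f
        exact DFunLike.congr_fun h1 w }
  have hL : ∀ g hg w, L g hg w = ρ g w := fun _ _ _ => rfl
  have hmulρ : ∀ g h w, ρ (g * h) w = ρ g (ρ h w) := by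
    intro g h w
    rw [map_mul]
    rfl
  choose bb hbb using hj1
  have hAinv : ∀ a : A, ∀ b ∈ B, (a : Γ)⁻¹ * b = b * (a : Γ)⁻¹ := fun a b hb =>
    hAB _ (A.inv_mem a.2) b hb
  have hind : LinearIndependent F (fun i : X ⧸ B.subgroupOf X =>
      L (i.out : X) (hXB _ (i.out : X).2)) := by
    refine indep_eig (α := A)
      (fun a => (LinearMap.mulLeft F (L a (hAB _ a.2))) ∘ₗ
        (LinearMap.mulRight F (L (a : Γ)⁻¹ (hAinv a)))) _
      (fun a i => bb _ (hAX a a.2 (i.out : X) (i.out : X).2)) ?_ ?_ ?_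
    · intro a i
      refine LinearMap.ext fun w => ?_
      have h1 := hbb _ (hAX a a.2 (i.out : X) (i.out : X).2)
      have h2 : (bb _ (hAX a a.2 (i.out : X) (i.out : X).2) •
          L (i.out : X) (hXB _ (i.out : X).2)) w =
          ρ ((a : Γ) * (i.out : X) * (a : Γ)⁻¹ * ((i.out : X) : Γ)⁻¹) (ρ (i.out : X) w) := by
        rw [LinearMap.smul_apply, hsmul, h1, hL _ (hXB _ (i.out : X).2)]
      rw [h2]
      change ρ a (ρ (i.out : X) (ρ (a : Γ)⁻¹ w)) = _
      rw [← hmulρ, ← hmulρ, ← hmulρ]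
      congr 2
      group
    · intro i h0
      obtain ⟨w, hw⟩ := exists_ne (0 : W)
      have h1 := LinearMap.congr_fun h0 w
      rw [hL _ (hXB _ (i.out : X).2), LinearMap.zero_apply] at h1
      apply hw
      rw [← hgg (i.out : X) w, h1, map_zero]
    · intro i k hik
      have h1 : ∀ a : A, (a : Γ) * (i.out : X) * (a : Γ)⁻¹ * ((i.out : X) : Γ)⁻¹ =
          (a : Γ) * (k.out : X) * (a : Γ)⁻¹ * ((k.out : X) : Γ)⁻¹ := by
        intro a
        apply hρ
        rw [← hbb _ (hAX a a.2 (i.out : X) (i.out : X).2),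
          ← hbb _ (hAX a a.2 (k.out : X) (k.out : X).2)]
        exact congrArg j (hik a)
      have h2 : (((i.out : X) : Γ)⁻¹ * (k.out : X)) ∈ B := by
        have hmX : (((i.out : X) : Γ)⁻¹ * (k.out : X)) ∈ X :=
          X.mul_mem (X.inv_mem (i.out : X).2) (k.out : X).2
        refine hZ _ hmX ?_
        intro a ha
        have h3 := h1 ⟨a⁻¹, A.inv_mem ha⟩
        simp only [inv_inv] at h3
        generalize ((i.out : X) : Γ) = x at h3 ⊢
        generalize ((k.out : X) : Γ) = y at h3 ⊢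
        have h4 : x * a * x⁻¹ = y * a * y⁻¹ := by
          have h5 : a⁻¹ * (x * a * x⁻¹) = a⁻¹ * (y * a * y⁻¹) := by
            calc a⁻¹ * (x * a * x⁻¹) = a⁻¹ * x * a * x⁻¹ := by simp only [mul_assoc]
              _ = a⁻¹ * y * a * y⁻¹ := h3
              _ = _ := by simp only [mul_assoc]
          exact mul_left_cancel h5
        calc x⁻¹ * y * a = x⁻¹ * (y * a * y⁻¹) * y := by group
          _ = x⁻¹ * (x * a * x⁻¹) * y := by rw [h4]
          _ = a * (x⁻¹ * y) := by group
      have h3 : ((i.out : X) : X ⧸ B.subgroupOf X) = ((k.out : X) : X ⧸ B.subgroupOf X) := by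
        rw [QuotientGroup.eq, Subgroup.mem_subgroupOf]
        exact h2
      rw [← QuotientGroup.out_eq' i, ← QuotientGroup.out_eq' k]
      exact h3
  haveI : Fintype (X ⧸ B.subgroupOf X) := Fintype.ofFinite _
  have h6 := hind.fintype_card_le_finrank
  rw [Module.finrank_linearMap, ← he', ← Nat.card_eq_fintype_card] at h6
  exact h6

/-- groups acting on nine points -/
lemma card_nine {Γ : Type u} [Group Γ] [Finite Γ] {W : Type u} [AddCommGroup W] [Finite W]
    (ρ : Γ →* AddMonoid.End W) (hρ : Function.Injective ρ) (hW : Nat.card W = 9)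
    (h3 : ∀ w : W, (3 : ℕ) • w = 0) : Nat.card Γ ≤ 64 := by
  classical
  have hnt : Nontrivial W := Finite.one_lt_card_iff_nontrivial.1 (by rw [hW]; norm_num)
  obtain ⟨w1, hw1⟩ := exists_ne (0 : W)
  have hz1 : Nat.card (AddSubgroup.zmultiples w1) ≤ 3 := by
    rw [Nat.card_zmultiples]
    exact Nat.le_of_dvd (by norm_num) (addOrderOf_dvd_of_nsmul_eq_zero (h3 w1))
  obtain ⟨w2, hw2⟩ : ∃ w2, w2 ∉ AddSubgroup.zmultiples w1 := by
    by_contra hcon
    push Not at hcon
    have h1 : AddSubgroup.zmultiples w1 = ⊤ := eq_top_iff.2 fun w _ => hcon w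
    rw [h1, AddSubgroup.card_top, hW] at hz1
    omega
  have htop : AddSubgroup.zmultiples w1 ⊔ AddSubgroup.zmultiples w2 = ⊤ := by
    have hd : Nat.card (AddSubgroup.zmultiples w1 ⊔ AddSubgroup.zmultiples w2 : AddSubgroup W) ∣
        3 ^ 2 := by
      have := AddSubgroup.card_addSubgroup_dvd_card
        (AddSubgroup.zmultiples w1 ⊔ AddSubgroup.zmultiples w2)
      rwa [hW] at this
    obtain ⟨k, hk, hk2⟩ := (Nat.dvd_prime_pow Nat.prime_three).1 hd
    have hlt : Nat.card (AddSubgroup.zmultiples w1) <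
        Nat.card (AddSubgroup.zmultiples w1 ⊔ AddSubgroup.zmultiples w2 : AddSubgroup W) := by
      refine lt_of_le_of_ne (AddSubgroup.card_le_of_le le_sup_left) fun h => ?_
      have h1 := AddSubgroup.eq_of_le_of_card_ge (le_sup_left :
        AddSubgroup.zmultiples w1 ≤ AddSubgroup.zmultiples w1 ⊔ AddSubgroup.zmultiples w2) h.ge
      apply hw2
      rw [h1]
      exact (le_sup_right : AddSubgroup.zmultiples w2 ≤ _) (AddSubgroup.mem_zmultiples w2)
    have h1 : addOrderOf w1 = 3 := by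
      have : Fact (Nat.Prime 3) := ⟨Nat.prime_three⟩
      exact addOrderOf_eq_prime (h3 w1) hw1
    rw [Nat.card_zmultiples, h1, hk2] at hlt
    have hk' : k = 2 := by
      interval_cases k
      · norm_num at hlt
      · norm_num at hlt
      · rfl
    rw [hk'] at hk2
    exact AddSubgroup.eq_top_of_card_eq _ (by rw [hk2, hW]; norm_num)
  have hne : ∀ (g : Γ) (w : W), w ≠ 0 → ρ g w ≠ 0 := by
    intro g w hw h
    apply hw
    have h1 : (ρ g⁻¹ * ρ g) w = w := by rw [← map_mul, inv_mul_cancel, map_one]; rfl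
    rw [← h1]
    show ρ g⁻¹ (ρ g w) = 0
    rw [h, map_zero]
  have hw20 : w2 ≠ 0 := by
    rintro rfl
    exact hw2 (AddSubgroup.zero_mem _)
  let f : Γ → {w : W // w ≠ 0} × {w : W // w ≠ 0} := fun g =>
    (⟨ρ g w1, hne g w1 hw1⟩, ⟨ρ g w2, hne g w2 hw20⟩)
  have hf : Function.Injective f := by
    intro g h hgh
    apply hρ
    have e1 : ρ g w1 = ρ h w1 := congrArg (fun z => (z.1 : W)) hgh
    have e2 : ρ g w2 = ρ h w2 := congrArg (fun z => (z.2 : W)) hgh
    have h1 : AddSubgroup.zmultiples w1 ⊔ AddSubgroup.zmultiples w2 ≤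
        AddMonoidHom.eqLocus (ρ g : W →+ W) (ρ h : W →+ W) := by
      refine sup_le ?_ ?_
      · rw [AddSubgroup.zmultiples_le]; exact e1
      · rw [AddSubgroup.zmultiples_le]; exact e2
    rw [htop] at h1
    apply AddMonoidHom.ext
    intro w
    exact h1 (AddSubgroup.mem_top w)
  have h1 := Nat.card_le_card_of_injective f hf
  rw [Nat.card_prod] at h1
  have h2 : Nat.card {w : W // w ≠ 0} = 8 := by
    have : Fintype W := Fintype.ofFinite W
    rw [Nat.card_eq_fintype_card, Fintype.card_subtype_compl, Fintype.card_subtype_eq,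
      ← Nat.card_eq_fintype_card, hW]
  rw [h2] at h1
  exact h1

end Pool.Agent.R683.Ord
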