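import Pool.Agent.R683.OrdC2

/-!
# Orders of solvable linear groups: the case of a field
-/

set_option autoImplicit false

namespace Pool.Agent.R683.Ord

open Pool.Agent.Y552.CT Pool.Agent.Y314.CT3

universe u

/-- the case of a field -/
theorem field_case {Γ : Type u} [Group Γ] [Finite Γ] [Group.IsSolvable Γ] {W : Type u}
    [AddCommGroup W] [Finite W] [Nontrivial W] (hLB : LB.{u} (Nat.card W - 1))
    (ρ : Γ →* AddMonoid.End W) (hρ : Function.Injective ρ) (B : Subgroup Γ) (hBn : B.Normal)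
    (hBc : Comm B)
    (hmax : ∀ B' : Subgroup Γ, B'.Normal → Comm B' → B ≤ B' → B' = B)
    (hdom : ∀ x ∈ Rg ρ B, ∀ y ∈ Rg ρ B, x * y = 0 → x = 0 ∨ y = 0) :
    (3 * Nat.card Γ) ^ 5 ≤ Nat.card W ^ 12 := by
  classical
  obtain ⟨F, _, _, j, hj1, hj2, hj3⟩ := exists_field ρ B hBn hBc hdom
  have hntE : Nontrivial (AddMonoid.End W) := by
    obtain ⟨w, hw⟩ := exists_ne (0 : W)
    exact ⟨0, 1, fun h => hw (DFunLike.congr_fun h w).symm⟩
  have hjinj : Function.Injective j := j.injective
  obtain ⟨q, hq⟩ : ∃ q, q = Nat.card F := ⟨_, rfl⟩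
  have hq2 : 2 ≤ q := by rw [hq]; exact Finite.one_lt_card
  obtain ⟨e, he1, hW⟩ : ∃ e, 1 ≤ e ∧ Nat.card W = q ^ e := by
    let _ : Module F W := Module.compHom W j
    have : Module.Finite F W := Module.Finite.of_finite
    refine ⟨Module.finrank F W, Module.finrank_pos, ?_⟩
    rw [hq]; exact Module.natCard_eq_pow_finrank
  obtain ⟨e', hfinE, he'1, he'2⟩ := card_end F
  rw [← hq] at he'2
  -- the action on the field
  choose φ hφ using hj3
  have hgg : ∀ g : Γ, ρ g⁻¹ * ρ g = 1 := fun g => by rw [← map_mul, inv_mul_cancel, map_one]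
  have hgg' : ∀ g : Γ, ρ g * ρ g⁻¹ = 1 := fun g => by rw [← map_mul, mul_inv_cancel, map_one]
  let θ : Γ → (F →+* F) := fun g =>
    { toFun := φ g
      map_one' := hjinj (by rw [← hφ, map_one, mul_one, hgg'])
      map_mul' := fun x y => hjinj (by
        rw [← hφ, map_mul, map_mul, ← hφ, ← hφ]
        calc ρ g * (j x * j y) * ρ g⁻¹ = ρ g * j x * 1 * j y * ρ g⁻¹ := by
              rw [mul_one]; simp only [mul_assoc]
          _ = _ := by rw [← hgg g]; simp only [mul_assoc])
      map_zero' := hjinj (by rw [← hφ, map_zero, mul_zero, zero_mul])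
      map_add' := fun x y => hjinj (by
        rw [← hφ, map_add, map_add, ← hφ, ← hφ, mul_add, add_mul]) }
  have hθ2 : ∀ g h : Γ, θ g = θ h → ∀ b ∈ B, g⁻¹ * h * b = b * (g⁻¹ * h) := by
    intro g h hgh b hb
    obtain ⟨f, hf⟩ := hj1 b hb
    have h0 : φ g f = φ h f := DFunLike.congr_fun hgh f
    have h1 : ρ g * j f * ρ g⁻¹ = ρ h * j f * ρ h⁻¹ := by rw [hφ, hφ, h0]
    have h2 : ρ (g⁻¹ * h) * j f = j f * ρ (g⁻¹ * h) := by
      calc ρ (g⁻¹ * h) * j f = ρ g⁻¹ * (ρ h * j f * ρ h⁻¹) * ρ h := by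
            rw [map_mul, mul_assoc (ρ g⁻¹) _ (ρ h), mul_assoc (ρ h * j f), hgg h, mul_one,
              mul_assoc]
        _ = ρ g⁻¹ * (ρ g * j f * ρ g⁻¹) * ρ h := by rw [h1]
        _ = (ρ g⁻¹ * ρ g) * j f * (ρ g⁻¹ * ρ h) := by simp only [mul_assoc]
        _ = _ := by rw [hgg g, one_mul, map_mul]
    rw [hf, ← map_mul, ← map_mul] at h2
    exact hρ h2
  obtain ⟨C, hC⟩ : ∃ C : Subgroup Γ, C = Subgroup.centralizer (B : Set Γ) := ⟨_, rfl⟩
  have hCmem : ∀ c, c ∈ C ↔ ∀ b ∈ B, c * b = b * c := by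
    intro c
    rw [hC, Subgroup.mem_centralizer_iff]
    exact ⟨fun h b hb => (h b hb).symm, fun h b hb => (h b hb).symm⟩
  have hcardC : Nat.card Γ ≤ e' * Nat.card C := by
    let s : (F →+* F) → Γ := fun x => if h : ∃ g, θ g = x then h.choose else 1
    have hs : ∀ g, θ (s (θ g)) = θ g := by
      intro g
      have h1 : ∃ g', θ g' = θ g := ⟨g, rfl⟩
      have h2 : s (θ g) = h1.choose := dif_pos h1
      rw [h2]
      exact h1.choose_spec
    let G : Γ → (F →+* F) × C :=
      fun g => (θ g, ⟨(s (θ g))⁻¹ * g, (hCmem _).2 (hθ2 _ _ (hs g))⟩)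
    have hG : Function.Injective G := by
      intro a b hab
      have h1 := congrArg Prod.fst hab
      have h2 := congrArg (fun p => (p.2 : Γ)) hab
      simp only [G] at h1 h2
      rw [h1] at h2
      exact mul_left_cancel h2
    have := Nat.card_le_card_of_injective G hG
    rw [Nat.card_prod] at this
    exact this.trans (Nat.mul_le_mul_right _ he'1)
  -- the cardinality of B
  have hcardB : Nat.card B + 1 ≤ q := by
    choose b' hb' using fun b : B => hj1 b b.2
    have h1 : Nat.card B ≤ Nat.card Fˣ := by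
      have hne : ∀ b : B, b' b ≠ 0 := by
        intro b h0
        have h1 := hb' b
        rw [h0, map_zero] at h1
        have h2 := hgg (b : Γ)
        rw [← h1, mul_zero] at h2
        exact zero_ne_one h2
      refine Nat.card_le_card_of_injective (fun b => Units.mk0 (b' b) (hne b)) ?_
      intro x y hxy
      have hxy' : b' x = b' y := congrArg Units.val hxy
      have : ρ x = ρ y := by rw [← hb', ← hb', hxy']
      exact Subtype.ext (hρ this)
    have h2 : Nat.card Fˣ = q - 1 := by rw [hq]; exact Nat.card_units F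
    omega
  -- the size of sections
  have hZN : ∀ N : Subgroup Γ, N.Normal → B ≤ N → (∀ a ∈ N, ∀ b ∈ B, a * b = b * a) →
      ∀ c ∈ N, (∀ a ∈ N, c * a = a * c) → c ∈ B := by
    intro N hN hBN hNB c hc1 hc2
    have hZn : (N ⊓ Subgroup.centralizer (N : Set Γ)).Normal := by
      have : (Subgroup.centralizer (N : Set Γ)).Normal := inferInstance
      infer_instance
    have h1 := hmax (N ⊓ Subgroup.centralizer (N : Set Γ)) hZn (by
      rintro a ⟨ha1, ha2⟩ b ⟨hb1, hb2⟩
      exact (Subgroup.mem_centralizer_iff.1 ha2 b hb1).symm) (by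
      intro b hb
      refine ⟨hBN hb, ?_⟩
      refine Subgroup.mem_centralizer_iff.2 ?_
      intro a ha
      exact hNB a ha b hb)
    rw [← h1]
    refine ⟨hc1, ?_⟩
    refine Subgroup.mem_centralizer_iff.2 ?_
    intro a ha
    exact (hc2 a ha).symm
  have hcardX : ∀ X : Subgroup Γ, B ≤ X →
      Nat.card X = Nat.card (X ⧸ B.subgroupOf X) * Nat.card B := by
    intro X hBX
    rw [Subgroup.card_eq_card_quotient_mul_card_subgroup (B.subgroupOf X)]
    congr 1
    exact Nat.card_congr (Subgroup.subgroupOfEquivOfLe hBX).toEquiv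
  have hB2 : q = 2 → B = ⊥ := by
    intro h2
    have : Nat.card B = 1 := by
      have : 0 < Nat.card B := Nat.card_pos
      omega
    exact Subgroup.card_eq_one.1 this
  have hsize : ∀ N : Subgroup Γ, N.Normal → B < N → (∀ a ∈ N, ∀ b ∈ B, a * b = b * a) →
      (∀ a ∈ N, ∀ b ∈ N, a * b * a⁻¹ * b⁻¹ ∈ B) →
      Nat.card N ≤ (Nat.card W - 1) * Nat.card B := by
    intro N hN hBN hNB hNN
    rcases Nat.lt_or_ge q 3 with h | h
    · exfalso
      have h2 := hB2 (by omega)
      have h3 : Comm N := by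
        intro a ha b hb
        have h4 := hNN a ha b hb
        rw [h2, Subgroup.mem_bot] at h4
        have h5 : a * b = (a * b * a⁻¹ * b⁻¹) * (b * a) := by group
        rw [h5, h4, one_mul]
      exact hBN.ne' (hmax N hN h3 hBN.le)
    · have h1 := indep_bound ρ hρ B j hj1 hj2 N N hNB hNB hNN
        (hZN N hN hBN.le hNB) e (by rw [hW, hq])
      rw [hcardX N hBN.le]
      refine Nat.mul_le_mul_right _ (h1.trans ?_)
      rw [hW]
      refine (num_exp e).trans ?_
      exact Nat.sub_le_sub_right (Nat.pow_le_pow_left h e) 1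
  obtain ⟨E, hEn, hBE, hEB, hEE, hEbd, hEZ⟩ := exists_E hLB B hBn hBc hmax hsize
  by_cases hEB' : E = B
  · have hCB : Nat.card C ≤ Nat.card B := by
      refine Subgroup.card_le_of_le ?_
      intro c hc
      refine hEZ c ((hCmem c).1 hc) ?_
      rw [hEB']
      exact (hCmem c).1 hc
    rw [hW]
    calc (3 * Nat.card Γ) ^ 5 ≤ (3 * (e' * Nat.card B)) ^ 5 :=
          Nat.pow_le_pow_left (Nat.mul_le_mul_left _ (hcardC.trans (Nat.mul_le_mul_left _ hCB))) 5
      _ ≤ (q ^ e) ^ 12 := num_ab q e e' _ hq2 he1 he'2 hcardB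
  · have hq3 : 3 ≤ q := by
      by_contra hcon
      have h2 := hB2 (by omega)
      have h3 : Comm E := by
        intro a ha b hb
        have h4 := hEE a ha b hb
        rw [h2, Subgroup.mem_bot] at h4
        have h5 : a * b = (a * b * a⁻¹ * b⁻¹) * (b * a) := by group
        rw [h5, h4, one_mul]
      exact hEB' (hmax E hEn h3 hBE)
    obtain ⟨C', hC'⟩ : ∃ C' : Subgroup Γ, C' = C ⊓ CE B E hEn := ⟨_, rfl⟩
    have hC'B : ∀ x ∈ C', ∀ b ∈ B, x * b = b * x := by
      intro x hx
      rw [hC'] at hx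
      exact (hCmem x).1 hx.1
    have hEC' : ∀ a ∈ E, ∀ x ∈ C', a * x * a⁻¹ * x⁻¹ ∈ B := by
      intro a ha x hx
      rw [hC'] at hx
      have h1 := B.inv_mem (hx.2 a ha)
      have h2 : (x * a * x⁻¹ * a⁻¹)⁻¹ = a * x * a⁻¹ * x⁻¹ := by group
      rwa [h2] at h1
    have hC'Z : ∀ x ∈ C', (∀ a ∈ E, x * a = a * x) → x ∈ B := fun x hx h =>
      hEZ x (hC'B x hx) h
    have hEC : E ≤ C' := by
      rw [hC']
      intro a ha
      exact ⟨(hCmem a).2 (hEB a ha), fun b hb => hEE a ha b hb⟩
    have hBC' : B ≤ C' := hBE.trans hEC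
    obtain ⟨a, ha⟩ : ∃ a, a = Nat.card (C' ⧸ B.subgroupOf C') := ⟨_, rfl⟩
    have hae : a ≤ e * e := by
      rw [ha]
      exact indep_bound ρ hρ B j hj1 hj2 C' E hC'B hEB hEC' hC'Z e (by rw [hW, hq])
    have hcardC' : Nat.card C' = a * Nat.card B := by rw [ha]; exact hcardX C' hBC'
    have hcardE : Nat.card E ≤ a * Nat.card B := by
      rw [← hcardC']; exact Subgroup.card_le_of_le hEC
    have hBpos : 0 < Nat.card B := Nat.card_pos
    have hCpos : 0 < Nat.card C := Nat.card_pos
    have hGpos : 0 < Nat.card Γ := Nat.card_pos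
    have h1 : Nat.card C * Nat.card (CE B E hEn) ≤ Nat.card C' * Nat.card Γ := by
      rw [hC']; exact card_inf_mul C (CE B E hEn)
    have h2 := hEbd hEB'
    have h3 : (3 * Nat.card C) ^ 5 * Nat.card B ^ 12 ≤ Nat.card C' ^ 5 * Nat.card E ^ 12 := by
      have h4 : (3 * Nat.card C) ^ 5 * Nat.card B ^ 12 * Nat.card Γ ^ 5 ≤
          Nat.card C' ^ 5 * Nat.card E ^ 12 * Nat.card Γ ^ 5 := by
        calc (3 * Nat.card C) ^ 5 * Nat.card B ^ 12 * Nat.card Γ ^ 5
            = Nat.card C ^ 5 * ((3 * Nat.card Γ) ^ 5 * Nat.card B ^ 12) := by ring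
          _ ≤ Nat.card C ^ 5 * (Nat.card (CE B E hEn) ^ 5 * Nat.card E ^ 12) :=
              Nat.mul_le_mul_left _ h2
          _ = (Nat.card C * Nat.card (CE B E hEn)) ^ 5 * Nat.card E ^ 12 := by ring
          _ ≤ (Nat.card C' * Nat.card Γ) ^ 5 * Nat.card E ^ 12 :=
              Nat.mul_le_mul_right _ (Nat.pow_le_pow_left h1 5)
          _ = _ := by ring
      exact Nat.le_of_mul_le_mul_right h4 (by positivity)
    have h5 : (3 * Nat.card C) ^ 5 ≤ a ^ 17 * Nat.card B ^ 5 := by
      have h6 : (3 * Nat.card C) ^ 5 * Nat.card B ^ 12 ≤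
          a ^ 17 * Nat.card B ^ 5 * Nat.card B ^ 12 := by
        calc (3 * Nat.card C) ^ 5 * Nat.card B ^ 12 ≤ Nat.card C' ^ 5 * Nat.card E ^ 12 := h3
          _ ≤ (a * Nat.card B) ^ 5 * (a * Nat.card B) ^ 12 :=
              Nat.mul_le_mul (Nat.pow_le_pow_left hcardC'.le 5) (Nat.pow_le_pow_left hcardE 12)
          _ = _ := by ring
      exact Nat.le_of_mul_le_mul_right h6 (by positivity)
    have h7 : (3 * Nat.card Γ) ^ 5 ≤ (e' * Nat.card B) ^ 5 * a ^ 17 := by
      calc (3 * Nat.card Γ) ^ 5 ≤ (3 * (e' * Nat.card C)) ^ 5 :=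
            Nat.pow_le_pow_left (Nat.mul_le_mul_left _ hcardC) 5
        _ = e' ^ 5 * (3 * Nat.card C) ^ 5 := by ring
        _ ≤ e' ^ 5 * (a ^ 17 * Nat.card B ^ 5) := Nat.mul_le_mul_left _ h5
        _ = _ := by ring
    rcases Nat.lt_or_ge q 4 with hq4 | hq4
    · have hq3' : q = 3 := by omega
      have he'3 : e' ≤ 1 := by omega
      have hb2 : Nat.card B ≤ 2 := by omega
      by_cases he2 : e = 2
      · -- nine elements
        have hW9 : Nat.card W = 9 := by rw [hW, hq3', he2]; norm_num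
        have h30 : (3 : F) = 0 := by
          have h1 : ((Nat.card F : ℕ) : F) = 0 := by
            have := Fintype.ofFinite F
            rw [Nat.card_eq_fintype_card]
            exact Nat.cast_card_eq_zero F
          rw [← hq, hq3'] at h1
          exact_mod_cast h1
        have h3w : ∀ w : W, (3 : ℕ) • w = 0 := by
          intro w
          have h1 : j (3 : F) = 0 := by rw [h30, map_zero]
          have h2 : j (3 : F) = ((3 : ℕ) : AddMonoid.End W) := by
            rw [show (3 : F) = ((3 : ℕ) : F) by norm_num]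
            exact map_natCast j 3
          rw [h2] at h1
          have h3 := DFunLike.congr_fun h1 w
          rwa [AddMonoid.End.natCast_apply] at h3
        have h64 := card_nine ρ hρ hW9 h3w
        rw [hW9]
        calc (3 * Nat.card Γ) ^ 5 ≤ (3 * 64) ^ 5 :=
              Nat.pow_le_pow_left (Nat.mul_le_mul_left _ h64) 5
          _ ≤ 9 ^ 12 := by norm_num
      · have ha3 : e = 3 → a ≤ 8 := by
          intro he3
          -- the quotient is a two group
          have hp : IsPGroup 2 (C' ⧸ B.subgroupOf C') := by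
            intro x
            obtain ⟨x, rfl⟩ := QuotientGroup.mk_surjective x
            refine ⟨1, ?_⟩
            rw [← QuotientGroup.mk_pow, QuotientGroup.eq_one_iff, Subgroup.mem_subgroupOf]
            have hxx : ((x ^ 2 ^ 1 : C') : Γ) = (x : Γ) * x := by
              rw [pow_one, pow_two]; rfl
            rw [hxx]
            refine hC'Z _ (C'.mul_mem x.2 x.2) ?_
            intro y hy
            have hz : (x : Γ) * y * (x : Γ)⁻¹ * y⁻¹ ∈ B := by
              have h0 : (x : Γ) ∈ C ⊓ CE B E hEn := by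
                rw [← hC']
                exact x.2
              exact h0.2 y hy
            have hz2 : ((x : Γ) * y * (x : Γ)⁻¹ * y⁻¹) * ((x : Γ) * y * (x : Γ)⁻¹ * y⁻¹) = 1 := by
              have h1 : orderOf ((x : Γ) * y * (x : Γ)⁻¹ * y⁻¹) ∣ Nat.card B :=
                Subgroup.orderOf_dvd_natCard B hz
              have h2 : orderOf ((x : Γ) * y * (x : Γ)⁻¹ * y⁻¹) ∣ 2 := by
                have h3 : Nat.card B = 1 ∨ Nat.card B = 2 := by omega
                rcases h3 with h3 | h3
                · rw [h3] at h1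
                  exact h1.trans (one_dvd 2)
                · rwa [h3] at h1
              rw [← pow_two]
              exact orderOf_dvd_iff_pow_eq_one.1 h2
            have hzx := hC'B x x.2 _ hz
            generalize hzz : (x : Γ) * y * (x : Γ)⁻¹ * y⁻¹ = z at hz hz2 hzx
            have h1 : (x : Γ) * y = z * (y * x) := by rw [← hzz]; group
            have hzy : y * z = z * y := hEB y hy z hz
            calc (x : Γ) * x * y = x * (x * y) := by rw [mul_assoc]
              _ = x * (z * (y * x)) := by rw [h1]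
              _ = (x * z) * y * x := by simp only [mul_assoc]
              _ = z * (x * y) * x := by rw [hzx]; simp only [mul_assoc]
              _ = (z * z) * (y * (x * x)) := by rw [h1]; simp only [mul_assoc]
              _ = _ := by rw [hz2, one_mul]
          obtain ⟨k, hk⟩ := IsPGroup.iff_card.1 hp
          rw [← ha] at hk
          rw [hk] at hae ⊢
          rw [he3] at hae
          have hk3 : k ≤ 3 := by
            by_contra hcon
            have : 2 ^ 4 ≤ 2 ^ k := Nat.pow_le_pow_right (by norm_num) (by omega)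
            omega
          calc 2 ^ k ≤ 2 ^ 3 := Nat.pow_le_pow_right (by norm_num) hk3
            _ = 8 := by norm_num
        rw [hW, hq3']
        calc (3 * Nat.card Γ) ^ 5 ≤ (e' * Nat.card B) ^ 5 * a ^ 17 := h7
          _ ≤ (1 * Nat.card B) ^ 5 * a ^ 17 :=
              Nat.mul_le_mul_right _ (Nat.pow_le_pow_left (Nat.mul_le_mul_right _ he'3) 5)
          _ = Nat.card B ^ 5 * a ^ 17 := by rw [one_mul]
          _ ≤ (3 ^ e) ^ 12 := num_q3 e _ a he1 he2 hb2 hae ha3
    · rw [hW]
      exact h7.trans (num_q4 q e e' _ a hq4 he1 he'2 hcardB hae)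

end Pool.Agent.R683.Ord
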