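import Pool.Agent.R683.OrdC3

/-!
# Orders of solvable linear and permutation groups: the induction
-/

set_option autoImplicit false

namespace Pool.Agent.R683.Ord

open Pool.Agent.Y552.CT Pool.Agent.Y759.CT Subgroup

universe u

lemma num_perm (b : ℕ) (hb : 5 ≤ b) : b ^ 17 ≤ 3 ^ (5 * b) := by
  induction b, hb using Nat.le_induction with
  | base => norm_num
  | succ b hb ih =>
    have h1 : (b + 1) ^ 17 * 5 ^ 17 ≤ 6 ^ 17 * b ^ 17 := by
      rw [← mul_pow, ← mul_pow]
      exact Nat.pow_le_pow_left (by omega) 17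
    have h2 : 6 ^ 17 ≤ 3 ^ 5 * 5 ^ 17 := by norm_num
    have h3 : (b + 1) ^ 17 * 5 ^ 17 ≤ 3 ^ (5 * (b + 1)) * 5 ^ 17 := by
      calc (b + 1) ^ 17 * 5 ^ 17 ≤ 6 ^ 17 * b ^ 17 := h1
        _ ≤ (3 ^ 5 * 5 ^ 17) * 3 ^ (5 * b) := Nat.mul_le_mul h2 ih
        _ = _ := by ring
    exact Nat.le_of_mul_le_mul_right h3 (by norm_num)

/-- the primitive case -/
theorem prim_bd {m : ℕ} (hLB : LB.{u} m) {Q : Type u} [Group Q] [Finite Q] [Group.IsSolvable Q]
    (M : Subgroup Q) (hM : IsCoatom M) (hcore : M.normalCore = ⊥) (hm : M.index ≤ m) :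
    Nat.card Q ≤ 3 ^ (M.index - 1) := by
  classical
  have hnt : Nontrivial Q := by
    by_contra h
    rw [not_nontrivial_iff_subsingleton] at h
    exact hM.1 (Subsingleton.elim _ _)
  obtain ⟨N, hN, hN0, hNab⟩ := exists_abelian_normal Q
  have hcoreN : ∀ K : Subgroup Q, K.Normal → K ≤ M → K = ⊥ := by
    intro K hK hKM
    have h1 : K ≤ M.normalCore := (Subgroup.normal_le_normalCore).2 hKM
    rw [hcore] at h1
    exact le_bot_iff.1 h1
  have hNM : ¬ N ≤ M := fun h => hN0 (hcoreN N hN h)
  have hsup : N ⊔ M = ⊤ := by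
    rw [sup_comm]
    exact hM.2 _ (left_lt_sup.2 hNM)
  have hdec : ∀ g : Q, ∃ a ∈ N, ∃ m ∈ M, a * m = g := by
    intro g
    have h1 : g ∈ ((N ⊔ M : Subgroup Q) : Set Q) := by
      rw [hsup]
      exact Set.mem_univ g
    rw [Subgroup.normal_mul] at h1
    obtain ⟨a, ha, m, hm, h⟩ := Set.mem_mul.1 h1
    exact ⟨a, ha, m, hm, h⟩
  have hinf : N ⊓ M = ⊥ := by
    apply hcoreN _ _ inf_le_right
    constructor
    intro z hz g
    obtain ⟨a, ha, m, hm, rfl⟩ := hdec g
    have h1 : m * z * m⁻¹ ∈ N ⊓ M :=
      ⟨hN.conj_mem z hz.1 m, M.mul_mem (M.mul_mem hm hz.2) (M.inv_mem hm)⟩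
    have h2 : a * m * z * (a * m)⁻¹ = a * (m * z * m⁻¹) * a⁻¹ := by group
    rw [h2, hNab a ha _ h1.1, mul_assoc, mul_inv_cancel, mul_one]
    exact h1
  have hC : ∀ m ∈ M, (∀ a ∈ N, m * a = a * m) → m = 1 := by
    have h1 : (Subgroup.centralizer (N : Set Q) ⊓ M) = ⊥ := by
      apply hcoreN _ _ inf_le_right
      constructor
      intro z hz g
      obtain ⟨a, ha, m, hm, rfl⟩ := hdec g
      have h1 : m * z * m⁻¹ ∈ Subgroup.centralizer (N : Set Q) ⊓ M := by
        refine Subgroup.mem_inf.2 ⟨?_, M.mul_mem (M.mul_mem hm hz.2) (M.inv_mem hm)⟩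
        rw [Subgroup.mem_centralizer_iff]
        intro b hb
        have h3 := Subgroup.mem_centralizer_iff.1 hz.1 (m⁻¹ * b * m)
          (by simpa using hN.conj_mem b hb m⁻¹)
        calc b * (m * z * m⁻¹) = m * ((m⁻¹ * b * m) * z) * m⁻¹ := by group
          _ = m * (z * (m⁻¹ * b * m)) * m⁻¹ := by rw [h3]
          _ = _ := by group
      have h2 : a * m * z * (a * m)⁻¹ = a * (m * z * m⁻¹) * a⁻¹ := by group
      rw [h2, Subgroup.mem_centralizer_iff.1 h1.1 a ha, mul_assoc, mul_inv_cancel, mul_one]
      exact h1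
    intro m hm hma
    have h2 : m ∈ (Subgroup.centralizer (N : Set Q) ⊓ M) :=
      ⟨Subgroup.mem_centralizer_iff.2 fun a ha => (hma a ha).symm, hm⟩
    rw [h1] at h2
    exact h2
  have hcomp : Subgroup.IsComplement' N M := by
    apply Subgroup.isComplement'_of_disjoint_and_mul_eq_univ
    · exact disjoint_iff.2 hinf
    · rw [← Subgroup.normal_mul, hsup]
      rfl
  have hidx : M.index = Nat.card N := hcomp.index_eq_card
  have hcard : Nat.card N * Nat.card M = Nat.card Q := hcomp.card_mul_card
  rcases Nat.lt_or_ge M.index 5 with hb | hb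
  · -- small degree
    have h1 : Nat.card Q ≤ Nat.card (Equiv.Perm (Q ⧸ M)) := by
      refine Nat.card_le_card_of_injective (MulAction.toPermHom Q (Q ⧸ M)) ?_
      rw [← MonoidHom.ker_eq_bot_iff, ← Subgroup.normalCore_eq_ker]
      exact hcore
    have h2 : Nat.card (Equiv.Perm (Q ⧸ M)) = Nat.factorial M.index := by
      rw [Nat.card_perm]; rfl
    rw [h2] at h1
    have h4 : M.index ≠ 0 := Subgroup.index_ne_zero_of_finite
    refine h1.trans ?_
    generalize M.index = b at hb h4
    interval_cases b
    · exact absurd rfl h4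
    · decide
    · decide
    · decide
    · decide
  · let _ : CommGroup N :=
      { (inferInstance : Group N) with
        mul_comm := fun a b => Subtype.ext (hNab a a.2 b b.2) }
    let ρ : M →* AddMonoid.End (Additive N) :=
      { toFun := fun x => MonoidHom.toAdditive
          ((MulAut.conjNormal (x : Q) : N ≃* N) : N →* N)
        map_one' := by
          apply AddMonoidHom.ext
          intro w
          show Additive.ofMul (MulAut.conjNormal ((1 : M) : Q) (Additive.toMul w)) = w
          rw [Subgroup.coe_one, map_one]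
          rfl
        map_mul' := fun x y => by
          apply AddMonoidHom.ext
          intro w
          show Additive.ofMul (MulAut.conjNormal ((x * y : M) : Q) (Additive.toMul w)) =
            Additive.ofMul (MulAut.conjNormal (x : Q) (MulAut.conjNormal (y : Q)
              (Additive.toMul w)))
          rw [Subgroup.coe_mul, map_mul]
          rfl }
    have hρ : ∀ (x : M) (a : N), ρ x (Additive.ofMul a) =
        Additive.ofMul (MulAut.conjNormal (x : Q) a) := fun _ _ => rfl
    have hcN : ∀ g : Q, ∀ a : N, ((MulAut.conjNormal g a : N) : Q) = g * a * g⁻¹ :=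
      fun g a => MulAut.conjNormal_apply g a
    have hinj : Function.Injective ρ := by
      intro x y hxy
      have h1 : ∀ a ∈ N, ((y⁻¹ * x : M) : Q) * a = a * ((y⁻¹ * x : M) : Q) := by
        intro a ha
        have h2 : ρ x (Additive.ofMul ⟨a, ha⟩) = ρ y (Additive.ofMul ⟨a, ha⟩) := by rw [hxy]
        rw [hρ, hρ] at h2
        have h3 : (x : Q) * a * (x : Q)⁻¹ = (y : Q) * a * (y : Q)⁻¹ := by
          have h4 := congrArg (fun z : Additive N => ((Additive.toMul z : N) : Q)) h2
          simp only [toMul_ofMul, hcN] at h4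
          exact h4
        rw [Subgroup.coe_mul, Subgroup.coe_inv]
        calc (y : Q)⁻¹ * x * a = (y : Q)⁻¹ * ((x : Q) * a * (x : Q)⁻¹) * x := by group
          _ = (y : Q)⁻¹ * ((y : Q) * a * (y : Q)⁻¹) * x := by rw [h3]
          _ = _ := by group
      have h2 := hC _ (y⁻¹ * x : M).2 h1
      have h3 : y⁻¹ * x = 1 := Subtype.ext h2
      exact (inv_mul_eq_one.1 h3).symm
    have hirr : Irr ρ := by
      intro U hU
      let K : Subgroup Q :=
        { carrier := {x | ∃ h : x ∈ N, Additive.ofMul (⟨x, h⟩ : N) ∈ U}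
          one_mem' := ⟨N.one_mem, U.zero_mem⟩
          mul_mem' := by
            rintro a b ⟨ha, ha'⟩ ⟨hb, hb'⟩
            exact ⟨N.mul_mem ha hb, U.add_mem ha' hb'⟩
          inv_mem' := by
            rintro a ⟨ha, ha'⟩
            exact ⟨N.inv_mem ha, U.neg_mem ha'⟩ }
      have hKN : K ≤ N := fun x hx => hx.1
      have hK : K.Normal := by
        constructor
        intro z hz g
        obtain ⟨a, ha, m, hm, rfl⟩ := hdec g
        have h1 : m * z * m⁻¹ ∈ K := by
          obtain ⟨hzN, hzU⟩ := hz
          have h1 := hU ⟨m, hm⟩ _ hzU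
          rw [hρ] at h1
          refine ⟨hN.conj_mem z hzN m, ?_⟩
          have h3 : MulAut.conjNormal m ⟨z, hzN⟩ = (⟨m * z * m⁻¹, hN.conj_mem z hzN m⟩ : N) :=
            Subtype.ext (hcN m ⟨z, hzN⟩)
          rw [← h3]
          exact h1
        have h2 : a * m * z * (a * m)⁻¹ = a * (m * z * m⁻¹) * a⁻¹ := by group
        rw [h2, hNab a ha _ (hKN h1), mul_assoc, mul_inv_cancel, mul_one]
        exact h1
      by_cases hKM : K ≤ M
      · left
        have h1 := hcoreN K hK hKM
        rw [eq_bot_iff]
        intro w hw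
        have h2 : ((Additive.toMul w : N) : Q) ∈ K := ⟨(Additive.toMul w : N).2, hw⟩
        rw [h1, Subgroup.mem_bot] at h2
        rw [AddSubgroup.mem_bot]
        have h3 : (Additive.toMul w : N) = 1 := Subtype.ext h2
        exact h3
      · right
        have hsup' : K ⊔ M = ⊤ := by
          rw [sup_comm]
          exact hM.2 _ (left_lt_sup.2 hKM)
        rw [eq_top_iff]
        intro w _
        have h1 : ((Additive.toMul w : N) : Q) ∈ ((K ⊔ M : Subgroup Q) : Set Q) := by
          rw [hsup']
          exact Set.mem_univ _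
        rw [Subgroup.normal_mul] at h1
        obtain ⟨k, hk, m, hm, h⟩ := Set.mem_mul.1 h1
        have h2 : m ∈ N ⊓ M := by
          refine ⟨?_, hm⟩
          have h3 : m = k⁻¹ * ((Additive.toMul w : N) : Q) := by rw [← h]; group
          rw [h3]
          exact N.mul_mem (N.inv_mem (hKN hk)) (Additive.toMul w : N).2
        rw [hinf, Subgroup.mem_bot] at h2
        rw [h2, mul_one] at h
        have h3 : ((Additive.toMul w : N) : Q) ∈ K := by rw [← h]; exact hk
        obtain ⟨_, h4⟩ := h3
        exact h4
    have hntN : Nontrivial (Additive N) := by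
      have : Nontrivial N := (Subgroup.nontrivial_iff_ne_bot N).2 hN0
      exact inferInstanceAs (Nontrivial (Additive N))
    have hcN' : Nat.card (Additive N) = M.index := by rw [hidx]; rfl
    have h1 := hLB M (Additive N) ρ hinj hirr (by rw [hcN']; exact hm)
    rw [hcN'] at h1
    have h2 : (3 * Nat.card Q) ^ 5 ≤ (3 ^ M.index) ^ 5 := by
      calc (3 * Nat.card Q) ^ 5 = Nat.card N ^ 5 * (3 * Nat.card M) ^ 5 := by
            rw [← hcard]; ring
        _ ≤ M.index ^ 5 * M.index ^ 12 := by
            rw [← hidx]; exact Nat.mul_le_mul_left _ h1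
        _ = M.index ^ 17 := by ring
        _ ≤ 3 ^ (5 * M.index) := num_perm _ hb
        _ = (3 ^ M.index) ^ 5 := by rw [← pow_mul, mul_comm]
    have h3 : 3 * Nat.card Q ≤ 3 ^ M.index :=
      (Nat.pow_le_pow_iff_left (by norm_num)).1 h2
    have h4 : 3 ^ M.index = 3 * 3 ^ (M.index - 1) := by
      rw [← pow_succ']
      congr 1
      omega
    rw [h4] at h3
    exact Nat.le_of_mul_le_mul_left h3 (by norm_num)

/-- the quotient by the normal core of a maximal subgroup -/
theorem quot_bd' {m : ℕ} (hLB : LB.{u} m) {T : Type u} [Group T] [Finite T] [Group.IsSolvable T]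
    (M : Subgroup T) (hM : IsCoatom M) (hm : M.index ≤ m) :
    Nat.card (T ⧸ M.normalCore) ≤ 3 ^ (M.index - 1) := by
  set L := M.normalCore with hL
  have hLM : L ≤ M := Subgroup.normalCore_le M
  have hsurj : Function.Surjective (QuotientGroup.mk' L) := QuotientGroup.mk'_surjective L
  have hcomap : (M.map (QuotientGroup.mk' L)).comap (QuotientGroup.mk' L) = M := by
    rw [Subgroup.comap_map_eq, QuotientGroup.ker_mk']
    exact sup_eq_left.2 hLM
  have hidx : (M.map (QuotientGroup.mk' L)).index = M.index := by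
    have h1 := Subgroup.index_comap_of_surjective (M.map (QuotientGroup.mk' L)) hsurj
    rw [hcomap] at h1
    exact h1.symm
  have hco : IsCoatom (M.map (QuotientGroup.mk' L)) := by
    constructor
    · intro h
      rw [h, Subgroup.comap_top] at hcomap
      exact hM.1 hcomap.symm
    · intro K hK
      have h1 : M < K.comap (QuotientGroup.mk' L) := by
        refine lt_of_le_of_ne ?_ ?_
        · exact hcomap.symm.le.trans (Subgroup.comap_mono hK.le)
        · intro h
          apply hK.ne
          apply Subgroup.comap_injective hsurj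
          exact hcomap.trans h
      have h2 := hM.2 _ h1
      apply Subgroup.comap_injective hsurj
      rw [h2, Subgroup.comap_top]
  have hcore : (M.map (QuotientGroup.mk' L)).normalCore = ⊥ := by
    rw [eq_bot_iff]
    intro z hz
    obtain ⟨t, rfl⟩ := hsurj z
    have h1 : ((M.map (QuotientGroup.mk' L)).normalCore).comap (QuotientGroup.mk' L) ≤ L := by
      exact Subgroup.normal_le_normalCore.2
        ((Subgroup.comap_mono (Subgroup.normalCore_le _)).trans hcomap.le)
    have h2 : t ∈ L := h1 hz
    rw [Subgroup.mem_bot]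
    exact (QuotientGroup.eq_one_iff t).2 h2
  have h3 := prim_bd hLB (M.map (QuotientGroup.mk' L)) hco hcore (by rw [hidx]; exact hm)
  rw [hidx] at h3
  exact h3

theorem perm_bd' {m : ℕ} (hLB : LB.{u} m) (s : ℕ) : s ≤ m → ∀ (X : Type u) [Finite X]
    [Nonempty X], Nat.card X = s →
    ∀ (T : Subgroup (Equiv.Perm X)), Group.IsSolvable T → Nat.card T ≤ 3 ^ (s - 1) := by
  induction s using Nat.strong_induction_on with
  | _ s ih =>
  intro hsm X _ _ hs T hT
  classical
  -- the induction hypothesis for homomorphisms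
  have IH : ∀ (Y : Type u) [Finite Y] [Nonempty Y], Nat.card Y < s → ∀ (G : Type u) [Group G]
      [Group.IsSolvable G] (f : G →* Equiv.Perm Y), Nat.card f.range ≤ 3 ^ (Nat.card Y - 1) := by
    intro Y _ _ hY G _ _ f
    exact ih _ hY (by omega) Y rfl f.range
      (Group.isSolvable_of_surjective (f := f.rangeRestrict) f.rangeRestrict_surjective)
  have hs1 : 0 < Nat.card X := Nat.card_pos
  by_cases htr : ∀ x y : X, ∃ t : T, t • x = y
  · obtain ⟨x⟩ := (inferInstance : Nonempty X)
    by_cases hs2 : s ≤ 1
    · have h1 : Nat.card X = 1 := by omega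
      have h2 : Subsingleton X := (Nat.card_eq_one_iff_unique.1 h1).1
      have h3 : Subsingleton T := inferInstance
      have h4 : Nat.card T ≤ 1 := Finite.card_le_one_iff_subsingleton.2 h3
      exact h4.trans (Nat.one_le_pow _ _ (by norm_num))
    · have hH : MulAction.stabilizer T x ≠ ⊤ := by
        intro h
        apply hs2
        rw [← hs]
        apply Finite.card_le_one_iff_subsingleton.2
        constructor
        intro y z
        obtain ⟨t, ht⟩ := htr x y
        obtain ⟨u, hu⟩ := htr x z
        have h1 : t ∈ MulAction.stabilizer T x := h ▸ Subgroup.mem_top t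
        have h2 : u ∈ MulAction.stabilizer T x := h ▸ Subgroup.mem_top u
        rw [← ht, ← hu, MulAction.mem_stabilizer_iff.1 h1, MulAction.mem_stabilizer_iff.1 h2]
      obtain ⟨M, hM, hHM⟩ := (eq_top_or_exists_le_coatom (MulAction.stabilizer T x)).resolve_left hH
      choose τ hτ using fun y => htr x y
      set f : X → T ⧸ M := fun y => (τ y : T ⧸ M) with hf
      have hfx : ∀ t : T, f (t • x) = (t : T ⧸ M) := by
        intro t
        rw [hf]
        simp only
        rw [QuotientGroup.eq]
        apply hHM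
        rw [MulAction.mem_stabilizer_iff, mul_smul, inv_smul_eq_iff]
        exact (hτ (t • x)).symm
      have hfe : ∀ (t : T) (y : X), f (t • y) = t • f y := by
        intro t y
        obtain ⟨u, rfl⟩ := htr x y
        rw [← mul_smul, hfx, hfx]
        rfl
      have hLn : M.normalCore.Normal := Subgroup.normalCore_normal M
      have hLtriv : ∀ l ∈ M.normalCore, ∀ c : T ⧸ M, l • c = c := by
        intro l hl c
        obtain ⟨g, rfl⟩ := QuotientGroup.mk_surjective c
        change ((l * g : T) : T ⧸ M) = (g : T ⧸ M)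
        rw [QuotientGroup.eq]
        have h1 : g⁻¹ * l⁻¹ * g⁻¹⁻¹ ∈ M.normalCore :=
          hLn.conj_mem l⁻¹ (M.normalCore.inv_mem hl) g⁻¹
        have h2 : (l * g)⁻¹ * g = g⁻¹ * l⁻¹ * g⁻¹⁻¹ := by group
        rw [h2]
        exact Subgroup.normalCore_le M h1
      have hinv : ∀ (c : T ⧸ M) (l : M.normalCore) (y : X), f y = c → f (l • y) = c := by
        intro c l y hy
        have h1 : f ((l : T) • y) = (l : T) • f y := hfe _ _
        rw [hLtriv _ l.2, hy] at h1
        exact h1
      have : Fintype (T ⧸ M) := Fintype.ofFinite _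
      have hne : ∀ c : T ⧸ M, Nonempty {y // f y = c} := by
        intro c
        obtain ⟨g, rfl⟩ := QuotientGroup.mk_surjective c
        exact ⟨⟨g • x, hfx g⟩⟩
      have hcard : ∀ c : T ⧸ M, Nat.card {y // f y = c} =
          Nat.card {y // f y = ((1 : T) : T ⧸ M)} := by
        intro c
        obtain ⟨g, rfl⟩ := QuotientGroup.mk_surjective c
        refine Nat.card_congr ⟨fun y => ⟨g⁻¹ • y.1, ?_⟩, fun y => ⟨g • y.1, ?_⟩, ?_, ?_⟩
        · rw [hfe, y.2]
          change ((g⁻¹ * g : T) : T ⧸ M) = _
          rw [inv_mul_cancel]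
        · rw [hfe, y.2]
          change ((g * 1 : T) : T ⧸ M) = _
          rw [mul_one]
        · intro y
          exact Subtype.ext (smul_inv_smul _ _)
        · intro y
          exact Subtype.ext (inv_smul_smul _ _)
      have hsum : s = M.index * Nat.card {y // f y = ((1 : T) : T ⧸ M)} := by
        rw [← hs, ← Nat.card_congr (Equiv.sigmaFiberEquiv f), Nat.card_sigma,
          Finset.sum_congr rfl (fun c _ => hcard c), Finset.sum_const, Finset.card_univ,
          ← Nat.card_eq_fintype_card, smul_eq_mul]
        rfl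
      have ha1 : 0 < Nat.card {y // f y = ((1 : T) : T ⧸ M)} := by
        have := hne ((1 : T) : T ⧸ M)
        exact Nat.card_pos
      have hb1 : 2 ≤ M.index := by
        have h4 : M.index ≠ 0 := Subgroup.index_ne_zero_of_finite
        have h5 : M.index ≠ 1 := fun h => hM.1 (Subgroup.index_eq_one.1 h)
        omega
      have hlt : Nat.card {y // f y = ((1 : T) : T ⧸ M)} < s := by
        rw [hsum]
        nlinarith
      have hLcard := card_le_prod (G := M.normalCore) (fun c : T ⧸ M => Equiv.Perm {y // f y = c})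
        (fun c => restr (G := M.normalCore) (fun y => f y = c) (hinv c)) (by
          intro l hl
          apply Subtype.ext
          apply Subtype.ext
          apply Equiv.ext
          intro y
          have h1 := congrArg (fun e : Equiv.Perm {z // f z = f y} => (e ⟨y, rfl⟩).1) (hl (f y))
          exact h1)
      have hLcard2 : Nat.card M.normalCore ≤
          3 ^ ((Nat.card {y // f y = ((1 : T) : T ⧸ M)} - 1) * M.index) := by
        refine hLcard.trans ?_
        have h1 : ∀ c : T ⧸ M,
            Nat.card (restr (G := M.normalCore) (fun y => f y = c) (hinv c)).range ≤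
              3 ^ (Nat.card {y // f y = ((1 : T) : T ⧸ M)} - 1) := by
          intro c
          have := hne c
          have h2 := IH {y // f y = c} (by rw [hcard]; exact hlt) M.normalCore
            (restr (G := M.normalCore) (fun y => f y = c) (hinv c))
          rwa [hcard] at h2
        refine (Finset.prod_le_prod' fun c _ => h1 c).trans ?_
        rw [Finset.prod_const, Finset.card_univ, ← Nat.card_eq_fintype_card, ← pow_mul]
        exact le_rfl
      have hq := quot_bd' hLB M hM (by
        refine le_trans ?_ hsm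
        rw [hsum]
        exact Nat.le_mul_of_pos_right _ ha1)
      rw [Subgroup.card_eq_card_quotient_mul_card_subgroup M.normalCore]
      refine (Nat.mul_le_mul hq hLcard2).trans ?_
      rw [← pow_add]
      apply Nat.pow_le_pow_right (by norm_num)
      obtain ⟨a, ha⟩ := Nat.exists_eq_succ_of_ne_zero ha1.ne'
      rw [ha] at hsum ⊢
      rw [hsum]
      have h6 : M.index * a.succ = a * M.index + M.index := by
        rw [Nat.mul_succ, mul_comm]
      rw [h6, Nat.succ_sub_one]
      omega
  · push Not at htr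
    obtain ⟨x, y, hxy⟩ := htr
    set p : X → Prop := fun z => ∃ t : T, t • x = z with hp
    have hp1 : ∀ (g : T) (z : X), p z → p (g • z) := by
      rintro g z ⟨t, rfl⟩
      exact ⟨g * t, mul_smul _ _ _⟩
    have hp2 : ∀ (g : T) (z : X), ¬ p z → ¬ p (g • z) := by
      rintro g z hz ⟨t, ht⟩
      apply hz
      refine ⟨g⁻¹ * t, ?_⟩
      rw [mul_smul, ht, inv_smul_smul]
    have hne1 : Nonempty {z // p z} := ⟨⟨x, 1, one_smul _ _⟩⟩
    have hne2 : Nonempty {z // ¬ p z} := ⟨⟨y, fun ⟨t, ht⟩ => hxy t ht⟩⟩
    have hc1 : 0 < Nat.card {z // p z} := Nat.card_pos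
    have hc2 : 0 < Nat.card {z // ¬ p z} := Nat.card_pos
    have hsum : Nat.card {z // p z} + Nat.card {z // ¬ p z} = s := by
      rw [← hs, ← Nat.card_sum]
      exact Nat.card_congr (Equiv.sumCompl p)
    have h1 := card_le_mul (G := T) (restr (G := T) p hp1) (restr (G := T) (fun z => ¬ p z) hp2) (by
      intro t ht1 ht2
      apply Subtype.ext
      apply Equiv.ext
      intro z
      by_cases hz : p z
      · exact congrArg (fun e : Equiv.Perm {z // p z} => (e ⟨z, hz⟩).1) ht1
      · exact congrArg (fun e : Equiv.Perm {z // ¬ p z} => (e ⟨z, hz⟩).1) ht2)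
    refine h1.trans ?_
    refine (Nat.mul_le_mul (IH {z // p z} (by omega) T _)
      (IH {z // ¬ p z} (by omega) T _)).trans ?_
    rw [← pow_add]
    apply Nat.pow_le_pow_right (by norm_num)
    omega

/-- the step for permutation groups -/
theorem pb_of_lb {m : ℕ} (hLB : LB.{u} m) : PB.{u} m := by
  intro T _ _ _ X _ _ _ _ hX
  have hinj : Function.Injective (MulAction.toPermHom T X) := MulAction.toPerm_injective
  have h1 := perm_bd' hLB (Nat.card X) hX X rfl (MulAction.toPermHom T X).range
    (Group.isSolvable_of_surjective (f := (MulAction.toPermHom T X).rangeRestrict)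
      (MulAction.toPermHom T X).rangeRestrict_surjective)
  rwa [← Nat.card_congr (MonoidHom.ofInjective hinj).toEquiv] at h1

end Pool.Agent.R683.Ord
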