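import Pool.Agent.R683.OrdD

/-!
# Orders of solvable linear groups: the theorem
-/

set_option autoImplicit false

namespace Pool.Agent.R683.Ord

open Pool.Agent.Y552.CT Pool.Agent.Y759.CT Subgroup

universe u

theorem lb_step {m : ℕ} (hLB : LB.{u} m) : LB.{u} (m + 1) := by
  classical
  have hD := pb_of_lb hLB
  intro Γ _ _ _ W _ _ _ ρ hinj hirr hWm
  have hmono : ∀ a, a ≤ m → LB.{u} a := by
    intro a ha Γ _ _ _ W _ _ _ ρ h1 h2 h3
    exact hLB Γ W ρ h1 h2 (h3.trans ha)
  have hW2 : 2 ≤ Nat.card W := Finite.one_lt_card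
  -- a maximal abelian normal subgroup
  obtain ⟨B, hB⟩ : ∃ B : Subgroup Γ, Maximal (fun B : Subgroup Γ => B.Normal ∧ Comm B) B := by
    have hfin : {B : Subgroup Γ | B.Normal ∧ Comm B}.Finite := Set.toFinite _
    have hne : {B : Subgroup Γ | B.Normal ∧ Comm B}.Nonempty :=
      ⟨⊥, inferInstance, by
        intro a ha b hb
        rw [mem_bot] at ha hb
        rw [ha, hb]⟩
    exact hfin.exists_maximal hne
  have hBn := hB.1.1
  have hBc := hB.1.2
  by_cases hdom : ∀ x ∈ Rg ρ B, ∀ y ∈ Rg ρ B, x * y = 0 → x = 0 ∨ y = 0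
  · exact field_case (hmono _ (by omega)) ρ hinj B hBn hBc
      (fun B' h1 h2 h3 => le_antisymm (hB.2 ⟨h1, h2⟩ h3) h3) hdom
  obtain ⟨ι, hιf, hact, U, hι2, htr, hU, hsup, hprod, hUirr⟩ :=
    Pool.Agent.Y931.CT.clif Γ W ρ hirr B hBn hBc hdom
  have hft := Fintype.ofFinite ι
  have hne : Nonempty ι := (Nat.card_pos_iff.1 (by omega : 0 < Nat.card ι)).1
  rw [finprod_eq_prod_of_fintype] at hprod
  -- all blocks have the same order
  have hρinj : ∀ g : Γ, Function.Injective (ρ g) := by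
    intro g a b hab
    have h1 : ρ g⁻¹ (ρ g a) = ρ g⁻¹ (ρ g b) := by rw [hab]
    have h2 : ∀ x : W, ρ g⁻¹ (ρ g x) = x := by
      intro x
      have : (ρ g⁻¹ * ρ g) x = x := by rw [← map_mul, inv_mul_cancel, map_one]; rfl
      exact this
    rwa [h2, h2] at h1
  have hle : ∀ (g : Γ) (i : ι), Nat.card (U i) ≤ Nat.card (U (g • i)) := by
    intro g i
    refine Nat.card_le_card_of_injective (fun w : U i => (⟨ρ g w, hU g i w w.2⟩ : U (g • i))) ?_
    intro a b hab
    exact Subtype.ext (hρinj g (congrArg Subtype.val hab))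
  have heq : ∀ i j : ι, Nat.card (U i) = Nat.card (U j) := by
    intro i j
    obtain ⟨g, rfl⟩ := MulAction.exists_smul_eq Γ i j
    refine le_antisymm (hle g i) ?_
    have h1 := hle g⁻¹ (g • i)
    rwa [inv_smul_smul] at h1
  obtain ⟨i₀⟩ := hne
  have hprod' : Nat.card (U i₀) ^ Nat.card ι = Nat.card W := by
    have e : Nat.card ι = Fintype.card ι := Nat.card_eq_fintype_card
    rw [← hprod, Finset.prod_congr rfl (fun i _ => heq i i₀), Finset.prod_const, Finset.card_univ,
      e]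
  have hU2 : ∀ i, 2 ≤ Nat.card (U i) := by
    intro i
    rw [heq i i₀]
    by_contra hcon
    have h1 : Nat.card (U i₀) = 1 := by
      have : 0 < Nat.card (U i₀) := Nat.card_pos
      omega
    rw [h1, one_pow] at hprod'
    omega
  have hUlt : ∀ i, Nat.card (U i) < Nat.card W := by
    intro i
    rw [heq i i₀, ← hprod']
    have h1 := hU2 i₀
    calc Nat.card (U i₀) = Nat.card (U i₀) ^ 1 := (pow_one _).symm
      _ < Nat.card (U i₀) ^ Nat.card ι := Nat.pow_lt_pow_right (by omega) (by omega)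
  have hιm : Nat.card ι ≤ m := by
    have h1 : Nat.card ι < 2 ^ Nat.card ι := Nat.lt_two_pow_self
    have h2 : 2 ^ Nat.card ι ≤ Nat.card W := by
      rw [← hprod']
      exact Nat.pow_le_pow_left (hU2 i₀) _
    omega
  -- the action on a block
  have hblock : ∀ i, (3 * Nat.card (MulAction.stabilizer Γ i ⧸ (rb ρ hU i).ker)) ^ 5 ≤
      Nat.card (U i) ^ 12 := by
    intro i
    have hnt : Nontrivial (U i) := Finite.one_lt_card_iff_nontrivial.1 (by
      have := hU2 i
      omega)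
    exact hLB (MulAction.stabilizer Γ i ⧸ (rb ρ hU i).ker) (U i)
      (rk ρ hU i) (rk_inj ρ hU i) (irr_rk ρ hU i (hUirr i)) (by
        have := hUlt i
        omega)
  -- the kernel of the permutation action
  set L := (MulAction.toPermHom Γ ι).ker with hL
  have hLmem : ∀ l : L, ∀ i : ι, (l : Γ) ∈ MulAction.stabilizer Γ i := by
    intro l i
    have h1 := MonoidHom.mem_ker.1 l.2
    have h2 := congrArg (fun e : Equiv.Perm ι => e i) h1
    exact h2
  have hLcard : (3 ^ Nat.card ι * Nat.card L) ^ 5 ≤ Nat.card W ^ 12 := by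
    have h1 : Nat.card L ≤ Nat.card (∀ i : ι, MulAction.stabilizer Γ i ⧸ (rb ρ hU i).ker) := by
      refine Nat.card_le_card_of_injective (fun l i =>
        (QuotientGroup.mk (⟨(l : Γ), hLmem l i⟩ : MulAction.stabilizer Γ i) :
          MulAction.stabilizer Γ i ⧸ (rb ρ hU i).ker)) ?_
      intro a b hab
      apply Subtype.ext
      apply hinj
      have h2 : ∀ i, ∀ w ∈ U i, ρ (a : Γ) w = ρ (b : Γ) w := fun i w hw =>
        eq_of_mk ρ hU i a b (hLmem a i) (hLmem b i) (congrFun hab i) w hw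
      have h6 : (⨆ i, U i) ≤ AddMonoidHom.eqLocus (ρ (a : Γ) : W →+ W) (ρ (b : Γ) : W →+ W) :=
        iSup_le (fun i w hw => h2 i w hw)
      rw [hsup] at h6
      ext w
      exact h6 (AddSubgroup.mem_top w)
    rw [Nat.card_pi] at h1
    calc (3 ^ Nat.card ι * Nat.card L) ^ 5 ≤
        (3 ^ Nat.card ι * ∏ i, Nat.card (MulAction.stabilizer Γ i ⧸ (rb ρ hU i).ker)) ^ 5 :=
          Nat.pow_le_pow_left (Nat.mul_le_mul_left _ h1) 5
      _ = ∏ i : ι, (3 * Nat.card (MulAction.stabilizer Γ i ⧸ (rb ρ hU i).ker)) ^ 5 := by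
          have e : Nat.card ι = Fintype.card ι := Nat.card_eq_fintype_card
          rw [Finset.prod_pow, Finset.prod_mul_distrib, Finset.prod_const, Finset.card_univ, e]
      _ ≤ ∏ i : ι, Nat.card (U i) ^ 12 := Finset.prod_le_prod' (fun i _ => hblock i)
      _ = Nat.card W ^ 12 := by rw [Finset.prod_pow, hprod]
  have hTop : Nat.card (Γ ⧸ L) ≤ 3 ^ (Nat.card ι - 1) := by
    let act : MulAction (Γ ⧸ L) ι :=
      MulAction.compHom ι (QuotientGroup.kerLift (MulAction.toPermHom Γ ι))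
    have hfaith : FaithfulSMul (Γ ⧸ L) ι := by
      constructor
      intro a b hab
      apply QuotientGroup.kerLift_injective (MulAction.toPermHom Γ ι)
      ext i
      exact hab i
    have : Nonempty ι := ⟨i₀⟩
    exact hD (Γ ⧸ L) ι hιm
  have hcard : Nat.card Γ = Nat.card (Γ ⧸ L) * Nat.card L :=
    Subgroup.card_eq_card_quotient_mul_card_subgroup L
  refine le_trans (Nat.pow_le_pow_left ?_ 5) hLcard
  calc 3 * Nat.card Γ = 3 * Nat.card (Γ ⧸ L) * Nat.card L := by rw [hcard]; ring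
    _ ≤ 3 * 3 ^ (Nat.card ι - 1) * Nat.card L :=
        Nat.mul_le_mul_right _ (Nat.mul_le_mul_left _ hTop)
    _ = 3 ^ Nat.card ι * Nat.card L := by
        rw [← pow_succ']
        congr 2
        omega

/-- irreducible solvable linear groups: `(3 |Γ|) ^ 5 ≤ |W| ^ 12` -/
theorem lb_all (m : ℕ) : LB.{u} m := by
  induction m with
  | zero =>
    intro Γ _ _ _ W _ _ _ ρ _ _ h
    have : 2 ≤ Nat.card W := Finite.one_lt_card
    omega
  | succ m ih => exact lb_step ih

/-- the subgroup stabilizing a chief series of a self-centralizing normal subgroup -/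
theorem self_centralizing {G : Type u} [Group G] [Finite G] [Group.IsSolvable G]
    (M : Subgroup G) (hM : M.Normal) (hC : ∀ x, (∀ y ∈ M, x * y = y * x) → x ∈ M) :
    ∃ D : Subgroup G, D.Normal ∧ Nat.card G ^ 5 ≤ Nat.card D ^ 5 * Nat.card M ^ 12 ∧
      ∀ d ∈ D, ∃ k, d ^ (Nat.card M ^ k) = 1 := by
  classical
  have hstart : (⊥ : Subgroup G) ∈ {N : Subgroup G | N.Normal ∧ N ≤ M ∧ ∃ D : Subgroup G,
      D.Normal ∧ Nat.card G ^ 5 ≤ Nat.card D ^ 5 * Nat.card N ^ 12 ∧
      ∀ d ∈ D, ∃ k, ∀ y ∈ N, d ^ (Nat.card M ^ k) * y = y * d ^ (Nat.card M ^ k)} := by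
    refine ⟨inferInstance, bot_le, ⊤, inferInstance, ?_, ?_⟩
    · rw [Subgroup.card_top, Subgroup.card_bot]
      simp
    · intro d _
      refine ⟨0, ?_⟩
      intro y hy
      rw [mem_bot] at hy
      rw [hy]; simp
  obtain ⟨N, hN⟩ := (Set.toFinite {N : Subgroup G | N.Normal ∧ N ≤ M ∧ ∃ D : Subgroup G,
      D.Normal ∧ Nat.card G ^ 5 ≤ Nat.card D ^ 5 * Nat.card N ^ 12 ∧
      ∀ d ∈ D, ∃ k, ∀ y ∈ N, d ^ (Nat.card M ^ k) * y = y * d ^ (Nat.card M ^ k)}).exists_maximal
      ⟨⊥, hstart⟩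
  obtain ⟨hNn, hNM, D, hDn, hDc, hDk⟩ := hN.prop
  have hNeq : N = M := by
    by_contra hne
    obtain ⟨N', hN'n, hNN', hN'M, hmin, hcomm⟩ := exists_min N M hNn hM
      (lt_of_le_of_ne hNM hne)
    have hcb := chief_bound (lb_all (Nat.card N')) N N' hNn hN'n hNN' hmin hcomm
      (Nat.le_mul_of_pos_right _ Nat.card_pos)
    have hcb' : Nat.card G ^ 5 * Nat.card N ^ 12 ≤
        Nat.card (CE N N' hN'n) ^ 5 * Nat.card N' ^ 12 := by
      refine le_trans ?_ hcb
      refine Nat.mul_le_mul_right _ (Nat.pow_le_pow_left ?_ 5)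
      omega
    have hCEn := CE_normal N N' hNn hN'n
    have hmem : N' ∈ {N : Subgroup G | N.Normal ∧ N ≤ M ∧ ∃ D : Subgroup G,
      D.Normal ∧ Nat.card G ^ 5 ≤ Nat.card D ^ 5 * Nat.card N ^ 12 ∧
      ∀ d ∈ D, ∃ k, ∀ y ∈ N, d ^ (Nat.card M ^ k) * y = y * d ^ (Nat.card M ^ k)} := by
      refine ⟨hN'n, hN'M, D ⊓ CE N N' hN'n, inferInstance, ?_, ?_⟩
      · have h1 := card_inf_mul D (CE N N' hN'n)
        have hpos : 0 < Nat.card G ^ 5 * Nat.card N ^ 12 := by
          have h1 : 0 < Nat.card G := Nat.card_pos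
          have h2 : 0 < Nat.card N := Nat.card_pos
          positivity
        refine Nat.le_of_mul_le_mul_right ?_ hpos
        calc Nat.card G ^ 5 * (Nat.card G ^ 5 * Nat.card N ^ 12)
            ≤ (Nat.card D ^ 5 * Nat.card N ^ 12) *
              (Nat.card (CE N N' hN'n) ^ 5 * Nat.card N' ^ 12) := Nat.mul_le_mul hDc hcb'
          _ = (Nat.card D * Nat.card (CE N N' hN'n)) ^ 5 * (Nat.card N ^ 12 * Nat.card N' ^ 12) := by
              ring
          _ ≤ (Nat.card (D ⊓ CE N N' hN'n : Subgroup G) * Nat.card G) ^ 5 *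
              (Nat.card N ^ 12 * Nat.card N' ^ 12) :=
              Nat.mul_le_mul_right _ (Nat.pow_le_pow_left h1 5)
          _ = _ := by ring
      · rintro d ⟨hd1, hd2⟩
        obtain ⟨k, hk⟩ := hDk d hd1
        refine ⟨k + 1, ?_⟩
        intro y hy
        have he : d ^ (Nat.card M ^ k) ∈ CE N N' hN'n := Subgroup.pow_mem _ hd2 _
        rw [pow_succ, pow_mul]
        generalize hdd : d ^ (Nat.card M ^ k) = e at hk he
        have hz := he y hy
        have hzM : e * y * e⁻¹ * y⁻¹ ∈ M := hNM hz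
        have hze := hk _ hz
        generalize hzz : e * y * e⁻¹ * y⁻¹ = z at hz hze hzM
        have hey : e * y = z * (y * e) := by rw [← hzz]; group
        have hpow : ∀ n : ℕ, e ^ n * y = z ^ n * (y * e ^ n) := by
          intro n
          induction n with
          | zero => simp
          | succ n ih =>
            have hc : Commute e z := hze
            calc e ^ (n + 1) * y = e * (e ^ n * y) := by rw [pow_succ', mul_assoc]
              _ = e * (z ^ n * (y * e ^ n)) := by rw [ih]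
              _ = (e * z ^ n) * y * e ^ n := by simp only [mul_assoc]
              _ = (z ^ n * e) * y * e ^ n := by rw [(hc.pow_right n).eq]
              _ = z ^ n * (e * y) * e ^ n := by simp only [mul_assoc]
              _ = z ^ n * (z * (y * e)) * e ^ n := by rw [hey]
              _ = (z ^ n * z) * (y * (e * e ^ n)) := by simp only [mul_assoc]
              _ = _ := by rw [← pow_succ, ← pow_succ']
        have hzc : z ^ Nat.card M = 1 := by
          have h1 : orderOf z ∣ Nat.card M := Subgroup.orderOf_dvd_natCard M hzM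
          exact orderOf_dvd_iff_pow_eq_one.1 h1
        rw [hpow, hzc, one_mul]
    exact hNN'.not_ge (hN.le_of_ge hmem hNN'.le)
  subst hNeq
  refine ⟨D, hDn, hDc, ?_⟩
  intro d hd
  obtain ⟨k, hk⟩ := hDk d hd
  refine ⟨k + 1, ?_⟩
  have h1 : d ^ (Nat.card N ^ k) ∈ N := hC _ hk
  rw [pow_succ, pow_mul]
  have h2 : orderOf (d ^ (Nat.card N ^ k)) ∣ Nat.card N := Subgroup.orderOf_dvd_natCard N h1
  exact orderOf_dvd_iff_pow_eq_one.1 h2

end Pool.Agent.R683.Ord
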