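import Pool.Agent.R683.PrimS

/-!
# The `p`-length of primitive solvable permutation groups
-/

set_option autoImplicit false

namespace Pool.Agent.R683.Prim

open Pool.Agent.Helper407.PL Pool.Agent.R683.Q Pool.Agent.R683.Crit Pool.Agent.R683.Rec
  Pool.Agent.R683.Ord Subgroup

universe u

variable {p : ℕ} [hp : Fact p.Prime]

/-- the lower bound for the order, with an arbitrary base -/
theorem order_bound_gen (m : ℕ) (B : ℝ)
    (hbase : ∀ (G : Type u) [Group G] [Finite G] [Group.IsSolvable G],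
      (∀ X : Subgroup G, Inv ⊤ X → PF' p ⊥ X → X = ⊥) → ¬ RLp p m (⊥ : Subgroup G) ⊤ →
      B ≤ Real.logb 2 (Nat.card G)) (n : ℕ) :
    ∀ (G : Type u) [Group G] [Finite G] [Group.IsSolvable G],
    (∀ X : Subgroup G, Inv ⊤ X → PF' p ⊥ X → X = ⊥) → ¬ RLp p (m + n) (⊥ : Subgroup G) ⊤ →
    (289 / 144 : ℝ) ^ n * B ≤ Real.logb 2 (Nat.card G) := by
  induction n with
  | zero =>
    intro G _ _ _ h1 hn
    rw [pow_zero, one_mul]
    exact hbase G h1 hn
  | succ n ih =>
    intro G _ _ _ hO hn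
    obtain ⟨P, hPn, hPp, hPmax⟩ := exists_op (p := p) (G := G)
    have hCP := HH2 (p := p) ps_of_solvable P (inv_top hPn) hPp hPmax hO
    have h1 := step_p P hPn hPp hPmax hCP
    obtain ⟨K, hKn, hKp, hKmax⟩ := exists_opp (p := p) (G := G ⧸ P)
    have hCK := HH1 (p := p) (ps_of_solvable (G := G ⧸ P)) K (inv_top hKn) hKp hKmax
      (quot_op hPp hPmax)
    have h2 := step_p' K hKn hKp hKmax hCK
    have h3 := not_rlp_quot_p' (K := K) hKp (not_rlp_quot_p (K := P) hPp hn)
    have h4 := ih ((G ⧸ P) ⧸ K) (quot_opp hKp hKmax) h3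
    have h5 := log_step Nat.card_pos Nat.card_pos h1
    have h6 := log_step Nat.card_pos Nat.card_pos h2
    have h7 : (289 / 144 : ℝ) ^ (n + 1) * B = 17 / 12 * (17 / 12 * ((289 / 144 : ℝ) ^ n * B)) := by
      rw [pow_succ]; ring
    rw [h7]
    linarith

/-- an element of order `p` outside a `p'`-subgroup -/
lemma exists_order_p {G : Type u} [Group G] [Finite G] (h : ¬ RLp p 0 (⊥ : Subgroup G) ⊤) :
    ∃ y : G, orderOf y = p := by
  apply exists_prime_orderOf_dvd_card' (G := G) p
  by_contra hcon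
  apply h
  refine RLp.of_PF' 0 ?_ le_top (Inv.bot _)
  intro x _
  refine ⟨Nat.card G, ?_, ?_⟩
  · rw [Nat.coprime_comm]
    exact (Nat.Prime.coprime_iff_not_dvd hp.out).2 hcon
  · rw [Subgroup.mem_bot]
    exact pow_card_eq_one'

/-- groups of `p`-length at least two -/
theorem base_two {R : Type u} [Group R] [Finite R] [Group.IsSolvable R]
    (hO : ∀ X : Subgroup R, Inv ⊤ X → PF' p ⊥ X → X = ⊥) (hn : ¬ RLp p 1 (⊥ : Subgroup R) ⊤) :
    p ^ 4 ≤ Nat.card R := by
  obtain ⟨P, hPn, hPp, hPmax⟩ := exists_op (p := p) (G := R)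
  have hCP := HH2 (p := p) ps_of_solvable P (inv_top hPn) hPp hPmax hO
  have hnY := not_rlp_quot_p (K := P) (n := 0) hPp hn
  obtain ⟨K, hKn, hKp, hKmax⟩ := exists_opp (p := p) (G := R ⧸ P)
  have hCK := HH1 (p := p) (ps_of_solvable (G := R ⧸ P)) K (inv_top hKn) hKp hKmax
    (quot_op hPp hPmax)
  obtain ⟨y, hy⟩ := exists_order_p hnY
  have hyp : y ^ (p ^ 1) = 1 := by
    rw [pow_one, ← hy]; exact pow_orderOf_eq_one y
  -- y is not in K
  have hyK : y ∉ K := by
    intro h
    have hz : PF p ⊥ (Subgroup.zpowers y) := by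
      intro z hz
      refine ⟨1, ?_⟩
      rw [Subgroup.mem_bot, pow_one]
      obtain ⟨i, rfl⟩ := hz
      show (y ^ i) ^ p = 1
      rw [← zpow_natCast, ← zpow_mul, mul_comm, zpow_mul, zpow_natCast, ← pow_one p, hyp,
        one_zpow]
    have h1 : y = 1 := bot_of_both hz hKp (Subgroup.mem_zpowers y) h
    rw [h1, orderOf_one] at hy
    exact hp.out.one_lt.ne hy
  have hKcard : p + 1 ≤ Nat.card K := by
    by_contra hcon
    apply hyK
    apply hCK
    exact cent_of_card_le K hKn (by omega) y 1 hyp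
  have hYcard : p * (p + 1) ≤ Nat.card (R ⧸ P) := by
    have h1 := Subgroup.card_eq_card_quotient_mul_card_subgroup K
    have h2 : p ≤ Nat.card ((R ⧸ P) ⧸ K) := by
      have h3 : orderOf (QuotientGroup.mk y : (R ⧸ P) ⧸ K) = p := by
        apply orderOf_eq_prime
        · have h4 : (QuotientGroup.mk y : (R ⧸ P) ⧸ K) ^ p =
              QuotientGroup.mk (y ^ p) := (QuotientGroup.mk_pow K y p).symm
          rw [h4, ← pow_one p, hyp]
          rfl
        · intro h4
          exact hyK ((QuotientGroup.eq_one_iff y).1 h4)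
      rw [← h3]
      exact Nat.le_of_dvd Nat.card_pos (orderOf_dvd_natCard _)
    rw [h1]
    exact Nat.mul_le_mul h2 hKcard
  -- the order of P
  have hPcard : p ^ 2 ≤ Nat.card P := by
    obtain ⟨g, rfl⟩ := QuotientGroup.mk_surjective y
    have hgP : g ^ p ∈ P := by
      rw [pow_one] at hyp
      rw [← QuotientGroup.eq_one_iff, QuotientGroup.mk_pow]
      exact hyp
    obtain ⟨k, hk⟩ := hPp _ hgP
    rw [Subgroup.mem_bot, ← pow_mul] at hk
    have hg : g ^ (p ^ (k + 1)) = 1 := by
      rw [pow_succ, mul_comm]; exact hk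
    have hgnP : g ∉ P := by
      intro h
      apply hyK
      rw [(QuotientGroup.eq_one_iff g).2 h]
      exact K.one_mem
    obtain ⟨a, ha⟩ := IsPGroup.iff_card.1 (PF_bot_iff.1 hPp)
    have h1 : p < Nat.card P := by
      by_contra hcon
      apply hgnP
      apply hCP
      exact cent_of_card_le P hPn (by omega) g (k + 1) hg
    rw [ha] at h1 ⊢
    apply Nat.pow_le_pow_right hp.out.pos
    by_contra hcon
    have : a ≤ 1 := by omega
    have h2 : p ^ a ≤ p ^ 1 := Nat.pow_le_pow_right hp.out.pos this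
    rw [pow_one] at h2
    omega
  have h1 := Subgroup.card_eq_card_quotient_mul_card_subgroup P
  rw [h1]
  calc p ^ 4 = (p * p) * p ^ 2 := by ring
    _ ≤ (p * (p + 1)) * p ^ 2 := Nat.mul_le_mul_right _ (Nat.mul_le_mul_left _ (by omega))
    _ ≤ _ := Nat.mul_le_mul hYcard hPcard

theorem base_two_log {R : Type u} [Group R] [Finite R] [Group.IsSolvable R]
    (hO : ∀ X : Subgroup R, Inv ⊤ X → PF' p ⊥ X → X = ⊥) (hn : ¬ RLp p 1 (⊥ : Subgroup R) ⊤) :
    4 * Real.logb 2 p ≤ Real.logb 2 (Nat.card R) := by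
  have h1 := base_two hO hn
  have h2 : (p : ℝ) ^ 4 ≤ Nat.card R := by exact_mod_cast h1
  have hp0 : (0 : ℝ) < p := by exact_mod_cast hp.out.pos
  have h3 := Real.logb_le_logb_of_le (b := 2) (by norm_num) (by positivity) h2
  rw [Real.logb_pow] at h3
  push_cast at h3
  exact h3

/-- `p`-subgroups of permutation groups of degree smaller than `p²` are abelian -/
lemma comm_of_small {S : Type u} [Group S] [Finite S] (hS : IsPGroup p S) (X : Type u) [Finite X]
    [MulAction S X] [FaithfulSMul S X] (hX : Nat.card X < p ^ 2) (s t : S) : s * t = t * s := by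
  have key : ∀ x : X, s * t * s⁻¹ * t⁻¹ ∈ MulAction.stabilizer S x := by
    intro x
    obtain ⟨k, hk⟩ := hS.index (MulAction.stabilizer S x)
    have h1 : (MulAction.stabilizer S x).index < p ^ 2 := by
      rw [MulAction.index_stabilizer]
      exact (Set.ncard_le_card _).trans_lt hX
    rw [hk] at h1
    have hk2 : k < 2 := (Nat.pow_lt_pow_iff_right hp.out.one_lt).1 h1
    rcases Nat.lt_or_ge k 1 with h0 | h0
    · have : k = 0 := by omega
      rw [this, pow_zero, Subgroup.index_eq_one] at hk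
      rw [hk]
      exact Subgroup.mem_top _
    · have hk1 : k = 1 := by omega
      rw [hk1, pow_one] at hk
      have hnt : Nontrivial S := by
        by_contra hcon
        rw [not_nontrivial_iff_subsingleton] at hcon
        have h2 : (MulAction.stabilizer S x) = ⊤ := Subsingleton.elim _ _
        rw [h2, Subgroup.index_top] at hk
        exact hp.out.one_lt.ne hk
      obtain ⟨m, hm0, hm⟩ := hS.nontrivial_iff_card.1 hnt
      have hn : (MulAction.stabilizer S x).Normal := by
        apply Subgroup.normal_of_index_eq_minFac_card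
        rw [hk, hm, Nat.Prime.pow_minFac hp.out hm0.ne']
      have hc : Nat.card (S ⧸ MulAction.stabilizer S x) = p := hk
      have hcy : IsCyclic (S ⧸ MulAction.stabilizer S x) := isCyclic_of_prime_card hc
      have hcm : ∀ a b : S ⧸ MulAction.stabilizer S x, a * b = b * a :=
        (IsCyclic.commutative (α := S ⧸ MulAction.stabilizer S x)).is_comm.comm
      rw [← QuotientGroup.eq_one_iff]
      have h3 : ((s * t * s⁻¹ * t⁻¹ : S) : S ⧸ MulAction.stabilizer S x) =
          (s : S ⧸ MulAction.stabilizer S x) * t * (s : S ⧸ MulAction.stabilizer S x)⁻¹ *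
            (t : S ⧸ MulAction.stabilizer S x)⁻¹ := rfl
      rw [h3, hcm s t]
      group
  have h1 : s * t * s⁻¹ * t⁻¹ = 1 := by
    apply FaithfulSMul.eq_of_smul_eq_smul (M := S) (α := X)
    intro x
    rw [one_smul]
    exact key x
  have h2 : s * t = (s * t * s⁻¹ * t⁻¹) * (t * s) := by group
  rw [h2, h1, one_mul]

/-- groups with abelian Sylow `p`-subgroups -/
theorem rlp_one_of_abelian {G : Type u} [Group G] [Finite G]
    (hps : ∃ N, RLp p N (⊥ : Subgroup G) ⊤)
    (hab : ∀ S : Subgroup G, IsPGroup p S → ∀ a ∈ S, ∀ b ∈ S, a * b = b * a) :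
    RLp p 1 (⊥ : Subgroup G) ⊤ := by
  obtain ⟨K, hKn, hKp, hKmax⟩ := exists_opp (p := p) (G := G)
  have hO := quot_opp hKp hKmax
  have hps' := quot_ps K hps
  obtain ⟨P, hPn, hPp, hPmax⟩ := exists_op (p := p) (G := G ⧸ K)
  have hCP := HH2 (p := p) hps' P (inv_top hPn) hPp hPmax hO
  have hsurj : Function.Surjective (QuotientGroup.mk' K) := QuotientGroup.mk'_surjective K
  obtain ⟨S₀⟩ : Nonempty (Sylow p G) := inferInstance
  -- Sylow subgroups of the quotient are abelian
  have habQ : ∀ T : Sylow p (G ⧸ K), ∀ a ∈ (T : Subgroup (G ⧸ K)), ∀ b ∈ (T : Subgroup (G ⧸ K)),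
      a * b = b * a := by
    intro T a ha b hb
    obtain ⟨g, hg⟩ := MulAction.exists_smul_eq (G ⧸ K) (S₀.mapSurjective hsurj) T
    have hmem : ∀ x ∈ (T : Subgroup (G ⧸ K)), ∃ z ∈ (S₀ : Subgroup G),
        x = g * QuotientGroup.mk' K z * g⁻¹ := by
      intro x hx
      rw [← hg, Sylow.smul_def, Sylow.pointwise_smul_def] at hx
      obtain ⟨y, hy, rfl⟩ := (Subgroup.mem_smul_pointwise_iff_exists _ _ _).1 hx
      obtain ⟨z, hz, rfl⟩ := hy
      exact ⟨z, hz, rfl⟩
    obtain ⟨z, hz, rfl⟩ := hmem a ha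
    obtain ⟨w, hw, rfl⟩ := hmem b hb
    have h1 := hab S₀ S₀.isPGroup' z hz w hw
    have h2 : QuotientGroup.mk' K z * QuotientGroup.mk' K w =
        QuotientGroup.mk' K w * QuotientGroup.mk' K z := by
      rw [← map_mul, ← map_mul, h1]
    calc g * QuotientGroup.mk' K z * g⁻¹ * (g * QuotientGroup.mk' K w * g⁻¹)
        = g * (QuotientGroup.mk' K z * QuotientGroup.mk' K w) * g⁻¹ := by group
      _ = g * (QuotientGroup.mk' K w * QuotientGroup.mk' K z) * g⁻¹ := by rw [h2]
      _ = _ := by group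
  have hPtop : PF' p P ⊤ := by
    intro g _
    obtain ⟨k, m, hm, hkm⟩ := Nat.exists_eq_pow_mul_and_not_dvd
      (n := orderOf g) (isOfFinOrder_of_finite g).orderOf_pos.ne' p hp.out.ne_one
    refine ⟨m, ?_, ?_⟩
    · rw [Nat.coprime_comm]
      exact (Nat.Prime.coprime_iff_not_dvd hp.out).2 hm
    · have hx : (g ^ m) ^ (p ^ k) = 1 := by
        rw [← pow_mul, mul_comm, ← hkm, pow_orderOf_eq_one]
      have hz : IsPGroup p (Subgroup.zpowers (g ^ m)) := by
        rintro ⟨z, hz⟩
        refine ⟨k, Subtype.ext ?_⟩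
        obtain ⟨i, rfl⟩ := hz
        show ((g ^ m) ^ i) ^ (p ^ k) = 1
        rw [← zpow_natCast, ← zpow_mul, mul_comm, zpow_mul, zpow_natCast, hx, one_zpow]
      obtain ⟨T, hT⟩ := hz.exists_le_sylow
      have hPT : P ≤ T := (PF_bot_iff.1 hPp).le_sylow_of_normal T
      apply hCP
      intro y hy
      exact habQ T _ (hT (Subgroup.mem_zpowers _)) y (hPT hy)
  have h1 : RLp p 0 (⊥ : Subgroup G) K := RLp.of_PF' 0 hKp bot_le (Inv.bot _)
  have h2 : RLp p 1 (⊥ : Subgroup (G ⧸ K)) ⊤ := by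
    have h3 : RLp p 1 (⊥ : Subgroup (G ⧸ K)) P := RLp.of_PF hPp bot_le (Inv.bot _)
    have h4 : RLp p 0 P ⊤ := RLp.of_PF' 0 hPtop le_top (inv_top hPn)
    exact h3.trans h4 (Inv.bot _)
  have h3 := h1.trans (rlp_quot K h2) (Inv.bot _)
  rwa [Nat.zero_add] at h3

lemma num1 (l : ℕ) : 12 * ((l : ℝ) + 2) < 85 / 3 * (289 / 144) ^ l := by
  induction l with
  | zero => norm_num
  | succ l ih =>
    have h1 : (85 / 3 : ℝ) * (289 / 144) ^ (l + 1) = 289 / 144 * (85 / 3 * (289 / 144) ^ l) := by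
      rw [pow_succ]; ring
    have hl : (0 : ℝ) ≤ l := Nat.cast_nonneg l
    rw [h1]
    push_cast
    nlinarith

lemma num2 (l : ℕ) : 12 * ((l : ℝ) + 3) < 20 * (289 / 144) ^ (l + 1) := by
  induction l with
  | zero => norm_num
  | succ l ih =>
    have h1 : (20 : ℝ) * (289 / 144) ^ (l + 1 + 1) = 289 / 144 * (20 * (289 / 144) ^ (l + 1)) := by
      rw [pow_succ _ (l + 1)]; ring
    have hl : (0 : ℝ) ≤ l := Nat.cast_nonneg l
    rw [h1]
    push_cast
    nlinarith

/-- the `p`-length of primitive solvable groups -/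
theorem prim_p {Q : Type u} [Group Q] [Finite Q] [Group.IsSolvable Q]
    (M : Subgroup Q) (hM : IsCoatom M) (hcore : M.normalCore = ⊥) :
    RLp p (Nat.log p M.index) (⊥ : Subgroup Q) ⊤ := by
  classical
  obtain ⟨V, hVn, hV0, hVab, hCV, hVidx, hmin, hbd⟩ := prim_struct M hM hcore
  obtain ⟨r, d, hr, hd0, hVrd, hVr⟩ := min_prime V hVn hV0 hVab hmin
  by_contra hnot
  obtain ⟨n, hn⟩ : ∃ n, n = Nat.log p M.index := ⟨_, rfl⟩
  rw [← hn] at hnot
  have hb0 : M.index ≠ 0 := Subgroup.index_ne_zero_of_finite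
  have hblt : Nat.card V < p ^ (n + 1) := by
    rw [hVidx, hn]
    exact Nat.lt_pow_succ_log_self hp.out.one_lt _
  rcases Nat.lt_or_ge n 1 with hn0 | hn0
  · -- degree smaller than p
    have hn0' : n = 0 := by omega
    rw [hn0'] at hnot hblt
    rw [Nat.zero_add, pow_one] at hblt
    obtain ⟨y, hy⟩ := exists_order_p hnot
    have hyp : y ^ (p ^ 1) = 1 := by
      rw [pow_one, ← hy]; exact pow_orderOf_eq_one y
    have hyV : y ∈ V := hCV y (cent_of_card_le V hVn hblt.le y 1 hyp)
    have h1 : orderOf y ∣ Nat.card V := Subgroup.orderOf_dvd_natCard V hyV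
    rw [hy] at h1
    have := Nat.le_of_dvd Nat.card_pos h1
    omega
  rcases Nat.lt_or_ge n 2 with hn1 | hn1
  · -- degree smaller than p²
    have hn1' : n = 1 := by omega
    rw [hn1'] at hnot hblt
    apply hnot
    apply rlp_one_of_abelian ps_of_solvable
    intro S hS a ha b hb
    let _ : MulAction S (Q ⧸ M) := inferInstance
    have hf : FaithfulSMul S (Q ⧸ M) := by
      constructor
      intro s t hst
      have h1 : ((t⁻¹ * s : S) : Q) ∈ M.normalCore := by
        rw [Subgroup.normalCore_eq_ker, MonoidHom.mem_ker]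
        ext x
        show ((t⁻¹ * s : S) : Q) • x = x
        have h2 := hst x
        have h3 : (s : Q) • x = (t : Q) • x := h2
        rw [Subgroup.coe_mul, mul_smul, h3, ← mul_smul, Subgroup.coe_inv, inv_mul_cancel, one_smul]
      rw [hcore, Subgroup.mem_bot] at h1
      have h2 : t⁻¹ * s = 1 := Subtype.ext h1
      exact (inv_mul_eq_one.1 h2).symm
    have h1 := comm_of_small hS (Q ⧸ M) (by
      have h2 : Nat.card (Q ⧸ M) = M.index := rfl
      rw [h2, ← hVidx]
      exact hblt) ⟨a, ha⟩ ⟨b, hb⟩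
    exact congrArg Subtype.val h1
  · -- large degree
    obtain ⟨l, hl⟩ := Nat.exists_eq_add_of_le hn1
    have hnl : n = l + 2 := by omega
    have hp1 : (1 : ℝ) < p := by exact_mod_cast hp.out.one_lt
    have hlogp : 0 < Real.logb 2 p := Real.logb_pos (by norm_num) hp1
    have hY : 5 * Real.logb 2 (Nat.card (Q ⧸ V)) ≤ 12 * Real.logb 2 (Nat.card V) := by
      have h1 : (Nat.card (Q ⧸ V)) ^ 5 ≤ Nat.card V ^ 12 :=
        le_trans (Nat.pow_le_pow_left (by omega) 5) hbd
      have h2 : ((Nat.card (Q ⧸ V) : ℝ)) ^ 5 ≤ (Nat.card V : ℝ) ^ 12 := by exact_mod_cast h1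
      have h0 : (0 : ℝ) < Nat.card (Q ⧸ V) := by exact_mod_cast Nat.card_pos
      have h3 := Real.logb_le_logb_of_le (b := 2) (by norm_num) (by positivity) h2
      rw [Real.logb_pow, Real.logb_pow] at h3
      push_cast at h3
      exact h3
    have hV0' : (0 : ℝ) < Nat.card V := by exact_mod_cast Nat.card_pos
    by_cases hrp : r = p
    · -- the socle is a p-group
      rw [hrp] at hVrd hVr
      have hdn : d ≤ n := by
        rw [hVrd] at hblt
        have := (Nat.pow_lt_pow_iff_right hp.out.one_lt).1 hblt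
        omega
      have hlogV : Real.logb 2 (Nat.card V) ≤ ((l : ℝ) + 2) * Real.logb 2 p := by
        rw [hVrd]
        push_cast
        rw [Real.logb_pow]
        have h1 : (d : ℝ) ≤ (l : ℝ) + 2 := by
          have : d ≤ l + 2 := by omega
          exact_mod_cast this
        exact mul_le_mul_of_nonneg_right h1 hlogp.le
      have hOY := op_trivial V hV0 hCV hmin hVr
      have hnY : ¬ RLp p (l + 1) (⊥ : Subgroup (Q ⧸ V)) ⊤ := by
        refine not_rlp_quot_p (K := V) hVr ?_
        rw [← show n = l + 1 + 1 by omega]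
        exact hnot
      obtain ⟨K, hKn, hKp, hKmax⟩ := exists_opp (p := p) (G := Q ⧸ V)
      have hCK := HH1 (p := p) (ps_of_solvable (G := Q ⧸ V)) K (inv_top hKn) hKp hKmax hOY
      have h2 := step_p' K hKn hKp hKmax hCK
      have h3 := not_rlp_quot_p' (K := K) hKp hnY
      rw [Nat.add_comm] at h3
      have h4 := order_bound_gen (p := p) 1 _ (fun G _ _ _ h1 h2 => base_two_log h1 h2) l
        ((Q ⧸ V) ⧸ K) (quot_opp hKp hKmax) h3
      have h6 := log_step Nat.card_pos Nat.card_pos h2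
      have h7 : 85 / 3 * (289 / 144 : ℝ) ^ l * Real.logb 2 p ≤
          12 * ((l : ℝ) + 2) * Real.logb 2 p := by
        have h8 : 85 / 3 * (289 / 144 : ℝ) ^ l * Real.logb 2 p =
            5 * (17 / 12 * ((289 / 144 : ℝ) ^ l * (4 * Real.logb 2 p))) := by ring
        rw [h8]
        nlinarith
      have h8 := le_of_mul_le_mul_right h7 hlogp
      linarith [num1 l]
    · -- the socle is a p'-group
      have hVp' : PF' p ⊥ V := by
        rw [PF'_bot_iff, hVrd]
        exact Nat.Coprime.pow_left d ((Nat.coprime_primes hr hp.out).2 hrp)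
      have hnY : ¬ RLp p (l + 2) (⊥ : Subgroup (Q ⧸ V)) ⊤ := by
        refine not_rlp_quot_p' (K := V) hVp' ?_
        rw [← hnl]
        exact hnot
      have hlogV : Real.logb 2 (Nat.card V) ≤ ((l : ℝ) + 3) * Real.logb 2 p := by
        have h1 : (Nat.card V : ℝ) ≤ (p : ℝ) ^ (l + 3) := by
          have : Nat.card V ≤ p ^ (l + 3) := by
            rw [show l + 3 = n + 1 by omega]
            exact hblt.le
          exact_mod_cast this
        have h2 := Real.logb_le_logb_of_le (b := 2) (by norm_num) hV0' h1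
        rw [Real.logb_pow] at h2
        push_cast at h2
        exact h2
      obtain ⟨K, hKn, hKp, hKmax⟩ := exists_opp (p := p) (G := Q ⧸ V)
      have h3 := not_rlp_quot_p' (K := K) hKp hnY
      rw [show l + 2 = 1 + (l + 1) by omega] at h3
      have h4 := order_bound_gen (p := p) 1 _ (fun G _ _ _ h1 h2 => base_two_log h1 h2) (l + 1)
        ((Q ⧸ V) ⧸ K) (quot_opp hKp hKmax) h3
      have h5 : Nat.card ((Q ⧸ V) ⧸ K) ≤ Nat.card (Q ⧸ V) := by
        have h1 := Subgroup.card_eq_card_quotient_mul_card_subgroup K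
        have h2 : 0 < Nat.card K := Nat.card_pos
        rw [h1]
        exact Nat.le_mul_of_pos_right _ h2
      have h50 : (0 : ℝ) < Nat.card ((Q ⧸ V) ⧸ K) := by exact_mod_cast Nat.card_pos
      have h6 : Real.logb 2 (Nat.card ((Q ⧸ V) ⧸ K)) ≤ Real.logb 2 (Nat.card (Q ⧸ V)) :=
        Real.logb_le_logb_of_le (by norm_num) h50 (by exact_mod_cast h5)
      have h7 : 20 * (289 / 144 : ℝ) ^ (l + 1) * Real.logb 2 p ≤
          12 * ((l : ℝ) + 3) * Real.logb 2 p := by
        have h8 : 20 * (289 / 144 : ℝ) ^ (l + 1) * Real.logb 2 p =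
            5 * ((289 / 144 : ℝ) ^ (l + 1) * (4 * Real.logb 2 p)) := by ring
        rw [h8]
        nlinarith
      have h8 := le_of_mul_le_mul_right h7 hlogp
      linarith [num2 l]

end Pool.Agent.R683.Prim
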