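import Pool.Agent.R683.LenPerm

/-!
# Primitive solvable permutation groups
-/

set_option autoImplicit false

namespace Pool.Agent.R683.Prim

open Pool.Agent.Helper407.PL Pool.Agent.R683.Q Pool.Agent.R683.Crit Pool.Agent.R683.Rec
  Pool.Agent.R683.Ord Pool.Agent.Y552.CT Pool.Agent.Y759.CT Subgroup

universe u

/-- the structure of a primitive solvable group -/
theorem prim_struct {Q : Type u} [Group Q] [Finite Q] [Group.IsSolvable Q]
    (M : Subgroup Q) (hM : IsCoatom M) (hcore : M.normalCore = ⊥) :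
    ∃ V : Subgroup Q, V.Normal ∧ V ≠ ⊥ ∧ (∀ a ∈ V, ∀ b ∈ V, a * b = b * a) ∧
      (∀ x, (∀ y ∈ V, x * y = y * x) → x ∈ V) ∧ Nat.card V = M.index ∧
      (∀ K : Subgroup Q, K.Normal → K ≤ V → K = ⊥ ∨ K = V) ∧
      (3 * Nat.card (Q ⧸ V)) ^ 5 ≤ Nat.card V ^ 12 := by
  classical
  have hnt : Nontrivial Q := by
    by_contra h
    rw [not_nontrivial_iff_subsingleton] at h
    exact hM.1 (Subsingleton.elim _ _)
  obtain ⟨N, hN, hN0, hNab⟩ := exists_abelian_normal Q
  have hcoreN : ∀ K : Subgroup Q, K.Normal → K ≤ M → K = ⊥ := by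
    intro K hK hKM
    have h1 : K ≤ M.normalCore := (Subgroup.normal_le_normalCore).2 hKM
    rw [hcore] at h1
    exact le_bot_iff.1 h1
  have hNM : ¬ N ≤ M := fun h => hN0 (hcoreN N hN h)
  have hsup : N ⊔ M = ⊤ := by
    rw [sup_comm]
    exact hM.2 _ (left_lt_sup.2 hNM)
  have hdec : ∀ g : Q, ∃ a ∈ N, ∃ m ∈ M, a * m = g := by
    intro g
    have h1 : g ∈ ((N ⊔ M : Subgroup Q) : Set Q) := by
      rw [hsup]
      exact Set.mem_univ g
    rw [Subgroup.normal_mul] at h1
    obtain ⟨a, ha, m, hm, h⟩ := Set.mem_mul.1 h1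
    exact ⟨a, ha, m, hm, h⟩
  have hinf : N ⊓ M = ⊥ := by
    apply hcoreN _ _ inf_le_right
    constructor
    intro z hz g
    obtain ⟨a, ha, m, hm, rfl⟩ := hdec g
    have h1 : m * z * m⁻¹ ∈ N ⊓ M :=
      ⟨hN.conj_mem z hz.1 m, M.mul_mem (M.mul_mem hm hz.2) (M.inv_mem hm)⟩
    have h2 : a * m * z * (a * m)⁻¹ = a * (m * z * m⁻¹) * a⁻¹ := by group
    rw [h2, hNab a ha _ h1.1, mul_assoc, mul_inv_cancel, mul_one]
    exact h1
  have hC : ∀ m ∈ M, (∀ a ∈ N, m * a = a * m) → m = 1 := by
    have h1 : (Subgroup.centralizer (N : Set Q) ⊓ M) = ⊥ := by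
      apply hcoreN _ _ inf_le_right
      constructor
      intro z hz g
      obtain ⟨a, ha, m, hm, rfl⟩ := hdec g
      have h1 : m * z * m⁻¹ ∈ Subgroup.centralizer (N : Set Q) ⊓ M := by
        refine Subgroup.mem_inf.2 ⟨?_, M.mul_mem (M.mul_mem hm hz.2) (M.inv_mem hm)⟩
        rw [Subgroup.mem_centralizer_iff]
        intro b hb
        have h3 := Subgroup.mem_centralizer_iff.1 hz.1 (m⁻¹ * b * m)
          (by simpa using hN.conj_mem b hb m⁻¹)
        calc b * (m * z * m⁻¹) = m * ((m⁻¹ * b * m) * z) * m⁻¹ := by group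
          _ = m * (z * (m⁻¹ * b * m)) * m⁻¹ := by rw [h3]
          _ = _ := by group
      have h2 : a * m * z * (a * m)⁻¹ = a * (m * z * m⁻¹) * a⁻¹ := by group
      rw [h2, Subgroup.mem_centralizer_iff.1 h1.1 a ha, mul_assoc, mul_inv_cancel, mul_one]
      exact h1
    intro m hm hma
    have h2 : m ∈ (Subgroup.centralizer (N : Set Q) ⊓ M) :=
      ⟨Subgroup.mem_centralizer_iff.2 fun a ha => (hma a ha).symm, hm⟩
    rw [h1] at h2
    exact h2
  have hcomp : Subgroup.IsComplement' N M := by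
    apply Subgroup.isComplement'_of_disjoint_and_mul_eq_univ
    · exact disjoint_iff.2 hinf
    · rw [← Subgroup.normal_mul, hsup]
      rfl
  have hidx : M.index = Nat.card N := hcomp.index_eq_card
  have hcard : Nat.card N * Nat.card M = Nat.card Q := hcomp.card_mul_card
  let _ : CommGroup N :=
    { (inferInstance : Group N) with
      mul_comm := fun a b => Subtype.ext (hNab a a.2 b b.2) }
  let ρ : M →* AddMonoid.End (Additive N) :=
    { toFun := fun x => MonoidHom.toAdditive
        ((MulAut.conjNormal (x : Q) : N ≃* N) : N →* N)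
      map_one' := by
        apply AddMonoidHom.ext
        intro w
        show Additive.ofMul (MulAut.conjNormal ((1 : M) : Q) (Additive.toMul w)) = w
        rw [Subgroup.coe_one, map_one]
        rfl
      map_mul' := fun x y => by
        apply AddMonoidHom.ext
        intro w
        show Additive.ofMul (MulAut.conjNormal ((x * y : M) : Q) (Additive.toMul w)) =
          Additive.ofMul (MulAut.conjNormal (x : Q) (MulAut.conjNormal (y : Q)
            (Additive.toMul w)))
        rw [Subgroup.coe_mul, map_mul]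
        rfl }
  have hρ : ∀ (x : M) (a : N), ρ x (Additive.ofMul a) =
      Additive.ofMul (MulAut.conjNormal (x : Q) a) := fun _ _ => rfl
  have hcN : ∀ g : Q, ∀ a : N, ((MulAut.conjNormal g a : N) : Q) = g * a * g⁻¹ :=
    fun g a => MulAut.conjNormal_apply g a
  have hinj : Function.Injective ρ := by
    intro x y hxy
    have h1 : ∀ a ∈ N, ((y⁻¹ * x : M) : Q) * a = a * ((y⁻¹ * x : M) : Q) := by
      intro a ha
      have h2 : ρ x (Additive.ofMul ⟨a, ha⟩) = ρ y (Additive.ofMul ⟨a, ha⟩) := by rw [hxy]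
      rw [hρ, hρ] at h2
      have h3 : (x : Q) * a * (x : Q)⁻¹ = (y : Q) * a * (y : Q)⁻¹ := by
        have h4 := congrArg (fun z : Additive N => ((Additive.toMul z : N) : Q)) h2
        simp only [toMul_ofMul, hcN] at h4
        exact h4
      rw [Subgroup.coe_mul, Subgroup.coe_inv]
      calc (y : Q)⁻¹ * x * a = (y : Q)⁻¹ * ((x : Q) * a * (x : Q)⁻¹) * x := by group
        _ = (y : Q)⁻¹ * ((y : Q) * a * (y : Q)⁻¹) * x := by rw [h3]
        _ = _ := by group
    have h2 := hC _ (y⁻¹ * x : M).2 h1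
    have h3 : y⁻¹ * x = 1 := Subtype.ext h2
    exact (inv_mul_eq_one.1 h3).symm
  have hirr : Irr ρ := by
    intro U hU
    let K : Subgroup Q :=
      { carrier := {x | ∃ h : x ∈ N, Additive.ofMul (⟨x, h⟩ : N) ∈ U}
        one_mem' := ⟨N.one_mem, U.zero_mem⟩
        mul_mem' := by
          rintro a b ⟨ha, ha'⟩ ⟨hb, hb'⟩
          exact ⟨N.mul_mem ha hb, U.add_mem ha' hb'⟩
        inv_mem' := by
          rintro a ⟨ha, ha'⟩
          exact ⟨N.inv_mem ha, U.neg_mem ha'⟩ }
    have hKN : K ≤ N := fun x hx => hx.1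
    have hK : K.Normal := by
      constructor
      intro z hz g
      obtain ⟨a, ha, m, hm, rfl⟩ := hdec g
      have h1 : m * z * m⁻¹ ∈ K := by
        obtain ⟨hzN, hzU⟩ := hz
        have h1 := hU ⟨m, hm⟩ _ hzU
        rw [hρ] at h1
        refine ⟨hN.conj_mem z hzN m, ?_⟩
        have h3 : MulAut.conjNormal m ⟨z, hzN⟩ = (⟨m * z * m⁻¹, hN.conj_mem z hzN m⟩ : N) :=
          Subtype.ext (hcN m ⟨z, hzN⟩)
        rw [← h3]
        exact h1
      have h2 : a * m * z * (a * m)⁻¹ = a * (m * z * m⁻¹) * a⁻¹ := by group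
      rw [h2, hNab a ha _ (hKN h1), mul_assoc, mul_inv_cancel, mul_one]
      exact h1
    by_cases hKM : K ≤ M
    · left
      have h1 := hcoreN K hK hKM
      rw [eq_bot_iff]
      intro w hw
      have h2 : ((Additive.toMul w : N) : Q) ∈ K := ⟨(Additive.toMul w : N).2, hw⟩
      rw [h1, Subgroup.mem_bot] at h2
      rw [AddSubgroup.mem_bot]
      have h3 : (Additive.toMul w : N) = 1 := Subtype.ext h2
      exact h3
    · right
      have hsup' : K ⊔ M = ⊤ := by
        rw [sup_comm]
        exact hM.2 _ (left_lt_sup.2 hKM)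
      rw [eq_top_iff]
      intro w _
      have h1 : ((Additive.toMul w : N) : Q) ∈ ((K ⊔ M : Subgroup Q) : Set Q) := by
        rw [hsup']
        exact Set.mem_univ _
      rw [Subgroup.normal_mul] at h1
      obtain ⟨k, hk, m, hm, h⟩ := Set.mem_mul.1 h1
      have h2 : m ∈ N ⊓ M := by
        refine ⟨?_, hm⟩
        have h3 : m = k⁻¹ * ((Additive.toMul w : N) : Q) := by rw [← h]; group
        rw [h3]
        exact N.mul_mem (N.inv_mem (hKN hk)) (Additive.toMul w : N).2
      rw [hinf, Subgroup.mem_bot] at h2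
      rw [h2, mul_one] at h
      have h3 : ((Additive.toMul w : N) : Q) ∈ K := by rw [← h]; exact hk
      obtain ⟨_, h4⟩ := h3
      exact h4
  have hntN : Nontrivial (Additive N) := by
    have : Nontrivial N := (Subgroup.nontrivial_iff_ne_bot N).2 hN0
    exact inferInstanceAs (Nontrivial (Additive N))
  have hcN' : Nat.card (Additive N) = M.index := by rw [hidx]; rfl
  have h1 := lb_all (Nat.card (Additive N)) M (Additive N) ρ hinj hirr le_rfl
  rw [hcN', hidx] at h1
  have hQV : Nat.card (Q ⧸ N) = Nat.card M := by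
    have h2 := Subgroup.card_eq_card_quotient_mul_card_subgroup N
    rw [← hcard, mul_comm] at h2
    exact (Nat.eq_of_mul_eq_mul_right Nat.card_pos h2).symm
  have hVK : ∀ K : Subgroup Q, K.Normal → K ≤ N → K = ⊥ ∨ K = N := by
    intro K hK hKN
    by_cases hKM : K ≤ M
    · exact Or.inl (hcoreN K hK hKM)
    · right
      refine le_antisymm hKN ?_
      have hsup' : K ⊔ M = ⊤ := by
        rw [sup_comm]
        exact hM.2 _ (left_lt_sup.2 hKM)
      intro w hw
      have h1 : w ∈ ((K ⊔ M : Subgroup Q) : Set Q) := by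
        rw [hsup']
        exact Set.mem_univ _
      rw [Subgroup.normal_mul] at h1
      obtain ⟨k, hk, m, hm, h⟩ := Set.mem_mul.1 h1
      have h2 : m ∈ N ⊓ M := by
        refine ⟨?_, hm⟩
        have h3 : m = k⁻¹ * w := by rw [← h]; group
        rw [h3]
        exact N.mul_mem (N.inv_mem (hKN hk)) hw
      rw [hinf, Subgroup.mem_bot] at h2
      rw [h2, mul_one] at h
      rw [← h]
      exact hk
  refine ⟨N, hN, hN0, hNab, ?_, hidx.symm, hVK, by rw [hQV]; exact h1⟩
  intro x hx
  obtain ⟨a, ha, m, hm, rfl⟩ := hdec x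
  have h2 : m = 1 := by
    refine hC m hm ?_
    intro y hy
    have h3 := hx y hy
    have h4 := hNab a ha y hy
    have h5 : a * (m * y) = a * (y * m) := by
      calc a * (m * y) = a * m * y := by rw [mul_assoc]
        _ = y * (a * m) := h3
        _ = (y * a) * m := by rw [mul_assoc]
        _ = (a * y) * m := by rw [h4]
        _ = _ := by rw [mul_assoc]
    exact mul_left_cancel h5
  rw [h2, mul_one]
  exact ha

/-- minimal normal abelian subgroups are elementary abelian -/
theorem min_prime {Q : Type u} [Group Q] [Finite Q] (V : Subgroup Q) (hVn : V.Normal)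
    (hV0 : V ≠ ⊥) (hVab : ∀ a ∈ V, ∀ b ∈ V, a * b = b * a)
    (hmin : ∀ K : Subgroup Q, K.Normal → K ≤ V → K = ⊥ ∨ K = V) :
    ∃ r d : ℕ, r.Prime ∧ 0 < d ∧ Nat.card V = r ^ d ∧ PF r ⊥ V := by
  have h1 : Nat.card V ≠ 1 := fun h => hV0 (Subgroup.card_eq_one.1 h)
  obtain ⟨r, hr, hrd⟩ := Nat.exists_prime_and_dvd h1
  haveI : Fact r.Prime := ⟨hr⟩
  let K : Subgroup Q :=
    { carrier := {x | x ∈ V ∧ x ^ r = 1}
      one_mem' := ⟨V.one_mem, one_pow r⟩
      mul_mem' := by
        rintro a b ⟨ha, ha'⟩ ⟨hb, hb'⟩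
        refine ⟨V.mul_mem ha hb, ?_⟩
        have hc : Commute a b := hVab a ha b hb
        rw [hc.mul_pow, ha', hb', one_mul]
      inv_mem' := by
        rintro a ⟨ha, ha'⟩
        exact ⟨V.inv_mem ha, by rw [inv_pow, ha', inv_one]⟩ }
  have hKV : K ≤ V := fun x hx => hx.1
  have hKn : K.Normal := by
    constructor
    rintro x ⟨hx, hx'⟩ g
    exact ⟨hVn.conj_mem x hx g, by rw [conj_pow, hx']; group⟩
  have hK : K = V := by
    rcases hmin K hKn hKV with h | h
    · exfalso
      obtain ⟨x, hx⟩ := exists_prime_orderOf_dvd_card' r hrd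
      have h2 : (x : Q) ∈ K := ⟨x.2, by
        have h3 := pow_orderOf_eq_one x
        rw [hx] at h3
        exact congrArg Subtype.val h3⟩
      rw [h, Subgroup.mem_bot] at h2
      have h3 : x = 1 := Subtype.ext h2
      rw [h3, orderOf_one] at hx
      exact hr.one_lt.ne hx
    · exact h
  have hPF : PF r ⊥ V := by
    intro x hx
    rw [← hK] at hx
    exact ⟨1, by rw [pow_one, Subgroup.mem_bot]; exact hx.2⟩
  obtain ⟨d, hd⟩ := IsPGroup.iff_card.1 (PF_bot_iff.1 hPF)
  refine ⟨r, d, hr, ?_, hd, hPF⟩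
  rcases Nat.eq_zero_or_pos d with h | h
  · rw [h, pow_zero] at hd
    exact absurd hd h1
  · exact h

/-- `p`-elements centralize small normal subgroups -/
lemma cent_of_card_le {G : Type u} [Group G] [Finite G] {p : ℕ} [hp : Fact p.Prime]
    (N : Subgroup G) (hN : N.Normal) (hc : Nat.card N ≤ p) (g : G) (k : ℕ)
    (hg : g ^ (p ^ k) = 1) : ∀ y ∈ N, g * y = y * g := by
  intro y hy
  by_contra hne
  have hy1 : y ≠ 1 := by
    rintro rfl
    simp at hne
  have hinj : ∀ i j : ℕ, i < j → j < p → g ^ i * y * (g ^ i)⁻¹ ≠ g ^ j * y * (g ^ j)⁻¹ := by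
    intro i j hij hj h
    have h1 : g ^ (j - i) * y = y * g ^ (j - i) := by
      have h2 : g ^ j = g ^ i * g ^ (j - i) := by rw [← pow_add]; congr 1; omega
      rw [h2] at h
      generalize g ^ (j - i) = a at h ⊢
      have h3 : y = a * y * a⁻¹ := by
        have h4 : (g ^ i)⁻¹ * (g ^ i * y * (g ^ i)⁻¹) * g ^ i =
            (g ^ i)⁻¹ * (g ^ i * a * y * (g ^ i * a)⁻¹) * g ^ i := by rw [h]
        have h5 : (g ^ i)⁻¹ * (g ^ i * y * (g ^ i)⁻¹) * g ^ i = y := by group
        have h6 : (g ^ i)⁻¹ * (g ^ i * a * y * (g ^ i * a)⁻¹) * g ^ i = a * y * a⁻¹ := by group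
        rw [h5, h6] at h4
        exact h4
      calc a * y = (a * y * a⁻¹) * a := by group
        _ = y * a := by rw [← h3]
    have h2 : (j - i).Coprime (orderOf g) := by
      have h3 : orderOf g ∣ p ^ k := orderOf_dvd_of_pow_eq_one hg
      refine Nat.Coprime.coprime_dvd_right h3 (Nat.Coprime.pow_right k ?_)
      rw [Nat.coprime_comm, Nat.Prime.coprime_iff_not_dvd hp.out]
      intro h4
      have := Nat.le_of_dvd (by omega) h4
      omega
    obtain ⟨m, hm⟩ := exists_pow_eq_self_of_coprime h2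
    have h3 : Commute (g ^ (j - i)) y := h1
    have h4 := h3.pow_left m
    rw [hm] at h4
    exact hne h4
  let f : Option (Fin p) → N := fun o => match o with
    | none => 1
    | some i => ⟨g ^ (i : ℕ) * y * (g ^ (i : ℕ))⁻¹, hN.conj_mem y hy _⟩
  have hf : Function.Injective f := by
    have key : ∀ i : Fin p, f (some i) ≠ f none := by
      intro i h
      have h1 : g ^ (i : ℕ) * y * (g ^ (i : ℕ))⁻¹ = 1 := congrArg Subtype.val h
      apply hy1
      have h2 : y = (g ^ (i : ℕ))⁻¹ * (g ^ (i : ℕ) * y * (g ^ (i : ℕ))⁻¹) * g ^ (i : ℕ) := by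
        group
      rw [h2, h1]; group
    intro a b hab
    cases a with
    | none =>
      cases b with
      | none => rfl
      | some j => exact absurd hab.symm (key j)
    | some i =>
      cases b with
      | none => exact absurd hab (key i)
      | some j =>
        have h1 : g ^ (i : ℕ) * y * (g ^ (i : ℕ))⁻¹ = g ^ (j : ℕ) * y * (g ^ (j : ℕ))⁻¹ :=
          congrArg Subtype.val hab
        rcases lt_trichotomy (i : ℕ) j with h | h | h
        · exact absurd h1 (hinj i j h j.2)
        · exact congrArg some (Fin.ext h)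
        · exact absurd h1.symm (hinj j i h i.2)
  have h1 := Nat.card_le_card_of_injective f hf
  rw [Finite.card_option, Nat.card_eq_fintype_card, Fintype.card_fin] at h1
  omega

/-- no normal `p`-subgroups modulo a self-centralizing minimal normal `p`-subgroup -/
lemma op_trivial {Q : Type u} [Group Q] [Finite Q] {p : ℕ} [hp : Fact p.Prime]
    (V : Subgroup Q) [hVn : V.Normal] (hV0 : V ≠ ⊥)
    (hCV : ∀ x, (∀ y ∈ V, x * y = y * x) → x ∈ V)
    (hmin : ∀ K : Subgroup Q, K.Normal → K ≤ V → K = ⊥ ∨ K = V) (hVp : PF p ⊥ V) :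
    ∀ X : Subgroup (Q ⧸ V), Inv ⊤ X → PF p ⊥ X → X = ⊥ := by
  intro X h1 h2
  have hπ1 : ∀ g, (QuotientGroup.mk' V) g = 1 ↔ g ∈ V := fun g => QuotientGroup.eq_one_iff g
  obtain ⟨P, hP⟩ : ∃ P : Subgroup Q, P = X.comap (QuotientGroup.mk' V) := ⟨_, rfl⟩
  have hPn : P.Normal := by
    apply inv_normal
    intro g _ x hx
    rw [hP, Subgroup.mem_comap] at hx ⊢
    rw [map_mul, map_mul, map_inv]
    exact h1 _ trivial _ hx
  have hPp : PF p ⊥ P := by
    refine hVp.trans ?_
    intro y hy
    rw [hP, Subgroup.mem_comap] at hy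
    obtain ⟨j, hj⟩ := h2 _ hy
    refine ⟨j, ?_⟩
    rwa [Subgroup.mem_bot, ← map_pow, hπ1] at hj
  have hPp' : IsPGroup p P := PF_bot_iff.1 hPp
  let _ : MulAction P V := MulAction.compHom V
    ((MulAut.conjNormal : Q →* MulAut V).comp P.subtype)
  have hact : ∀ (g : P) (v : V), ((g • v : V) : Q) = (g : Q) * v * (g : Q)⁻¹ := fun g v =>
    MulAut.conjNormal_apply (g : Q) v
  have hdvd : p ∣ Nat.card V := by
    have hVp' : IsPGroup p V := PF_bot_iff.1 hVp
    rcases hVp'.card_eq_or_dvd with h | h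
    · exact absurd (Subgroup.card_eq_one.1 h) hV0
    · exact h
  obtain ⟨b, hb, hb1⟩ := hPp'.exists_fixed_point_of_prime_dvd_card_of_fixed_point V hdvd
    (a := 1) (by
      intro g
      apply Subtype.ext
      rw [hact]
      simp)
  have hCn : (V ⊓ Subgroup.centralizer (P : Set Q)).Normal := by
    have : (Subgroup.centralizer (P : Set Q)).Normal := inferInstance
    infer_instance
  have hbC : (b : Q) ∈ V ⊓ Subgroup.centralizer (P : Set Q) := by
    refine ⟨b.2, ?_⟩
    refine Subgroup.mem_centralizer_iff.2 ?_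
    intro g hg
    have h3 := congrArg Subtype.val (hb ⟨g, hg⟩)
    rw [hact] at h3
    have h4 : g * (b : Q) * g⁻¹ = b := h3
    calc g * (b : Q) = (g * (b : Q) * g⁻¹) * g := by group
      _ = b * g := by rw [h4]
  have hCV' : V ⊓ Subgroup.centralizer (P : Set Q) = V := by
    rcases hmin _ hCn inf_le_left with h | h
    · exfalso
      rw [h, Subgroup.mem_bot] at hbC
      exact hb1 (Subtype.ext hbC.symm)
    · exact h
  have hPV : P ≤ V := by
    intro g hg
    apply hCV
    intro y hy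
    rw [← hCV'] at hy
    exact Subgroup.mem_centralizer_iff.1 hy.2 g hg
  rw [eq_bot_iff]
  intro y hy
  obtain ⟨y, rfl⟩ := QuotientGroup.mk'_surjective V y
  rw [Subgroup.mem_bot, hπ1]
  exact hPV (by rw [hP]; exact hy)

end Pool.Agent.R683.Prim
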