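import Pool.Agent.Helper407.PLHH

/-!
# Series with a bounded number of `p'`-factors
-/

set_option autoImplicit false

namespace Pool.Agent.R683.Q

open Pool.Agent.Helper407.PL

/-- N/K has a series (N-invariant, from K to N) with at most n p'-factors -/
def RLq {G : Type*} [Group G] (p n : ℕ) (K N : Subgroup G) : Prop :=
  ∃ S : ℕ → Subgroup G, S 0 = K ∧ S (2 * n + 1) = N ∧ (∀ i, Inv N (S i)) ∧
    (∀ i, S i ≤ S (i + 1)) ∧ (∀ i ≤ n, PF p (S (2 * i)) (S (2 * i + 1))) ∧
    (∀ i < n, PF' p (S (2 * i + 1)) (S (2 * i + 2)))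

section RLqLemmas
variable {G : Type*} [Group G] {p : ℕ}

lemma RLq.le {n : ℕ} {K N : Subgroup G} (h : RLq p n K N) : K ≤ N := by
  obtain ⟨S, h0, h1, -, h2, -, -⟩ := h
  rw [← h0, ← h1]
  exact chain_le h2 (Nat.zero_le _)

lemma RLq.inv {n : ℕ} {K N : Subgroup G} (h : RLq p n K N) : Inv N K := by
  obtain ⟨S, h0, h1, h3, -, -, -⟩ := h
  rw [← h0]; exact h3 0

lemma RLq.refl (n : ℕ) (N : Subgroup G) : RLq p n N N :=
  ⟨fun _ => N, rfl, rfl, fun _ => Inv.self N, fun _ => le_rfl, fun _ _ => PF.refl _,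
    fun _ _ => PF'.refl _⟩

/-- enlarge K -/
lemma RLq.enlarge {n : ℕ} {K K' N : Subgroup G} (h : RLq p n K N) (hK : K ≤ K') (hK' : K' ≤ N)
    (hi : Inv N K') : RLq p n K' N := by
  obtain ⟨S, h0, h1, h2, h3, h4, h5⟩ := h
  have hS : ∀ i ≤ 2 * n + 1, S i ≤ N := fun i hi => h1 ▸ chain_le h3 hi
  refine ⟨fun i => S i ⊔ K', ?_, ?_, fun i => (h2 i).sup hi,
    fun i => sup_le_sup_right (h3 i) _, ?_, ?_⟩
  · simp only [h0]; exact sup_eq_right.2 hK
  · simp only [h1]; exact sup_eq_left.2 hK'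
  · intro i hi'
    exact (h4 i hi').sup (hS _ (by omega)) hi
  · intro i hi'
    exact (h5 i hi').sup (hS _ (by omega)) hi

/-- restrict N -/
lemma RLq.restrict {n : ℕ} {K N N' : Subgroup G} (h : RLq p n K N) (hN : N' ≤ N) :
    RLq p n (K ⊓ N') N' := by
  obtain ⟨S, h0, h1, h2, h3, h4, h5⟩ := h
  refine ⟨fun i => S i ⊓ N', by simp only [h0], ?_, fun i => ((h2 i).mono hN).inf (Inv.self N'),
    fun i => inf_le_inf_right _ (h3 i), ?_, ?_⟩
  · simp only [h1]; exact inf_eq_right.2 hN
  · intro i hi'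
    exact (h4 i hi').inf (PF.refl _)
  · intro i hi'
    exact (h5 i hi').inf (PF'.refl _)

lemma RLq.inf {n : ℕ} {K K' N : Subgroup G} (h : RLq p n K N) (h' : RLq p n K' N) :
    RLq p n (K ⊓ K') N := by
  obtain ⟨S, h0, h1, h2, h3, h4, h5⟩ := h
  obtain ⟨S', h0', h1', h2', h3', h4', h5'⟩ := h'
  refine ⟨fun i => S i ⊓ S' i, by simp only [h0, h0'], ?_, fun i => (h2 i).inf (h2' i),
    fun i => inf_le_inf (h3 i) (h3' i), ?_, ?_⟩
  · simp only [h1, h1']; exact inf_idem _
  · intro i hi'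
    exact (h4 i hi').inf (h4' i hi')
  · intro i hi'
    exact (h5 i hi').inf (h5' i hi')

lemma RLq.succ {n : ℕ} {K N : Subgroup G} (h : RLq p n K N) : RLq p (n + 1) K N := by
  obtain ⟨S, h0, h1, h2, h3, h4, h5⟩ := h
  refine ⟨fun i => if i ≤ 2 * n + 1 then S i else N, by simp [h0], ?_, ?_, ?_, ?_, ?_⟩
  · simp
  · intro i
    dsimp only
    split_ifs
    · exact h2 i
    · exact Inv.self N
  · intro i
    dsimp only
    split_ifs with ha hb
    · exact h3 i
    · have : i = 2 * n + 1 := by omega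
      rw [this, h1]
    · omega
    · exact le_rfl
  · intro i hi
    dsimp only
    by_cases hin : i ≤ n
    · rw [if_pos (by omega), if_pos (by omega)]; exact h4 i hin
    · rw [if_neg (by omega), if_neg (by omega)]; exact PF.refl _
  · intro i hi
    dsimp only
    by_cases hin : i < n
    · rw [if_pos (by omega), if_pos (by omega)]; exact h5 i hin
    · have : i = n := by omega
      subst this
      rw [if_pos (by omega), if_neg (by omega), h1]; exact PF'.refl _

lemma RLq.mono_n {n m : ℕ} {K N : Subgroup G} (h : RLq p n K N) (hnm : n ≤ m) : RLq p m K N := by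
  induction hnm with
  | refl => exact h
  | step _ ih => exact ih.succ

lemma RLq.map {H : Type*} [Group H] (f : G →* H) {n : ℕ} {K N : Subgroup G} (h : RLq p n K N) :
    RLq p n (K.map f) (N.map f) := by
  obtain ⟨S, h0, h1, h2, h3, h4, h5⟩ := h
  refine ⟨fun i => (S i).map f, by simp only [h0], by simp only [h1], ?_, ?_, ?_, ?_⟩
  · rintro i _ ⟨g, hg, rfl⟩ _ ⟨x, hx, rfl⟩
    exact ⟨g * x * g⁻¹, h2 i g hg x hx, by simp⟩
  · intro i; exact Subgroup.map_mono (h3 i)
  · rintro i hi _ ⟨x, hx, rfl⟩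
    obtain ⟨m, hm'⟩ := h4 i hi x hx
    exact ⟨m, x ^ (p ^ m), hm', by simp⟩
  · rintro i hi _ ⟨x, hx, rfl⟩
    obtain ⟨m, hm, hm'⟩ := h5 i hi x hx
    exact ⟨m, hm, x ^ m, hm', by simp⟩

lemma RLq.comap {H : Type*} [Group H] (f : G →* H) {n : ℕ} {K N : Subgroup H} (h : RLq p n K N) :
    RLq p n (K.comap f) (N.comap f) := by
  obtain ⟨S, h0, h1, h2, h3, h4, h5⟩ := h
  refine ⟨fun i => (S i).comap f, by simp only [h0], by simp only [h1], ?_, ?_, ?_, ?_⟩
  · rintro i g hg x hx
    simp only [Subgroup.mem_comap, map_mul, map_inv] at hx ⊢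
    exact h2 i _ hg _ hx
  · intro i; exact Subgroup.comap_mono (h3 i)
  · rintro i hi x hx
    obtain ⟨m, hm'⟩ := h4 i hi (f x) hx
    exact ⟨m, by simpa using hm'⟩
  · rintro i hi x hx
    obtain ⟨m, hm, hm'⟩ := h5 i hi (f x) hx
    exact ⟨m, hm, by simpa using hm'⟩

end RLqLemmas

section Ext
variable {G : Type*} [Group G] [Finite G] {p : ℕ}

/-- make a series invariant under a bigger group -/
lemma RLq.coreN {n : ℕ} {K N N1 : Subgroup G} (h : RLq p n K N1)
    (hK : Inv N K) (hN1 : Inv N N1) :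
    ∃ S : ℕ → Subgroup G, S 0 = K ∧ S (2 * n + 1) = N1 ∧ (∀ i, Inv N (S i)) ∧
    (∀ i, S i ≤ S (i + 1)) ∧ (∀ i ≤ n, PF p (S (2 * i)) (S (2 * i + 1))) ∧
    (∀ i < n, PF' p (S (2 * i + 1)) (S (2 * i + 2))) := by
  obtain ⟨S, h0, h1, h2, h3, h4, h5⟩ := h
  refine ⟨fun i => Pool.Agent.Helper407.PL.core N (S i), ?_, ?_, fun i => core_inv N _, fun i => core_mono (h3 i),
    fun i hi => (h4 i hi).core, fun i hi => (h5 i hi).core⟩
  · simp only [h0]; exact core_eq hK
  · simp only [h1]; exact core_eq hN1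

/-- extension lemma -/
lemma RLq.trans {b c : ℕ} {K N N1 : Subgroup G} (h : RLq p b K N1) (h' : RLq p c N1 N)
    (hK : Inv N K) : RLq p (b + c) K N := by
  obtain ⟨S, h0, h1, h2, h3, h4, h5⟩ := h.coreN hK h'.inv
  obtain ⟨T, t0, t1, t2, t3, t4, t5⟩ := h'
  refine ⟨fun i => if i ≤ 2 * b then S i else T (i - 2 * b), ?_, ?_, ?_, ?_, ?_, ?_⟩
  · simp [h0]
  · dsimp only
    rw [if_neg (by omega), ← t1]; congr 1; omega
  · intro i; dsimp only; split_ifs
    · exact h2 i
    · exact t2 _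
  · intro i; dsimp only
    split_ifs with ha hb
    · exact h3 i
    · have e1 : i = 2 * b := by omega
      have e2 : i + 1 - 2 * b = 0 + 1 := by omega
      rw [e1, show 2 * b + 1 - 2 * b = 0 + 1 by omega]
      exact (h3 (2 * b)).trans (h1 ▸ t0 ▸ t3 0)
    · omega
    · have e2 : i + 1 - 2 * b = (i - 2 * b) + 1 := by omega
      rw [e2]; exact t3 _
  · intro i hi; dsimp only
    by_cases h6 : i < b
    · rw [if_pos (by omega), if_pos (by omega)]; exact h4 i h6.le
    · by_cases h7 : i = b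
      · subst h7
        rw [if_pos (by omega), if_neg (by omega), show 2 * i + 1 - 2 * i = 1 by omega]
        have h8 := h4 i le_rfl
        rw [h1, ← t0] at h8
        exact h8.trans (by simpa using t4 0 (by omega))
      · rw [if_neg (by omega), if_neg (by omega)]
        have e1 : 2 * i - 2 * b = 2 * (i - b) := by omega
        have e2 : 2 * i + 1 - 2 * b = 2 * (i - b) + 1 := by omega
        rw [e1, e2]; exact t4 _ (by omega)
  · intro i hi; dsimp only
    by_cases h6 : i < b
    · rw [if_pos (by omega), if_pos (by omega)]; exact h5 i h6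
    · rw [if_neg (by omega), if_neg (by omega)]
      have e1 : 2 * i + 1 - 2 * b = 2 * (i - b) + 1 := by omega
      have e2 : 2 * i + 2 - 2 * b = 2 * (i - b) + 2 := by omega
      rw [e1, e2]; exact t5 _ (by omega)

omit [Finite G] in
lemma RLq.of_PF {K N : Subgroup G} (n : ℕ) (h : PF p K N) (hle : K ≤ N) (hi : Inv N K) :
    RLq p n K N := by
  refine ⟨fun i => if i = 0 then K else N, by simp, by simp, ?_, ?_, ?_, ?_⟩
  · intro i; dsimp only; split_ifs
    · exact hi
    · exact Inv.self N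
  · rintro (_ | i)
    · simpa using hle
    · simp
  · rintro (_ | i) _
    · simpa using h
    · simpa using PF.refl N
  · intro i _; dsimp only
    rw [if_neg (by omega), if_neg (by omega)]; exact PF'.refl _

omit [Finite G] in
lemma RLq.of_PF' {K N : Subgroup G} (h : PF' p K N) (hle : K ≤ N) (hi : Inv N K) :
    RLq p 1 K N := by
  refine ⟨fun i => if i ≤ 1 then K else N, by simp, by simp, ?_, ?_, ?_, ?_⟩
  · intro i; dsimp only; split_ifs
    · exact hi
    · exact Inv.self N
  · intro i; dsimp only; split_ifs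
    · exact le_rfl
    · exact hle
    · omega
    · exact le_rfl
  · intro i _; dsimp only; split_ifs
    · exact PF.refl _
    · have : i = 0 := by omega
      omega
    · omega
    · exact PF.refl _
  · intro i hi'; dsimp only
    have : i = 0 := by omega
    subst this
    rw [if_pos (by omega), if_neg (by omega)]; exact h

end Ext

/-- comparison -/
lemma RLq_of_RLp {G : Type*} [Group G] [Finite G] {p n : ℕ} {K N : Subgroup G}
    (h : RLp p n K N) : RLq p (n + 1) K N := by
  obtain ⟨S, h0, h1, h2, h3, h4, h5⟩ := h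
  have hle : ∀ i ≤ 2 * n + 1, S i ≤ N := fun i hi => h1 ▸ chain_le h3 hi
  have key : ∀ i ≤ n, RLq p (i + 1) K (S (2 * i + 1)) := by
    intro i
    induction i with
    | zero =>
      intro hi
      have h6 := h4 0 hi
      rw [Nat.mul_zero, h0] at h6
      have h7 : K ≤ S 1 := h0 ▸ h3 0
      exact RLq.of_PF' h6 h7 (h0 ▸ (h2 0).mono (hle 1 (by omega)))
    | succ i ih =>
      intro hi
      have ha := ih (by omega)
      have hb : RLq p 0 (S (2 * i + 1)) (S (2 * i + 2)) :=
        RLq.of_PF 0 (h5 i (by omega)) (h3 _) ((h2 _).mono (hle _ (by omega)))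
      have hc : RLq p 1 (S (2 * (i + 1))) (S (2 * (i + 1) + 1)) :=
        RLq.of_PF' (h4 (i + 1) hi) (h3 _) ((h2 _).mono (hle _ (by omega)))
      have hd := hb.trans hc ((h2 _).mono (hle _ (by omega)))
      have he := ha.trans hd (h0 ▸ (h2 0).mono (hle _ (by omega)))
      refine he.mono_n (by omega)
  have := key n le_rfl
  rwa [h1] at this

/-- comparison -/
lemma RLp_of_RLq {G : Type*} [Group G] [Finite G] {p n : ℕ} {K N : Subgroup G}
    (h : RLq p n K N) : RLp p (n + 1) K N := by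
  obtain ⟨S, h0, h1, h2, h3, h4, h5⟩ := h
  have hle : ∀ i ≤ 2 * n + 1, S i ≤ N := fun i hi => h1 ▸ chain_le h3 hi
  have key : ∀ i ≤ n, RLp p (i + 1) K (S (2 * i + 1)) := by
    intro i
    induction i with
    | zero =>
      intro hi
      have h6 := h4 0 hi
      rw [Nat.mul_zero, h0] at h6
      have h7 : K ≤ S 1 := h0 ▸ h3 0
      exact RLp.of_PF h6 h7 (h0 ▸ (h2 0).mono (hle 1 (by omega)))
    | succ i ih =>
      intro hi
      have ha := ih (by omega)
      have hb : RLp p 0 (S (2 * i + 1)) (S (2 * i + 2)) :=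
        RLp.of_PF' 0 (h5 i (by omega)) (h3 _) ((h2 _).mono (hle _ (by omega)))
      have hc : RLp p 1 (S (2 * (i + 1))) (S (2 * (i + 1) + 1)) :=
        RLp.of_PF (h4 (i + 1) hi) (h3 _) ((h2 _).mono (hle _ (by omega)))
      have hd := hb.trans hc ((h2 _).mono (hle _ (by omega)))
      have he := ha.trans hd (h0 ▸ (h2 0).mono (hle _ (by omega)))
      refine he.mono_n (by omega)
  have := key n le_rfl
  rwa [h1] at this

end Pool.Agent.R683.Q
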