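import Pool.Agent.R683.OrdE
import Pool.Agent.R683.CritC

/-!
# The order of a solvable group of given `p`-length
-/

set_option autoImplicit false

namespace Pool.Agent.R683.Rec

open Pool.Agent.Helper407.PL Pool.Agent.R683.Crit Pool.Agent.R683.Ord

universe u

variable {p : ℕ} [hp : Fact p.Prime]

lemma card_step {g m d y : ℕ} (hm : 0 < m) (hg : g = y * m) (hd : d ≤ m)
    (h : g ^ 5 ≤ d ^ 5 * m ^ 12) : y ^ 17 ≤ g ^ 12 := by
  have h1 : y ^ 5 ≤ m ^ 12 := by
    have h2 : y ^ 5 * m ^ 5 ≤ m ^ 12 * m ^ 5 := by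
      calc y ^ 5 * m ^ 5 = g ^ 5 := by rw [hg, mul_pow]
        _ ≤ d ^ 5 * m ^ 12 := h
        _ ≤ m ^ 5 * m ^ 12 := Nat.mul_le_mul_right _ (Nat.pow_le_pow_left hd 5)
        _ = _ := mul_comm _ _
    exact Nat.le_of_mul_le_mul_right h2 (by positivity)
  calc y ^ 17 = y ^ 5 * y ^ 12 := by ring
    _ ≤ m ^ 12 * y ^ 12 := Nat.mul_le_mul_right _ h1
    _ = g ^ 12 := by rw [hg]; ring

/-- the quotient by the largest normal `p`-subgroup -/
lemma step_p {G : Type u} [Group G] [Finite G] [Group.IsSolvable G] (P : Subgroup G)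
    (hPn : P.Normal) (hPp : PF p ⊥ P) (hPmax : ∀ X : Subgroup G, Inv ⊤ X → PF p ⊥ X → X ≤ P)
    (hC : ∀ x, (∀ y ∈ P, x * y = y * x) → x ∈ P) :
    Nat.card (G ⧸ P) ^ 17 ≤ Nat.card G ^ 12 := by
  obtain ⟨D, hDn, hDc, hDk⟩ := self_centralizing P hPn hC
  have hDP : D ≤ P := by
    refine hPmax D (inv_top hDn) ?_
    intro d hd
    obtain ⟨k, hk⟩ := hDk d hd
    obtain ⟨a, ha⟩ := IsPGroup.iff_card.1 (PF_bot_iff.1 hPp)
    refine ⟨a * k, ?_⟩
    rw [Subgroup.mem_bot, pow_mul, ← ha]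
    exact hk
  exact card_step Nat.card_pos (Subgroup.card_eq_card_quotient_mul_card_subgroup P)
    (Subgroup.card_le_of_le hDP) hDc

/-- the quotient by the largest normal `p'`-subgroup -/
lemma step_p' {G : Type u} [Group G] [Finite G] [Group.IsSolvable G] (K : Subgroup G)
    (hKn : K.Normal) (hKp : PF' p ⊥ K) (hKmax : ∀ X : Subgroup G, Inv ⊤ X → PF' p ⊥ X → X ≤ K)
    (hC : ∀ x, (∀ y ∈ K, x * y = y * x) → x ∈ K) :
    Nat.card (G ⧸ K) ^ 17 ≤ Nat.card G ^ 12 := by
  obtain ⟨D, hDn, hDc, hDk⟩ := self_centralizing K hKn hC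
  have hDP : D ≤ K := by
    refine hKmax D (inv_top hDn) ?_
    intro d hd
    obtain ⟨k, hk⟩ := hDk d hd
    refine ⟨Nat.card K ^ k, Nat.Coprime.pow_left k (PF'_bot_iff.1 hKp), ?_⟩
    rw [Subgroup.mem_bot]
    exact hk
  exact card_step Nat.card_pos (Subgroup.card_eq_card_quotient_mul_card_subgroup K)
    (Subgroup.card_le_of_le hDP) hDc

lemma log_step {a b : ℕ} (ha : 0 < a) (hb : 0 < b) (h : a ^ 17 ≤ b ^ 12) :
    (17 / 12 : ℝ) * Real.logb 2 a ≤ Real.logb 2 b := by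
  have h1 : ((a : ℝ)) ^ 17 ≤ (b : ℝ) ^ 12 := by exact_mod_cast h
  have ha' : (0 : ℝ) < a := by exact_mod_cast ha
  have hb' : (0 : ℝ) < b := by exact_mod_cast hb
  have h2 := Real.logb_le_logb_of_le (b := 2) (by norm_num) (by positivity) h1
  rw [Real.logb_pow, Real.logb_pow] at h2
  push_cast at h2
  linarith

/-- the quotient of a `p`-solvable group by the largest normal `p'`-subgroup -/
lemma exists_opp {G : Type u} [Group G] [Finite G] :
    ∃ K : Subgroup G, K.Normal ∧ PF' p ⊥ K ∧ (∀ X : Subgroup G, Inv ⊤ X → PF' p ⊥ X → X ≤ K) := by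
  obtain ⟨K₀, ⟨hK₀i, hK₀p⟩, hK₀max⟩ := exists_largest'
    (fun X : Subgroup G => Inv ⊤ X ∧ PF' p ⊥ X) ⟨⊥, Inv.bot _, PF'.refl _⟩
    (fun X Y hX hY => ⟨hX.1.sup hY.1, PF'_sup_bot hX.1 bot_le bot_le hX.2 hY.2⟩)
  exact ⟨K₀, inv_normal hK₀i, hK₀p, fun X h1 h2 => hK₀max X ⟨h1, h2⟩⟩

lemma exists_op {G : Type u} [Group G] [Finite G] :
    ∃ K : Subgroup G, K.Normal ∧ PF p ⊥ K ∧ (∀ X : Subgroup G, Inv ⊤ X → PF p ⊥ X → X ≤ K) := by
  obtain ⟨K₀, ⟨hK₀i, hK₀p⟩, hK₀max⟩ := exists_largest'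
    (fun X : Subgroup G => Inv ⊤ X ∧ PF p ⊥ X) ⟨⊥, Inv.bot _, PF.refl _⟩
    (fun X Y hX hY => ⟨hX.1.sup hY.1, PF_sup_bot hX.1 bot_le bot_le hX.2 hY.2⟩)
  exact ⟨K₀, inv_normal hK₀i, hK₀p, fun X h1 h2 => hK₀max X ⟨h1, h2⟩⟩

/-- the quotient by the largest normal `p'`-subgroup has no normal `p'`-subgroup -/
lemma quot_opp {G : Type u} [Group G] {K : Subgroup G} [hKn : K.Normal] (hKp : PF' p ⊥ K)
    (hKmax : ∀ X : Subgroup G, Inv ⊤ X → PF' p ⊥ X → X ≤ K) :
    ∀ X : Subgroup (G ⧸ K), Inv ⊤ X → PF' p ⊥ X → X = ⊥ := by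
  intro X h1 h2
  have hπ1 : ∀ g, (QuotientGroup.mk' K) g = 1 ↔ g ∈ K := fun g => QuotientGroup.eq_one_iff g
  have h3 : X.comap (QuotientGroup.mk' K) ≤ K := by
    refine hKmax _ ?_ ?_
    · intro g _ x hx
      rw [Subgroup.mem_comap, map_mul, map_mul, map_inv]
      exact h1 _ trivial _ hx
    · refine hKp.trans ?_
      intro y hy
      obtain ⟨j, hj, hj'⟩ := h2 _ hy
      refine ⟨j, hj, ?_⟩
      rwa [Subgroup.mem_bot, ← map_pow, hπ1] at hj'
  rw [eq_bot_iff]
  intro y hy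
  obtain ⟨y, rfl⟩ := QuotientGroup.mk'_surjective K y
  rw [Subgroup.mem_bot, hπ1]
  exact h3 hy

lemma quot_op {G : Type u} [Group G] {K : Subgroup G} [hKn : K.Normal] (hKp : PF p ⊥ K)
    (hKmax : ∀ X : Subgroup G, Inv ⊤ X → PF p ⊥ X → X ≤ K) :
    ∀ X : Subgroup (G ⧸ K), Inv ⊤ X → PF p ⊥ X → X = ⊥ := by
  intro X h1 h2
  have hπ1 : ∀ g, (QuotientGroup.mk' K) g = 1 ↔ g ∈ K := fun g => QuotientGroup.eq_one_iff g
  have h3 : X.comap (QuotientGroup.mk' K) ≤ K := by
    refine hKmax _ ?_ ?_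
    · intro g _ x hx
      rw [Subgroup.mem_comap, map_mul, map_mul, map_inv]
      exact h1 _ trivial _ hx
    · refine hKp.trans ?_
      intro y hy
      obtain ⟨j, hj⟩ := h2 _ hy
      refine ⟨j, ?_⟩
      rwa [Subgroup.mem_bot, ← map_pow, hπ1] at hj
  rw [eq_bot_iff]
  intro y hy
  obtain ⟨y, rfl⟩ := QuotientGroup.mk'_surjective K y
  rw [Subgroup.mem_bot, hπ1]
  exact h3 hy

/-- quotients of `p`-solvable groups -/
lemma quot_ps {G : Type u} [Group G] (K : Subgroup G) [K.Normal]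
    (h : ∃ N, RLp p N (⊥ : Subgroup G) ⊤) : ∃ N, RLp p N (⊥ : Subgroup (G ⧸ K)) ⊤ := by
  obtain ⟨N, hN⟩ := h
  refine ⟨N, ?_⟩
  have h1 := rlp_to_quot K ⊤ hN
  rwa [Subgroup.map_top_of_surjective _ (QuotientGroup.mk'_surjective K)] at h1

lemma not_rlp_quot_p' {G : Type u} [Group G] [Finite G] {n : ℕ} {K : Subgroup G} [K.Normal]
    (hKp : PF' p ⊥ K) (hn : ¬ RLp p n (⊥ : Subgroup G) ⊤) :
    ¬ RLp p n (⊥ : Subgroup (G ⧸ K)) ⊤ := by
  intro h
  have hK0 : RLp p 0 (⊥ : Subgroup G) K := RLp.of_PF' 0 hKp bot_le (Inv.bot _)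
  have h1 := hK0.trans (rlp_quot K h) (Inv.bot _)
  rw [Nat.zero_add] at h1
  exact hn h1

lemma not_rlp_quot_p {G : Type u} [Group G] [Finite G] {n : ℕ} {K : Subgroup G} [K.Normal]
    (hKp : PF p ⊥ K) (hn : ¬ RLp p (n + 1) (⊥ : Subgroup G) ⊤) :
    ¬ RLp p n (⊥ : Subgroup (G ⧸ K)) ⊤ := by
  intro h
  have hK0 : RLp p 1 (⊥ : Subgroup G) K := RLp.of_PF hKp bot_le (Inv.bot _)
  have h1 := hK0.trans (rlp_quot K h) (Inv.bot _)
  rw [Nat.add_comm] at h1
  exact hn h1

/-- a solvable group has the series -/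
lemma ps_of_solvable {G : Type u} [Group G] [Finite G] [Group.IsSolvable G] :
    ∃ N, RLp p N (⊥ : Subgroup G) ⊤ := by
  -- abelian sections
  have hab : ∀ A B : Subgroup G, A.Normal → B.Normal → A ≤ B →
      (∀ a ∈ B, ∀ b ∈ B, a * b * a⁻¹ * b⁻¹ ∈ A) → RLp p 1 A B := by
    intro A B hA hB hAB hcomm
    -- the elements of p-power order modulo A
    let C : Subgroup G :=
      { carrier := {x | x ∈ B ∧ ∃ m : ℕ, m.Coprime p ∧ x ^ m ∈ A}
        one_mem' := ⟨B.one_mem, 1, Nat.coprime_one_left p, by simp⟩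
        mul_mem' := by
          rintro x y ⟨hx, m, hm, hm'⟩ ⟨hy, l, hl, hl'⟩
          refine ⟨B.mul_mem hx hy, m * l, Nat.Coprime.mul_left hm hl, ?_⟩
          have key : ∀ n : ℕ, (QuotientGroup.mk' A) ((x * y) ^ n) =
              (QuotientGroup.mk' A) (x ^ n * y ^ n) := by
            intro n
            have hc : Commute ((QuotientGroup.mk' A) x) ((QuotientGroup.mk' A) y) := by
              have h1 : (QuotientGroup.mk' A) (x * y * x⁻¹ * y⁻¹) = 1 :=
                (QuotientGroup.eq_one_iff _).2 (hcomm x hx y hy)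
              rw [map_mul, map_mul, map_mul, map_inv, map_inv] at h1
              show _ * _ = _ * _
              calc (QuotientGroup.mk' A) x * (QuotientGroup.mk' A) y
                  = ((QuotientGroup.mk' A) x * (QuotientGroup.mk' A) y *
                    ((QuotientGroup.mk' A) x)⁻¹ * ((QuotientGroup.mk' A) y)⁻¹) *
                    ((QuotientGroup.mk' A) y * (QuotientGroup.mk' A) x) := by group
                _ = _ := by rw [h1, one_mul]
            rw [map_pow, map_mul, map_mul, map_pow, map_pow]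
            exact hc.mul_pow n
          have h2 : x ^ (m * l) * y ^ (m * l) ∈ A := by
            refine A.mul_mem ?_ ?_
            · rw [pow_mul]; exact A.pow_mem hm' _
            · rw [mul_comm m l, pow_mul]; exact A.pow_mem hl' _
          have h3 := key (m * l)
          have h4 : (QuotientGroup.mk' A) (x ^ (m * l) * y ^ (m * l)) = 1 :=
            (QuotientGroup.eq_one_iff _).2 h2
          rw [h4] at h3
          exact (QuotientGroup.eq_one_iff _).1 h3
        inv_mem' := by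
          rintro x ⟨hx, m, hm, hm'⟩
          exact ⟨B.inv_mem hx, m, hm, by rw [inv_pow]; exact A.inv_mem hm'⟩ }
    have hCB : C ≤ B := fun x hx => hx.1
    have hAC : A ≤ C := fun x hx => ⟨hAB hx, 1, Nat.coprime_one_left p, by simpa using hx⟩
    have hCn : C.Normal := by
      constructor
      rintro x ⟨hx, m, hm, hm'⟩ g
      refine ⟨hB.conj_mem x hx g, m, hm, ?_⟩
      rw [conj_pow]
      exact hA.conj_mem _ hm' g
    have h1 : RLp p 0 A C := RLp.of_PF' 0 (fun x hx => hx.2) hAC (Inv.of_normal _ _)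
    have h2 : RLp p 1 C B := by
      refine RLp.of_PF ?_ hCB (Inv.of_normal _ _)
      intro x hx
      -- write the order as p^k * m
      obtain ⟨k, m, hm, hkm⟩ := Nat.exists_eq_pow_mul_and_not_dvd
        (n := orderOf x) (isOfFinOrder_of_finite x).orderOf_pos.ne' p hp.out.ne_one
      refine ⟨k, B.pow_mem hx _, m, ?_, ?_⟩
      · rw [Nat.coprime_comm]
        exact (Nat.Prime.coprime_iff_not_dvd hp.out).2 hm
      · rw [← pow_mul, ← hkm, pow_orderOf_eq_one]
        exact A.one_mem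
    have h3 := h1.trans h2 (Inv.of_normal _ _)
    rwa [Nat.zero_add] at h3
  have key : ∀ k : ℕ, RLp p k (derivedSeries G k) ⊤ := by
    intro k
    induction k with
    | zero => rw [derivedSeries_zero]; exact RLp.refl _ _
    | succ k ih =>
      have h1 := hab (derivedSeries G (k + 1)) (derivedSeries G k) (derivedSeries_normal G _)
        (derivedSeries_normal G _) (derivedSeries_antitone G (Nat.le_succ k)) (by
          intro a ha b hb
          rw [derivedSeries_succ]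
          exact Subgroup.commutator_mem_commutator ha hb)
      have h2 := h1.trans ih (by
        have := derivedSeries_normal G (k + 1)
        exact Inv.of_normal _ _)
      rwa [Nat.add_comm] at h2
  obtain ⟨n, hn⟩ := (Group.IsSolvable.solvable (G := G))
  refine ⟨n, ?_⟩
  have := key n
  rwa [hn] at this

/-- the lower bound for the order -/
theorem order_bound (n : ℕ) : ∀ (G : Type u) [Group G] [Finite G] [Group.IsSolvable G],
    (∀ X : Subgroup G, Inv ⊤ X → PF' p ⊥ X → X = ⊥) → ¬ RLp p n (⊥ : Subgroup G) ⊤ →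
    (289 / 144 : ℝ) ^ n ≤ Real.logb 2 (Nat.card G) := by
  induction n with
  | zero =>
    intro G _ _ _ _ hn
    have h1 : 1 < Nat.card G := by
      by_contra hcon
      apply hn
      have h2 : Nat.card G = 1 := by
        have : 0 < Nat.card G := Nat.card_pos
        omega
      have h3 : Subsingleton G := (Nat.card_eq_one_iff_unique.1 h2).1
      have h4 : (⊤ : Subgroup G) = ⊥ := Subsingleton.elim _ _
      rw [h4]
      exact RLp.refl _ _
    rw [pow_zero]
    have h2 : (2 : ℝ) ≤ Nat.card G := by exact_mod_cast h1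
    calc (1 : ℝ) = Real.logb 2 2 := (Real.logb_self_eq_one (by norm_num)).symm
      _ ≤ _ := Real.logb_le_logb_of_le (by norm_num) (by norm_num) h2
  | succ n ih =>
    intro G _ _ _ hO hn
    obtain ⟨P, hPn, hPp, hPmax⟩ := exists_op (p := p) (G := G)
    have hCP := HH2 (p := p) ps_of_solvable P (inv_top hPn) hPp hPmax hO
    have h1 := step_p P hPn hPp hPmax hCP
    obtain ⟨K, hKn, hKp, hKmax⟩ := exists_opp (p := p) (G := G ⧸ P)
    have hCK := HH1 (p := p) (ps_of_solvable (G := G ⧸ P)) K (inv_top hKn) hKp hKmax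
      (quot_op hPp hPmax)
    have h2 := step_p' K hKn hKp hKmax hCK
    have h3 := not_rlp_quot_p' (K := K) hKp (not_rlp_quot_p (K := P) hPp hn)
    have h4 := ih ((G ⧸ P) ⧸ K) (quot_opp hKp hKmax) h3
    have h5 := log_step Nat.card_pos Nat.card_pos h1
    have h6 := log_step Nat.card_pos Nat.card_pos h2
    have h7 : (289 / 144 : ℝ) ^ (n + 1) = 17 / 12 * (17 / 12 * (289 / 144 : ℝ) ^ n) := by
      rw [pow_succ]; ring
    rw [h7]
    linarith

end Pool.Agent.R683.Rec
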